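import Pool.Agent.ShghT.MainT

/-!
# The theorems for any nine of the points
-/

namespace ShghT

open MvPolynomial

/-- An enumeration of `Fin s` starting with nine given elements. -/
theorem exists_enum {s : ℕ} (c : Fin 9 → Fin s) (hc : Function.Injective c) :
    ∃ (r : ℕ) (σ : Fin (9 + r) ≃ Fin s), ∀ l, σ (Fin.castAdd r l) = c l := by
  classical
  have hcard : (Finset.univ \ Finset.univ.image c).card + 9 = s := by
    have h1 : (Finset.univ.image c).card = 9 := by
      rw [Finset.card_image_of_injective _ hc]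
      simp
    have h2 := Finset.card_sdiff_add_card_eq_card (Finset.subset_univ (Finset.univ.image c))
    rw [h1] at h2
    simpa using h2
  set r := (Finset.univ \ Finset.univ.image c).card with hr
  let g : Fin r → Fin s := fun i => ((Finset.univ \ Finset.univ.image c).equivFin.symm i : _)
  have hg : Function.Injective g := by
    intro i j hij
    have : (Finset.univ \ Finset.univ.image c).equivFin.symm i =
      (Finset.univ \ Finset.univ.image c).equivFin.symm j := Subtype.ext hij
    exact (Equiv.injective _) this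
  have hgc : ∀ i l, g i ≠ c l := by
    intro i l h
    have h1 := ((Finset.univ \ Finset.univ.image c).equivFin.symm i).2
    rw [Finset.mem_sdiff] at h1
    apply h1.2
    rw [Finset.mem_image]
    exact ⟨l, Finset.mem_univ l, h.symm⟩
  let φ : Fin (9 + r) → Fin s := Fin.append c g
  have hφ : Function.Injective φ := by
    intro i j
    refine Fin.addCases (fun i => ?_) (fun i => ?_) i <;>
      refine Fin.addCases (fun j => ?_) (fun j => ?_) j
    · intro h
      simp only [φ, Fin.append_left] at h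
      rw [hc h]
    · intro h
      simp only [φ, Fin.append_left, Fin.append_right] at h
      exact absurd h.symm (hgc j i)
    · intro h
      simp only [φ, Fin.append_left, Fin.append_right] at h
      exact absurd h (hgc i j)
    · intro h
      simp only [φ, Fin.append_right] at h
      rw [hg h]
  have hbij : Function.Bijective φ := by
    rw [Fintype.bijective_iff_injective_and_card]
    refine ⟨hφ, ?_⟩
    simp only [Fintype.card_fin]
    omega
  refine ⟨r, Equiv.ofBijective φ hbij, fun l => ?_⟩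
  simp [φ]

theorem LS_comp {K : Type*} [Field K] {s t : ℕ} (σ : Fin t ≃ Fin s) (δ : ℕ) (μ : Fin s → ℕ)
    (P : Fin s → Fin 2 → K) : LS δ (fun i => μ (σ i)) (fun i => P (σ i)) = LS δ μ P := by
  ext f
  rw [mem_LS, mem_LS]
  refine and_congr_right fun _ => ⟨fun h i => ?_, fun h i => h (σ i)⟩
  have := h (σ.symm i)
  simpa using this

section

variable {F K : Type*} [Field F] [Field K] [Algebra F K] {s : ℕ} (P : Fin s → Fin 2 → K)
    (hP : AlgebraicIndependent F (fun ij : Fin s × Fin 2 => P ij.1 ij.2))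
    (δ : ℕ) (μ : Fin s → ℕ) (c : Fin 9 → Fin s) (hc : Function.Injective c)

include hP hc

theorem reindex (Q : ∀ {r : ℕ}, (Fin 9 → ℕ) → (Fin r → ℕ) → Prop)
    (hQ : ∀ (r : ℕ) (σ : Fin (9 + r) ≃ Fin s), (∀ l, σ (Fin.castAdd r l) = c l) →
      Q (fun l => μ (c l)) (fun i : Fin r => μ (σ (Fin.natAdd 9 i))))
    (χ : ℤ) (hχ : χ = ((δ + 2).choose 2 : ℤ) - ∑ i, ((μ i + 1).choose 2 : ℤ))
    (main : ∀ {r : ℕ} (P : Fin (9 + r) → Fin 2 → K),
      AlgebraicIndependent F (fun ij : Fin (9 + r) × Fin 2 => P ij.1 ij.2) →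
      ∀ (M : Fin 9 → ℕ) (m : Fin r → ℕ), Q M m → (∀ l, M l = μ (c l)) →
      χ = ((δ + 2).choose 2 : ℤ) - ∑ l, ((M l + 1).choose 2 : ℤ) -
        ∑ i, ((m i + 1).choose 2 : ℤ) →
      (Module.finrank K (LS δ (Fin.append M m) P) : ℤ) = max 0 χ) :
    (Module.finrank K (LS δ μ P) : ℤ) = max 0 χ := by
  obtain ⟨r, σ, hσ⟩ := exists_enum c hc
  have h1 : Fin.append (fun l => μ (c l)) (fun i : Fin r => μ (σ (Fin.natAdd 9 i))) =
      fun i => μ (σ i) := by
    funext i
    refine Fin.addCases (fun i => ?_) (fun i => ?_) i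
    · rw [Fin.append_left, hσ]
    · rw [Fin.append_right]
  have h2 := main (fun i => P (σ i)) (by
    refine hP.comp (fun ij : Fin (9 + r) × Fin 2 => (σ ij.1, ij.2)) ?_
    rintro ⟨i, j⟩ ⟨i', j'⟩ h
    simp only [Prod.mk.injEq, EmbeddingLike.apply_eq_iff_eq] at h
    rw [h.1, h.2]) (fun l => μ (c l)) (fun i => μ (σ (Fin.natAdd 9 i))) (hQ r σ hσ)
    (fun _ => rfl) (by
      rw [hχ, ← Equiv.sum_comp σ, Fin.sum_univ_add]
      simp only [hσ]
      ring)
  rw [h1, LS_comp] at h2
  exact h2

end

end ShghT
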