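import Pool.Agent.ShghT.Semi
import Pool.Agent.ShghE.Transfer

/-!
# Semicontinuity and additional conditions
-/

namespace ShghT

open MvPolynomial

variable {K : Type*} [Field K] {s : ℕ}

section SemiBaux

theorem semib_rows {k ρ ι : Type*} [Field k] [Finite ρ] [Fintype ι] (N : Matrix ρ ι k) :
    ∃ a : Fin N.rank → ρ, LinearIndependent k (fun i => N (a i)) := by
  classical
  have := Fintype.ofFinite ρ
  obtain ⟨κ, a, ha, hsp, hli⟩ := exists_linearIndependent' k (fun r => N r)
  have hκ : Finite κ := Finite.of_injective a ha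
  have := Fintype.ofFinite κ
  have hfin : Module.finrank k (Submodule.span k (Set.range (fun r => N r))) = N.rank := by
    rw [Matrix.rank_eq_finrank_span_row]
    rfl
  have hcard : Fintype.card κ = N.rank := by
    rw [← hfin, ← hsp, finrank_span_eq_card hli]
  let eq : Fin N.rank ≃ κ := Fintype.equivOfCardEq (by rw [Fintype.card_fin, hcard])
  exact ⟨a ∘ eq, hli.comp eq eq.injective⟩

theorem semib_minor {k ρ ι : Type*} [Field k] [Finite ρ] [Fintype ι] (N : Matrix ρ ι k) :
    ∃ (r : ℕ) (a : Fin r → ρ) (b : Fin r → ι), r = N.rank ∧ (N.submatrix a b).det ≠ 0 := by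
  classical
  obtain ⟨a, ha⟩ := semib_rows N
  set B : Matrix (Fin N.rank) ι k := N.submatrix a id with hB
  have hrow : LinearIndependent k B.row := ha
  have hrB : B.rank = N.rank := by
    rw [Matrix.rank_eq_finrank_span_row, finrank_span_eq_card hrow, Fintype.card_fin]
  have hrBt : B.transpose.rank = N.rank := by rw [Matrix.rank_transpose, hrB]
  obtain ⟨b, hb⟩ := semib_rows B.transpose
  let c : Fin N.rank ≃ Fin B.transpose.rank := finCongr hrBt.symm
  refine ⟨N.rank, a, b ∘ c, rfl, ?_⟩
  have hli : LinearIndependent k (fun i => ((N.submatrix a (b ∘ c)).transpose) i) :=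
    hb.comp c c.injective
  have h2 : IsUnit ((N.submatrix a (b ∘ c)).transpose) :=
    Matrix.linearIndependent_rows_iff_isUnit.1 hli
  have h3 := ((Matrix.isUnit_iff_isUnit_det _).1 h2).ne_zero
  rwa [Matrix.det_transpose] at h3

theorem semib_rank_le {A k k' ι ρ : Type*} [CommRing A] [Field k] [Field k'] [Fintype ι] [Finite ρ]
    (M : Matrix ρ ι A) (θ : A →+* k) (hθ : Function.Injective θ) (θ' : A →+* k') :
    (M.map θ').rank ≤ (M.map θ).rank := by
  classical
  obtain ⟨r, a, b, hr, hdet⟩ := semib_minor (M.map θ')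
  have hdA : (M.submatrix a b).det ≠ 0 := by
    intro h0
    apply hdet
    have h3 : ((M.map θ').submatrix a b).det = θ' (M.submatrix a b).det := by
      rw [RingHom.map_det]
      rfl
    rw [h3, h0, map_zero]
  have hdk : ((M.map θ).submatrix a b).det ≠ 0 := by
    have h3 : ((M.map θ).submatrix a b).det = θ (M.submatrix a b).det := by
      rw [RingHom.map_det]
      rfl
    rw [h3]
    exact fun h => hdA (hθ (by rw [h, map_zero]))
  have hrk : ((M.map θ).submatrix a b).rank = r := by
    rw [Matrix.rank_of_isUnit _ ((Matrix.isUnit_iff_isUnit_det _).2 (isUnit_iff_ne_zero.2 hdk)),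
      Fintype.card_fin]
  rw [← hr, ← hrk]
  exact Matrix.rank_submatrix_le _ _ _

/-- The matrix of the conditions. -/
noncomputable def semibMat (δ : ℕ) (μ : Fin s → ℕ) (P : Fin s → Fin 2 → K) :
    Matrix (ShghE.tfRow μ) (ShghE.tfS δ) K :=
  fun r e => ShghE.tfM (P r.1 0) (P r.1 1) e r.2

/-- The coefficients. -/
noncomputable def semibPsi (δ : ℕ) (μ : Fin s → ℕ) (P : Fin s → Fin 2 → K) :
    LS δ μ P →ₗ[K] (ShghE.tfS δ → K) where
  toFun f e := (f : MvPolynomial (Fin 2) K).coeff e
  map_add' f g := by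
    ext e
    simp
  map_smul' c f := by
    ext e
    simp

theorem semib_ker (δ : ℕ) (μ : Fin s → ℕ) (P : Fin s → Fin 2 → K) :
    LinearMap.ker (semibPsi δ μ P) = ⊥ := by
  rw [LinearMap.ker_eq_bot']
  intro f hf
  apply Subtype.ext
  have hd : (f : MvPolynomial (Fin 2) K).totalDegree ≤ δ := (mem_LS.1 f.2).1
  rw [ShghE.tf_expand hd]
  refine Finset.sum_eq_zero fun e _ => ?_
  have : (f : MvPolynomial (Fin 2) K).coeff e = 0 := congrFun hf e
  rw [this, monomial_zero]

theorem semib_range (δ : ℕ) (μ : Fin s → ℕ) (P : Fin s → Fin 2 → K) :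
    LinearMap.range (semibPsi δ μ P) = LinearMap.ker (semibMat δ μ P).mulVecLin := by
  classical
  ext c
  rw [LinearMap.mem_range, LinearMap.mem_ker]
  constructor
  · rintro ⟨f, rfl⟩
    ext r
    obtain ⟨i, x, hx⟩ := r
    have hd : (f : MvPolynomial (Fin 2) K).totalDegree ≤ δ := (mem_LS.1 f.2).1
    have h1 := (ShghE.tf_mem_iff _ _ _ _).1 ((mem_LS.1 f.2).2 i) x (by simpa using hx)
    rw [ShghE.tf_expand hd, ShghE.tf_coeff] at h1
    simpa [Matrix.mulVec, dotProduct, semibMat, semibPsi] using h1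
  · intro h
    have hmem : (∑ e : ShghE.tfS δ, monomial (e : Fin 2 →₀ ℕ) (c e)) ∈ LS δ μ P := by
      rw [mem_LS]
      refine ⟨ShghE.tf_sum_degree c, fun i => ?_⟩
      refine (ShghE.tf_mem_iff _ _ _ _).2 fun x hx => ?_
      rw [ShghE.tf_coeff]
      have := congrFun h ⟨i, ⟨x, by simpa using hx⟩⟩
      simpa [Matrix.mulVec, dotProduct, semibMat] using this
    refine ⟨⟨_, hmem⟩, ?_⟩
    ext e
    exact ShghE.tf_sum_coeff c e

theorem semib_finrank (δ : ℕ) (μ : Fin s → ℕ) (P : Fin s → Fin 2 → K) :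
    Module.finrank K (LS δ μ P) + (semibMat δ μ P).rank = Fintype.card (ShghE.tfS δ) := by
  have h1 : Module.finrank K (LS δ μ P) =
      Module.finrank K (LinearMap.ker (semibMat δ μ P).mulVecLin) := by
    rw [← semib_range]
    exact (LinearMap.finrank_range_of_inj (LinearMap.ker_eq_bot.1 (semib_ker δ μ P))).symm
  rw [h1, Matrix.rank, add_comm, LinearMap.finrank_range_add_finrank_ker,
    Module.finrank_fintype_fun_eq_card]

end SemiBaux

/-- Semicontinuity: the dimension does not drop under specialization. -/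
theorem finrank_LS_le {F K' : Type*} [Field F] [Field K'] [Algebra F K] [Algebra F K']
    (P : Fin s → Fin 2 → K)
    (hP : AlgebraicIndependent F (fun ij : Fin s × Fin 2 => P ij.1 ij.2))
    (P' : Fin s → Fin 2 → K') (δ : ℕ) (μ : Fin s → ℕ) :
    Module.finrank K (LS δ μ P) ≤ Module.finrank K' (LS δ μ P') := by
  have h1 := semib_finrank δ μ P
  have h2 := semib_finrank δ μ P'
  have key := semib_rank_le (ShghE.tfMat F δ μ)
    (aeval (fun ij : Fin s × Fin 2 => P ij.1 ij.2)).toRingHom hP
    (aeval (fun ij : Fin s × Fin 2 => P' ij.1 ij.2) : _ →ₐ[F] K').toRingHom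
  have e1 : (ShghE.tfMat F δ μ).map
      (aeval (fun ij : Fin s × Fin 2 => P ij.1 ij.2)).toRingHom = semibMat δ μ P := by
    ext r e
    change (aeval (fun ij : Fin s × Fin 2 => P ij.1 ij.2)).toRingHom
      (ShghE.tfM (X (r.1, 0)) (X (r.1, 1)) e r.2) = _
    rw [← ShghE.tfM_map]
    simp [semibMat]
  have e2 : (ShghE.tfMat F δ μ).map
      (aeval (fun ij : Fin s × Fin 2 => P' ij.1 ij.2) : _ →ₐ[F] K').toRingHom =
      semibMat δ μ P' := by
    ext r e
    change (aeval (fun ij : Fin s × Fin 2 => P' ij.1 ij.2) : _ →ₐ[F] K').toRingHom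
      (ShghE.tfM (X (r.1, 0)) (X (r.1, 1)) e r.2) = _
    rw [← ShghE.tfM_map]
    simp [semibMat]
  rw [e1, e2] at key
  omega

theorem semib_mem_pt (a b : K) (f : MvPolynomial (Fin 2) K) (h : eval ![a, b] f = 0) :
    f ∈ pt a b ^ 1 := by
  refine (ShghE.tf_mem_iff _ _ _ _).2 fun x hx => ?_
  have hx0 : x = 0 := by
    have : x.degree = 0 := by omega
    exact (Finsupp.degree_eq_zero_iff x).1 this
  subst hx0
  have h1 : (constantCoeff (σ := Fin 2) (R := K)).comp (ShghE.tfShift a b).toRingHom =
      eval ![a, b] := by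
    apply MvPolynomial.ringHom_ext
    · intro r
      simp [ShghE.tfShift]
    · intro i
      fin_cases i <;> simp [ShghE.tfShift]
  have h2 := RingHom.congr_fun h1 f
  rw [h] at h2
  exact h2

/-- If `n` more simple points and the vanishing of the coefficients with exponents in `Z` leave only
`0` then the dimension is at most `n + |Z|`. -/
theorem finrank_LS_le_of_cut (δ : ℕ) (μ : Fin s → ℕ) (P : Fin s → Fin 2 → K) (n : ℕ)
    (Q : Fin n → Fin 2 → K) (Z : Finset (Fin 2 →₀ ℕ))
    (h : ∀ f ∈ LS δ (Fin.append μ fun _ : Fin n => 1) (Fin.append P Q),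
      (∀ e ∈ Z, f.coeff e = 0) → f = 0) :
    Module.finrank K (LS δ μ P) ≤ n + Z.card := by
  classical
  let ψ : LS δ μ P →ₗ[K] (Fin n → K) × (Z → K) :=
    { toFun := fun f => (fun j => eval ![Q j 0, Q j 1] (f : MvPolynomial (Fin 2) K),
        fun e => (f : MvPolynomial (Fin 2) K).coeff e)
      map_add' := fun f g => by
        ext <;> simp
      map_smul' := fun c f => by
        ext <;> simp [smul_eval] }
  have hinj : Function.Injective ψ := by
    rw [injective_iff_map_eq_zero]
    intro f hf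
    apply Subtype.ext
    have hf1 : ∀ j, eval ![Q j 0, Q j 1] (f : MvPolynomial (Fin 2) K) = 0 :=
      fun j => congrFun (congrArg Prod.fst hf) j
    have hf2 : ∀ e : Z, (f : MvPolynomial (Fin 2) K).coeff e = 0 :=
      fun e => congrFun (congrArg Prod.snd hf) e
    apply h
    · rw [mem_LS]
      refine ⟨(mem_LS.1 f.2).1, fun i => ?_⟩
      refine Fin.addCases (fun i => ?_) (fun j => ?_) i
      · rw [Fin.append_left, Fin.append_left]
        exact (mem_LS.1 f.2).2 i
      · rw [Fin.append_right, Fin.append_right]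
        exact semib_mem_pt _ _ _ (hf1 j)
    · exact fun e he => hf2 ⟨e, he⟩
  have := LinearMap.finrank_le_finrank_of_injective hinj
  rw [Module.finrank_prod, Module.finrank_fintype_fun_eq_card,
    Module.finrank_fintype_fun_eq_card, Fintype.card_fin, Fintype.card_coe] at this
  exact this

end ShghT
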