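import Pool.Agent.ShghT.Interp

/-!
# Counting the conditions of one point
-/

namespace ShghT

/-- The number of conditions. -/
def cnd {r : ℕ} (m : Fin r → ℕ) : ℕ := ∑ i, (m i + 1).choose 2

/-- A sum to the right of the centre. -/
private theorem Comb_right (p : ℤ) (n : ℕ) (g : ℤ → ℕ) :
    ∑ j ∈ Finset.Ioc p (p + n), g j = ∑ i ∈ Finset.range n, g (p + 1 + i) := by
  refine Finset.sum_nbij' (fun j => (j - p - 1).toNat) (fun i => p + 1 + i) ?_ ?_ ?_ ?_ ?_
  · intro j hj
    rw [Finset.mem_Ioc] at hj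
    rw [Finset.mem_range]
    omega
  · intro i hi
    rw [Finset.mem_range] at hi
    rw [Finset.mem_Ioc]
    omega
  · intro j hj
    rw [Finset.mem_Ioc] at hj
    omega
  · intro i hi
    omega
  · intro j hj
    rw [Finset.mem_Ioc] at hj
    have : p + 1 + ((j - p - 1).toNat : ℤ) = j := by omega
    simp only [this]

/-- A sum to the left of the centre. -/
private theorem Comb_left (p : ℤ) (n : ℕ) (g : ℤ → ℕ) :
    ∑ j ∈ Finset.Icc (p - n) p, g j = ∑ i ∈ Finset.range (n + 1), g (p - i) := by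
  refine Finset.sum_nbij' (fun j => (p - j).toNat) (fun i => p - i) ?_ ?_ ?_ ?_ ?_
  · intro j hj
    rw [Finset.mem_Icc] at hj
    rw [Finset.mem_range]
    omega
  · intro i hi
    rw [Finset.mem_range] at hi
    rw [Finset.mem_Icc]
    omega
  · intro j hj
    rw [Finset.mem_Icc] at hj
    omega
  · intro i hi
    omega
  · intro j hj
    rw [Finset.mem_Icc] at hj
    have : p - ((p - j).toNat : ℤ) = j := by omega
    simp only [this]

private theorem Comb_right' (p : ℤ) (n : ℕ) (g : ℤ → ℕ) :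
    ∑ j ∈ Finset.Icc p (p + n), g j = ∑ i ∈ Finset.range (n + 1), g (p + i) := by
  refine Finset.sum_nbij' (fun j => (j - p).toNat) (fun i => p + i) ?_ ?_ ?_ ?_ ?_
  · intro j hj
    rw [Finset.mem_Icc] at hj
    rw [Finset.mem_range]
    omega
  · intro i hi
    rw [Finset.mem_range] at hi
    rw [Finset.mem_Icc]
    omega
  · intro j hj
    rw [Finset.mem_Icc] at hj
    omega
  · intro i hi
    omega
  · intro j hj
    rw [Finset.mem_Icc] at hj
    have : p + ((j - p).toNat : ℤ) = j := by omega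
    simp only [this]

private theorem Comb_left' (p : ℤ) (n : ℕ) (g : ℤ → ℕ) :
    ∑ j ∈ Finset.Ico (p - n) p, g j = ∑ i ∈ Finset.range n, g (p - 1 - i) := by
  refine Finset.sum_nbij' (fun j => (p - 1 - j).toNat) (fun i => p - 1 - i) ?_ ?_ ?_ ?_ ?_
  · intro j hj
    rw [Finset.mem_Ico] at hj
    rw [Finset.mem_range]
    omega
  · intro i hi
    rw [Finset.mem_range] at hi
    rw [Finset.mem_Ico]
    omega
  · intro j hj
    rw [Finset.mem_Ico] at hj
    omega
  · intro i hi
    omega
  · intro j hj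
    rw [Finset.mem_Ico] at hj
    have : p - 1 - ((p - 1 - j).toNat : ℤ) = j := by omega
    simp only [this]

/-- Explicit form, first sign. -/
private theorem Comb_true (e m : ℕ) (p : ℤ) (ρ : ℕ) : Nr e m p true ρ =
    ∑ i ∈ Finset.range m, (if (p + 1 + i) % e = ρ then m - 1 - 2 * i else 0)
    + ∑ i ∈ Finset.range (m + 1), (if (p - i) % e = ρ then m - 2 * i else 0) := by
  unfold Nr
  rw [Finset.sum_filter]
  have h1 : Finset.Icc (p - (m : ℤ)) (p + m) = Finset.Ioc p (p + m) ∪ Finset.Icc (p - m) p := by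
    ext x
    simp only [Finset.mem_union, Finset.mem_Icc, Finset.mem_Ioc]
    omega
  have h2 : Disjoint (Finset.Ioc p (p + (m : ℤ))) (Finset.Icc (p - (m : ℤ)) p) := by
    rw [Finset.disjoint_left]
    intro x hx hx'
    rw [Finset.mem_Ioc] at hx
    rw [Finset.mem_Icc] at hx'
    omega
  rw [h1, Finset.sum_union h2, Comb_right, Comb_left]
  congr 1
  · apply Finset.sum_congr rfl
    intro i hi
    congr 1
    unfold rk
    simp only [if_true]
    omega
  · apply Finset.sum_congr rfl
    intro i hi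
    congr 1
    unfold rk
    simp only [if_true]
    omega

/-- Explicit form, second sign. -/
private theorem Comb_false (e m : ℕ) (p : ℤ) (ρ : ℕ) : Nr e m p false ρ =
    ∑ i ∈ Finset.range m, (if (p - 1 - i) % e = ρ then m - 1 - 2 * i else 0)
    + ∑ i ∈ Finset.range (m + 1), (if (p + i) % e = ρ then m - 2 * i else 0) := by
  unfold Nr
  rw [Finset.sum_filter]
  have h1 : Finset.Icc (p - (m : ℤ)) (p + m) = Finset.Ico (p - m) p ∪ Finset.Icc p (p + m) := by
    ext x
    simp only [Finset.mem_union, Finset.mem_Icc, Finset.mem_Ico]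
    omega
  have h2 : Disjoint (Finset.Ico (p - (m : ℤ)) p) (Finset.Icc p (p + (m : ℤ))) := by
    rw [Finset.disjoint_left]
    intro x hx hx'
    rw [Finset.mem_Ico] at hx
    rw [Finset.mem_Icc] at hx'
    omega
  rw [h1, Finset.sum_union h2, Comb_right', Comb_left']
  congr 1
  · apply Finset.sum_congr rfl
    intro i hi
    congr 1
    unfold rk
    simp only [Bool.false_eq_true, if_false]
    omega
  · apply Finset.sum_congr rfl
    intro i hi
    congr 1
    unfold rk
    simp only [Bool.false_eq_true, if_false]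
    omega

/-- The total of one side. -/
private def Comb_A (m : ℕ) : ℕ := ∑ i ∈ Finset.range m, (m - 1 - 2 * i)

private theorem Comb_A_two (m : ℕ) : Comb_A (m + 2) = Comb_A m + (m + 1) := by
  unfold Comb_A
  rw [Finset.sum_range_succ', Finset.sum_range_succ]
  have h : ∀ i, m + 2 - 1 - 2 * (i + 1) = m - 1 - 2 * i := fun i => by omega
  simp only [h]
  have h2 : m - 1 - 2 * m = 0 := by omega
  rw [h2]
  omega

private theorem Comb_A_sum (m : ℕ) : Comb_A m + Comb_A (m + 1) = (m + 1).choose 2 := by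
  induction m with
  | zero => rfl
  | succ m ih =>
    have h : (m + 1 + 1).choose 2 = (m + 1).choose 1 + (m + 1).choose 2 := Nat.choose_succ_succ _ _
    rw [h, ← ih, Comb_A_two, Nat.choose_one_right]
    ring

private theorem Comb_A_left (m : ℕ) :
    ∑ i ∈ Finset.range (m + 1), (m - 2 * i) = Comb_A (m + 1) := rfl

/-- Summing an indicator of residue classes. -/
private theorem Comb_ind (e : ℕ) (he : 0 < e) (n : ℕ) (q : ℕ → ℤ) (f : ℕ → ℕ) :
    ∑ ρ ∈ Finset.range e, ∑ i ∈ Finset.range n, (if q i % e = ρ then f i else 0)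
      = ∑ i ∈ Finset.range n, f i := by
  rw [Finset.sum_comm]
  apply Finset.sum_congr rfl
  intro i _
  have h1 : 0 ≤ q i % e := Int.emod_nonneg _ (by omega)
  have h2 : q i % e < e := Int.emod_lt_of_pos _ (by omega)
  rw [Finset.sum_eq_single (q i % e).toNat]
  · rw [if_pos (by omega)]
  · intro b _ hb
    rw [if_neg]
    omega
  · intro h
    exact absurd (Finset.mem_range.2 (by omega)) h

/-- The total number of conditions of one point. -/
theorem Nr_sum (e : ℕ) (he : 0 < e) (m : ℕ) (p : ℤ) (s : Bool) :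
    ∑ ρ ∈ Finset.range e, Nr e m p s ρ = (m + 1).choose 2 := by
  cases s
  · simp only [Comb_false]
    rw [Finset.sum_add_distrib, Comb_ind e he m (fun i => p - 1 - i) (fun i => m - 1 - 2 * i),
      Comb_ind e he (m + 1) (fun i => p + i) (fun i => m - 2 * i), Comb_A_left, ← Comb_A_sum]
    rfl
  · simp only [Comb_true]
    rw [Finset.sum_add_distrib, Comb_ind e he m (fun i => p + 1 + i) (fun i => m - 1 - 2 * i),
      Comb_ind e he (m + 1) (fun i => p - i) (fun i => m - 2 * i), Comb_A_left, ← Comb_A_sum]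
    rfl

/-- One side, with `2 e` more conditions. -/
private theorem Comb_side (e : ℕ) (q : ℕ → ℤ) (ρ : ℕ)
    (hq : ∀ i, q (i + e) % e = q i % e) (i₀ : ℕ) (hi₀ : i₀ < e) (h₀ : q i₀ % e = ρ)
    (huniq : ∀ i < e, q i % e = ρ → i = i₀) (n x : ℕ) (hn : x ≤ 2 * n) :
    ∑ i ∈ Finset.range (n + 2 * e), (if q i % e = ρ then x + 2 * e - 2 * i else 0)
      = ∑ i ∈ Finset.range n, (if q i % e = ρ then x - 2 * i else 0) + (x + 2 * e - 2 * i₀) := by
  have h1 : n + 2 * e = e + (n + e) := by ring
  rw [h1, Finset.sum_range_add, Finset.sum_range_add]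
  have h2 : ∑ i ∈ Finset.range e, (if q i % e = ρ then x + 2 * e - 2 * i else 0)
      = x + 2 * e - 2 * i₀ := by
    rw [Finset.sum_eq_single i₀]
    · rw [if_pos h₀]
    · intro b hb hb'
      rw [if_neg]
      intro h
      exact hb' (huniq b (Finset.mem_range.1 hb) h)
    · intro h
      exact absurd (Finset.mem_range.2 hi₀) h
  have h3 : ∑ i ∈ Finset.range n, (if q (e + i) % e = ρ then x + 2 * e - 2 * (e + i) else 0)
      = ∑ i ∈ Finset.range n, (if q i % e = ρ then x - 2 * i else 0) := by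
    apply Finset.sum_congr rfl
    intro i _
    rw [Nat.add_comm e i, hq i]
    have : x + 2 * e - 2 * (i + e) = x - 2 * i := by omega
    rw [this]
  have h4 : ∑ i ∈ Finset.range e,
      (if q (e + (n + i)) % e = ρ then x + 2 * e - 2 * (e + (n + i)) else 0) = 0 := by
    apply Finset.sum_eq_zero
    intro i _
    have : x + 2 * e - 2 * (e + (n + i)) = 0 := by omega
    rw [this]
    simp
  rw [h2, h3, h4]
  ring

/-- A residue class meets an interval of length `e` once. -/
private theorem Comb_cls (e : ℕ) (he : 0 < e) (c : ℤ) (σ : ℤ) (hσ : σ = 1 ∨ σ = -1) (ρ : ℕ)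
    (hρ : ρ < e) : ∃ i₀ < e, (c + σ * i₀) % e = ρ ∧
      ∀ i < e, (c + σ * i) % e = ρ → i = i₀ := by
  have he' : (0 : ℤ) < e := by exact_mod_cast he
  set t := (σ * (ρ - c)) % e with ht
  have h1 : 0 ≤ t := Int.emod_nonneg _ (by omega)
  have h2 : t < e := Int.emod_lt_of_pos _ he'
  have hσ2 : σ * σ = 1 := by
    rcases hσ with h | h <;> rw [h] <;> norm_num
  have key : ∀ i : ℤ, 0 ≤ i → i < e → ((c + σ * i) % e = ρ ↔ i = t) := by
    intro i hi0 hie
    constructor
    · intro h
      have h3 : (e : ℤ) ∣ (c + σ * i) - ρ := by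
        rw [← h]
        exact Int.dvd_self_sub_emod
      obtain ⟨z, hz⟩ := h3
      have h4 : σ * (ρ - c) = i - e * (σ * z) := by
        linear_combination (-σ) * hz + i * hσ2
      rw [ht, h4, Int.sub_mul_emod_self_left, Int.emod_eq_of_lt hi0 hie]
    · intro h
      obtain ⟨z, hz⟩ : (e : ℤ) ∣ σ * (ρ - c) - t := by
        rw [ht]
        exact Int.dvd_self_sub_emod
      have h4 : c + σ * i = ρ - e * (σ * z) := by
        rw [h]
        linear_combination (-σ) * hz + (ρ - c) * hσ2
      rw [h4, Int.sub_mul_emod_self_left]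
      exact Int.emod_eq_of_lt (by omega) (by omega)
  refine ⟨t.toNat, by omega, ?_, ?_⟩
  · have h5 : ((t.toNat : ℕ) : ℤ) = t := by omega
    exact (key _ (by omega) (by omega)).2 h5
  · intro i hi h
    have := (key i (by omega) (by omega)).1 h
    omega

private theorem Comb_rel (e : ℕ) (he : 0 < e) (c d : ℤ) (σ : ℤ) (hσ : σ = 1 ∨ σ = -1)
    (hd : d = c + σ) (ρ i j : ℕ) (hi : i < e) (hj : j < e)
    (h1 : (d + σ * i) % e = ρ) (h2 : (c - σ * j) % e = ρ) : i + j + 1 = e := by
  have h3 : (e : ℤ) ∣ (d + σ * i) - (c - σ * j) := by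
    have h4 : (e : ℤ) ∣ (d + σ * i) - ρ := by
      rw [← h1]
      exact Int.dvd_self_sub_emod
    have h5 : (e : ℤ) ∣ (c - σ * j) - ρ := by
      rw [← h2]
      exact Int.dvd_self_sub_emod
    have := dvd_sub h4 h5
    have e1 : (d + σ * i) - ρ - ((c - σ * j) - ρ) = (d + σ * i) - (c - σ * j) := by ring
    rwa [e1] at this
  have h6 : (e : ℤ) ∣ (i : ℤ) + j + 1 := by
    have e2 : (d + σ * i) - (c - σ * j) = σ * ((i : ℤ) + j + 1) := by
      rw [hd]
      ring
    rw [e2] at h3
    rcases hσ with h | h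
    · rwa [h, one_mul] at h3
    · rw [h] at h3
      have := (dvd_neg (a := (e : ℤ))).2 h3
      have e3 : -(-1 * ((i : ℤ) + j + 1)) = (i : ℤ) + j + 1 := by ring
      rwa [e3] at this
  obtain ⟨z, hz⟩ := h6
  have he' : (0 : ℤ) < e := by exact_mod_cast he
  have hz0 : 0 < z := by
    by_contra hcon
    have : (e : ℤ) * z ≤ e * 0 := mul_le_mul_of_nonneg_left (by omega) he'.le
    omega
  have hz2 : z < 2 := by
    by_contra hcon
    have : (e : ℤ) * 2 ≤ e * z := mul_le_mul_of_nonneg_left (by omega) he'.le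
    omega
  have : z = 1 := by omega
  rw [this] at hz
  omega

/-- Periodicity in the multiplicity. -/
theorem Nr_add (e : ℕ) (he : 0 < e) (m : ℕ) (p : ℤ) (s : Bool) (ρ : ℕ) (hρ : ρ < e) :
    Nr e (m + 2 * e) p s ρ = Nr e m p s ρ + (2 * m + 2 * e + 1) := by
  have hsh : ∀ (c σ : ℤ) (i : ℕ), (c + σ * ((i + e : ℕ) : ℤ)) % e = (c + σ * i) % e := by
    intro c σ i
    have : c + σ * ((i + e : ℕ) : ℤ) = (c + σ * i) + e * σ := by
      push_cast
      ring
    rw [this, Int.add_mul_emod_self_left]
  cases s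
  · obtain ⟨i₁, hi₁, a1, b1⟩ := Comb_cls e he (p - 1) (-1) (Or.inr rfl) ρ hρ
    obtain ⟨i₂, hi₂, a2, b2⟩ := Comb_cls e he p 1 (Or.inl rfl) ρ hρ
    have hrel := Comb_rel e he p (p - 1) (-1) (Or.inr rfl) (by ring) ρ i₁ i₂ hi₁ hi₂ a1 (by
      rw [← a2]
      congr 1
      ring)
    rw [Comb_false, Comb_false]
    have q1 : ∀ i : ℕ, p - 1 - (i : ℤ) = p - 1 + -1 * i := fun i => by ring
    have q2 : ∀ i : ℕ, p + (i : ℤ) = p + 1 * i := fun i => by ring
    simp only [q1, q2]
    have s2 := Comb_side e (fun i => p + 1 * i) ρ (fun i => hsh p 1 i) i₂ hi₂ a2 b2 (m + 1) m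
      (by omega)
    have e2 : m + 2 * e + 1 = m + 1 + 2 * e := by ring
    rw [e2, s2]
    rcases Nat.eq_zero_or_pos m with hm | hm
    · subst hm
      have s1' : ∑ i ∈ Finset.range (0 + 2 * e),
          (if (p - 1 + -1 * (i : ℤ)) % e = ρ then 0 + 2 * e - 1 - 2 * i else 0)
          = 2 * e - 1 - 2 * i₁ := by
        have h1 : 0 + 2 * e = e + e := by ring
        rw [h1, Finset.sum_range_add, Finset.sum_eq_single i₁]
        · rw [if_pos a1, Finset.sum_eq_zero]
          · omega
          · intro i _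
            have : e + e - 1 - 2 * (e + i) = 0 := by omega
            rw [this]
            simp
        · intro b hb hb'
          rw [if_neg]
          intro h
          exact hb' (b1 b (Finset.mem_range.1 hb) h)
        · intro h
          exact absurd (Finset.mem_range.2 hi₁) h
      rw [s1', Finset.sum_range_zero]
      omega
    · have s1 := Comb_side e (fun i => p - 1 + -1 * i) ρ (fun i => hsh (p - 1) (-1) i) i₁ hi₁ a1 b1
        m (m - 1) (by omega)
      have e1 : ∀ i, m + 2 * e - 1 - 2 * i = m - 1 + 2 * e - 2 * i := fun i => by omega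
      simp only [e1]
      rw [s1]
      omega
  · obtain ⟨i₁, hi₁, a1, b1⟩ := Comb_cls e he (p + 1) 1 (Or.inl rfl) ρ hρ
    obtain ⟨i₂, hi₂, a2, b2⟩ := Comb_cls e he p (-1) (Or.inr rfl) ρ hρ
    have hrel := Comb_rel e he p (p + 1) 1 (Or.inl rfl) (by ring) ρ i₁ i₂ hi₁ hi₂ a1 (by
      rw [← a2]
      congr 1)
    rw [Comb_true, Comb_true]
    have q1 : ∀ i : ℕ, p + 1 + (i : ℤ) = p + 1 + 1 * i := fun i => by ring
    have q2 : ∀ i : ℕ, p - (i : ℤ) = p + -1 * i := fun i => by ring
    simp only [q1, q2]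
    have s2 := Comb_side e (fun i => p + -1 * i) ρ (fun i => hsh p (-1) i) i₂ hi₂ a2 b2 (m + 1) m
      (by omega)
    have e2 : m + 2 * e + 1 = m + 1 + 2 * e := by ring
    rw [e2, s2]
    rcases Nat.eq_zero_or_pos m with hm | hm
    · subst hm
      have s1' : ∑ i ∈ Finset.range (0 + 2 * e),
          (if (p + 1 + 1 * (i : ℤ)) % e = ρ then 0 + 2 * e - 1 - 2 * i else 0)
          = 2 * e - 1 - 2 * i₁ := by
        have h1 : 0 + 2 * e = e + e := by ring
        rw [h1, Finset.sum_range_add, Finset.sum_eq_single i₁]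
        · rw [if_pos a1, Finset.sum_eq_zero]
          · omega
          · intro i _
            have : e + e - 1 - 2 * (e + i) = 0 := by omega
            rw [this]
            simp
        · intro b hb hb'
          rw [if_neg]
          intro h
          exact hb' (b1 b (Finset.mem_range.1 hb) h)
        · intro h
          exact absurd (Finset.mem_range.2 hi₁) h
      rw [s1', Finset.sum_range_zero]
      omega
    · have s1 := Comb_side e (fun i => p + 1 + 1 * i) ρ (fun i => hsh (p + 1) 1 i) i₁ hi₁ a1 b1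
        m (m - 1) (by omega)
      have e1 : ∀ i, m + 2 * e - 1 - 2 * i = m - 1 + 2 * e - 2 * i := fun i => by omega
      simp only [e1]
      rw [s1]
      omega

/-- Rotation. -/
theorem Nr_rot (e : ℕ) (he : 0 < e) (m : ℕ) (p c : ℤ) (s : Bool) (ρ ρ' : ℕ) (hρ : ρ < e)
    (hρ' : ρ' < e) (h : ((ρ : ℤ) + c) % e = ρ') : Nr e m (p + c) s ρ' = Nr e m p s ρ := by
  have key : ∀ j : ℤ, (j + c) % e = ρ' ↔ j % e = ρ := by
    intro j
    constructor
    · intro h1
      rw [← h] at h1
      have h2 : j % e = (ρ : ℤ) % e := Int.ModEq.add_right_cancel' c h1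
      rw [h2]
      exact Int.emod_eq_of_lt (by omega) (by omega)
    · intro h1
      rw [← h, ← h1, Int.emod_add_emod]
  cases s
  · rw [Comb_false, Comb_false]
    congr 1
    · apply Finset.sum_congr rfl
      intro i _
      have e1 : p + c - 1 - (i : ℤ) = p - 1 - i + c := by ring
      rw [e1]
      simp only [key]
    · apply Finset.sum_congr rfl
      intro i _
      have e1 : p + c + (i : ℤ) = p + i + c := by ring
      rw [e1]
      simp only [key]
  · rw [Comb_true, Comb_true]
    congr 1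
    · apply Finset.sum_congr rfl
      intro i _
      have e1 : p + c + 1 + (i : ℤ) = p + 1 + i + c := by ring
      rw [e1]
      simp only [key]
    · apply Finset.sum_congr rfl
      intro i _
      have e1 : p + c - (i : ℤ) = p - i + c := by ring
      rw [e1]
      simp only [key]

end ShghT
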