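import Pool.Agent.ShghT.Defs

/-!
# Integer valued interpolation at consecutive integers; facts on the rank function
-/

namespace ShghT

private theorem interp_vander (lo : ℤ) (b : ℕ) : ∃ d : ℕ → ℤ, ∀ x : ℤ,
    ∑ a ∈ Finset.range (b + 1), d a * Ring.choose (lo + x) a = Ring.choose x b := by
  refine ⟨fun a => Ring.choose (-lo) (b - a), fun x => ?_⟩
  have h := Ring.add_choose_eq b (Commute.all (lo + x) (-lo))
  rw [show lo + x + -lo = x by ring] at h
  rw [h, Finset.Nat.sum_antidiagonal_eq_sum_range_succ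
    (fun i j => Ring.choose (lo + x) i * Ring.choose (-lo) j)]
  exact Finset.sum_congr rfl fun a _ => mul_comm _ _

private theorem interp_all (lo : ℤ) (f : ℕ → ℤ) (M : ℕ) : ∃ c : ℕ → ℤ, ∀ i : ℕ, i < M →
    ∑ a ∈ Finset.range M, c a * Ring.choose (lo + i) a = f i := by
  induction M with
  | zero => exact ⟨fun _ => 0, fun i hi => absurd hi (Nat.not_lt_zero i)⟩
  | succ M ih =>
    obtain ⟨c, hc⟩ := ih
    obtain ⟨d, hd⟩ := interp_vander lo M
    obtain ⟨r, hr⟩ : ∃ r : ℤ, r = f M - ∑ a ∈ Finset.range M, c a * Ring.choose (lo + M) a :=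
      ⟨_, rfl⟩
    refine ⟨fun a => (if a < M then c a else 0) + r * d a, fun i hi => ?_⟩
    have h1 : ∑ a ∈ Finset.range (M + 1), ((if a < M then c a else 0) + r * d a)
          * Ring.choose (lo + i) a
        = ∑ a ∈ Finset.range M, c a * Ring.choose (lo + i) a + r * (i.choose M : ℤ) := by
      rw [← Ring.choose_natCast, ← hd (i : ℤ), Finset.mul_sum]
      have h2 : ∑ a ∈ Finset.range M, c a * Ring.choose (lo + i) a
          = ∑ a ∈ Finset.range (M + 1), (if a < M then c a else 0) * Ring.choose (lo + i) a := by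
        rw [Finset.sum_range_succ, if_neg (lt_irrefl M), zero_mul, add_zero]
        exact Finset.sum_congr rfl fun a ha => by rw [if_pos (Finset.mem_range.1 ha)]
      rw [h2, ← Finset.sum_add_distrib]
      exact Finset.sum_congr rfl fun a _ => by ring
    rw [h1]
    rcases Nat.lt_succ_iff_lt_or_eq.1 hi with h | h
    · rw [hc i h, Nat.choose_eq_zero_of_lt h]
      simp
    · subst h
      rw [Nat.choose_self, hr]
      push_cast
      ring

/-- The matrix of binomial coefficients at consecutive integers is unimodular. -/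
theorem interp (lo : ℤ) (M p : ℕ) (hp : p < M) : ∃ c : ℕ → ℤ, ∀ i : ℕ, i < M →
    ∑ a ∈ Finset.range M, c a * Ring.choose (lo + i) a = if i = p then 1 else 0 :=
  interp_all lo (fun i => if i = p then 1 else 0) M

private theorem rk_cases (p : ℤ) (s : Bool) (j : ℤ) :
    (s = true ∧ ((p < j ∧ rk p s j = 2 * (j - p)) ∨ (j ≤ p ∧ rk p s j = 1 - 2 * (j - p)))) ∨
    (s = false ∧ ((j < p ∧ rk p s j = 2 * (p - j)) ∨ (p ≤ j ∧ rk p s j = 1 - 2 * (p - j)))) := by
  unfold rk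
  cases s
  · right
    refine ⟨rfl, ?_⟩
    rw [if_neg (by simp)]
    rcases lt_or_ge j p with h | h
    · left
      exact ⟨h, max_eq_left (by omega)⟩
    · right
      exact ⟨h, max_eq_right (by omega)⟩
  · left
    refine ⟨rfl, ?_⟩
    rw [if_pos rfl]
    rcases lt_or_ge p j with h | h
    · left
      exact ⟨h, max_eq_left (by omega)⟩
    · right
      exact ⟨h, max_eq_right (by omega)⟩

/-- The integers of rank `≤ M` form an interval of length `M`. -/
theorem rk_le_iff (p : ℤ) (s : Bool) (M : ℕ) (hM : 0 < M) : ∃ lo : ℤ, ∀ j : ℤ,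
    rk p s j ≤ M ↔ lo ≤ j ∧ j < lo + M := by
  refine ⟨if s = true then p - ((M - 1) / 2 : ℕ) else p - (M / 2 : ℕ), fun j => ?_⟩
  rcases rk_cases p s j with ⟨hs, ⟨h1, h2⟩ | ⟨h1, h2⟩⟩ | ⟨hs, ⟨h1, h2⟩ | ⟨h1, h2⟩⟩
  · rw [h2, if_pos hs]
    omega
  · rw [h2, if_pos hs]
    omega
  · rw [h2, if_neg (by rw [hs]; simp)]
    omega
  · rw [h2, if_neg (by rw [hs]; simp)]
    omega

theorem rk_pos (p : ℤ) (s : Bool) (j : ℤ) : 1 ≤ rk p s j := by
  rcases rk_cases p s j with ⟨_, ⟨h1, h2⟩ | ⟨h1, h2⟩⟩ | ⟨_, ⟨h1, h2⟩ | ⟨h1, h2⟩⟩ <;> omega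

/-- The weight `2 j (j - e) + c j` is `R (R - 1) / 2` up to a constant, `R` being the rank. -/
theorem weight_eq (e : ℕ) (p : ℤ) (s : Bool) (j : ℤ) :
    2 * (2 * j * (j - e) + circ e p s * j) =
      rk p s j * (rk p s j - 1) + 2 * (2 * p * (p - e) + circ e p s * p) := by
  unfold circ
  rcases rk_cases p s j with ⟨hs, ⟨h1, h2⟩ | ⟨h1, h2⟩⟩ | ⟨hs, ⟨h1, h2⟩ | ⟨h1, h2⟩⟩
  · rw [h2, if_pos hs]
    ring
  · rw [h2, if_pos hs]
    ring
  · rw [h2, if_neg (by rw [hs]; simp)]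
    ring
  · rw [h2, if_neg (by rw [hs]; simp)]
    ring

/-- If the rank is larger then the weight is larger. -/
theorem weight_lt (e : ℕ) (p : ℤ) (s : Bool) {i j : ℤ} (h : rk p s i < rk p s j) :
    2 * i * (i - e) + circ e p s * i < 2 * j * (j - e) + circ e p s * j := by
  have h1 := weight_eq e p s i
  have h2 := weight_eq e p s j
  have h3 := rk_pos p s i
  nlinarith

theorem rk_injective (p : ℤ) (s : Bool) : Function.Injective (rk p s) := by
  intro i j h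
  rcases rk_cases p s i with ⟨hs, ⟨h1, h2⟩ | ⟨h1, h2⟩⟩ | ⟨hs, ⟨h1, h2⟩ | ⟨h1, h2⟩⟩ <;>
  rcases rk_cases p s j with ⟨hs', ⟨h3, h4⟩ | ⟨h3, h4⟩⟩ | ⟨hs', ⟨h3, h4⟩ | ⟨h3, h4⟩⟩ <;>
  first
  | omega
  | (rw [hs] at hs'; exact absurd hs' (by simp))

/-- `4 e Q = 2 (j (j - e) + ρ (e - ρ))`. -/
theorem Qf_eq (e : ℕ) (he : 0 < e) (j : ℤ) :
    2 * e * Qf e j = j * (j - e) + (j % e) * (e - j % e) := by
  have _ := he
  unfold Qf
  obtain ⟨ρ, hρ⟩ : ∃ ρ, ρ = j % (e : ℤ) := ⟨_, rfl⟩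
  obtain ⟨s, hs⟩ : ∃ s, s = j / (e : ℤ) := ⟨_, rfl⟩
  have h1 : j = ρ + e * s := by
    rw [hρ, hs]
    exact (Int.emod_add_mul_ediv j e).symm
  have h2 : 2 * (s * (s - 1) / 2) = s * (s - 1) := by
    refine Int.mul_ediv_cancel' ?_
    have := Int.even_mul_pred_self s
    exact this.two_dvd
  rw [← hρ, ← hs]
  rw [h1]
  have h3 : 2 * (e : ℤ) * (ρ * s + e * (s * (s - 1) / 2))
      = 2 * e * ρ * s + e * e * (2 * (s * (s - 1) / 2)) := by ring
  rw [h3, h2]
  ring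

/-- Every condition of a point of multiplicity `m` is at most `m` steps from the centre. -/
theorem mem_Icc_of_rk_le (p : ℤ) (s : Bool) (m : ℕ) (j : ℤ) (h : rk p s j ≤ m) :
    j ∈ Finset.Icc (p - (m : ℤ)) (p + m) := by
  rw [Finset.mem_Icc]
  rcases rk_cases p s j with ⟨_, ⟨h1, h2⟩ | ⟨h1, h2⟩⟩ | ⟨_, ⟨h1, h2⟩ | ⟨h1, h2⟩⟩ <;> omega

end ShghT
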