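import Pool.Agent.ShghT.Theta
import Pool.Agent.ShghT.Interp

/-!
# The leading terms
-/

namespace ShghT

variable {k : Type*} [Field k]

/-- A polynomial with too many zeros (in the sense of Hasse derivatives) vanishes. -/
theorem hermite {ι : Type*} (s : Finset ι) (x : ι → k) (hx : Set.InjOn x s) (μ : ι → ℕ)
    (G : Polynomial k) (hG : ∀ i ∈ s, ∀ b < μ i, (Polynomial.hasseDeriv b G).eval (x i) = 0)
    (hdeg : ∀ j, (∑ i ∈ s, μ i) ≤ j → G.coeff j = 0) : G = 0 := by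
  have h1 : ∀ i ∈ s, (Polynomial.X - Polynomial.C (x i)) ^ μ i ∣ G := by
    intro i hi
    rw [Polynomial.X_sub_C_pow_dvd_iff, Polynomial.X_pow_dvd_iff]
    intro b hb
    have h := hG i hi b hb
    rwa [← Polynomial.taylor_coeff, Polynomial.taylor_apply] at h
  have h2 : (∏ i ∈ s, (Polynomial.X - Polynomial.C (x i)) ^ μ i) ∣ G := by
    refine Finset.prod_dvd_of_coprime ?_ h1
    intro i hi j hj hij
    refine IsCoprime.pow ?_
    refine Polynomial.isCoprime_X_sub_C_of_isUnit_sub ?_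
    exact (sub_ne_zero.mpr fun h => hij (hx hi hj h)).isUnit
  by_contra hne
  have h3 := Polynomial.natDegree_le_of_dvd h2 hne
  have h4 : (∏ i ∈ s, (Polynomial.X - Polynomial.C (x i)) ^ μ i).natDegree = ∑ i ∈ s, μ i := by
    rw [Polynomial.natDegree_prod]
    · refine Finset.sum_congr rfl fun i _ => ?_
      rw [Polynomial.natDegree_pow, Polynomial.natDegree_X_sub_C, mul_one]
    · intro i _
      exact pow_ne_zero _ (Polynomial.X_sub_C_ne_zero _)
  rw [h4] at h3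
  exact hne (Polynomial.leadingCoeff_eq_zero.mp (hdeg _ h3))

/-- The weight. -/
private def linW (e : ℕ) (c l : ℤ) : ℤ := 2 * l * (l - e) + c * l

/-- The coefficients of a theta function along a circle. -/
private theorem lin_formula (e : ℕ) (he : 0 < e) (γ : k) (hγ : γ ≠ 0) (f : Lam k)
    (hf : IsTh (4 * e) e γ f) (c n l : ℤ) :
    cf f (n - c * l) l =
      γ ^ (l / e) * cf f (n - linW e c l - 2 * (l % e) * (e - l % e)) (l % e) := by
  rw [IsTh.formula he hγ hf]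
  congr 2
  have h := Qf_eq e he l
  have h' : ((4 * e : ℕ) : ℤ) * Qf e l = 2 * (l * (l - e) + (l % e) * (e - l % e)) := by
    rw [← h]; push_cast; ring
  rw [h', linW]
  ring

/-- `4 e Q + c l` is nonnegative. -/
private theorem lin_nonneg (e : ℕ) (he : 0 < e) (c l : ℤ) (hc0 : 0 < c) (hc1 : c < 4 * e) :
    0 ≤ linW e c l + 2 * (l % e) * (e - l % e) := by
  have he' : (0 : ℤ) < e := by exact_mod_cast he
  have h0 : 0 ≤ l % e := Int.emod_nonneg _ he'.ne'
  have h1 : l % e < e := Int.emod_lt_of_pos _ he'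
  have h2 : l = l % e + e * (l / e) := (Int.emod_add_mul_ediv l e).symm
  generalize l % e = ρ at *
  generalize l / e = s at *
  have h3 : linW e c l + 2 * ρ * (e - ρ) = 2 * e * (s * (2 * ρ + e * (s - 1))) + c * l := by
    rw [linW, h2]; ring
  rw [h3]
  rcases le_or_gt 0 s with hs | hs
  · have hl : 0 ≤ l := by rw [h2]; positivity
    have h4 : 0 ≤ s * (2 * ρ + e * (s - 1)) := by
      rcases hs.eq_or_lt with h | h
      · rw [← h]; simp
      · have : 0 ≤ s - 1 := by omega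
        positivity
    positivity
  · have hl : l ≤ 0 := by rw [h2]; nlinarith
    have h4 : 0 ≤ (s + 1) * (2 * ρ + e * s) := by
      rcases (show s + 1 ≤ 0 by omega).eq_or_lt with h | h
      · rw [h]; simp
      · refine mul_nonneg_of_nonpos_of_nonpos h.le ?_
        nlinarith
    have h5 : 4 * e * l ≤ c * l := mul_le_mul_of_nonpos_right hc1.le hl
    have h6 : 2 * e * (s * (2 * ρ + e * (s - 1))) + 4 * e * l =
        2 * e * ((s + 1) * (2 * ρ + e * s)) := by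
      rw [h2]; ring
    have h7 : 0 ≤ 2 * (e : ℤ) * ((s + 1) * (2 * ρ + e * s)) := by positivity
    linarith

/-- The vanishing of one Hasse derivative of one leading polynomial at one point. -/
private theorem lin_key (e : ℕ) (he : 0 < e) (J : ℕ) (γ ν : k) (hγ : γ ≠ 0) (hν : ν ≠ 0)
    (H : ℕ → Lam k) (hH : ∀ j ≤ J, IsTh (4 * e) e (γ * ν ^ j) (H j)) (m : ℕ) (p : ℤ) (s : Bool)
    (α t : k) (hα : α ≠ 0) (hcirc : 0 < circ e p s ∧ circ e p s < 4 * e)
    (hcond : ∀ a b, a + b < m → ∀ n : ℕ, ∑ j ∈ Finset.range (J + 1),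
      t ^ j * (j.choose b : k) * (∑ᶠ l : ℤ, cf (H j) (n - circ e p s * l) l *
        α ^ l * ((Ring.choose l a : ℤ) : k)) = 0)
    (μ : ℤ) (hμ : ∀ j ≤ J, ∀ ρ : ℤ, 0 ≤ ρ → ρ < e → ∀ n, n + 2 * ρ * (e - ρ) < μ →
      cf (H j) n ρ = 0)
    (b : ℕ) (l₀ : ℤ) (hl₀ : rk p s l₀ + b ≤ m) :
    ∑ j ∈ Finset.range (J + 1), (j.choose b : k) * (ν ^ (l₀ / e) * t) ^ j *
      cf (H j) (μ - 2 * (l₀ % e) * (e - l₀ % e)) (l₀ % e) = 0 := by
  have he' : (0 : ℤ) < e := by exact_mod_cast he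
  have hγj : ∀ j, γ * ν ^ j ≠ 0 := fun j => mul_ne_zero hγ (pow_ne_zero _ hν)
  rcases lt_or_ge (μ + linW e (circ e p s) l₀) 0 with hn | hn
  · refine Finset.sum_eq_zero fun j _ => ?_
    rw [cf_neg, mul_zero]
    have := lin_nonneg e he _ l₀ hcirc.1 hcirc.2
    linarith
  obtain ⟨n, hn'⟩ := Int.eq_ofNat_of_zero_le hn
  have hrk := rk_pos p s l₀
  obtain ⟨M, hM⟩ : ∃ M : ℕ, m = M + b := ⟨m - b, by omega⟩
  have hM0 : 0 < M := by omega
  have hl₀M : rk p s l₀ ≤ M := by omega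
  obtain ⟨lo, hlo⟩ := rk_le_iff p s M hM0
  obtain ⟨hlo1, hlo2⟩ := (hlo l₀).mp hl₀M
  obtain ⟨c, hc⟩ := interp lo M (l₀ - lo).toNat (by omega)
  have hc' : ∀ l ∈ Finset.Ico lo (lo + M),
      ∑ a ∈ Finset.range M, c a * Ring.choose l a = if l = l₀ then 1 else 0 := by
    intro l hl
    rw [Finset.mem_Ico] at hl
    have h := hc (l - lo).toNat (by omega)
    rw [show lo + ((l - lo).toNat : ℤ) = l by omega] at h
    rw [h]
    congr 1
    rw [eq_iff_iff]
    constructor <;> intro h' <;> omega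
  have hsupp : ∀ j ≤ J, ∀ l, l ∉ Finset.Ico lo (lo + M) →
      cf (H j) (n - circ e p s * l) l = 0 := by
    intro j hj l hl
    rw [Finset.mem_Ico, ← hlo l, not_le] at hl
    have hw := weight_lt e p s (lt_of_le_of_lt hl₀M hl)
    rw [lin_formula e he _ (hγj j) _ (hH j hj), hμ j hj (l % e) (Int.emod_nonneg _ he'.ne')
      (Int.emod_lt_of_pos _ he'), mul_zero]
    rw [← hn']
    simp only [linW]
    linarith
  have hfin : ∀ j ≤ J, ∀ a, (∑ᶠ l : ℤ, cf (H j) (n - circ e p s * l) l *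
      α ^ l * ((Ring.choose l a : ℤ) : k)) = ∑ l ∈ Finset.Ico lo (lo + M),
      cf (H j) (n - circ e p s * l) l * α ^ l * ((Ring.choose l a : ℤ) : k) := by
    intro j hj a
    refine finsum_eq_sum_of_support_subset _ ?_
    intro l hl
    by_contra h
    refine hl ?_
    simp only
    rw [hsupp j hj l (by simpa using h), zero_mul, zero_mul]
  have key : ∑ j ∈ Finset.range (J + 1), t ^ j * (j.choose b : k) *
      (cf (H j) (n - circ e p s * l₀) l₀ * α ^ l₀) = 0 := by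
    have h0 : ∑ a ∈ Finset.range M, ((c a : ℤ) : k) * ∑ j ∈ Finset.range (J + 1),
        t ^ j * (j.choose b : k) * (∑ᶠ l : ℤ, cf (H j) (n - circ e p s * l) l *
        α ^ l * ((Ring.choose l a : ℤ) : k)) = 0 := by
      refine Finset.sum_eq_zero fun a ha => ?_
      rw [hcond a b (by rw [Finset.mem_range] at ha; omega) n, mul_zero]
    rw [← h0]
    simp_rw [Finset.mul_sum]
    rw [Finset.sum_comm]
    refine Finset.sum_congr rfl fun j hj => ?_
    rw [Finset.mem_range] at hj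
    have h1 : ∀ a ∈ Finset.range M, ((c a : ℤ) : k) * (t ^ j * (j.choose b : k) *
        (∑ᶠ l : ℤ, cf (H j) (n - circ e p s * l) l * α ^ l * ((Ring.choose l a : ℤ) : k))) =
        ∑ l ∈ Finset.Ico lo (lo + M), t ^ j * (j.choose b : k) *
          (cf (H j) (n - circ e p s * l) l * α ^ l) * ((c a * Ring.choose l a : ℤ) : k) := by
      intro a _
      rw [hfin j (by omega) a, Finset.mul_sum, Finset.mul_sum]
      refine Finset.sum_congr rfl fun l _ => ?_
      push_cast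
      ring
    rw [Finset.sum_congr rfl h1, Finset.sum_comm]
    have h2 : ∀ l ∈ Finset.Ico lo (lo + M), ∑ a ∈ Finset.range M, t ^ j * (j.choose b : k) *
          (cf (H j) (n - circ e p s * l) l * α ^ l) * ((c a * Ring.choose l a : ℤ) : k) =
          if l = l₀ then t ^ j * (j.choose b : k) *
          (cf (H j) (n - circ e p s * l) l * α ^ l) else 0 := by
      intro l hl
      rw [← Finset.mul_sum, ← Int.cast_sum, hc' l hl]
      split_ifs <;> simp
    rw [Finset.sum_congr rfl h2, Finset.sum_ite_eq', if_pos (Finset.mem_Ico.mpr ⟨hlo1, hlo2⟩)]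
  have hu : γ ^ (l₀ / (e : ℤ)) * α ^ l₀ ≠ 0 := mul_ne_zero (zpow_ne_zero _ hγ) (zpow_ne_zero _ hα)
  refine (mul_eq_zero.mp ?_).resolve_left hu
  rw [← key, Finset.mul_sum]
  refine Finset.sum_congr rfl fun j hj => ?_
  rw [Finset.mem_range] at hj
  rw [lin_formula e he _ (hγj j) _ (hH j (by omega)), ← hn']
  rw [show μ + linW e (circ e p s) l₀ - linW e (circ e p s) l₀ - 2 * (l₀ % e) * (e - l₀ % e) =
    μ - 2 * (l₀ % e) * (e - l₀ % e) by ring]
  have hz : (ν ^ (l₀ / (e : ℤ))) ^ j = (ν ^ j) ^ (l₀ / (e : ℤ)) := by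
    rw [← zpow_natCast (ν ^ (l₀ / (e : ℤ))) j, ← zpow_natCast ν j, ← zpow_mul, ← zpow_mul,
      mul_comm]
  rw [mul_zpow, mul_pow, hz]
  ring

/-- Theta functions `H 0, ..., H J` of degree `e` and types `γ ν ^ j` satisfying the conditions of
points of multiplicities `m i`, with enough conditions for every residue class, vanish. `Dg ρ` bounds
the degree of the leading polynomial of the class `ρ`. -/
theorem lin (e : ℕ) (he : 0 < e) (J : ℕ) (γ ν : k) (hγ : γ ≠ 0) (hν : ν ≠ 0) (H : ℕ → Lam k)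
    (hH : ∀ j ≤ J, IsTh (4 * e) e (γ * ν ^ j) (H j)) {r : ℕ} (m : Fin r → ℕ) (p : Fin r → ℤ)
    (s : Fin r → Bool) (α t : Fin r → k) (hα : ∀ i, α i ≠ 0) (ht : ∀ i, t i ≠ 0)
    (hcirc : ∀ i, 0 < circ e (p i) (s i) ∧ circ e (p i) (s i) < 4 * e)
    (hdist : ∀ i i' (l l' : ℤ), l ∈ Finset.Icc (p i - (m i : ℤ)) (p i + m i) →
      l' ∈ Finset.Icc (p i' - (m i' : ℤ)) (p i' + m i') →
      ν ^ (l / e) * t i = ν ^ (l' / e) * t i' → i = i' ∧ l / e = l' / e)
    (hcond : ∀ i a b, a + b < m i → ∀ n : ℕ, ∑ j ∈ Finset.range (J + 1),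
      t i ^ j * (j.choose b : k) * (∑ᶠ l : ℤ, cf (H j) (n - circ e (p i) (s i) * l) l *
        α i ^ l * ((Ring.choose l a : ℤ) : k)) = 0)
    (Dg : ℕ → ℕ) (hDg : ∀ j ≤ J, ∀ ρ < e, Dg ρ < j → ∀ n : ℤ, cf (H j) n ρ ≠ 0 →
      ∃ n' : ℤ, ∃ ρ' < e, cf (H j) n' ρ' ≠ 0 ∧
        n' + 2 * ρ' * (e - ρ') < n + 2 * ρ * (e - ρ))
    (hN : ∀ ρ < e, Dg ρ + 1 ≤ ∑ i, Nr e (m i) (p i) (s i) ρ) :
    ∀ j ≤ J, H j = 0 := by
  by_contra hcon
  push Not at hcon
  obtain ⟨j₀, hj₀, hHj₀⟩ := hcon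
  have he' : (0 : ℤ) < e := by exact_mod_cast he
  have hγj : ∀ j, γ * ν ^ j ≠ 0 := fun j => mul_ne_zero hγ (pow_ne_zero _ hν)
  classical
  have hex : ∃ v : ℕ, ∃ j ≤ J, ∃ ρ : ℕ, ρ < e ∧ ∃ n : ℤ, cf (H j) n ρ ≠ 0 ∧
      n + 2 * ρ * (e - ρ) = v := by
    by_contra hne
    refine hHj₀ ((hH j₀ hj₀).eq_zero he (hγj j₀) fun ρ hρ n => ?_)
    by_contra hc
    have hn : 0 ≤ n := by
      by_contra hn
      exact hc (cf_neg _ (not_le.mp hn) _)
    have h1 : 0 ≤ n + 2 * (ρ : ℤ) * (e - ρ) := by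
      have : (0 : ℤ) ≤ e - ρ := by omega
      positivity
    obtain ⟨v, hv⟩ := Int.eq_ofNat_of_zero_le h1
    exact hne ⟨v, j₀, hj₀, ρ, hρ, n, hc, hv⟩
  obtain ⟨j₁, hj₁, ρ₁, hρ₁, n₁, hc₁, hv₁⟩ := Nat.find_spec hex
  have hmin := fun v hv => Nat.find_min hex (m := v) hv
  generalize Nat.find hex = μ at *
  have hμ : ∀ j ≤ J, ∀ ρ : ℤ, 0 ≤ ρ → ρ < e → ∀ n, n + 2 * ρ * (e - ρ) < μ →
      cf (H j) n ρ = 0 := by
    intro j hj ρ hρ0 hρ n hn
    obtain ⟨ρ, rfl⟩ := Int.eq_ofNat_of_zero_le hρ0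
    have hρ : ρ < e := by omega
    by_contra hc
    have hn0 : 0 ≤ n := by
      by_contra hn
      exact hc (cf_neg _ (not_le.mp hn) _)
    have h1 : 0 ≤ n + 2 * (ρ : ℤ) * (e - ρ) := by
      have : (0 : ℤ) ≤ e - ρ := by omega
      positivity
    obtain ⟨v, hv⟩ := Int.eq_ofNat_of_zero_le h1
    exact hmin v (by omega) ⟨j, hj, ρ, hρ, n, hc, hv⟩
  let G : Polynomial k := ∑ j ∈ Finset.range (J + 1),
    Polynomial.monomial j (cf (H j) (μ - 2 * ρ₁ * (e - ρ₁)) ρ₁)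
  have hGc : ∀ j, G.coeff j = if j < J + 1 then cf (H j) (μ - 2 * ρ₁ * (e - ρ₁)) ρ₁ else 0 := by
    intro j
    simp only [G, Polynomial.finsetSum_coeff, Polynomial.coeff_monomial]
    rw [Finset.sum_ite_eq']
    simp
  have hG : G = 0 := by
    refine hermite (Finset.univ.sigma fun i : Fin r =>
      (Finset.Icc (p i - (m i : ℤ)) (p i + m i)).filter (fun j : ℤ => j % e = ρ₁))
      (fun x => ν ^ (x.2 / (e : ℤ)) * t x.1) ?_
      (fun x => ((m x.1 : ℤ) + 1 - rk (p x.1) (s x.1) x.2).toNat) G ?_ ?_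
    · rintro ⟨i, l⟩ hl ⟨i', l'⟩ hl' heq
      simp only [Finset.coe_sigma, Set.mem_sigma_iff, Finset.mem_coe, Finset.mem_filter] at hl hl'
      obtain ⟨h1, h2⟩ := hdist i i' l l' hl.2.1 hl'.2.1 heq
      subst h1
      have h3 : l = l' := by
        rw [← Int.emod_add_mul_ediv l e, ← Int.emod_add_mul_ediv l' e, h2, hl.2.2, hl'.2.2]
      rw [h3]
    · rintro ⟨i, l⟩ hl b hb
      simp only [Finset.mem_sigma, Finset.mem_filter] at hl
      simp only at hb ⊢
      have hx : ν ^ (l / (e : ℤ)) * t i ≠ 0 := mul_ne_zero (zpow_ne_zero _ hν) (ht i)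
      have hkey := lin_key e he J γ ν hγ hν H hH (m i) (p i) (s i) (α i) (t i) (hα i) (hcirc i)
        (hcond i) μ hμ b l (by omega)
      rw [hl.2.2] at hkey
      refine (mul_eq_zero.mp ?_).resolve_left (pow_ne_zero b hx)
      rw [← hkey]
      simp only [G, map_sum, Polynomial.hasseDeriv_monomial, Polynomial.eval_finsetSum,
        Polynomial.eval_monomial, Finset.mul_sum]
      refine Finset.sum_congr rfl fun j hj => ?_
      rcases lt_or_ge j b with hjb | hjb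
      · rw [Nat.choose_eq_zero_of_lt hjb]
        simp
      · rw [show (ν ^ (l / (e : ℤ)) * t i) ^ j = (ν ^ (l / (e : ℤ)) * t i) ^ b *
          (ν ^ (l / (e : ℤ)) * t i) ^ (j - b) by rw [← pow_add]; congr 1; omega]
        ring
    · intro j hj
      rw [hGc]
      split_ifs with hjJ
      · by_contra hc
        have h1 : Dg ρ₁ < j := by
          have h2 := hN ρ₁ hρ₁
          simp only [Nr] at h2
          rw [Finset.sum_sigma] at hj
          exact lt_of_lt_of_le (Nat.lt_of_succ_le h2) hj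
        obtain ⟨n', ρ', hρ', hc', hlt⟩ := hDg j (by omega) ρ₁ hρ₁ h1 _ hc
        refine hc' (hμ j (by omega) ρ' (by positivity) (by exact_mod_cast hρ') n' ?_)
        linarith
      · rfl
  have h := hGc j₁
  rw [hG, Polynomial.coeff_zero, if_pos (by omega), ← hv₁,
    show n₁ + 2 * (ρ₁ : ℤ) * (e - ρ₁) - 2 * ρ₁ * (e - ρ₁) = n₁ by ring] at h
  exact hc₁ h.symm

end ShghT
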