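import Mathlib

/-!
# Theta series over `k[u, 1/u][[π]]`: definitions

`Lam k` is the ring of power series in `π` with coefficients in the Laurent polynomials in `u`.
`cf f n j` is the coefficient of `π ^ n u ^ j` (zero for `n < 0`).
`IsTh N d γ f`: `f = Σ_j a_j u ^ j` with `a_{j+d} = γ q ^ j a_j`, `q = π ^ N`.
-/

namespace ShghT

/-- `k[u, 1/u][[π]]`. -/
abbrev Lam (k : Type*) [Field k] : Type _ := PowerSeries (LaurentPolynomial k)

variable {k : Type*} [Field k]

/-- The coefficient of `π ^ n u ^ j`. -/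
noncomputable def cf (f : Lam k) (n j : ℤ) : k :=
  if n < 0 then 0 else (PowerSeries.coeff n.toNat f).coeff j

/-- The coefficient of `π ^ n`. -/
noncomputable def cR (b : PowerSeries k) (n : ℤ) : k :=
  if n < 0 then 0 else PowerSeries.coeff n.toNat b

/-- Constants `k[[π]] → k[u, 1/u][[π]]`. -/
noncomputable def iota : PowerSeries k →+* Lam k := PowerSeries.map LaurentPolynomial.C

/-- Theta functions of degree `d` and type `γ` with respect to `q = π ^ N`. -/
def IsTh (N d : ℕ) (γ : k) (f : Lam k) : Prop :=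
  ∀ n j : ℤ, cf f (n + N * j) (j + d) = γ * cf f n j

/-- The exponent of `q` in `a_j = γ ^ s q ^ (Qf d j) a_ρ`, `j = ρ + d s`, `0 ≤ ρ < d`. -/
def Qf (d : ℕ) (j : ℤ) : ℤ := (j % d) * (j / d) + d * ((j / d) * (j / d - 1) / 2)

/-- The cubic `α x³ + δ y³ + x y + β`. -/
noncomputable def Gp {S : Type*} [CommRing S] (α β δ : S) : MvPolynomial (Fin 2) S :=
  MvPolynomial.C α * MvPolynomial.X 0 ^ 3 + MvPolynomial.C δ * MvPolynomial.X 1 ^ 3 +
    MvPolynomial.X 0 * MvPolynomial.X 1 + MvPolynomial.C β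

/-- The maximal ideal of the point `(a, b)`. -/
noncomputable def pt {S : Type*} [CommRing S] (a b : S) : Ideal (MvPolynomial (Fin 2) S) :=
  Ideal.span {MvPolynomial.X 0 - MvPolynomial.C a, MvPolynomial.X 1 - MvPolynomial.C b}

/-- The rank of the integer `j` in the order `p, p + 1, p - 1, p + 2, ...` (`s = true`) or
`p, p - 1, p + 1, p - 2, ...` (`s = false`). -/
noncomputable def rk (p : ℤ) (s : Bool) (j : ℤ) : ℤ :=
  if s then max (2 * (j - p)) (1 - 2 * (j - p)) else max (2 * (p - j)) (1 - 2 * (p - j))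

/-- The circle belonging to the centre `p` and the sign `s`. -/
def circ (e : ℕ) (p : ℤ) (s : Bool) : ℤ := if s then 2 * (e - 2 * p) - 1 else 2 * (e - 2 * p) + 1

/-- Number of conditions which a point of multiplicity `m` puts on the residue class `ρ`. -/
noncomputable def Nr (e : ℕ) (m : ℕ) (p : ℤ) (s : Bool) (ρ : ℕ) : ℕ :=
  ∑ j ∈ (Finset.Icc (p - (m : ℤ)) (p + m)).filter (fun j : ℤ => j % e = ρ), ((m : ℤ) + 1 - rk p s j).toNat

end ShghT
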