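import Pool.Agent.ShghT.Defs

/-!
# Coefficients of elements of `Lam k`
-/

namespace ShghT

variable {k : Type*} [Field k]

theorem cf_neg (f : Lam k) {n : ℤ} (hn : n < 0) (j : ℤ) : cf f n j = 0 := by
  rw [cf, if_pos hn]

theorem cf_nat (f : Lam k) (n : ℕ) (j : ℤ) :
    cf f n j = (PowerSeries.coeff n f).coeff j := by
  rw [cf, if_neg (by omega), Int.toNat_natCast]

private theorem cR_neg_aux (b : PowerSeries k) {n : ℤ} (hn : n < 0) : cR b n = 0 := by
  rw [cR, if_pos hn]

private theorem cR_nat_aux (b : PowerSeries k) (n : ℕ) : cR b n = PowerSeries.coeff n b := by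
  rw [cR, if_neg (by omega), Int.toNat_natCast]

theorem cf_ext {f g : Lam k} (h : ∀ n j, cf f n j = cf g n j) : f = g := by
  refine PowerSeries.ext fun n => LaurentPolynomial.ext fun j => ?_
  rw [← cf_nat, ← cf_nat, h]

theorem cf_zero (n j : ℤ) : cf (0 : Lam k) n j = 0 := by
  rw [cf]
  split_ifs
  · rfl
  · rw [map_zero, AddMonoidAlgebra.coeff_zero, Finsupp.coe_zero, Pi.zero_apply]

theorem cf_one (n j : ℤ) : cf (1 : Lam k) n j = if n = 0 ∧ j = 0 then 1 else 0 := by
  rcases lt_or_ge n 0 with hn | hn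
  · rw [cf_neg _ hn, if_neg (by omega)]
  · obtain ⟨m, rfl⟩ := Int.eq_ofNat_of_zero_le hn
    rw [cf_nat, PowerSeries.coeff_one]
    by_cases hm : m = 0
    · subst hm
      rw [if_pos rfl, ← LaurentPolynomial.T_zero, LaurentPolynomial.T_apply]
      by_cases hj : j = 0
      · rw [if_pos hj.symm, if_pos ⟨rfl, hj⟩]
      · rw [if_neg (fun h => hj h.symm), if_neg (fun h => hj h.2)]
    · rw [if_neg hm, if_neg (fun h => hm (by exact_mod_cast h.1)), AddMonoidAlgebra.coeff_zero,
        Finsupp.coe_zero, Pi.zero_apply]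

theorem cf_add (f g : Lam k) (n j : ℤ) : cf (f + g) n j = cf f n j + cf g n j := by
  rw [cf, cf, cf]
  split_ifs
  · rw [add_zero]
  · rw [map_add, AddMonoidAlgebra.coeff_add, Finsupp.add_apply]

theorem cf_neg' (f : Lam k) (n j : ℤ) : cf (-f) n j = - cf f n j := by
  have h := cf_add f (-f) n j
  rw [add_neg_cancel, cf_zero] at h
  exact (neg_eq_of_add_eq_zero_right h.symm).symm

theorem cf_sub (f g : Lam k) (n j : ℤ) : cf (f - g) n j = cf f n j - cf g n j := by
  rw [sub_eq_add_neg, cf_add, cf_neg', ← sub_eq_add_neg]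

theorem cf_sum {ι : Type*} (s : Finset ι) (f : ι → Lam k) (n j : ℤ) :
    cf (∑ i ∈ s, f i) n j = ∑ i ∈ s, cf (f i) n j := by
  classical
  induction s using Finset.induction_on with
  | empty => rw [Finset.sum_empty, Finset.sum_empty, cf_zero]
  | insert a s ha ih => rw [Finset.sum_insert ha, Finset.sum_insert ha, cf_add, ih]

theorem cf_iota (b : PowerSeries k) (n j : ℤ) :
    cf (iota b) n j = if j = 0 then cR b n else 0 := by
  rcases lt_or_ge n 0 with hn | hn
  · rw [cf_neg _ hn, cR_neg_aux _ hn, ite_self]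
  · obtain ⟨m, rfl⟩ := Int.eq_ofNat_of_zero_le hn
    rw [cf_nat, cR_nat_aux, iota, PowerSeries.coeff_map, LaurentPolynomial.C_apply]

/-- For every level only finitely many exponents of `u` occur. -/
theorem cf_finite (f : Lam k) (M : ℤ) : {p : ℤ × ℤ | p.1 ≤ M ∧ cf f p.1 p.2 ≠ 0}.Finite := by
  classical
  let S : Finset (ℤ × ℤ) := (Finset.range (M.toNat + 1)).biUnion fun a =>
    ((PowerSeries.coeff a f).coeff.support).image fun i => ((a : ℤ), i)
  refine (Finset.finite_toSet S).subset ?_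
  rintro ⟨n, i⟩ ⟨h1, h2⟩
  change n ≤ M at h1
  change cf f n i ≠ 0 at h2
  have hn : 0 ≤ n := by
    by_contra hn
    exact h2 (cf_neg f (by omega) i)
  obtain ⟨m, rfl⟩ := Int.eq_ofNat_of_zero_le hn
  rw [cf_nat] at h2
  rw [Finset.mem_coe, Finset.mem_biUnion]
  refine ⟨m, Finset.mem_range.mpr (by omega), ?_⟩
  rw [Finset.mem_image]
  exact ⟨i, Finsupp.mem_support_iff.mpr h2, rfl⟩

/-- The support of the product terms is finite. -/
theorem cf_mul_finite (f g : Lam k) (n j : ℤ) :
    (Function.support fun p : ℤ × ℤ => cf f p.1 p.2 * cf g (n - p.1) (j - p.2)).Finite := by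
  refine (cf_finite f n).subset ?_
  rintro ⟨m, i⟩ h
  rw [Function.mem_support] at h
  change cf f m i * cf g (n - m) (j - i) ≠ 0 at h
  refine ⟨?_, left_ne_zero_of_mul h⟩
  change m ≤ n
  by_contra hm
  exact right_ne_zero_of_mul h (cf_neg g (by omega) _)

/-- The coefficients of a product of Laurent polynomials. -/
private theorem cf_aux_coeff_mul (p q : LaurentPolynomial k) (j : ℤ) :
    (p * q).coeff j = ∑ i ∈ p.coeff.support, p.coeff i * q.coeff (j - i) := by
  classical
  rw [AddMonoidAlgebra.coeff_mul, Finsupp.sum]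
  refine Finset.sum_congr rfl fun i _ => ?_
  rw [Finsupp.sum, Finset.sum_eq_single (j - i)]
  · rw [if_pos (by omega)]
  · intro b _ hb
    rw [if_neg (by omega)]
  · intro h
    rw [Finsupp.notMem_support_iff.mp h, mul_zero, ite_self]

private theorem cf_aux_coeff_sum {ι : Type*} (s : Finset ι) (f : ι → LaurentPolynomial k) (j : ℤ) :
    (∑ i ∈ s, f i).coeff j = ∑ i ∈ s, (f i).coeff j := by
  rw [AddMonoidAlgebra.coeff_sum, Finsupp.finsetSum_apply]

/-- The product formula. -/
theorem cf_mul (f g : Lam k) (n j : ℤ) :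
    cf (f * g) n j = ∑ᶠ p : ℤ × ℤ, cf f p.1 p.2 * cf g (n - p.1) (j - p.2) := by
  classical
  rcases lt_or_ge n 0 with hn | hn
  · rw [cf_neg _ hn]
    symm
    rw [← finsum_zero (α := ℤ × ℤ) (M := k)]
    refine finsum_congr fun p => ?_
    rcases lt_or_ge p.1 0 with hp | hp
    · rw [cf_neg _ hp, zero_mul]
    · rw [cf_neg g (n := n - p.1) (by omega), mul_zero]
  · obtain ⟨N, rfl⟩ := Int.eq_ofNat_of_zero_le hn
    let e : (Σ _ : ℕ, ℤ) ↪ ℤ × ℤ := ⟨fun x => ((x.1 : ℤ), x.2), by
      rintro ⟨a, b⟩ ⟨c, d⟩ h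
      rw [Prod.mk.injEq] at h
      obtain ⟨h1, h2⟩ := h
      have h3 : a = c := by exact_mod_cast h1
      subst h3
      change b = d at h2
      rw [h2]⟩
    let S : Finset (ℤ × ℤ) := ((Finset.range (N + 1)).sigma fun a =>
      (PowerSeries.coeff a f).coeff.support).map e
    have hS : (Function.support fun p : ℤ × ℤ =>
        cf f p.1 p.2 * cf g ((N : ℤ) - p.1) (j - p.2)) ⊆ (S : Set (ℤ × ℤ)) := by
      rintro ⟨m, i⟩ h
      rw [Function.mem_support] at h
      change cf f m i * cf g ((N : ℤ) - m) (j - i) ≠ 0 at h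
      have h1 := left_ne_zero_of_mul h
      have h2 := right_ne_zero_of_mul h
      have hm : 0 ≤ m := by
        by_contra hm
        exact h1 (cf_neg f (by omega) i)
      have hm2 : m ≤ N := by
        by_contra hm
        exact h2 (cf_neg g (by omega) _)
      obtain ⟨a, rfl⟩ := Int.eq_ofNat_of_zero_le hm
      rw [cf_nat] at h1
      rw [Finset.mem_coe, Finset.mem_map]
      have ha : a < N + 1 := by omega
      exact ⟨⟨a, i⟩, Finset.mem_sigma.mpr ⟨Finset.mem_range.mpr ha,
        Finsupp.mem_support_iff.mpr h1⟩, rfl⟩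
    rw [finsum_eq_sum_of_support_subset _ hS, cf_nat, PowerSeries.coeff_mul, cf_aux_coeff_sum,
      Finset.Nat.sum_antidiagonal_eq_sum_range_succ
        (fun a b => (PowerSeries.coeff a f * PowerSeries.coeff b g).coeff j),
      Finset.sum_map, Finset.sum_sigma]
    refine Finset.sum_congr rfl fun a ha => ?_
    have ha' : a ≤ N := by
      have := Finset.mem_range.mp ha
      omega
    rw [cf_aux_coeff_mul]
    refine Finset.sum_congr rfl fun i _ => ?_
    change _ = cf f (a : ℤ) i * cf g ((N : ℤ) - (a : ℤ)) (j - i)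
    rw [cf_nat, ← Nat.cast_sub ha', cf_nat]

theorem cf_iota_mul (b : PowerSeries k) (f : Lam k) (n j : ℤ) :
    cf (iota b * f) n j = ∑ᶠ i : ℤ, cR b i * cf f (n - i) j := by
  classical
  rcases lt_or_ge n 0 with hn | hn
  · rw [cf_neg _ hn]
    symm
    rw [← finsum_zero (α := ℤ) (M := k)]
    refine finsum_congr fun p => ?_
    rcases lt_or_ge p 0 with hp | hp
    · rw [cR_neg_aux _ hp, zero_mul]
    · rw [cf_neg f (n := n - p) (by omega), mul_zero]
  · obtain ⟨N, rfl⟩ := Int.eq_ofNat_of_zero_le hn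
    let e : ℕ ↪ ℤ := ⟨fun x => (x : ℤ), Nat.cast_injective⟩
    let S : Finset ℤ := (Finset.range (N + 1)).map e
    have hS : (Function.support fun i : ℤ => cR b i * cf f ((N : ℤ) - i) j) ⊆ (S : Set ℤ) := by
      intro m h
      rw [Function.mem_support] at h
      have h1 := left_ne_zero_of_mul h
      have h2 := right_ne_zero_of_mul h
      have hm : 0 ≤ m := by
        by_contra hm
        exact h1 (cR_neg_aux b (by omega))
      have hm2 : m ≤ N := by
        by_contra hm
        exact h2 (cf_neg f (by omega) _)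
      obtain ⟨a, rfl⟩ := Int.eq_ofNat_of_zero_le hm
      rw [Finset.mem_coe, Finset.mem_map]
      exact ⟨a, Finset.mem_range.mpr (by omega), rfl⟩
    rw [finsum_eq_sum_of_support_subset _ hS, cf_nat, PowerSeries.coeff_mul, cf_aux_coeff_sum,
      Finset.Nat.sum_antidiagonal_eq_sum_range_succ
        (fun a c => (PowerSeries.coeff a (iota b) * PowerSeries.coeff c f).coeff j),
      Finset.sum_map]
    refine Finset.sum_congr rfl fun a ha => ?_
    have ha' : a ≤ N := by
      have := Finset.mem_range.mp ha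
      omega
    change _ = cR b (a : ℤ) * cf f ((N : ℤ) - (a : ℤ)) j
    rw [cR_nat_aux, ← Nat.cast_sub ha', cf_nat, iota, PowerSeries.coeff_map,
      ← LaurentPolynomial.smul_eq_C_mul, AddMonoidAlgebra.coeff_smul_apply, smul_eq_mul]

theorem cR_ext {b c : PowerSeries k} (h : ∀ n, cR b n = cR c n) : b = c := by
  refine PowerSeries.ext fun n => ?_
  rw [← cR_nat_aux, ← cR_nat_aux, h]

/-- Every function `ℤ × ℤ → k` with finitely many entries on each level comes from `Lam k`. -/
theorem exists_cf (a : ℤ → ℤ → k) (h0 : ∀ n < 0, ∀ j, a n j = 0)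
    (hf : ∀ n, {j | a n j ≠ 0}.Finite) : ∃ f : Lam k, ∀ n j, cf f n j = a n j := by
  classical
  refine ⟨PowerSeries.mk fun n => AddMonoidAlgebra.ofCoeff (Finsupp.ofSupportFinite (a (n : ℤ))
    (hf n)), fun n j => ?_⟩
  rcases lt_or_ge n 0 with hn | hn
  · rw [cf_neg _ hn, h0 n hn]
  · obtain ⟨m, rfl⟩ := Int.eq_ofNat_of_zero_le hn
    rw [cf_nat, PowerSeries.coeff_mk]
    rfl

theorem cf_X_mul (f : Lam k) (n j : ℤ) : cf (PowerSeries.X * f) n j = cf f (n - 1) j := by
  rcases lt_or_ge n 0 with hn | hn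
  · rw [cf_neg _ hn, cf_neg _ (by omega)]
  · obtain ⟨m, rfl⟩ := Int.eq_ofNat_of_zero_le hn
    cases m with
    | zero =>
      rw [cf_nat, PowerSeries.coeff_zero_X_mul, cf_neg f (by simp), AddMonoidAlgebra.coeff_zero,
        Finsupp.coe_zero, Pi.zero_apply]
    | succ m =>
      rw [cf_nat, PowerSeries.coeff_succ_X_mul, show (((m + 1 : ℕ) : ℤ) - 1) = (m : ℤ) by
        push_cast; ring, cf_nat]

/-- `π ∣ f` if the coefficients of level `0` vanish. -/
theorem exists_X_mul {f : Lam k} (h : ∀ j, cf f 0 j = 0) : ∃ g : Lam k, f = PowerSeries.X * g ∧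
    ∀ n j, cf g n j = cf f (n + 1) j := by
  have h1 : PowerSeries.constantCoeff f = 0 := by
    refine LaurentPolynomial.ext fun j => ?_
    have := h j
    rw [show (0 : ℤ) = ((0 : ℕ) : ℤ) from rfl, cf_nat, PowerSeries.coeff_zero_eq_constantCoeff_apply]
      at this
    rw [this, AddMonoidAlgebra.coeff_zero, Finsupp.coe_zero, Pi.zero_apply]
  obtain ⟨g, hg⟩ := PowerSeries.X_dvd_iff.mpr h1
  refine ⟨g, hg, fun n j => ?_⟩
  rw [hg, cf_X_mul, add_sub_cancel_right]

theorem iota_X : iota (PowerSeries.X : PowerSeries k) = PowerSeries.X := by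
  rw [iota, PowerSeries.map_X]

theorem iota_injective : Function.Injective (iota : PowerSeries k →+* Lam k) := by
  intro b c h
  refine cR_ext fun n => ?_
  have h1 := congrArg (fun f => cf f n 0) h
  change cf (iota b) n 0 = cf (iota c) n 0 at h1
  rwa [cf_iota, cf_iota, if_pos rfl, if_pos rfl] at h1

/-- Level zero of a product. -/
theorem constantCoeff_coeff (f : Lam k) (j : ℤ) :
    (PowerSeries.constantCoeff f).coeff j = cf f 0 j := by
  rw [show (0 : ℤ) = ((0 : ℕ) : ℤ) from rfl, cf_nat, PowerSeries.coeff_zero_eq_constantCoeff_apply]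

theorem isUnit_of_T {f : Lam k} {c : k} (hc : c ≠ 0) (i : ℤ)
    (h : PowerSeries.constantCoeff f = LaurentPolynomial.C c * LaurentPolynomial.T i) :
    IsUnit f := by
  rw [PowerSeries.isUnit_iff_constantCoeff, h]
  exact ((IsUnit.mk0 c hc).map LaurentPolynomial.C).mul (LaurentPolynomial.isUnit_T i)

end ShghT
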