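import Pool.Agent.ShghT.Defs

/-!
# Numerical facts on standard classes
-/

namespace ShghT

set_option linter.unusedVariables false

private lemma arith_choose (m : ℕ) : 2 * (m + 1).choose 2 = m * (m + 1) := by
  induction m with
  | zero => rfl
  | succ m ih =>
    rw [Nat.choose_succ_succ' (m + 1) 1, mul_add, ih, Nat.choose_one_right]
    ring

private lemma arith_cauchy (N : Fin 9 → ℤ) (l0 : Fin 9) (h0 : N l0 = 0) :
    (∑ l, N l) ^ 2 ≤ 8 * ∑ l, N l ^ 2 := by
  have h1 := Finset.add_sum_erase Finset.univ N (Finset.mem_univ l0)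
  have h2 := Finset.add_sum_erase Finset.univ (fun l => N l ^ 2) (Finset.mem_univ l0)
  rw [h0, zero_add] at h1
  rw [h0] at h2
  have h3 := sq_sum_le_card_mul_sum_sq (s := Finset.univ.erase l0) (f := N)
  rw [Finset.card_erase_of_mem (Finset.mem_univ _), Finset.card_univ, Fintype.card_fin] at h3
  rw [← h1, ← h2]
  push_cast at h3
  linarith

private lemma arith_standard (n : ℕ) (N : Fin 9 → ℕ)
    (hstd : ∀ i j l, i ≠ j → i ≠ l → j ≠ l → N i + N j + N l ≤ n) (l0 : Fin 9) (h0 : N l0 = 0) :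
    ∑ l, N l ^ 2 ≤ n ^ 2 := by
  obtain ⟨i, -, hi⟩ := Finset.exists_max_image (Finset.univ : Finset (Fin 9)) N
    ⟨l0, Finset.mem_univ _⟩
  have hc1 : (Finset.univ.erase i).card = 8 := by
    rw [Finset.card_erase_of_mem (Finset.mem_univ _), Finset.card_univ, Fintype.card_fin]
  obtain ⟨j, hj', hj⟩ := Finset.exists_max_image (Finset.univ.erase i) N
    (Finset.card_pos.mp (by omega))
  have hc2 : ((Finset.univ.erase i).erase j).card = 7 := by
    rw [Finset.card_erase_of_mem hj', hc1]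
  obtain ⟨k, hk', hk⟩ := Finset.exists_max_image ((Finset.univ.erase i).erase j) N
    (Finset.card_pos.mp (by omega))
  have hji : j ≠ i := (Finset.mem_erase.mp hj').1
  have hkj : k ≠ j := (Finset.mem_erase.mp hk').1
  have hki : k ≠ i := (Finset.mem_erase.mp (Finset.mem_erase.mp hk').2).1
  have hsum := hstd i j k hji.symm hki.symm hkj.symm
  have hab : N j ≤ N i := hi j (Finset.mem_univ _)
  have hbc : N k ≤ N j := hj k (Finset.mem_erase.mp hk').2
  have h1 := Finset.add_sum_erase Finset.univ (fun l => N l ^ 2) (Finset.mem_univ i)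
  have h2 := Finset.add_sum_erase (Finset.univ.erase i) (fun l => N l ^ 2) hj'
  have hT : ∑ l ∈ (Finset.univ.erase i).erase j, N l ^ 2 ≤ 6 * N k ^ 2 := by
    by_cases hl : l0 ∈ (Finset.univ.erase i).erase j
    · have h3 := Finset.add_sum_erase _ (fun l => N l ^ 2) hl
      rw [h0] at h3
      have h4 : ∑ l ∈ ((Finset.univ.erase i).erase j).erase l0, N l ^ 2 ≤
          ∑ _l ∈ ((Finset.univ.erase i).erase j).erase l0, N k ^ 2 :=
        Finset.sum_le_sum fun l hl' => Nat.pow_le_pow_left (hk l (Finset.mem_erase.mp hl').2) 2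
      rw [Finset.sum_const, Finset.card_erase_of_mem hl, hc2, smul_eq_mul] at h4
      omega
    · have h3 : N k = 0 := by
        rw [Finset.mem_erase, Finset.mem_erase] at hl
        by_cases h5 : l0 = j
        · rw [h5] at h0
          omega
        · by_cases h6 : l0 = i
          · rw [h6] at h0
            omega
          · exact absurd ⟨h5, h6, Finset.mem_univ _⟩ hl
      refine le_of_eq ?_
      rw [h3]
      refine Finset.sum_eq_zero fun l hl' => ?_
      have := hk l hl'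
      rw [h3, Nat.le_zero] at this
      rw [this]
      rfl
  have h5 : ∑ l, N l ^ 2 ≤ N i ^ 2 + (N j ^ 2 + 6 * N k ^ 2) := by omega
  refine h5.trans ?_
  have h6 : (N i + N j + N k) ^ 2 ≤ n ^ 2 := Nat.pow_le_pow_left hsum 2
  refine le_trans ?_ h6
  nlinarith [Nat.mul_le_mul hbc hbc, Nat.mul_le_mul (hbc.trans hab) hbc,
    Nat.mul_le_mul_right (N k) (hbc.trans hab), Nat.mul_le_mul_right (N k) hbc,
    Nat.mul_le_mul_left (N i) hbc]

/-- `χ(D) = e y + χ(N)`, `2 χ(N) ≤ e² + e + 2`, `e + 2 ≤ 2 χ(N)`. -/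
theorem arith (δ : ℕ) (M : Fin 9 → ℕ)
    (hstd : ∀ i j l, i ≠ j → i ≠ l → j ≠ l → M i + M j + M l ≤ δ) (y : ℕ) (hy : ∀ l, y ≤ M l)
    (l0 : Fin 9) (h0 : M l0 = y) (e : ℕ) (he : 3 * δ = e + ∑ l, M l) :
    3 * y ≤ δ ∧ ∃ c : ℕ, (δ - 3 * y + 2).choose 2 = c + ∑ l, (M l - y + 1).choose 2 ∧
      (δ + 2).choose 2 = e * y + c + ∑ l, (M l + 1).choose 2 ∧
      2 * c ≤ e ^ 2 + e + 2 ∧ e + 2 ≤ 2 * c := by
  have h3y : 3 * y ≤ δ := by
    have h1 := hstd 0 1 2 (by decide) (by decide) (by decide)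
    have h2 := hy 0
    have h3 := hy 1
    have h4 := hy 2
    omega
  refine ⟨h3y, ?_⟩
  obtain ⟨n, hn⟩ : ∃ n, δ = n + 3 * y := ⟨δ - 3 * y, by omega⟩
  obtain ⟨N, hN⟩ : ∃ N : Fin 9 → ℕ, ∀ l, M l = N l + y :=
    ⟨fun l => M l - y, fun l => by have := hy l; dsimp only; omega⟩
  have hN0 : N l0 = 0 := by
    have := hN l0
    omega
  have hstdN : ∀ i j l, i ≠ j → i ≠ l → j ≠ l → N i + N j + N l ≤ n := by
    intro i j l hij hil hjl
    have h1 := hstd i j l hij hil hjl
    rw [hN i, hN j, hN l] at h1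
    omega
  have hsum : ∑ l, M l = ∑ l, N l + 9 * y := by
    rw [Finset.sum_congr rfl fun l _ => hN l, Finset.sum_add_distrib, Finset.sum_const,
      Finset.card_univ, Fintype.card_fin, smul_eq_mul]
  have heN : 3 * n = e + ∑ l, N l := by omega
  have hsq := arith_standard n N hstdN l0 hN0
  have hca := arith_cauchy (fun l => (N l : ℤ)) l0 (by exact_mod_cast hN0)
  -- doubled binomial coefficients
  have e1 : 2 * ∑ l, (N l + 1).choose 2 = ∑ l, N l ^ 2 + ∑ l, N l := by
    rw [Finset.mul_sum, ← Finset.sum_add_distrib]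
    refine Finset.sum_congr rfl fun l _ => ?_
    rw [arith_choose]
    ring
  have e2 : 2 * (n + 2).choose 2 = n ^ 2 + 3 * n + 2 := by
    rw [arith_choose (n + 1)]
    ring
  have e3 : 2 * ∑ l, (M l + 1).choose 2 =
      ∑ l, N l ^ 2 + ∑ l, N l + 2 * y * ∑ l, N l + 9 * (y ^ 2 + y) := by
    rw [Finset.mul_sum, Finset.mul_sum, ← Finset.sum_add_distrib, ← Finset.sum_add_distrib]
    have : 9 * (y ^ 2 + y) = ∑ _l : Fin 9, (y ^ 2 + y) := by
      rw [Finset.sum_const, Finset.card_univ, Fintype.card_fin, smul_eq_mul]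
    rw [this, ← Finset.sum_add_distrib]
    refine Finset.sum_congr rfl fun l _ => ?_
    rw [arith_choose, hN l]
    ring
  have e4 : 2 * (δ + 2).choose 2 = n ^ 2 + 3 * n + 2 + 6 * n * y + 9 * (y ^ 2 + y) := by
    rw [arith_choose (δ + 1), hn]
    ring
  have hle : ∑ l, (N l + 1).choose 2 ≤ (n + 2).choose 2 := by omega
  refine ⟨(n + 2).choose 2 - ∑ l, (N l + 1).choose 2, ?_, ?_, ?_, ?_⟩
  · have h1 : δ - 3 * y + 2 = n + 2 := by omega
    have h2 : ∑ l, (M l - y + 1).choose 2 = ∑ l, (N l + 1).choose 2 := by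
      refine Finset.sum_congr rfl fun l _ => ?_
      have : M l - y = N l := by have := hN l; omega
      rw [this]
    rw [h1, h2]
    omega
  · set a := (n + 2).choose 2 with ha
    set b := ∑ l, (N l + 1).choose 2 with hb
    set S := ∑ l, N l with hS
    set Q := ∑ l, N l ^ 2 with hQ
    set B := ∑ l, (M l + 1).choose 2 with hB
    have h1 : 2 * (δ + 2).choose 2 + 2 * b = 2 * (e * y) + 2 * a + 2 * B := by
      rw [e4, e3, e2, e1]
      have h2 : 6 * n * y = 2 * (e * y) + 2 * y * S := by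
        calc 6 * n * y = 2 * y * (3 * n) := by ring
          _ = _ := by rw [heN]; ring
      omega
    omega
  · set S := ∑ l, N l with hS
    set Q := ∑ l, N l ^ 2 with hQ
    have hcaZ : (S : ℤ) ^ 2 ≤ 8 * (Q : ℤ) := by
      rw [hS, hQ]
      push_cast
      exact hca
    have hkey : n ^ 2 ≤ e ^ 2 + Q := by
      have h1 : (3 * n : ℤ) = e + S := by exact_mod_cast heN
      have h2 : (n : ℤ) ^ 2 ≤ (e : ℤ) ^ 2 + Q := by
        have h3 : (e : ℤ) = 3 * n - S := by linarith
        rw [h3]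
        nlinarith [sq_nonneg (8 * (n : ℤ) - 3 * S)]
      exact_mod_cast h2
    omega
  · omega

/-- The last level with sections. -/
theorem arith_J (δ : ℕ) (M : Fin 9 → ℕ) (y : ℕ) (hy : ∀ l, y ≤ M l) (l0 : Fin 9) (h0 : M l0 = y)
    (e : ℕ) (he : 3 * δ = e + ∑ l, M l) :
    ∃ J : ℕ, J ≤ y + e ∧ (∀ j ≤ J, ∑ l, ((M l : ℤ) - j).toNat ≤ 3 * (δ - 3 * j)) ∧
      ∀ o, J < o → 3 * o ≤ δ → ¬ ∑ l, (M l - o) ≤ 3 * (δ - 3 * o) := by
  classical
  set P : ℕ → Prop := fun j => 3 * j ≤ δ ∧ ∑ l, (M l - j) ≤ 3 * (δ - 3 * j) with hP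
  have hP0 : P 0 := by
    refine ⟨by omega, ?_⟩
    simp only [Nat.sub_zero, Nat.mul_zero]
    omega
  have hJ := Nat.findGreatest_spec (P := P) (Nat.zero_le δ) hP0
  set J := Nat.findGreatest P δ with hJdef
  refine ⟨J, ?_, ?_, ?_⟩
  · obtain ⟨h1, h2⟩ := hJ
    have h3 := Finset.add_sum_erase Finset.univ (fun l => M l - J) (Finset.mem_univ l0)
    have h4 := Finset.add_sum_erase Finset.univ M (Finset.mem_univ l0)
    have h5 : ∑ l ∈ Finset.univ.erase l0, M l ≤ ∑ l ∈ Finset.univ.erase l0, (M l - J) + 8 * J := by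
      have h6 : 8 * J = ∑ _l ∈ Finset.univ.erase l0, J := by
        rw [Finset.sum_const, Finset.card_erase_of_mem (Finset.mem_univ _), Finset.card_univ,
          Fintype.card_fin, smul_eq_mul]
      rw [h6, ← Finset.sum_add_distrib]
      exact Finset.sum_le_sum fun l _ => by omega
    omega
  · intro j hj
    obtain ⟨h1, h2⟩ := hJ
    have h3 : ∑ l, ((M l : ℤ) - j).toNat = ∑ l, (M l - j) :=
      Finset.sum_congr rfl fun l _ => by omega
    have h4 : ∑ l, (M l - j) ≤ ∑ l, (M l - J) + 9 * (J - j) := by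
      have h6 : 9 * (J - j) = ∑ _l : Fin 9, (J - j) := by
        rw [Finset.sum_const, Finset.card_univ, Fintype.card_fin, smul_eq_mul]
      rw [h6, ← Finset.sum_add_distrib]
      exact Finset.sum_le_sum fun l _ => by omega
    rw [h3]
    omega
  · intro o ho h3o hcon
    have h1 := Nat.findGreatest_is_greatest (P := P) (n := δ) ho (by omega)
    exact h1 ⟨h3o, hcon⟩

end ShghT
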