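import Pool.Agent.ShghT.Comb

/-!
# Placing tents so that their sum decreases
-/

namespace ShghT

/-- The value at `j` of the tent of multiplicity `m` with centre `p` and sign `s`. -/
noncomputable def tv (m : ℕ) (p : ℤ) (s : Bool) (j : ℤ) : ℕ := ((m : ℤ) + 1 - rk p s j).toNat

private theorem Chain_tv_true (m : ℕ) (p j : ℤ) :
    tv m p true j = ((m : ℤ) + 1 - max (2 * (j - p)) (1 - 2 * (j - p))).toNat := by
  unfold tv rk
  rw [if_pos rfl]

private theorem Chain_tv_false (m : ℕ) (p j : ℤ) :
    tv m p false j = ((m : ℤ) + 1 - max (2 * (p - j)) (1 - 2 * (p - j))).toNat := by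
  unfold tv rk
  rw [if_neg (by simp)]

/-- The place of the next tent. -/
private theorem Chain_next (n : ℕ) (x : ℤ) (s : Bool) : ∃ (x' : ℤ) (s' : Bool), x ≤ x' ∧
    (n ≠ 0 → x < x') ∧ tv n x s x = n ∧
    (∀ j, x' ≤ j → tv n x s j = 0) ∧
    (∀ M : ℕ, M ≤ n → ∀ j, j ≤ x → j < x' → tv M x' s' j = 0) ∧
    (∀ M : ℕ, M ≤ n → ∀ j, x ≤ j → j + 1 < x' →
      tv n x s (j + 1) + tv M x' s' (j + 1) ≤ tv n x s j + tv M x' s' j) ∧
    (∀ M : ℕ, M ≤ n → ∀ j, x ≤ j → j + 1 = x' → M ≤ tv n x s j + tv M x' s' j) := by
  rcases Nat.even_or_odd n with hn | hn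
  · obtain ⟨k, hk⟩ := hn
    cases s
    · refine ⟨x + k, true, ?_, ?_, ?_, ?_, ?_, ?_, ?_⟩
      · omega
      · omega
      · rw [Chain_tv_false]; omega
      · intro j hj; rw [Chain_tv_false]; omega
      · intro M hM j hj hj'; rw [Chain_tv_true]; omega
      · intro M hM j hj hj'
        simp only [Chain_tv_true, Chain_tv_false]
        omega
      · intro M hM j hj hj'
        simp only [Chain_tv_true, Chain_tv_false]
        omega
    · refine ⟨x + k + 1, false, ?_, ?_, ?_, ?_, ?_, ?_, ?_⟩
      · omega
      · omega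
      · rw [Chain_tv_true]; omega
      · intro j hj; rw [Chain_tv_true]; omega
      · intro M hM j hj hj'; rw [Chain_tv_false]; omega
      · intro M hM j hj hj'
        simp only [Chain_tv_true, Chain_tv_false]
        omega
      · intro M hM j hj hj'
        simp only [Chain_tv_true, Chain_tv_false]
        omega
  · obtain ⟨k, hk⟩ := hn
    cases s
    · refine ⟨x + k + 1, false, ?_, ?_, ?_, ?_, ?_, ?_, ?_⟩
      · omega
      · omega
      · rw [Chain_tv_false]; omega
      · intro j hj; rw [Chain_tv_false]; omega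
      · intro M hM j hj hj'; rw [Chain_tv_false]; omega
      · intro M hM j hj hj'
        simp only [Chain_tv_false]
        omega
      · intro M hM j hj hj'
        simp only [Chain_tv_false]
        omega
    · refine ⟨x + k + 1, true, ?_, ?_, ?_, ?_, ?_, ?_, ?_⟩
      · omega
      · omega
      · rw [Chain_tv_true]; omega
      · intro j hj; rw [Chain_tv_true]; omega
      · intro M hM j hj hj'; rw [Chain_tv_true]; omega
      · intro M hM j hj hj'
        simp only [Chain_tv_true]
        omega
      · intro M hM j hj hj'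
        simp only [Chain_tv_true]
        omega

private theorem Chain_zero (p : ℤ) (s : Bool) (j : ℤ) : tv 0 p s j = 0 := by
  have := rk_pos p s j
  unfold tv
  omega

theorem chain {r : ℕ} (m : Fin r → ℕ) (S : Finset (Fin r)) (x : ℤ) (s : Bool) :
    ∃ (p : Fin r → ℤ) (σ : Fin r → Bool),
      (∀ j, x ≤ j → ∑ i ∈ S, tv (m i) (p i) (σ i) (j + 1) ≤ ∑ i ∈ S, tv (m i) (p i) (σ i) j) ∧
      ∑ i ∈ S, tv (m i) (p i) (σ i) x = S.sup m ∧
      ∀ j, j < x → ∑ i ∈ S, tv (m i) (p i) (σ i) j = tv (S.sup m) x s j := by
  induction S using Finset.induction_on_max_value m generalizing x s with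
  | empty =>
    refine ⟨fun _ => 0, fun _ => true, ?_, ?_, ?_⟩
    · intro j _
      simp
    · simp
    · intro j _
      simp [Chain_zero]
  | insert a S ha hmax ih =>
    obtain ⟨x', s', hx1, hx2, hx3, h4, h5, h6, h7⟩ := Chain_next (m a) x s
    obtain ⟨p, σ, i1, i2, i3⟩ := ih x' s'
    have hM : S.sup m ≤ m a := Finset.sup_le hmax
    have hsup : (insert a S).sup m = m a := by
      rw [Finset.sup_insert]
      exact sup_eq_left.2 hM
    have hsum : ∀ j, ∑ i ∈ insert a S,
        tv (m i) (Function.update p a x i) (Function.update σ a s i) j =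
        tv (m a) x s j + ∑ i ∈ S, tv (m i) (p i) (σ i) j := by
      intro j
      rw [Finset.sum_insert ha, Function.update_self, Function.update_self]
      congr 1
      apply Finset.sum_congr rfl
      intro i hi
      have hne : i ≠ a := fun h => ha (h ▸ hi)
      rw [Function.update_of_ne hne, Function.update_of_ne hne]
    refine ⟨Function.update p a x, Function.update σ a s, ?_, ?_, ?_⟩
    · intro j hj
      rw [hsum, hsum]
      rcases lt_trichotomy (j + 1) x' with h | h | h
      · rw [i3 (j + 1) h, i3 j (by omega)]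
        exact h6 _ hM j hj h
      · have e1 := h7 _ hM j hj h
        have e2 := h4 (j + 1) (by omega)
        rw [i3 j (by omega), e2, h, i2]
        omega
      · have e1 := h4 (j + 1) (by omega)
        have e2 := i1 j (by omega)
        omega
    · rw [hsum, hsup, hx3]
      rcases hx1.lt_or_eq with h | h
      · rw [i3 x h, h5 _ hM x le_rfl h]
        omega
      · have h0 : m a = 0 := by
          by_contra hne
          have := hx2 hne
          omega
        rw [h, i2]
        omega
    · intro j hj
      rw [hsum, hsup, i3 j (by omega), h5 _ hM j (by omega) (by omega)]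
      omega

end ShghT
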