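import Pool.Agent.ShghT.Defs

/-!
# Points depending on a parameter
-/

namespace ShghT

open MvPolynomial

section Clear

/-- The translation `X 0 ↦ X 0 + a`, `X 1 ↦ X 1 + b`. -/
private noncomputable def clShift {R : Type*} [CommRing R] (a b : R) :
    MvPolynomial (Fin 2) R →ₐ[R] MvPolynomial (Fin 2) R := aeval ![X 0 + C a, X 1 + C b]

private theorem clShift_X0 {R : Type*} [CommRing R] (a b : R) :
    clShift a b (X 0) = X 0 + C a := by
  simp [clShift]

private theorem clShift_X1 {R : Type*} [CommRing R] (a b : R) :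
    clShift a b (X 1) = X 1 + C b := by
  simp [clShift]

private theorem clShift_C {R : Type*} [CommRing R] (a b c : R) : clShift a b (C c) = C c := by
  simp [clShift]

private theorem clShift_neg {R : Type*} [CommRing R] (a b : R) (f : MvPolynomial (Fin 2) R) :
    clShift (-a) (-b) (clShift a b f) = f := by
  have h : (clShift (-a) (-b)).comp (clShift a b) = AlgHom.id R _ := by
    apply MvPolynomial.algHom_ext
    intro i
    fin_cases i
    · change clShift (-a) (-b) (clShift a b (X 0)) = X 0
      rw [clShift_X0, map_add, clShift_X0, clShift_C, C_neg]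
      ring
    · change clShift (-a) (-b) (clShift a b (X 1)) = X 1
      rw [clShift_X1, map_add, clShift_X1, clShift_C, C_neg]
      ring
  exact DFunLike.congr_fun h f

private theorem cl_mem_iff {R : Type*} [CommRing R] (a b : R) (m : ℕ) (f : MvPolynomial (Fin 2) R) :
    f ∈ (Ideal.span {X 0 - C a, X 1 - C b} : Ideal (MvPolynomial (Fin 2) R)) ^ m ↔
      ∀ x : Fin 2 →₀ ℕ, x.degree < m → (clShift a b f).coeff x = 0 := by
  rw [← mem_pow_idealOfVars_iff']
  constructor
  · intro h
    have h1 := Ideal.mem_map_of_mem (clShift a b) h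
    rw [Ideal.map_pow] at h1
    refine Ideal.pow_right_mono ?_ m h1
    rw [Ideal.map_span, Ideal.span_le]
    rintro _ ⟨g, hg, rfl⟩
    rcases hg with rfl | rfl
    · rw [map_sub, clShift_X0, clShift_C, add_sub_cancel_right]
      exact Ideal.subset_span ⟨0, rfl⟩
    · rw [map_sub, clShift_X1, clShift_C, add_sub_cancel_right]
      exact Ideal.subset_span ⟨1, rfl⟩
  · intro h
    have h1 := Ideal.mem_map_of_mem (clShift (-a) (-b)) h
    rw [Ideal.map_pow, clShift_neg] at h1
    refine Ideal.pow_right_mono ?_ m h1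
    rw [Ideal.map_span, Ideal.span_le]
    rintro _ ⟨g, ⟨i, rfl⟩, rfl⟩
    fin_cases i
    · change clShift (-a) (-b) (X 0) ∈ _
      rw [clShift_X0, C_neg, ← sub_eq_add_neg]
      exact Ideal.subset_span (Or.inl rfl)
    · change clShift (-a) (-b) (X 1) ∈ _
      rw [clShift_X1, C_neg, ← sub_eq_add_neg]
      exact Ideal.subset_span (Or.inr rfl)

/-- The coefficients of the translated monomials. -/
private noncomputable def clM {R : Type*} [CommRing R] (a b : R) (e x : Fin 2 →₀ ℕ) : R :=
  (clShift a b (monomial e 1)).coeff x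

private theorem clM_map {R R' : Type*} [CommRing R] [CommRing R'] (φ : R →+* R') (a b : R)
    (e x : Fin 2 →₀ ℕ) : clM (φ a) (φ b) e x = φ (clM a b e x) := by
  have h : (clShift (φ a) (φ b)).toRingHom.comp (MvPolynomial.map φ) =
      (MvPolynomial.map φ).comp (clShift a b).toRingHom := by
    apply MvPolynomial.ringHom_ext
    · intro r
      simp [clShift]
    · intro i
      fin_cases i <;> simp [clShift]
  have h1 := RingHom.congr_fun h (monomial e 1)
  have h2 : clShift (φ a) (φ b) (monomial e 1) =
      MvPolynomial.map φ (clShift a b (monomial e 1)) := by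
    have h3 : MvPolynomial.map φ (monomial e (1 : R)) = monomial e 1 := by
      rw [map_monomial, map_one]
    have h4 : clShift (φ a) (φ b) (MvPolynomial.map φ (monomial e (1 : R))) =
      MvPolynomial.map φ (clShift a b (monomial e 1)) := h1
    rwa [h3] at h4
  unfold clM
  rw [h2, coeff_map]

private theorem cl_coeff {R : Type*} [CommRing R] (a b : R) (T : Finset (Fin 2 →₀ ℕ))
    (c : (Fin 2 →₀ ℕ) → R) (x : Fin 2 →₀ ℕ) :
    (clShift a b (∑ e ∈ T, monomial e (c e))).coeff x = ∑ e ∈ T, clM a b e x * c e := by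
  rw [map_sum, coeff_sum]
  refine Finset.sum_congr rfl fun e _ => ?_
  have h : (monomial e (c e) : MvPolynomial (Fin 2) R) = c e • monomial e 1 := by
    rw [smul_monomial, smul_eq_mul, mul_one]
  rw [h, map_smul, coeff_smul, smul_eq_mul, mul_comm]
  rfl

end Clear

/-- A nonzero curve over `K(ξ)` gives a nonzero element of `K[x, y][ξ]`. -/
theorem clear_xi {K : Type*} [Field K] {s : ℕ} (P : Fin s → Fin 2 → Polynomial K) (δ : ℕ)
    (μ : Fin s → ℕ) (Z : Finset (Fin 2 →₀ ℕ)) (f : MvPolynomial (Fin 2) (FractionRing (Polynomial K)))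
    (hf : f ≠ 0) (hdeg : f.totalDegree ≤ δ) (hZ : ∀ e ∈ Z, f.coeff e = 0)
    (hμ : ∀ i, f ∈ pt (algebraMap (Polynomial K) (FractionRing (Polynomial K)) (P i 0))
      (algebraMap (Polynomial K) (FractionRing (Polynomial K)) (P i 1)) ^ μ i) :
    ∃ F : Polynomial (MvPolynomial (Fin 2) K), F ≠ 0 ∧ (∀ l, (F.coeff l).totalDegree ≤ δ) ∧
      (∀ l, ∀ e ∈ Z, (F.coeff l).coeff e = 0) ∧
      ∀ i, F ∈ (Ideal.span {Polynomial.C (X 0) - Polynomial.map C (P i 0),
        Polynomial.C (X 1) - Polynomial.map C (P i 1)} :
        Ideal (Polynomial (MvPolynomial (Fin 2) K))) ^ μ i := by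
  classical
  have hinj : Function.Injective (algebraMap (Polynomial K) (FractionRing (Polynomial K))) :=
    IsFractionRing.injective _ _
  -- clear denominators
  obtain ⟨d, hd⟩ := IsLocalization.exist_integer_multiples_of_finset
    (nonZeroDivisors (Polynomial K)) (f.support.image fun e => f.coeff e)
  have hd' : ∀ e ∈ f.support, ∃ c : Polynomial K,
      algebraMap (Polynomial K) (FractionRing (Polynomial K)) c =
        algebraMap (Polynomial K) (FractionRing (Polynomial K)) d * f.coeff e := by
    intro e he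
    obtain ⟨c, hc⟩ := hd _ (Finset.mem_image_of_mem (fun e => f.coeff e) he)
    exact ⟨c, by rw [hc, Algebra.smul_def]⟩
  have hd0 : algebraMap (Polynomial K) (FractionRing (Polynomial K)) d ≠ 0 := by
    rw [Ne, map_eq_zero_iff _ hinj]
    exact nonZeroDivisors.coe_ne_zero d
  choose! c hc using hd'
  have hc0 : ∀ e ∈ f.support, c e ≠ 0 := by
    intro e he h0
    have h1 := hc e he
    rw [h0, map_zero] at h1
    exact (mem_support_iff.1 he) ((mul_eq_zero.1 h1.symm).resolve_left hd0)
  have hcond : ∀ i, ∀ x : Fin 2 →₀ ℕ, x.degree < μ i →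
      ∑ e ∈ f.support, clM (P i 0) (P i 1) e x * c e = 0 := by
    intro i x hx
    apply hinj
    rw [map_zero, map_sum]
    have h1 := (cl_mem_iff _ _ _ _).1 (hμ i) x hx
    rw [f.as_sum, cl_coeff] at h1
    have h2 : ∀ e ∈ f.support, algebraMap (Polynomial K) (FractionRing (Polynomial K))
        (clM (P i 0) (P i 1) e x * c e) =
        algebraMap (Polynomial K) (FractionRing (Polynomial K)) d *
          (clM (algebraMap (Polynomial K) (FractionRing (Polynomial K)) (P i 0))
            (algebraMap (Polynomial K) (FractionRing (Polynomial K)) (P i 1)) e x * f.coeff e) := by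
      intro e he
      rw [map_mul, ← clM_map, hc e he]
      ring
    rw [Finset.sum_congr rfl h2, ← Finset.mul_sum, h1, mul_zero]
  -- the polynomial
  let Φ : MvPolynomial (Fin 2) (Polynomial K) →+* Polynomial (MvPolynomial (Fin 2) K) :=
    eval₂Hom (Polynomial.mapRingHom C) (fun i => Polynomial.C (X i))
  let G : MvPolynomial (Fin 2) (Polynomial K) := ∑ e ∈ f.support, monomial e (c e)
  have hΦmon : ∀ (e : Fin 2 →₀ ℕ) (p : Polynomial K) l,
      (Φ (monomial e p)).coeff l = monomial e (p.coeff l) := by
    intro e p l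
    have h1 : Φ (monomial e p) = Polynomial.map C p * Polynomial.C (monomial e 1) := by
      simp only [Φ]
      rw [coe_eval₂Hom, eval₂_monomial]
      congr 1
      rw [monomial_eq, C_1, one_mul, Finsupp.prod, Finsupp.prod, map_prod]
      simp
    rw [h1, Polynomial.coeff_mul_C, Polynomial.coeff_map, C_mul_monomial, mul_one]
  have hcoeff : ∀ l, (Φ G).coeff l = ∑ e ∈ f.support, monomial e ((c e).coeff l) := by
    intro l
    simp only [G]
    rw [map_sum, Polynomial.finsetSum_coeff]
    exact Finset.sum_congr rfl fun e _ => hΦmon _ _ _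
  have hcc : ∀ l e, ((Φ G).coeff l).coeff e = if e ∈ f.support then (c e).coeff l else 0 := by
    intro l e
    rw [hcoeff, coeff_sum]
    simp only [coeff_monomial]
    rw [Finset.sum_ite_eq']
  refine ⟨Φ G, fun h0 => ?_, fun l => ?_, fun l e he => ?_, fun i => ?_⟩
  · obtain ⟨e, he⟩ := MvPolynomial.ne_zero_iff.1 hf
    have he' : e ∈ f.support := mem_support_iff.2 he
    apply hc0 e he'
    ext l
    have h1 := hcc l e
    rw [h0, Polynomial.coeff_zero, coeff_zero, if_pos he'] at h1
    rw [← h1, Polynomial.coeff_zero]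
  · rw [totalDegree, Finset.sup_le_iff]
    intro e he
    by_contra hcon
    rw [mem_support_iff, hcc] at he
    have he' : e ∈ f.support := by
      by_contra h
      exact he (if_neg h)
    exact hcon ((le_totalDegree he').trans hdeg)
  · rw [hcc, if_neg]
    rw [mem_support_iff, hZ e he]
    simp
  · have h1 : G ∈ (Ideal.span {X 0 - C (P i 0), X 1 - C (P i 1)} :
        Ideal (MvPolynomial (Fin 2) (Polynomial K))) ^ μ i := by
      refine (cl_mem_iff _ _ _ _).2 fun x hx => ?_
      rw [cl_coeff]
      exact hcond i x hx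
    have h2 := Ideal.mem_map_of_mem Φ h1
    rw [Ideal.map_pow] at h2
    refine Ideal.pow_right_mono ?_ _ h2
    rw [Ideal.map_span, Ideal.span_le]
    rintro _ ⟨g, hg, rfl⟩
    rcases hg with rfl | rfl
    · refine Ideal.subset_span (Or.inl ?_)
      simp [Φ]
    · refine Ideal.subset_span (Or.inr ?_)
      simp [Φ]

end ShghT
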