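import Pool.Agent.ShghT.Defs

/-!
# Multiplicities along powers of the cubic; decomposition with respect to the cubic
-/

namespace ShghT

open MvPolynomial

variable {K : Type*} [Field K]

/-- Translation of the plane. -/
private noncomputable def colonTr (a b : K) : MvPolynomial (Fin 2) K →ₐ[K] MvPolynomial (Fin 2) K :=
  aeval ![X 0 + C a, X 1 + C b]

private theorem colonTr_tr (a b : K) (f : MvPolynomial (Fin 2) K) :
    colonTr (-a) (-b) (colonTr a b f) = f := by
  have h : (colonTr (-a) (-b)).comp (colonTr a b) = AlgHom.id K _ := by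
    apply MvPolynomial.algHom_ext
    intro i
    fin_cases i <;> simp [colonTr, algebraMap_eq]
  exact congrArg (fun φ => φ f) h

private theorem colon_map_pt (a b : K) :
    Ideal.map (colonTr a b) (pt a b) = idealOfVars (Fin 2) K := by
  rw [pt, Ideal.map_span]
  congr 1
  ext x
  simp [colonTr, algebraMap_eq, Set.image_pair, Fin.exists_fin_two, eq_comm]

private theorem colon_map_vars (a b : K) :
    Ideal.map (colonTr (-a) (-b)) (idealOfVars (Fin 2) K) = pt a b := by
  rw [pt, Ideal.map_span]
  congr 1
  ext x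
  simp [colonTr, Fin.exists_fin_two, eq_comm, sub_eq_add_neg]

private theorem colon_mem_pt_iff (a b : K) (m : ℕ) (f : MvPolynomial (Fin 2) K) :
    f ∈ pt a b ^ m ↔ colonTr a b f ∈ idealOfVars (Fin 2) K ^ m := by
  constructor
  · intro h
    have := Ideal.mem_map_of_mem (colonTr a b) h
    rwa [Ideal.map_pow, colon_map_pt] at this
  · intro h
    have := Ideal.mem_map_of_mem (colonTr (-a) (-b)) h
    rwa [Ideal.map_pow, colon_map_vars, colonTr_tr] at this

private theorem colon_mem_vars_iff (m : ℕ) (f : MvPolynomial (Fin 2) K) :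
    f ∈ idealOfVars (Fin 2) K ^ m ↔ (m : ℕ∞) ≤ (f : MvPowerSeries (Fin 2) K).order := by
  rw [mem_pow_idealOfVars_iff']
  constructor
  · intro h
    apply MvPowerSeries.nat_le_order
    intro d hd
    rw [MvPolynomial.coeff_coe]
    exact h d hd
  · intro h x hx
    rw [← MvPolynomial.coeff_coe]
    apply MvPowerSeries.coeff_of_lt_order
    exact lt_of_lt_of_le (by exact_mod_cast hx) h

/-- restriction to the line `y = 0` through the origin -/
private noncomputable def colonLn : MvPolynomial (Fin 2) K →ₐ[K] Polynomial K :=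
  aeval ![Polynomial.X, 0]

private theorem colonLn_mem (m : ℕ) (f : MvPolynomial (Fin 2) K)
    (h : f ∈ idealOfVars (Fin 2) K ^ m) : Polynomial.X ^ m ∣ colonLn f := by
  have h1 := Ideal.mem_map_of_mem (colonLn (K := K)) h
  rw [Ideal.map_pow] at h1
  have h2 : Ideal.map (colonLn (K := K)) (idealOfVars (Fin 2) K) ≤ Ideal.span {Polynomial.X} := by
    rw [Ideal.map_span, Ideal.span_le]
    rintro x ⟨y, ⟨i, rfl⟩, rfl⟩
    rw [SetLike.mem_coe, Ideal.mem_span_singleton]
    fin_cases i <;> simp [colonLn]
  have h3 := Ideal.pow_right_mono h2 m h1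
  rwa [Ideal.span_singleton_pow, Ideal.mem_span_singleton] at h3

private theorem colon_order (α β δ a b : K) (hx : 3 * α * a ^ 2 + b ≠ 0) :
    ((colonTr a b (Gp α β δ) : MvPolynomial (Fin 2) K) : MvPowerSeries (Fin 2) K).order ≤ 1 := by
  by_contra hlt
  rw [not_le] at hlt
  have hm : colonTr a b (Gp α β δ) ∈ idealOfVars (Fin 2) K ^ 2 := by
    rw [colon_mem_vars_iff]
    have := Order.add_one_le_of_lt hlt
    exact_mod_cast this
  obtain ⟨q, hq⟩ := colonLn_mem 2 _ hm
  have h3 : colonLn (colonTr a b (Gp α β δ)) =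
      Polynomial.C α * (Polynomial.X + Polynomial.C a) ^ 3 +
      Polynomial.C δ * Polynomial.C b ^ 3 +
      (Polynomial.X + Polynomial.C a) * Polynomial.C b + Polynomial.C β := by
    simp [colonLn, colonTr, Gp, algebraMap_eq, Polynomial.algebraMap_eq]
  rw [h3] at hq
  have h4 := congrArg (fun p => Polynomial.eval 0 (Polynomial.derivative p)) hq
  simp [Polynomial.derivative_pow] at h4
  apply hx
  linear_combination h4

/-- Dividing by the cubic at a smooth point lowers the multiplicity by one. -/
theorem colon (α β δ a b : K) (hab : α * a ^ 3 + δ * b ^ 3 + a * b + β = 0)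
    (hx : 3 * α * a ^ 2 + b ≠ 0) (j m : ℕ) (g : MvPolynomial (Fin 2) K)
    (h : Gp α β δ ^ j * g ∈ pt a b ^ m) : g ∈ pt a b ^ (m - j) := by
  clear hab
  induction j generalizing g with
  | zero => simpa using h
  | succ j ih =>
    have h1 : Gp α β δ * g ∈ pt a b ^ (m - j) := by
      apply ih
      rw [← mul_assoc, ← pow_succ]
      exact h
    rw [colon_mem_pt_iff, colon_mem_vars_iff, map_mul, MvPolynomial.coe_mul,
      MvPowerSeries.order_mul] at h1
    rw [colon_mem_pt_iff, colon_mem_vars_iff]
    have h3 : ((m - j : ℕ) : ℕ∞) ≤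
        1 + ((colonTr a b g : MvPolynomial (Fin 2) K) : MvPowerSeries (Fin 2) K).order :=
      h1.trans (add_le_add_left (colon_order α β δ a b hx) _)
    have h4 : (m - (j + 1) : ℕ) = (m - j) - 1 := by omega
    rw [h4]
    generalize ((colonTr a b g : MvPolynomial (Fin 2) K) : MvPowerSeries (Fin 2) K).order = o at h3
    generalize m - j = n at h3
    induction o using ENat.recTopCoe with
    | top => exact le_top
    | coe o =>
      have h5 : n ≤ 1 + o := by exact_mod_cast h3
      exact_mod_cast (show n - 1 ≤ o by omega)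

private theorem colon_eval (α β δ x y : K) :
    MvPolynomial.eval ![x, y] (Gp α β δ) = α * x ^ 3 + δ * y ^ 3 + x * y + β := by
  simp [Gp]

theorem Gp_ne_zero (α β δ : K) : Gp α β δ ≠ 0 := by
  intro h
  have h1 := congrArg (coeff (Finsupp.single 0 1 + Finsupp.single 1 1)) h
  have h2 : (X 0 * X 1 : MvPolynomial (Fin 2) K) =
      monomial (Finsupp.single 0 1 + Finsupp.single 1 1) 1 := by
    rw [X, X, monomial_mul, one_mul]
  have h3 : (Gp α β δ : MvPolynomial (Fin 2) K) =
      monomial (Finsupp.single 0 3) α + monomial (Finsupp.single 1 3) δ +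
      monomial (Finsupp.single 0 1 + Finsupp.single 1 1) 1 + monomial 0 β := by
    rw [← h2, Gp, X_pow_eq_monomial, X_pow_eq_monomial, C_mul_monomial, C_mul_monomial, mul_one,
      mul_one]
    rfl
  rw [h3] at h1
  have e1 : (Finsupp.single (0 : Fin 2) 3 : Fin 2 →₀ ℕ) ≠
      Finsupp.single 0 1 + Finsupp.single 1 1 := by
    intro h
    have := DFunLike.congr_fun h 1
    simp at this
  have e2 : (Finsupp.single (1 : Fin 2) 3 : Fin 2 →₀ ℕ) ≠
      Finsupp.single 0 1 + Finsupp.single 1 1 := by
    intro h
    have := DFunLike.congr_fun h 0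
    simp at this
  have e3 : (0 : Fin 2 →₀ ℕ) ≠ Finsupp.single 0 1 + Finsupp.single 1 1 := by
    intro h
    have := DFunLike.congr_fun h 0
    simp at this
  simp only [coeff_add, coeff_monomial, if_neg e1, if_neg e2, if_neg e3, if_true, coeff_zero] at h1
  simp at h1

private theorem colon_totalDegree (α β δ : K) (hδ : δ ≠ 0) : (Gp α β δ).totalDegree = 3 := by
  apply le_antisymm
  · have h1 : (C α * X 0 ^ 3 : MvPolynomial (Fin 2) K).totalDegree ≤ 3 := by
      refine (totalDegree_mul _ _).trans ?_
      rw [totalDegree_C, totalDegree_X_pow]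
    have h2 : (C δ * X 1 ^ 3 : MvPolynomial (Fin 2) K).totalDegree ≤ 3 := by
      refine (totalDegree_mul _ _).trans ?_
      rw [totalDegree_C, totalDegree_X_pow]
    have h3 : (X 0 * X 1 : MvPolynomial (Fin 2) K).totalDegree ≤ 3 := by
      refine (totalDegree_mul _ _).trans ?_
      rw [totalDegree_X, totalDegree_X]
      norm_num
    have h4 : (C β : MvPolynomial (Fin 2) K).totalDegree ≤ 3 := by
      rw [totalDegree_C]
      norm_num
    rw [Gp]
    refine (totalDegree_add _ _).trans (max_le ((totalDegree_add _ _).trans (max_le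
      ((totalDegree_add _ _).trans (max_le h1 h2)) h3)) h4)
  · have hc : coeff (Finsupp.single 1 3) (Gp α β δ) ≠ 0 := by
      have h2 : (X 0 * X 1 : MvPolynomial (Fin 2) K) =
          monomial (Finsupp.single 0 1 + Finsupp.single 1 1) 1 := by
        rw [X, X, monomial_mul, one_mul]
      have h3 : (Gp α β δ : MvPolynomial (Fin 2) K) =
          monomial (Finsupp.single 0 3) α + monomial (Finsupp.single 1 3) δ +
          monomial (Finsupp.single 0 1 + Finsupp.single 1 1) 1 + monomial 0 β := by
        rw [← h2, Gp, X_pow_eq_monomial, X_pow_eq_monomial, C_mul_monomial, C_mul_monomial, mul_one,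
          mul_one]
        rfl
      rw [h3]
      have e1 : (Finsupp.single (0 : Fin 2) 3 : Fin 2 →₀ ℕ) ≠ Finsupp.single 1 3 := by
        intro h
        have := DFunLike.congr_fun h 1
        simp at this
      have e2 : (Finsupp.single (0 : Fin 2) 1 + Finsupp.single 1 1 : Fin 2 →₀ ℕ) ≠
          Finsupp.single 1 3 := by
        intro h
        have := DFunLike.congr_fun h 0
        simp at this
      have e3 : (0 : Fin 2 →₀ ℕ) ≠ Finsupp.single 1 3 := by
        intro h
        have := DFunLike.congr_fun h 1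
        simp at this
      simp only [coeff_add, coeff_monomial, if_neg e1, if_neg e2, if_neg e3, if_true]
      simpa using hδ
    have h5 := le_totalDegree (mem_support_iff.mpr hc)
    simpa using h5

theorem totalDegree_Gp_pow_mul (α β δ : K) (hδ : δ ≠ 0) (j : ℕ) {g : MvPolynomial (Fin 2) K}
    (hg : g ≠ 0) : (Gp α β δ ^ j * g).totalDegree = 3 * j + g.totalDegree := by
  induction j with
  | zero => simp
  | succ j ih =>
    rw [pow_succ', mul_assoc, totalDegree_mul_of_isDomain (Gp_ne_zero α β δ)
      (mul_ne_zero (pow_ne_zero _ (Gp_ne_zero α β δ)) hg), ih, colon_totalDegree α β δ hδ]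
    ring

/-- Decomposition of `f ∈ K[x,y][ξ]` with respect to the order along `ξ = 0` and the cubic. -/
theorem exists_w (α β δ : K) (hδ : δ ≠ 0) (f : Polynomial (MvPolynomial (Fin 2) K)) (hf : f ≠ 0) :
    ∃ (w : ℕ) (g : ℕ → MvPolynomial (Fin 2) K),
      (∀ l, l ≤ w → f.coeff l = Gp α β δ ^ (w - l) * g l) ∧
      ∃ l0, l0 ≤ w ∧ ¬ Gp α β δ ∣ g l0 := by
  classical
  obtain ⟨l0, hl0⟩ : ∃ l, f.coeff l ≠ 0 := by
    by_contra h
    push Not at h
    exact hf (Polynomial.ext (by simpa using h))
  have hbd : ∀ w, (∀ l, l ≤ w → Gp α β δ ^ (w - l) ∣ f.coeff l) →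
      w ≤ l0 + (f.coeff l0).totalDegree := by
    intro w hw
    by_contra hlt
    push Not at hlt
    obtain ⟨q, hq⟩ := hw l0 (by omega)
    have hq0 : q ≠ 0 := by
      rintro rfl
      exact hl0 (by rw [hq, mul_zero])
    have h1 := totalDegree_Gp_pow_mul α β δ hδ (w - l0) hq0
    rw [← hq] at h1
    omega
  let S : ℕ → Prop := fun w => ∀ l, l ≤ w → Gp α β δ ^ (w - l) ∣ f.coeff l
  have hS0 : S 0 := by
    intro l hl
    simp [Nat.le_zero.mp hl]
  have hSw : S (Nat.findGreatest S (l0 + (f.coeff l0).totalDegree)) :=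
    Nat.findGreatest_spec (Nat.zero_le _) hS0
  set w := Nat.findGreatest S (l0 + (f.coeff l0).totalDegree) with hw
  have hSw1 : ¬ S (w + 1) := by
    intro h
    have h1 := Nat.le_findGreatest (hbd _ h) h
    rw [← hw] at h1
    omega
  have hch : ∀ l, ∃ q, l ≤ w → f.coeff l = Gp α β δ ^ (w - l) * q := by
    intro l
    by_cases hl : l ≤ w
    · obtain ⟨q, hq⟩ := hSw l hl
      exact ⟨q, fun _ => hq⟩
    · exact ⟨0, fun h => absurd h hl⟩
  choose g hg using hch
  refine ⟨w, g, hg, ?_⟩
  by_contra hcon
  push Not at hcon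
  apply hSw1
  intro l hl
  rcases Nat.lt_or_ge w l with h1 | h1
  · have : w + 1 - l = 0 := by omega
    rw [this, pow_zero]
    exact one_dvd _
  · obtain ⟨q, hq⟩ := hcon l h1
    rw [hg l h1, hq, ← mul_assoc, ← pow_succ]
    have : w + 1 - l = w - l + 1 := by omega
    rw [this]
    exact dvd_mul_right _ _

/-- Clearing denominators. -/
theorem exists_scale {S : Type*} [CommRing S] [IsDomain S] [Algebra S K] [IsFractionRing S K]
    (w : ℕ) (g : ℕ → MvPolynomial (Fin 2) K) :
    ∃ c : S, c ≠ 0 ∧ ∃ g' : ℕ → MvPolynomial (Fin 2) S, ∀ l, l ≤ w →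
      MvPolynomial.map (algebraMap S K) (g' l) = C (algebraMap S K c) * g l := by
  classical
  let T : Finset K := (Finset.range (w + 1)).biUnion fun l => (g l).support.image fun m => (g l).coeff m
  obtain ⟨c, hc⟩ := IsLocalization.exist_integer_multiples_of_finset (nonZeroDivisors S) T
  refine ⟨c, nonZeroDivisors.coe_ne_zero c, ?_⟩
  have key : ∀ l, ∃ h : MvPolynomial (Fin 2) S, l ≤ w →
      MvPolynomial.map (algebraMap S K) h = C (algebraMap S K c) * g l := by
    intro l
    by_cases hl : l ≤ w
    · have hex : ∀ m : Fin 2 →₀ ℕ, ∃ s : S, algebraMap S K s = algebraMap S K c * (g l).coeff m := by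
        intro m
        by_cases hm : m ∈ (g l).support
        · have hT : (g l).coeff m ∈ T :=
            Finset.mem_biUnion.mpr ⟨l, Finset.mem_range.mpr (by omega),
              Finset.mem_image_of_mem _ hm⟩
          obtain ⟨s, hs⟩ := hc _ hT
          exact ⟨s, by rw [hs, Algebra.smul_def]⟩
        · refine ⟨0, ?_⟩
          rw [map_zero, notMem_support_iff.mp hm, mul_zero]
      choose s hs using hex
      refine ⟨∑ m ∈ (g l).support, monomial m (s m), fun _ => ?_⟩
      rw [map_sum]
      conv_rhs => rw [(g l).as_sum, Finset.mul_sum]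
      refine Finset.sum_congr rfl fun m _ => ?_
      rw [map_monomial, hs, C_mul_monomial]
    · exact ⟨0, fun h => absurd h hl⟩
  choose g' hg' using key
  exact ⟨g', hg'⟩

private theorem colon_map_Gp {S : Type*} [CommRing S] [Algebra S K] (α β δ : S) :
    MvPolynomial.map (algebraMap S K) (Gp α β δ) =
      Gp (algebraMap S K α) (algebraMap S K β) (algebraMap S K δ) := by
  simp [Gp]

/-- A polynomial over the ring `S` divisible by the cubic over the fraction field. -/
theorem map_dvd {S : Type*} [CommRing S] [IsDomain S] [Algebra S K] [IsFractionRing S K]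
    (α β δ : S) {g : MvPolynomial (Fin 2) S} (c : K) (hc : c ≠ 0) (h : MvPolynomial (Fin 2) K)
    (hg : MvPolynomial.map (algebraMap S K) g = C c * h) (hd : Gp α β δ ∣ g) :
    Gp (algebraMap S K α) (algebraMap S K β) (algebraMap S K δ) ∣ h := by
  have h1 : MvPolynomial.map (algebraMap S K) (Gp α β δ) ∣ MvPolynomial.map (algebraMap S K) g :=
    _root_.map_dvd _ hd
  rw [colon_map_Gp, hg] at h1
  have hu : IsUnit (C c : MvPolynomial (Fin 2) K) := (isUnit_iff_ne_zero.mpr hc).map C
  exact (hu.dvd_mul_left).mp h1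

theorem totalDegree_of_map {S : Type*} [CommRing S] [IsDomain S] [Algebra S K]
    [IsFractionRing S K] {g : MvPolynomial (Fin 2) S} (c : K) (h : MvPolynomial (Fin 2) K)
    (hg : MvPolynomial.map (algebraMap S K) g = C c * h) : g.totalDegree ≤ h.totalDegree := by
  have h1 : (MvPolynomial.map (algebraMap S K) g).totalDegree = g.totalDegree := by
    rw [totalDegree, totalDegree, support_map_of_injective _ (IsFractionRing.injective S K)]
  rw [← h1, hg]
  refine (totalDegree_mul _ _).trans ?_
  rw [totalDegree_C, zero_add]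

end ShghT
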