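import Pool.Agent.ShghT.Comb

/-!
# Placing the points, `e ≤ 3`
-/

namespace ShghT

/-- Admissible centre and sign. -/
def CombA_adm (e : ℕ) (x : ℤ × Bool) : Prop := 0 < circ e x.1 x.2 ∧ circ e x.1 x.2 < 4 * e

theorem CombA_Nr_mul (e : ℕ) (he : 0 < e) (m k : ℕ) : ∃ C : ℕ, ∀ (p : ℤ) (s : Bool) (ρ : ℕ),
    ρ < e → Nr e (m + 2 * e * k) p s ρ = Nr e m p s ρ + C := by
  induction k with
  | zero => exact ⟨0, fun p s ρ _ => by simp⟩
  | succ k ih =>
    obtain ⟨C, hC⟩ := ih
    refine ⟨C + (2 * (m + 2 * e * k) + 2 * e + 1), ?_⟩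
    intro p s ρ hρ
    have h1 : m + 2 * e * (k + 1) = (m + 2 * e * k) + 2 * e := by ring
    rw [h1, Nr_add e he (m + 2 * e * k) p s ρ hρ, hC p s ρ hρ]
    ring

/-- The pattern of the residue class `c`. -/
def CombA_d (c ρ : ℕ) : ℤ := if ρ = c then 1 else 0

/-- Points of the first type: one class gets one more. -/
def CombA_TA (e m : ℕ) (k : ℤ) : Prop := ∀ c < e, ∃ x : ℤ × Bool, CombA_adm e x ∧
  ∀ ρ < e, (Nr e m x.1 x.2 ρ : ℤ) = k + CombA_d c ρ

/-- Points of the second type: one class gets one more, another one less. -/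
def CombA_TB (e m : ℕ) (k : ℤ) : Prop := ∀ c < e, ∀ d < e, c ≠ d → ∃ x : ℤ × Bool, CombA_adm e x ∧
  ∀ ρ < e, (Nr e m x.1 x.2 ρ : ℤ) = k + (CombA_d c ρ - CombA_d d ρ)

/-- Balanced points. -/
def CombA_T0 (e m : ℕ) (k : ℤ) : Prop := ∃ x : ℤ × Bool, CombA_adm e x ∧
  ∀ ρ < e, (Nr e m x.1 x.2 ρ : ℤ) = k

theorem CombA_shift (e : ℕ) (he : 0 < e) (m : ℕ) : ∃ C : ℤ, ∀ (p : ℤ) (s : Bool) (ρ : ℕ),
    ρ < e → (Nr e m p s ρ : ℤ) = (Nr e (m % (2 * e)) p s ρ : ℤ) + C := by
  obtain ⟨C, hC⟩ := CombA_Nr_mul e he (m % (2 * e)) (m / (2 * e))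
  refine ⟨C, ?_⟩
  intro p s ρ hρ
  have h := hC p s ρ hρ
  rw [Nat.mod_add_div] at h
  rw [h]
  push_cast
  ring

theorem CombA_TA_shift {e m : ℕ} {k C : ℤ} (h : CombA_TA e (m % (2 * e)) k)
    (hC : ∀ (p : ℤ) (s : Bool) (ρ : ℕ),
      ρ < e → (Nr e m p s ρ : ℤ) = (Nr e (m % (2 * e)) p s ρ : ℤ) + C) :
    CombA_TA e m (k + C) := by
  intro c hc
  obtain ⟨x, h1, h2⟩ := h c hc
  refine ⟨x, h1, fun ρ hρ => ?_⟩
  rw [hC x.1 x.2 ρ hρ, h2 ρ hρ]
  ring

theorem CombA_TB_shift {e m : ℕ} {k C : ℤ} (h : CombA_TB e (m % (2 * e)) k)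
    (hC : ∀ (p : ℤ) (s : Bool) (ρ : ℕ),
      ρ < e → (Nr e m p s ρ : ℤ) = (Nr e (m % (2 * e)) p s ρ : ℤ) + C) :
    CombA_TB e m (k + C) := by
  intro c hc d hd hcd
  obtain ⟨x, h1, h2⟩ := h c hc d hd hcd
  refine ⟨x, h1, fun ρ hρ => ?_⟩
  rw [hC x.1 x.2 ρ hρ, h2 ρ hρ]
  ring

theorem CombA_T0_shift {e m : ℕ} {k C : ℤ} (h : CombA_T0 e (m % (2 * e)) k)
    (hC : ∀ (p : ℤ) (s : Bool) (ρ : ℕ),
      ρ < e → (Nr e m p s ρ : ℤ) = (Nr e (m % (2 * e)) p s ρ : ℤ) + C) :
    CombA_T0 e m (k + C) := by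
  obtain ⟨x, h1, h2⟩ := h
  refine ⟨x, h1, fun ρ hρ => ?_⟩
  rw [hC x.1 x.2 ρ hρ, h2 ρ hρ]

/-- Tables for `e = 3`. -/
theorem CombA_tabA3 : ∀ m < 6, (m = 1 ∨ m = 4) → CombA_TA 3 m (if m = 1 then 0 else 3) := by
  intro m hm h c hc
  rcases h with rfl | rfl
  · interval_cases c
    · exact ⟨(0, true), by constructor <;> decide +kernel, by decide +kernel⟩
    · exact ⟨(1, true), by constructor <;> decide +kernel, by decide +kernel⟩
    · exact ⟨(-1, true), by constructor <;> decide +kernel, by decide +kernel⟩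
  · interval_cases c
    · exact ⟨(0, true), by constructor <;> decide +kernel, by decide +kernel⟩
    · exact ⟨(1, true), by constructor <;> decide +kernel, by decide +kernel⟩
    · exact ⟨(-1, true), by constructor <;> decide +kernel, by decide +kernel⟩

theorem CombA_tabB3 : ∀ m < 6, (m = 2 ∨ m = 3) → CombA_TB 3 m (if m = 2 then 1 else 2) := by
  intro m hm h c hc d hd hcd
  have key : ∀ (c d : ℕ) (p : ℤ) (s : Bool), CombA_adm 3 (p, s) →
      (∀ ρ < 3, (Nr 3 2 p s ρ : ℤ) = 1 + (CombA_d c ρ - CombA_d d ρ)) →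
      (∀ ρ < 3, (Nr 3 3 p s ρ : ℤ) = 2 + (CombA_d c ρ - CombA_d d ρ)) →
      ∃ x : ℤ × Bool, CombA_adm 3 x ∧ ∀ ρ < 3, (Nr 3 m x.1 x.2 ρ : ℤ) =
        (if m = 2 then 1 else 2) + (CombA_d c ρ - CombA_d d ρ) := by
    intro c d p s h1 h2 h3
    rcases h with rfl | rfl
    · exact ⟨(p, s), h1, h2⟩
    · exact ⟨(p, s), h1, h3⟩
  interval_cases c <;> interval_cases d
  · exact absurd rfl hcd
  · exact key 0 1 0 false (by constructor <;> decide +kernel) (by decide +kernel)
      (by decide +kernel)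
  · exact key 0 2 0 true (by constructor <;> decide +kernel) (by decide +kernel)
      (by decide +kernel)
  · exact key 1 0 1 true (by constructor <;> decide +kernel) (by decide +kernel)
      (by decide +kernel)
  · exact absurd rfl hcd
  · exact key 1 2 1 false (by constructor <;> decide +kernel) (by decide +kernel)
      (by decide +kernel)
  · exact key 2 0 (-1) false (by constructor <;> decide +kernel) (by decide +kernel)
      (by decide +kernel)
  · exact key 2 1 (-1) true (by constructor <;> decide +kernel) (by decide +kernel)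
      (by decide +kernel)
  · exact absurd rfl hcd

theorem CombA_tab03 : ∀ m < 6, (m = 0 ∨ m = 5) → CombA_T0 3 m (if m = 0 then 0 else 5) := by
  intro m hm h
  refine ⟨(0, true), by constructor <;> decide +kernel, ?_⟩
  rcases h with rfl | rfl
  · decide +kernel
  · decide +kernel

/-- Tables for `e = 2`. -/
theorem CombA_tabA2 : ∀ m < 4, (m = 1 ∨ m = 2) → CombA_TA 2 m (if m = 1 then 0 else 1) := by
  intro m hm h c hc
  rcases h with rfl | rfl
  · interval_cases c
    · exact ⟨(0, true), by constructor <;> decide +kernel, by decide +kernel⟩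
    · exact ⟨(-1, true), by constructor <;> decide +kernel, by decide +kernel⟩
  · interval_cases c
    · exact ⟨(0, true), by constructor <;> decide +kernel, by decide +kernel⟩
    · exact ⟨(-1, true), by constructor <;> decide +kernel, by decide +kernel⟩

theorem CombA_tab02 : ∀ m < 4, (m = 0 ∨ m = 3) → CombA_T0 2 m (if m = 0 then 0 else 3) := by
  intro m hm h
  refine ⟨(0, true), by constructor <;> decide +kernel, ?_⟩
  rcases h with rfl | rfl
  · decide +kernel
  · decide +kernel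

/-- The type of a point, `e = 3`. -/
theorem CombA_type3 (m : ℕ) : ∃ k : ℤ, ((m % 6 = 1 ∨ m % 6 = 4) → CombA_TA 3 m k) ∧
    ((m % 6 = 2 ∨ m % 6 = 3) → CombA_TB 3 m k) ∧ ((m % 6 = 0 ∨ m % 6 = 5) → CombA_T0 3 m k) := by
  obtain ⟨C, hC⟩ := CombA_shift 3 (by norm_num) m
  have hlt : m % 6 < 6 := Nat.mod_lt _ (by norm_num)
  have hcases : (m % 6 = 1 ∨ m % 6 = 4) ∨ (m % 6 = 2 ∨ m % 6 = 3) ∨ (m % 6 = 0 ∨ m % 6 = 5) := by
    omega
  rcases hcases with h | h | h
  · refine ⟨_, fun _ => CombA_TA_shift (CombA_tabA3 _ hlt h) hC, fun h' => ?_, fun h' => ?_⟩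
    · omega
    · omega
  · refine ⟨_, fun h' => ?_, fun _ => CombA_TB_shift (CombA_tabB3 _ hlt h) hC, fun h' => ?_⟩
    · omega
    · omega
  · refine ⟨_, fun h' => ?_, fun h' => ?_, fun _ => CombA_T0_shift (CombA_tab03 _ hlt h) hC⟩
    · omega
    · omega

/-- The type of a point, `e = 2`. -/
theorem CombA_type2 (m : ℕ) : ∃ k : ℤ, ((m % 4 = 1 ∨ m % 4 = 2) → CombA_TA 2 m k) ∧
    ((m % 4 = 0 ∨ m % 4 = 3) → CombA_T0 2 m k) := by
  obtain ⟨C, hC⟩ := CombA_shift 2 (by norm_num) m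
  have hlt : m % 4 < 4 := Nat.mod_lt _ (by norm_num)
  have hcases : (m % 4 = 1 ∨ m % 4 = 2) ∨ (m % 4 = 0 ∨ m % 4 = 3) := by omega
  rcases hcases with h | h
  · refine ⟨_, fun _ => CombA_TA_shift (CombA_tabA2 _ hlt h) hC, fun h' => ?_⟩
    omega
  · refine ⟨_, fun h' => ?_, fun _ => CombA_T0_shift (CombA_tab02 _ hlt h) hC⟩
    omega

/-- Placing the points of the first type. -/
theorem CombA_placeA (e : ℕ) {r : ℕ} (m : Fin r → ℕ) (κ : Fin r → ℤ) (F : Finset (Fin r))
    (hA : ∀ i ∈ F, CombA_TA e (m i) (κ i)) : ∀ a : ℕ → ℕ, ∑ ρ ∈ Finset.range e, a ρ = F.card →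
    ∃ x : Fin r → ℤ × Bool, (∀ i ∈ F, CombA_adm e (x i)) ∧ ∀ ρ < e,
      ∑ i ∈ F, (Nr e (m i) (x i).1 (x i).2 ρ : ℤ) = ∑ i ∈ F, κ i + a ρ := by
  classical
  induction F using Finset.induction_on with
  | empty =>
    intro a ha
    refine ⟨fun _ => (0, true), fun i hi => absurd hi (Finset.notMem_empty i), ?_⟩
    intro ρ hρ
    rw [Finset.card_empty, Finset.sum_eq_zero_iff] at ha
    simp [ha ρ (Finset.mem_range.2 hρ)]
  | insert j F hj ih =>
    intro a ha
    rw [Finset.card_insert_of_notMem hj] at ha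
    obtain ⟨c, hc, hac⟩ : ∃ c < e, 1 ≤ a c := by
      by_contra hcon
      push Not at hcon
      have : ∑ ρ ∈ Finset.range e, a ρ = 0 := by
        apply Finset.sum_eq_zero
        intro ρ hρ
        have := hcon ρ (Finset.mem_range.1 hρ)
        omega
      omega
    have ha' : ∑ ρ ∈ Finset.range e, (Function.update a c (a c - 1)) ρ = F.card := by
      have h1 := Finset.sum_update_of_mem (Finset.mem_range.2 hc) a (a c - 1)
      have h2 := Finset.add_sum_erase (Finset.range e) a (Finset.mem_range.2 hc)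
      rw [h1, Finset.sdiff_singleton_eq_erase]
      omega
    obtain ⟨x, hx1, hx2⟩ := ih (fun i hi => hA i (Finset.mem_insert_of_mem hi)) _ ha'
    obtain ⟨y, hy1, hy2⟩ := hA j (Finset.mem_insert_self j F) c hc
    refine ⟨Function.update x j y, ?_, ?_⟩
    · intro i hi
      by_cases hij : i = j
      · rw [hij, Function.update_self]
        exact hy1
      · rw [Function.update_of_ne hij]
        exact hx1 i ((Finset.mem_insert.1 hi).resolve_left hij)
    · intro ρ hρ
      rw [Finset.sum_insert hj, Finset.sum_insert hj, Function.update_self, hy2 ρ hρ]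
      have h3 : ∑ i ∈ F, (Nr e (m i) (Function.update x j y i).1 (Function.update x j y i).2 ρ : ℤ)
          = ∑ i ∈ F, (Nr e (m i) (x i).1 (x i).2 ρ : ℤ) := by
        apply Finset.sum_congr rfl
        intro i hi
        have hij : i ≠ j := fun h => hj (h ▸ hi)
        rw [Function.update_of_ne hij]
      rw [h3, hx2 ρ hρ]
      unfold CombA_d
      by_cases hρc : ρ = c
      · rw [hρc, Function.update_self, if_pos rfl]
        push_cast [Nat.cast_sub hac]
        ring
      · rw [Function.update_of_ne hρc, if_neg hρc]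
        ring

/-- Placing the points of the second type. -/
theorem CombA_placeB (e : ℕ) {r : ℕ} (m : Fin r → ℕ) (κ : Fin r → ℤ) (F : Finset (Fin r))
    (hB : ∀ i ∈ F, CombA_TB e (m i) (κ i)) : ∀ c < e, ∀ d < e, c ≠ d →
    ∃ x : Fin r → ℤ × Bool, (∀ i ∈ F, CombA_adm e (x i)) ∧ ∀ ρ < e,
      ∑ i ∈ F, (Nr e (m i) (x i).1 (x i).2 ρ : ℤ) = ∑ i ∈ F, κ i
        + (F.card % 2 : ℕ) * (CombA_d c ρ - CombA_d d ρ) := by
  classical
  induction F using Finset.induction_on with
  | empty =>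
    intro c hc d hd hcd
    exact ⟨fun _ => (0, true), fun i hi => absurd hi (Finset.notMem_empty i), by simp⟩
  | insert j F hj ih =>
    intro c hc d hd hcd
    obtain ⟨x, hx1, hx2⟩ := ih (fun i hi => hB i (Finset.mem_insert_of_mem hi)) d hd c hc
      (Ne.symm hcd)
    obtain ⟨y, hy1, hy2⟩ := hB j (Finset.mem_insert_self j F) c hc d hd hcd
    refine ⟨Function.update x j y, ?_, ?_⟩
    · intro i hi
      by_cases hij : i = j
      · rw [hij, Function.update_self]
        exact hy1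
      · rw [Function.update_of_ne hij]
        exact hx1 i ((Finset.mem_insert.1 hi).resolve_left hij)
    · intro ρ hρ
      rw [Finset.sum_insert hj, Finset.sum_insert hj, Function.update_self, hy2 ρ hρ,
        Finset.card_insert_of_notMem hj]
      have h3 : ∑ i ∈ F, (Nr e (m i) (Function.update x j y i).1 (Function.update x j y i).2 ρ : ℤ)
          = ∑ i ∈ F, (Nr e (m i) (x i).1 (x i).2 ρ : ℤ) := by
        apply Finset.sum_congr rfl
        intro i hi
        have hij : i ≠ j := fun h => hj (h ▸ hi)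
        rw [Function.update_of_ne hij]
      rw [h3, hx2 ρ hρ]
      rcases Nat.mod_two_eq_zero_or_one F.card with h | h
      · have h' : (F.card + 1) % 2 = 1 := by omega
        rw [h, h']
        push_cast
        ring
      · have h' : (F.card + 1) % 2 = 0 := by omega
        rw [h, h']
        push_cast
        ring

/-- Placing the points of the second type, balanced if their number is not one. -/
theorem CombA_placeB2 (e : ℕ) (he : 3 ≤ e) {r : ℕ} (m : Fin r → ℕ) (κ : Fin r → ℤ)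
    (F : Finset (Fin r)) (hB : ∀ i ∈ F, CombA_TB e (m i) (κ i)) (hF : F.card ≠ 1) :
    ∃ x : Fin r → ℤ × Bool, (∀ i ∈ F, CombA_adm e (x i)) ∧ ∀ ρ < e,
      ∑ i ∈ F, (Nr e (m i) (x i).1 (x i).2 ρ : ℤ) = ∑ i ∈ F, κ i := by
  classical
  rcases Nat.mod_two_eq_zero_or_one F.card with h | h
  · obtain ⟨x, hx1, hx2⟩ := CombA_placeB e m κ F hB 0 (by omega) 1 (by omega) (by norm_num)
    refine ⟨x, hx1, fun ρ hρ => ?_⟩
    rw [hx2 ρ hρ, h]
    simp
  · obtain ⟨j, hj⟩ : F.Nonempty := by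
      rw [← Finset.card_pos]
      omega
    have hc1 : (F.erase j).card = F.card - 1 := Finset.card_erase_of_mem hj
    obtain ⟨l, hl⟩ : (F.erase j).Nonempty := by
      rw [← Finset.card_pos]
      omega
    have hc2 : ((F.erase j).erase l).card = F.card - 2 := by
      rw [Finset.card_erase_of_mem hl]
      omega
    have hlj : l ≠ j := Finset.ne_of_mem_erase hl
    have hlF : l ∈ F := Finset.mem_of_mem_erase hl
    obtain ⟨x, hx1, hx2⟩ := CombA_placeB e m κ ((F.erase j).erase l)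
      (fun i hi => hB i (Finset.mem_of_mem_erase (Finset.mem_of_mem_erase hi)))
      2 (by omega) 0 (by omega) (by norm_num)
    obtain ⟨y, hy1, hy2⟩ := hB j hj 0 (by omega) 1 (by omega) (by norm_num)
    obtain ⟨z, hz1, hz2⟩ := hB l hlF 1 (by omega) 2 (by omega) (by norm_num)
    refine ⟨Function.update (Function.update x l z) j y, ?_, ?_⟩
    · intro i hi
      by_cases hij : i = j
      · rw [hij, Function.update_self]
        exact hy1
      · rw [Function.update_of_ne hij]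
        by_cases hil : i = l
        · rw [hil, Function.update_self]
          exact hz1
        · rw [Function.update_of_ne hil]
          exact hx1 i (Finset.mem_erase.2 ⟨hil, Finset.mem_erase.2 ⟨hij, hi⟩⟩)
    · intro ρ hρ
      rw [← Finset.add_sum_erase F _ hj, ← Finset.add_sum_erase F κ hj,
        ← Finset.add_sum_erase (F.erase j) _ hl, ← Finset.add_sum_erase (F.erase j) κ hl,
        Function.update_self, Function.update_of_ne hlj, Function.update_self, hy2 ρ hρ,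
        hz2 ρ hρ]
      have h3 : ∑ i ∈ (F.erase j).erase l,
          (Nr e (m i) (Function.update (Function.update x l z) j y i).1
            (Function.update (Function.update x l z) j y i).2 ρ : ℤ)
          = ∑ i ∈ (F.erase j).erase l, (Nr e (m i) (x i).1 (x i).2 ρ : ℤ) := by
        apply Finset.sum_congr rfl
        intro i hi
        have hil : i ≠ l := Finset.ne_of_mem_erase hi
        have hij : i ≠ j := Finset.ne_of_mem_erase (Finset.mem_of_mem_erase hi)
        rw [Function.update_of_ne hij, Function.update_of_ne hil]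
      have h4 : (F.card - 2) % 2 = 1 := by omega
      rw [h3, hx2 ρ hρ, hc2, h4]
      push_cast
      ring

/-- Placing balanced points. -/
theorem CombA_place0 (e : ℕ) {r : ℕ} (m : Fin r → ℕ) (κ : Fin r → ℤ) (F : Finset (Fin r))
    (h0 : ∀ i ∈ F, CombA_T0 e (m i) (κ i)) :
    ∃ x : Fin r → ℤ × Bool, (∀ i ∈ F, CombA_adm e (x i)) ∧ ∀ ρ < e,
      ∑ i ∈ F, (Nr e (m i) (x i).1 (x i).2 ρ : ℤ) = ∑ i ∈ F, κ i := by
  classical
  have h : ∀ i : Fin r, ∃ x : ℤ × Bool, i ∈ F → CombA_adm e x ∧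
      ∀ ρ < e, (Nr e (m i) x.1 x.2 ρ : ℤ) = κ i := by
    intro i
    by_cases hi : i ∈ F
    · obtain ⟨x, hx⟩ := h0 i hi
      exact ⟨x, fun _ => hx⟩
    · exact ⟨(0, true), fun h => absurd h hi⟩
  choose x hx using h
  refine ⟨x, fun i hi => (hx i hi).1, fun ρ hρ => ?_⟩
  apply Finset.sum_congr rfl
  intro i hi
  exact (hx i hi).2 ρ hρ

/-- The total number of conditions. -/
theorem CombA_total (e : ℕ) (he : 0 < e) {r : ℕ} (m : Fin r → ℕ) (x : Fin r → ℤ × Bool) :
    ∑ ρ ∈ Finset.range e, ∑ i, (Nr e (m i) (x i).1 (x i).2 ρ : ℤ) = cnd m := by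
  rw [Finset.sum_comm]
  unfold cnd
  push_cast
  apply Finset.sum_congr rfl
  intro i _
  rw [← Nr_sum e he (m i) (x i).1 (x i).2]
  push_cast
  rfl

/-- The placement for `e = 2`. -/
theorem CombA_two {r : ℕ} (m : Fin r → ℕ) : ∃ x : Fin r → ℤ × Bool,
    (∀ i, CombA_adm 2 (x i)) ∧ ∃ (K : ℤ) (a : ℕ), (cnd m : ℤ) = 2 * K + a ∧
    (∑ i, (Nr 2 (m i) (x i).1 (x i).2 0 : ℤ)) = K + ((a + 1) / 2 : ℕ) ∧
    (∑ i, (Nr 2 (m i) (x i).1 (x i).2 1 : ℤ)) = K + (a / 2 : ℕ) := by
  classical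
  choose κ hκA hκ0 using CombA_type2
  set FA := Finset.univ.filter (fun i : Fin r => m i % 4 = 1 ∨ m i % 4 = 2) with hFA
  set F0 := Finset.univ.filter (fun i : Fin r => ¬ (m i % 4 = 1 ∨ m i % 4 = 2)) with hF0
  set a := FA.card with ha
  obtain ⟨xA, hA1, hA2⟩ := CombA_placeA 2 m (fun i => κ (m i)) FA (fun i hi =>
    hκA (m i) (Finset.mem_filter.1 hi).2) (fun ρ => if ρ = 0 then (a + 1) / 2 else a / 2) (by
      rw [Finset.sum_range_succ, Finset.sum_range_one]
      simp
      omega)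
  obtain ⟨x0, h01, h02⟩ := CombA_place0 2 m (fun i => κ (m i)) F0 (fun i hi =>
    hκ0 (m i) (by
      have := (Finset.mem_filter.1 hi).2
      omega))
  have hsum : ∀ ρ < 2, ∑ i, (Nr 2 (m i) ((if i ∈ FA then xA i else x0 i)).1
      ((if i ∈ FA then xA i else x0 i)).2 ρ : ℤ)
      = (∑ i, κ (m i)) + ((if ρ = 0 then (a + 1) / 2 else a / 2 : ℕ) : ℤ) := by
    intro ρ hρ
    rw [← Finset.sum_filter_add_sum_filter_not Finset.univ
      (fun i : Fin r => m i % 4 = 1 ∨ m i % 4 = 2) (fun i => (Nr 2 (m i)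
        ((if i ∈ FA then xA i else x0 i)).1 ((if i ∈ FA then xA i else x0 i)).2 ρ : ℤ)),
      ← Finset.sum_filter_add_sum_filter_not Finset.univ
      (fun i : Fin r => m i % 4 = 1 ∨ m i % 4 = 2) (fun i => κ (m i))]
    rw [← hFA, ← hF0]
    have e1 : ∑ i ∈ FA, (Nr 2 (m i) ((if i ∈ FA then xA i else x0 i)).1
        ((if i ∈ FA then xA i else x0 i)).2 ρ : ℤ)
        = ∑ i ∈ FA, (Nr 2 (m i) (xA i).1 (xA i).2 ρ : ℤ) := by
      apply Finset.sum_congr rfl
      intro i hi
      rw [if_pos hi]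
    have e2 : ∑ i ∈ F0, (Nr 2 (m i) ((if i ∈ FA then xA i else x0 i)).1
        ((if i ∈ FA then xA i else x0 i)).2 ρ : ℤ)
        = ∑ i ∈ F0, (Nr 2 (m i) (x0 i).1 (x0 i).2 ρ : ℤ) := by
      apply Finset.sum_congr rfl
      intro i hi
      have : i ∉ FA := by
        intro h
        exact (Finset.mem_filter.1 hi).2 (Finset.mem_filter.1 h).2
      rw [if_neg this]
    rw [e1, e2, hA2 ρ hρ, h02 ρ hρ]
    ring
  refine ⟨fun i => if i ∈ FA then xA i else x0 i, ?_, ∑ i, κ (m i), a, ?_, ?_, ?_⟩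
  · intro i
    by_cases hi : i ∈ FA
    · simp only [if_pos hi]
      exact hA1 i hi
    · simp only [if_neg hi]
      apply h01
      rw [hF0, Finset.mem_filter]
      refine ⟨Finset.mem_univ i, ?_⟩
      intro h
      exact hi (Finset.mem_filter.2 ⟨Finset.mem_univ i, h⟩)
  · have h := CombA_total 2 (by norm_num) m (fun i => if i ∈ FA then xA i else x0 i)
    rw [Finset.sum_range_succ, Finset.sum_range_one, hsum 0 (by norm_num),
      hsum 1 (by norm_num)] at h
    rw [← h]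
    simp only [if_true, one_ne_zero, if_false]
    omega
  · exact hsum 0 (by norm_num)
  · exact hsum 1 (by norm_num)

/-- The placement for `e = 3`. -/
theorem CombA_three {r : ℕ} (m : Fin r → ℕ) : ∃ x : Fin r → ℤ × Bool,
    (∀ i, CombA_adm 3 (x i)) ∧ ∃ (K : ℤ) (a : ℕ), (cnd m : ℤ) = 3 * K + a ∧
    (((∃ i, m i % 3 = 1) → 0 < a)) ∧
    (a = 0 → (Finset.univ.filter fun i : Fin r => m i % 6 = 2 ∨ m i % 6 = 3).card ≠ 1 →
      (∑ i, (Nr 3 (m i) (x i).1 (x i).2 0 : ℤ)) = K ∧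
      (∑ i, (Nr 3 (m i) (x i).1 (x i).2 1 : ℤ)) = K ∧
      (∑ i, (Nr 3 (m i) (x i).1 (x i).2 2 : ℤ)) = K) ∧
    ((a ≠ 0 → (∑ i, (Nr 3 (m i) (x i).1 (x i).2 0 : ℤ)) = K + ((a + 2) / 3 : ℕ) ∧
      (∑ i, (Nr 3 (m i) (x i).1 (x i).2 1 : ℤ)) = K + ((a + 1) / 3 : ℕ) ∧
      (∑ i, (Nr 3 (m i) (x i).1 (x i).2 2 : ℤ)) = K + (a / 3 : ℕ)) ∧
     (a = 0 → K ≤ (∑ i, (Nr 3 (m i) (x i).1 (x i).2 0 : ℤ)) ∧
      K ≤ (∑ i, (Nr 3 (m i) (x i).1 (x i).2 1 : ℤ)) ∧
      K - 1 ≤ (∑ i, (Nr 3 (m i) (x i).1 (x i).2 2 : ℤ)) ∧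
      ((∑ i, (Nr 3 (m i) (x i).1 (x i).2 2 : ℤ)) = K - 1 →
        (∑ i, (Nr 3 (m i) (x i).1 (x i).2 0 : ℤ)) = K + 1))) := by
  classical
  choose κ hκA hκB hκ0 using CombA_type3
  set FA := Finset.univ.filter (fun i : Fin r => m i % 6 = 1 ∨ m i % 6 = 4) with hFA
  set FB := (Finset.univ.filter (fun i : Fin r => ¬ (m i % 6 = 1 ∨ m i % 6 = 4))).filter
    (fun i : Fin r => m i % 6 = 2 ∨ m i % 6 = 3) with hFB
  set F0 := (Finset.univ.filter (fun i : Fin r => ¬ (m i % 6 = 1 ∨ m i % 6 = 4))).filter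
    (fun i : Fin r => ¬ (m i % 6 = 2 ∨ m i % 6 = 3)) with hF0
  set a := FA.card with ha
  obtain ⟨β, hβ2, hβ0, xB, hB1, hB2⟩ : ∃ β : ℕ, (β = 0 ∨ β = 1) ∧ (FB.card ≠ 1 → β = 0) ∧
      ∃ xB : Fin r → ℤ × Bool, (∀ i ∈ FB, CombA_adm 3 (xB i)) ∧ ∀ ρ < 3,
        ∑ i ∈ FB, (Nr 3 (m i) (xB i).1 (xB i).2 ρ : ℤ) = ∑ i ∈ FB, κ (m i)
          + (β : ℕ) * (CombA_d 0 ρ - CombA_d 2 ρ) := by
    by_cases hF1 : FB.card = 1
    · obtain ⟨xB, hB1, hB2⟩ := CombA_placeB 3 m (fun i => κ (m i)) FB (fun i hi =>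
        hκB (m i) (Finset.mem_filter.1 hi).2) 0 (by norm_num) 2 (by norm_num) (by norm_num)
      refine ⟨1, Or.inr rfl, fun h => absurd hF1 h, xB, hB1, fun ρ hρ => ?_⟩
      rw [hB2 ρ hρ, hF1]
    · obtain ⟨xB, hB1, hB2⟩ := CombA_placeB2 3 le_rfl m (fun i => κ (m i)) FB (fun i hi =>
        hκB (m i) (Finset.mem_filter.1 hi).2) hF1
      refine ⟨0, Or.inl rfl, fun _ => rfl, xB, hB1, fun ρ hρ => ?_⟩
      rw [hB2 ρ hρ]
      simp
  set af : ℕ → ℕ := fun ρ => if ρ = 0 then (a + 2) / 3 - (if a = 0 then 0 else β)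
    else if ρ = 1 then (a + 1) / 3 else a / 3 + (if a = 0 then 0 else β) with haf
  obtain ⟨xA, hA1, hA2⟩ := CombA_placeA 3 m (fun i => κ (m i)) FA (fun i hi =>
    hκA (m i) (Finset.mem_filter.1 hi).2) af (by
      rw [Finset.sum_range_succ, Finset.sum_range_succ, Finset.sum_range_one]
      simp only [haf, if_true, one_ne_zero, if_false]
      norm_num
      split_ifs <;> omega)
  obtain ⟨x0, h01, h02⟩ := CombA_place0 3 m (fun i => κ (m i)) F0 (fun i hi =>
    hκ0 (m i) (by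
      have h1 := (Finset.mem_filter.1 hi).2
      have h2 := (Finset.mem_filter.1 (Finset.mem_filter.1 hi).1).2
      omega))
  set x : Fin r → ℤ × Bool := fun i => if i ∈ FA then xA i else if i ∈ FB then xB i else x0 i
    with hx
  have hsum : ∀ ρ < 3, ∑ i, (Nr 3 (m i) (x i).1 (x i).2 ρ : ℤ)
      = (∑ i, κ (m i)) + (af ρ : ℤ) + (β : ℕ) * (CombA_d 0 ρ - CombA_d 2 ρ) := by
    intro ρ hρ
    have split : ∀ g : Fin r → ℤ, ∑ i, g i = ∑ i ∈ FA, g i + (∑ i ∈ FB, g i + ∑ i ∈ F0, g i) := by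
      intro g
      rw [hFA, hFB, hF0, Finset.sum_filter_add_sum_filter_not,
        Finset.sum_filter_add_sum_filter_not]
    rw [split, split (fun i => κ (m i))]
    have e1 : ∑ i ∈ FA, (Nr 3 (m i) (x i).1 (x i).2 ρ : ℤ)
        = ∑ i ∈ FA, (Nr 3 (m i) (xA i).1 (xA i).2 ρ : ℤ) := by
      apply Finset.sum_congr rfl
      intro i hi
      simp only [hx, if_pos hi]
    have e2 : ∑ i ∈ FB, (Nr 3 (m i) (x i).1 (x i).2 ρ : ℤ)
        = ∑ i ∈ FB, (Nr 3 (m i) (xB i).1 (xB i).2 ρ : ℤ) := by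
      apply Finset.sum_congr rfl
      intro i hi
      have h1 : i ∉ FA := by
        intro h
        have h2 := (Finset.mem_filter.1 (Finset.mem_filter.1 hi).1).2
        exact h2 (Finset.mem_filter.1 h).2
      simp only [hx, if_neg h1, if_pos hi]
    have e3 : ∑ i ∈ F0, (Nr 3 (m i) (x i).1 (x i).2 ρ : ℤ)
        = ∑ i ∈ F0, (Nr 3 (m i) (x0 i).1 (x0 i).2 ρ : ℤ) := by
      apply Finset.sum_congr rfl
      intro i hi
      have h1 : i ∉ FA := by
        intro h
        have h2 := (Finset.mem_filter.1 (Finset.mem_filter.1 hi).1).2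
        exact h2 (Finset.mem_filter.1 h).2
      have h2 : i ∉ FB := by
        intro h
        exact (Finset.mem_filter.1 hi).2 (Finset.mem_filter.1 h).2
      simp only [hx, if_neg h1, if_neg h2]
    rw [e1, e2, e3, hA2 ρ hρ, hB2 ρ hρ, h02 ρ hρ]
    ring
  have s0 := hsum 0 (by norm_num)
  have s1 := hsum 1 (by norm_num)
  have s2 := hsum 2 (by norm_num)
  have htot := CombA_total 3 (by norm_num) m x
  rw [Finset.sum_range_succ, Finset.sum_range_succ, Finset.sum_range_one, s0, s1, s2] at htot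
  simp only [haf, CombA_d] at s0 s1 s2 htot
  norm_num at s0 s1 s2 htot
  refine ⟨x, ?_, ∑ i, κ (m i), a, ?_, ?_, ?_, ?_, ?_⟩
  · intro i
    by_cases hi : i ∈ FA
    · simp only [hx, if_pos hi]
      exact hA1 i hi
    · by_cases hj : i ∈ FB
      · simp only [hx, if_neg hi, if_pos hj]
        exact hB1 i hj
      · simp only [hx, if_neg hi, if_neg hj]
        apply h01
        rw [hF0, Finset.mem_filter, Finset.mem_filter]
        have h1 : ¬ (m i % 6 = 1 ∨ m i % 6 = 4) := by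
          intro h
          exact hi (Finset.mem_filter.2 ⟨Finset.mem_univ i, h⟩)
        refine ⟨⟨Finset.mem_univ i, h1⟩, ?_⟩
        intro h
        exact hj (Finset.mem_filter.2 ⟨Finset.mem_filter.2 ⟨Finset.mem_univ i, h1⟩, h⟩)
  · rw [← htot]
    split_ifs <;> omega
  · rintro ⟨i, hi⟩
    rw [ha, Finset.card_pos]
    refine ⟨i, ?_⟩
    rw [hFA, Finset.mem_filter]
    exact ⟨Finset.mem_univ i, by omega⟩
  · intro ha0 hcard
    have hFB' : FB = Finset.univ.filter fun i : Fin r => m i % 6 = 2 ∨ m i % 6 = 3 := by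
      ext i
      rw [hFB, Finset.mem_filter, Finset.mem_filter, Finset.mem_filter]
      constructor
      · rintro ⟨⟨h1, _⟩, h2⟩
        exact ⟨h1, h2⟩
      · rintro ⟨h1, h2⟩
        exact ⟨⟨h1, by omega⟩, h2⟩
    rw [← hFB'] at hcard
    have hβz := hβ0 hcard
    rw [if_pos ha0] at s0 s2
    rw [s0, s1, s2]
    refine ⟨?_, ?_, ?_⟩ <;> omega
  · intro ha0
    rw [if_neg ha0] at s0 s2
    rw [s0, s1, s2]
    refine ⟨?_, rfl, ?_⟩
    · omega
    · omega
  · intro ha0
    rw [if_pos ha0] at s0 s2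
    rw [s0, s1, s2]
    refine ⟨?_, ?_, ?_, ?_⟩ <;> omega

/-- `e ≤ 3`, all residue classes. -/
theorem comb_small (e : ℕ) (he : 0 < e) (he3 : e ≤ 3) {r : ℕ} (m : Fin r → ℕ) (T : ℕ)
    (hS : e * T ≤ cnd m) (hex : e = 3 → cnd m ≠ 3 * T ∨ (∃ i, m i % 3 = 1) ∨
      (Finset.univ.filter fun i => m i % 6 = 2 ∨ m i % 6 = 3).card ≠ 1) :
    ∃ (p : Fin r → ℤ) (s : Fin r → Bool), (∀ i, 0 < circ e (p i) (s i) ∧
      circ e (p i) (s i) < 4 * e) ∧ ∀ ρ < e, T ≤ ∑ i, Nr e (m i) (p i) (s i) ρ := by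
  interval_cases e
  · have hadm : CombA_adm 1 (0, true) := by constructor <;> decide +kernel
    refine ⟨fun _ => 0, fun _ => true, fun _ => hadm, ?_⟩
    intro ρ hρ
    have h : ∑ i, Nr 1 (m i) 0 true 0 = cnd m := by
      unfold cnd
      apply Finset.sum_congr rfl
      intro i _
      rw [← Nr_sum 1 (by norm_num) (m i) 0 true, Finset.sum_range_one]
    have hρ0 : ρ = 0 := by omega
    rw [hρ0, h]
    omega
  · obtain ⟨x, hx, K, a, hS2, h0, h1⟩ := CombA_two m
    refine ⟨fun i => (x i).1, fun i => (x i).2, hx, ?_⟩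
    intro ρ hρ
    interval_cases ρ
    · zify
      rw [h0]
      omega
    · zify
      rw [h1]
      omega
  · obtain ⟨x, hx, K, a, hS3, hpos, hbal, hne, hz⟩ := CombA_three m
    refine ⟨fun i => (x i).1, fun i => (x i).2, hx, ?_⟩
    by_cases ha : a = 0
    · obtain ⟨z0, z1, z2, z3⟩ := hz ha
      rcases hex rfl with h | h | h
      · have hK : (T : ℤ) + 1 ≤ K := by omega
        intro ρ hρ
        interval_cases ρ
        · zify
          omega
        · zify
          omega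
        · zify
          omega
      · have := hpos h
        omega
      · obtain ⟨w0, w1, w2⟩ := hbal ha h
        intro ρ hρ
        interval_cases ρ
        · zify
          rw [w0]
          omega
        · zify
          rw [w1]
          omega
        · zify
          rw [w2]
          omega
    · obtain ⟨z0, z1, z2⟩ := hne ha
      intro ρ hρ
      interval_cases ρ
      · zify
        rw [z0]
        omega
      · zify
        rw [z1]
        omega
      · zify
        rw [z2]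
        omega

/-- `e ≤ 3`, one more condition for the class of `0`. -/
theorem comb_small' (e : ℕ) (he : 0 < e) (he3 : e ≤ 3) {r : ℕ} (m : Fin r → ℕ) (T : ℕ)
    (hS : e * T + 1 ≤ cnd m) :
    ∃ (p : Fin r → ℤ) (s : Fin r → Bool), (∀ i, 0 < circ e (p i) (s i) ∧
      circ e (p i) (s i) < 4 * e) ∧ (∀ ρ < e, T ≤ ∑ i, Nr e (m i) (p i) (s i) ρ) ∧
      T + 1 ≤ ∑ i, Nr e (m i) (p i) (s i) 0 := by
  interval_cases e
  · have h : ∑ i, Nr 1 (m i) 0 true 0 = cnd m := by
      unfold cnd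
      apply Finset.sum_congr rfl
      intro i _
      rw [← Nr_sum 1 (by norm_num) (m i) 0 true, Finset.sum_range_one]
    have hadm : CombA_adm 1 (0, true) := by constructor <;> decide +kernel
    refine ⟨fun _ => 0, fun _ => true, fun _ => hadm, ?_, ?_⟩
    · intro ρ hρ
      have hρ0 : ρ = 0 := by omega
      rw [hρ0, h]
      omega
    · rw [h]
      omega
  · obtain ⟨x, hx, K, a, hS2, h0, h1⟩ := CombA_two m
    refine ⟨fun i => (x i).1, fun i => (x i).2, hx, ?_, ?_⟩
    · intro ρ hρ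
      interval_cases ρ
      · zify
        rw [h0]
        omega
      · zify
        rw [h1]
        omega
    · zify
      rw [h0]
      omega
  · obtain ⟨x, hx, K, a, hS3, hpos, hbal, hne, hz⟩ := CombA_three m
    refine ⟨fun i => (x i).1, fun i => (x i).2, hx, ?_, ?_⟩
    · intro ρ hρ
      by_cases ha : a = 0
      · obtain ⟨z0, z1, z2, z3⟩ := hz ha
        interval_cases ρ
        · zify
          omega
        · zify
          omega
        · zify
          omega
      · obtain ⟨z0, z1, z2⟩ := hne ha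
        interval_cases ρ
        · zify
          rw [z0]
          omega
        · zify
          rw [z1]
          omega
        · zify
          rw [z2]
          omega
    · by_cases ha : a = 0
      · obtain ⟨z0, z1, z2, z3⟩ := hz ha
        zify
        omega
      · obtain ⟨z0, z1, z2⟩ := hne ha
        zify
        rw [z0]
        omega

end ShghT
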