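import Pool.Agent.ShghT.Comb

/-!
# Placing the points, general `e`
-/

namespace ShghT

/-- The representative of the class of `t` modulo `e` in the interval `-e ≤ 2 p < e`. -/
def CombB_pp (e : ℕ) (t : ℤ) : ℤ := (t + (e / 2 : ℕ)) % e - (e / 2 : ℕ)

theorem CombB_pp_mod (e : ℕ) (t : ℤ) : ∃ k : ℤ, CombB_pp e t = t + e * k := by
  refine ⟨-((t + (e / 2 : ℕ)) / e), ?_⟩
  unfold CombB_pp
  have h := Int.emod_add_mul_ediv (t + (e / 2 : ℕ)) e
  linarith

theorem CombB_pp_circ (e : ℕ) (he : 0 < e) (t : ℤ) :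
    0 < circ e (CombB_pp e t) true ∧ circ e (CombB_pp e t) true < 4 * e := by
  have h1 := Int.emod_nonneg (t + (e / 2 : ℕ)) (b := e) (by omega)
  have h2 := Int.emod_lt_of_pos (t + (e / 2 : ℕ)) (b := e) (by omega)
  unfold circ CombB_pp
  simp only [if_true]
  omega

/-- The pattern of one point, as a periodic function. -/
noncomputable def CombB_F (e m : ℕ) (x : ℤ) : ℕ := Nr e m 0 true (x % e).toNat

theorem CombB_F_per (e m : ℕ) (x k : ℤ) : CombB_F e m (x + e * k) = CombB_F e m x := by
  unfold CombB_F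
  rw [Int.add_mul_emod_self_left]

theorem CombB_Nr (e : ℕ) (he : 0 < e) (m : ℕ) (c : ℤ) (ρ : ℕ) (h : ρ < e) :
    Nr e m c true ρ = CombB_F e m (ρ - c) := by
  have h1 := Int.emod_nonneg ((ρ : ℤ) - c) (b := e) (by omega)
  have h2 := Int.emod_lt_of_pos ((ρ : ℤ) - c) (b := e) (by omega)
  have h3 := Nr_rot e he m 0 c true (((ρ : ℤ) - c) % e).toNat ρ (by omega) h (by
    rw [Int.toNat_of_nonneg h1, Int.emod_add_emod, sub_add_cancel]
    exact Int.emod_eq_of_lt (by omega) (by omega))
  rw [zero_add] at h3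
  exact h3

theorem CombB_per_sum (e : ℕ) (G : ℤ → ℕ) (hG : ∀ x, G (x + e) = G x) (x : ℤ) :
    ∑ t ∈ Finset.range e, G (x - t) = ∑ t ∈ Finset.range e, G t := by
  have step : ∀ x, ∑ t ∈ Finset.range e, G (x + 1 - t) = ∑ t ∈ Finset.range e, G (x - t) := by
    intro x
    cases e with
    | zero => simp
    | succ n =>
      rw [Finset.sum_range_succ', Finset.sum_range_succ]
      congr 1
      · refine Finset.sum_congr rfl fun t _ => ?_
        congr 1
        push_cast
        ring
      · have h := hG (x - n)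
        rw [← h]
        congr 1
        push_cast
        ring
  have all : ∀ x, ∑ t ∈ Finset.range e, G (x - t) = ∑ t ∈ Finset.range e, G (0 - t) := by
    intro x
    induction x using Int.induction_on with
    | zero => rfl
    | succ n ih => rw [step, ih]
    | pred n ih => rw [← step, sub_add_cancel, ih]
  rw [all, ← all ((e : ℤ) - 1)]
  rw [← Finset.sum_range_reflect (fun t : ℕ => G t) e]
  refine Finset.sum_congr rfl fun t ht => ?_
  have ht := Finset.mem_range.1 ht
  congr 1
  omega

theorem CombB_F_sum (e : ℕ) (he : 0 < e) (m : ℕ) (x : ℤ) :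
    ∑ t ∈ Finset.range e, CombB_F e m (x - t) = (m + 1).choose 2 := by
  rw [CombB_per_sum e (CombB_F e m) (fun x => by
    have := CombB_F_per e m x 1
    rwa [mul_one] at this)]
  rw [← Nr_sum e he m 0 true]
  refine Finset.sum_congr rfl fun t ht => ?_
  have ht := Finset.mem_range.1 ht
  rw [CombB_Nr e he m 0 t ht, sub_zero]

/-- Sums over consecutive rotations. -/
theorem CombB_W (e : ℕ) (he : 0 < e) (m n : ℕ) (x : ℤ) :
    (n / e) * (m + 1).choose 2 ≤ ∑ t ∈ Finset.range n, CombB_F e m (x - t) ∧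
    ∑ t ∈ Finset.range n, CombB_F e m (x - t) ≤ (n / e) * (m + 1).choose 2 + (m + 1).choose 2 := by
  have key : ∀ (q : ℕ) (x : ℤ), ∑ t ∈ Finset.range (e * q), CombB_F e m (x - t) =
      q * (m + 1).choose 2 := by
    intro q
    induction q with
    | zero => intro x; simp
    | succ q ih =>
      intro x
      rw [Nat.mul_succ, Finset.sum_range_add, ih]
      have h : ∑ t ∈ Finset.range e, CombB_F e m (x - ((e * q + t : ℕ) : ℤ)) =
          ∑ t ∈ Finset.range e, CombB_F e m ((x - (e * q : ℕ)) - t) := by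
        refine Finset.sum_congr rfl fun t _ => ?_
        congr 1
        push_cast
        ring
      rw [h, CombB_F_sum e he m]
      ring
  have h1 : e * (n / e) ≤ n := Nat.mul_div_le n e
  have h2 : n ≤ e * (n / e + 1) := (Nat.lt_mul_div_succ n he).le
  constructor
  · rw [← key (n / e) x]
    exact Finset.sum_le_sum_of_subset (Finset.range_subset_range.2 h1)
  · have h3 : (n / e) * (m + 1).choose 2 + (m + 1).choose 2 = (n / e + 1) * (m + 1).choose 2 := by
      ring
    rw [h3, ← key (n / e + 1) x]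
    exact Finset.sum_le_sum_of_subset (Finset.range_subset_range.2 h2)

theorem CombB_Nr_mul (e : ℕ) (he : 0 < e) (m k : ℕ) : ∃ C : ℕ, ∀ (p : ℤ) (ρ : ℕ),
    ρ < e → Nr e (m + 2 * e * k) p true ρ = C + Nr e m p true ρ := by
  induction k with
  | zero => exact ⟨0, fun p ρ _ => by simp⟩
  | succ k ih =>
    obtain ⟨C, hC⟩ := ih
    refine ⟨C + (2 * (m + 2 * e * k) + 2 * e + 1), ?_⟩
    intro p ρ hρ
    have h1 : m + 2 * e * (k + 1) = (m + 2 * e * k) + 2 * e := by ring
    rw [h1, Nr_add e he (m + 2 * e * k) p true ρ hρ, hC p ρ hρ]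
    ring

/-- The placement by rotations. -/
theorem CombB_place (e : ℕ) (he : 0 < e) {r : ℕ} (m : Fin r → ℕ) (A : Finset (Fin r)) :
    ∃ (p : Fin r → ℤ) (C : ℕ), (∀ i, ∃ t, p i = CombB_pp e t) ∧ ∀ ρ < e,
      ∑ i ∈ A, Nr e (m i) (p i) true ρ = C + ∑ g ∈ Finset.range (2 * e),
        ∑ t ∈ Finset.range (A.filter fun i => m i % (2 * e) = g).card,
          CombB_F e g ((ρ : ℤ) - t) := by
  classical
  induction A using Finset.induction_on with
  | empty => exact ⟨fun _ => CombB_pp e 0, 0, fun i => ⟨0, rfl⟩, fun ρ _ => by simp⟩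
  | insert a A ha ih =>
    obtain ⟨p, C, hp, hC⟩ := ih
    obtain ⟨C', hC'⟩ := CombB_Nr_mul e he (m a % (2 * e)) (m a / (2 * e))
    have hma : m a % (2 * e) + 2 * e * (m a / (2 * e)) = m a := Nat.mod_add_div _ _
    rw [hma] at hC'
    set n := (A.filter fun i => m i % (2 * e) = m a % (2 * e)).card with hn
    refine ⟨Function.update p a (CombB_pp e n), C' + C, ?_, ?_⟩
    · intro i
      by_cases h : i = a
      · subst h
        exact ⟨n, by simp⟩
      · rw [Function.update_of_ne h]
        exact hp i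
    · intro ρ hρ
      have hlt : m a % (2 * e) < 2 * e := Nat.mod_lt _ (by omega)
      rw [Finset.sum_insert ha, Function.update_self, hC' _ ρ hρ]
      have h1 : ∑ i ∈ A, Nr e (m i) (Function.update p a (CombB_pp e n) i) true ρ =
          ∑ i ∈ A, Nr e (m i) (p i) true ρ := by
        refine Finset.sum_congr rfl fun i hi => ?_
        rw [Function.update_of_ne (ne_of_mem_of_not_mem hi ha)]
      rw [h1, hC ρ hρ]
      have h2 : ∀ g ∈ Finset.range (2 * e),
          ∑ t ∈ Finset.range ((insert a A).filter fun i => m i % (2 * e) = g).card,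
            CombB_F e g ((ρ : ℤ) - t) =
          (∑ t ∈ Finset.range (A.filter fun i => m i % (2 * e) = g).card,
            CombB_F e g ((ρ : ℤ) - t)) +
          (if m a % (2 * e) = g then CombB_F e g ((ρ : ℤ) - n) else 0) := by
        intro g _
        rw [Finset.filter_insert]
        by_cases h : m a % (2 * e) = g
        · rw [if_pos h, if_pos h, Finset.card_insert_of_notMem (by
            simp [ha]), Finset.sum_range_succ]
          subst h
          rfl
        · rw [if_neg h, if_neg h, add_zero]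
      rw [Finset.sum_congr rfl h2, Finset.sum_add_distrib, Finset.sum_ite_eq,
        if_pos (Finset.mem_range.2 hlt)]
      have h3 : Nr e (m a % (2 * e)) (CombB_pp e n) true ρ =
          CombB_F e (m a % (2 * e)) ((ρ : ℤ) - n) := by
        obtain ⟨k, hk⟩ := CombB_pp_mod e n
        rw [CombB_Nr e he _ _ ρ hρ, hk, ← CombB_F_per e _ ((ρ : ℤ) - n) (-k)]
        congr 1
        ring
      rw [h3]
      ring

theorem CombB_mass (e : ℕ) (he : 0 < e) :
    ∑ g ∈ Finset.range (2 * e), (g + 1).choose 2 ≤ 4 * e ^ 3 := by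
  have h1 : ∀ g ∈ Finset.range (2 * e), (g + 1).choose 2 ≤ 2 * e * e := by
    intro g hg
    have hg := Finset.mem_range.1 hg
    calc (g + 1).choose 2 ≤ (2 * e).choose 2 := Nat.choose_le_choose 2 (by omega)
      _ ≤ 2 * e * e := by
        rw [Nat.choose_two_right]
        apply Nat.div_le_of_le_mul
        have : 2 * e * (2 * e - 1) ≤ 2 * e * (2 * e) := Nat.mul_le_mul_left _ (by omega)
        nlinarith
  calc ∑ g ∈ Finset.range (2 * e), (g + 1).choose 2
      ≤ ∑ _g ∈ Finset.range (2 * e), 2 * e * e := Finset.sum_le_sum h1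
    _ = 4 * e ^ 3 := by
      rw [Finset.sum_const, Finset.card_range, smul_eq_mul]
      ring

/-- The placement by rotations is balanced. -/
theorem CombB_bal (e : ℕ) (he : 0 < e) {r : ℕ} (m : Fin r → ℕ) (A : Finset (Fin r)) :
    ∃ p : Fin r → ℤ, (∀ i, ∃ t, p i = CombB_pp e t) ∧ ∀ ρ < e, ∀ ρ' < e,
      ∑ i ∈ A, Nr e (m i) (p i) true ρ ≤ ∑ i ∈ A, Nr e (m i) (p i) true ρ' + 4 * e ^ 3 := by
  obtain ⟨p, C, hp, hC⟩ := CombB_place e he m A
  refine ⟨p, hp, fun ρ hρ ρ' hρ' => ?_⟩
  rw [hC ρ hρ, hC ρ' hρ']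
  have h1 := Finset.sum_le_sum (s := Finset.range (2 * e)) (fun g _ =>
    (CombB_W e he g (A.filter fun i => m i % (2 * e) = g).card (ρ : ℤ)).2)
  have h2 := Finset.sum_le_sum (s := Finset.range (2 * e)) (fun g _ =>
    (CombB_W e he g (A.filter fun i => m i % (2 * e) = g).card (ρ' : ℤ)).1)
  rw [Finset.sum_add_distrib] at h1
  have h3 := CombB_mass e he
  omega

/-- Distribution of the simple points. -/
theorem CombB_dist (e : ℕ) {r : ℕ} (A : Finset (Fin r)) (he : 0 < e) : ∀ d : ℕ → ℕ,
    ∑ ρ ∈ Finset.range e, d ρ ≤ A.card →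
    ∃ c : Fin r → ℕ, (∀ i, c i < e) ∧ ∀ ρ < e, d ρ ≤ (A.filter fun i => c i = ρ).card := by
  classical
  induction A using Finset.induction_on with
  | empty =>
    intro d hd
    refine ⟨fun _ => 0, fun _ => he, fun ρ hρ => ?_⟩
    rw [Finset.card_empty, Nat.le_zero, Finset.sum_eq_zero_iff] at hd
    rw [hd ρ (Finset.mem_range.2 hρ)]
    exact Nat.zero_le _
  | insert a A ha ih =>
    intro d hd
    by_cases h0 : ∀ ρ < e, d ρ = 0
    · exact ⟨fun _ => 0, fun _ => he, fun ρ hρ => by rw [h0 ρ hρ]; exact Nat.zero_le _⟩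
    · push Not at h0
      obtain ⟨ρ₀, hρ₀, hd₀⟩ := h0
      obtain ⟨c, hc, hc'⟩ := ih (Function.update d ρ₀ (d ρ₀ - 1)) (by
        rw [Finset.sum_update_of_mem (Finset.mem_range.2 hρ₀)]
        rw [Finset.card_insert_of_notMem ha,
          Finset.sum_eq_add_sum_sdiff_singleton_of_mem (Finset.mem_range.2 hρ₀) d] at hd
        omega)
      refine ⟨Function.update c a ρ₀, ?_, ?_⟩
      · intro i
        by_cases h : i = a
        · subst h
          simpa using hρ₀
        · rw [Function.update_of_ne h]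
          exact hc i
      · intro ρ hρ
        have h1 : (A.filter fun i => Function.update c a ρ₀ i = ρ) =
            (A.filter fun i => c i = ρ) := by
          refine Finset.filter_congr fun i hi => ?_
          rw [Function.update_of_ne (ne_of_mem_of_not_mem hi ha)]
        rw [Finset.filter_insert, Function.update_self, h1]
        have h2 := hc' ρ hρ
        by_cases h : ρ₀ = ρ
        · subst h
          rw [Function.update_self] at h2
          rw [if_pos rfl, Finset.card_insert_of_notMem (by simp [ha])]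
          omega
        · rw [if_neg h]
          rwa [Function.update_of_ne (Ne.symm h)] at h2

theorem CombB_one (e : ℕ) (he : 0 < e) (ρ : ℕ) (hρ : ρ < e) :
    1 ≤ Nr e 1 (CombB_pp e ρ) true ρ := by
  obtain ⟨k, hk⟩ := CombB_pp_mod e ρ
  unfold Nr
  have hmem : CombB_pp e ρ ∈ (Finset.Icc (CombB_pp e ρ - ((1 : ℕ) : ℤ))
      (CombB_pp e ρ + ((1 : ℕ) : ℤ))).filter (fun j : ℤ => j % e = ρ) := by
    rw [Finset.mem_filter, Finset.mem_Icc]
    refine ⟨⟨by push_cast; omega, by push_cast; omega⟩, ?_⟩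
    rw [hk, Int.add_mul_emod_self_left]
    exact Int.emod_eq_of_lt (by omega) (by omega)
  refine le_trans ?_ (Finset.single_le_sum (f := fun j : ℤ =>
    (((1 : ℕ) : ℤ) + 1 - rk (CombB_pp e ρ) true j).toNat) (fun _ _ => Nat.zero_le _) hmem)
  simp [rk]

/-- General `e`: enough surplus or enough simple points. -/
theorem comb_gen (e : ℕ) (he : 0 < e) {r : ℕ} (m : Fin r → ℕ) (T : ℕ)
    (hS : e * T ≤ cnd m) (h : e * T + 4 * e ^ 4 ≤ cnd m ∨
      4 * e ^ 4 ≤ (Finset.univ.filter fun i => m i = 1).card) :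
    ∃ (p : Fin r → ℤ) (s : Fin r → Bool), (∀ i, 0 < circ e (p i) (s i) ∧
      circ e (p i) (s i) < 4 * e) ∧ ∀ ρ < e, T ≤ ∑ i, Nr e (m i) (p i) (s i) ρ := by
  classical
  have tot : ∀ (A : Finset (Fin r)) (p : Fin r → ℤ),
      ∑ ρ ∈ Finset.range e, ∑ i ∈ A, Nr e (m i) (p i) true ρ =
        ∑ i ∈ A, (m i + 1).choose 2 := by
    intro A p
    rw [Finset.sum_comm]
    exact Finset.sum_congr rfl fun i _ => Nr_sum e he (m i) (p i) true
  rcases h with h | h
  · obtain ⟨p, hp, hb⟩ := CombB_bal e he m Finset.univ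
    refine ⟨p, fun _ => true, fun i => ?_, fun ρ hρ => ?_⟩
    · obtain ⟨t, ht⟩ := hp i
      rw [ht]
      exact CombB_pp_circ e he t
    · have h1 : ∑ ρ' ∈ Finset.range e, ∑ i, Nr e (m i) (p i) true ρ' ≤
          ∑ _ρ' ∈ Finset.range e, (∑ i, Nr e (m i) (p i) true ρ + 4 * e ^ 3) :=
        Finset.sum_le_sum fun ρ' hρ' => hb ρ' (Finset.mem_range.1 hρ') ρ hρ
      rw [tot, Finset.sum_const, Finset.card_range, smul_eq_mul] at h1
      have h2 : e * T + 4 * e ^ 4 ≤ e * (∑ i, Nr e (m i) (p i) true ρ + 4 * e ^ 3) :=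
        le_trans h h1
      have h3 : e * T ≤ e * ∑ i, Nr e (m i) (p i) true ρ := by
        have h4 : e * (∑ i, Nr e (m i) (p i) true ρ + 4 * e ^ 3) =
          e * ∑ i, Nr e (m i) (p i) true ρ + 4 * e ^ 4 := by ring
        omega
      exact Nat.le_of_mul_le_mul_left h3 he
  · set A := (Finset.univ.filter fun i => m i = 1) with hA
    obtain ⟨p, hp, hb⟩ := CombB_bal e he m (Finset.univ.filter fun i => ¬ m i = 1)
    set B := (Finset.univ.filter fun i => ¬ m i = 1) with hB
    set x : ℕ → ℕ := fun ρ => ∑ i ∈ B, Nr e (m i) (p i) true ρ with hx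
    have hcnd : cnd m = A.card + ∑ ρ ∈ Finset.range e, x ρ := by
      rw [hx, tot, cnd, ← Finset.sum_filter_add_sum_filter_not Finset.univ (fun i => m i = 1)]
      congr 1
      rw [Finset.card_eq_sum_ones]
      refine Finset.sum_congr rfl fun i hi => ?_
      rw [(Finset.mem_filter.1 hi).2]
      rfl
    have hdef : ∑ ρ ∈ Finset.range e, (T - x ρ) ≤ A.card := by
      by_cases hex : ∃ ρ < e, T < x ρ
      · obtain ⟨ρ, hρ, hTx⟩ := hex
        calc ∑ ρ' ∈ Finset.range e, (T - x ρ') ≤ ∑ _ρ' ∈ Finset.range e, 4 * e ^ 3 := by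
              refine Finset.sum_le_sum fun ρ' hρ' => ?_
              have := hb ρ hρ ρ' (Finset.mem_range.1 hρ')
              change x ρ ≤ x ρ' + 4 * e ^ 3 at this
              omega
          _ = 4 * e ^ 4 := by
              rw [Finset.sum_const, Finset.card_range, smul_eq_mul]
              ring
          _ ≤ A.card := h
      · push Not at hex
        have h1 : ∑ ρ ∈ Finset.range e, (T - x ρ) + ∑ ρ ∈ Finset.range e, x ρ = e * T := by
          rw [← Finset.sum_add_distrib]
          rw [Finset.sum_congr rfl (g := fun _ => T) (fun ρ hρ => by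
            have := hex ρ (Finset.mem_range.1 hρ)
            omega)]
          rw [Finset.sum_const, Finset.card_range, smul_eq_mul]
        omega
    obtain ⟨c, hc, hc'⟩ := CombB_dist e A he _ hdef
    refine ⟨fun i => if m i = 1 then CombB_pp e (c i) else p i, fun _ => true,
      fun i => ?_, fun ρ hρ => ?_⟩
    · by_cases hi : m i = 1
      · simp only [if_pos hi]
        exact CombB_pp_circ e he _
      · simp only [if_neg hi]
        obtain ⟨t, ht⟩ := hp i
        rw [ht]
        exact CombB_pp_circ e he t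
    · rw [← Finset.sum_filter_add_sum_filter_not Finset.univ (fun i => m i = 1)]
      have h1 : ∑ i ∈ B, Nr e (m i) (if m i = 1 then CombB_pp e (c i) else p i) true ρ = x ρ := by
        refine Finset.sum_congr rfl fun i hi => ?_
        rw [if_neg (Finset.mem_filter.1 hi).2]
      have h2 : (A.filter fun i => c i = ρ).card ≤
          ∑ i ∈ A, Nr e (m i) (if m i = 1 then CombB_pp e (c i) else p i) true ρ := by
        rw [Finset.card_eq_sum_ones, Finset.sum_filter]
        refine Finset.sum_le_sum fun i hi => ?_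
        rw [(Finset.mem_filter.1 hi).2]
        by_cases hci : c i = ρ
        · rw [if_pos hci, if_pos rfl, hci]
          exact CombB_one e he ρ hρ
        · rw [if_neg hci]
          exact Nat.zero_le _
      have h3 := hc' ρ hρ
      change T ≤ ∑ i ∈ A, Nr e (m i) (if m i = 1 then CombB_pp e (c i) else p i) true ρ +
        ∑ i ∈ B, Nr e (m i) (if m i = 1 then CombB_pp e (c i) else p i) true ρ
      rw [h1]
      omega

end ShghT
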