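import Pool.Agent.ShghT.Comb

/-!
# Reducing the multiplicity of a point
-/

namespace ShghT

/-- For multiplicities at most `2 e` a residue class contains two conditions, whose ranks add up
to `2 e + 1`. -/
private theorem Red_two (e : ℕ) (he : 0 < e) (p : ℤ) (s : Bool) (ρ : ℕ) (hρ : ρ < e) :
    ∃ R R' : ℤ, R + R' = 2 * e + 1 ∧ ∀ m : ℕ, m ≤ 2 * e →
      Nr e m p s ρ = ((m : ℤ) + 1 - R).toNat + ((m : ℤ) + 1 - R').toNat := by
  have he' : (0 : ℤ) < e := by exact_mod_cast he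
  obtain ⟨lo, hlo1, hlo2⟩ : ∃ lo : ℤ, (∀ j, rk p s j ≤ 2 * e ↔ lo ≤ j ∧ j < lo + 2 * e) ∧
      ∀ j, lo ≤ j → j < lo + e → rk p s j + rk p s (j + e) = 2 * e + 1 := by
    refine ⟨if s = true then p - e + 1 else p - e, fun j => ?_, fun j h1 h2 => ?_⟩
    · unfold rk
      cases s <;> simp <;> omega
    · unfold rk
      cases s
      · simp only [Bool.false_eq_true, if_false] at h1 h2 ⊢
        omega
      · simp only [if_true] at h1 h2 ⊢
        omega
  obtain ⟨j₁, hj1, hj2, hj3⟩ : ∃ j₁ : ℤ, lo ≤ j₁ ∧ j₁ < lo + e ∧ j₁ % e = ρ := by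
    have h1 : 0 ≤ ((ρ : ℤ) - lo) % e := Int.emod_nonneg _ (by omega)
    have h2 : ((ρ : ℤ) - lo) % e < e := Int.emod_lt_of_pos _ he'
    refine ⟨lo + ((ρ : ℤ) - lo) % e, by omega, by omega, ?_⟩
    rw [Int.add_emod_emod, add_sub_cancel]
    exact Int.emod_eq_of_lt (by omega) (by omega)
  have hj4 : (j₁ + e) % e = ρ := by
    rw [Int.add_emod_right, hj3]
  refine ⟨rk p s j₁, rk p s (j₁ + e), hlo2 j₁ hj1 hj2, fun m hm => ?_⟩
  unfold Nr
  have hne : j₁ ≠ j₁ + e := by omega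
  rw [← Finset.sum_pair (f := fun j => ((m : ℤ) + 1 - rk p s j).toNat) hne]
  set A := (Finset.Icc (p - (m : ℤ)) (p + m)).filter (fun j : ℤ => j % e = ρ) with hA
  have e1 : ∑ j ∈ A, ((m : ℤ) + 1 - rk p s j).toNat =
      ∑ j ∈ A ∪ {j₁, j₁ + (e : ℤ)}, ((m : ℤ) + 1 - rk p s j).toNat := by
    refine Finset.sum_subset Finset.subset_union_left fun j hj hjA => ?_
    by_contra hne0
    have hrk : rk p s j ≤ m := by omega
    apply hjA
    rw [hA, Finset.mem_filter]
    refine ⟨mem_Icc_of_rk_le p s m j hrk, ?_⟩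
    rcases Finset.mem_union.1 hj with h | h
    · exact absurd h hjA
    · rcases Finset.mem_insert.1 h with h | h
      · rw [h, hj3]
      · rw [Finset.mem_singleton.1 h, hj4]
  have e2 : ∑ j ∈ ({j₁, j₁ + (e : ℤ)} : Finset ℤ), ((m : ℤ) + 1 - rk p s j).toNat =
      ∑ j ∈ A ∪ {j₁, j₁ + (e : ℤ)}, ((m : ℤ) + 1 - rk p s j).toNat := by
    refine Finset.sum_subset Finset.subset_union_right fun j hj hjB => ?_
    by_contra hne0
    have hrk : rk p s j ≤ 2 * e := by omega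
    apply hjB
    rcases Finset.mem_union.1 hj with h | h
    · rw [hA, Finset.mem_filter] at h
      obtain ⟨g1, g2⟩ := (hlo1 j).1 hrk
      have hd : (e : ℤ) ∣ j - j₁ := by
        apply Int.dvd_of_emod_eq_zero
        rw [Int.sub_emod, h.2, hj3, sub_self, Int.zero_emod]
      obtain ⟨z, hz⟩ := hd
      have hz0 : -1 < z := by
        by_contra hcon
        have : (e : ℤ) * z ≤ e * (-1) := mul_le_mul_of_nonneg_left (by omega) he'.le
        omega
      have hz2 : z < 2 := by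
        by_contra hcon
        have : (e : ℤ) * 2 ≤ e * z := mul_le_mul_of_nonneg_left (by omega) he'.le
        omega
      rw [Finset.mem_insert, Finset.mem_singleton]
      have hz3 : z = 0 ∨ z = 1 := by omega
      rcases hz3 with h0 | h0
      · left
        rw [h0] at hz
        omega
      · right
        rw [h0] at hz
        omega
    · exact h
  rw [e1, e2]

private theorem Red_flip (e : ℕ) (he : 0 < e) (m : ℕ) (hm : e ≤ m) (hm2 : m < 2 * e) (p : ℤ)
    (s : Bool) (ρ : ℕ) (hρ : ρ < e) :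
    Nr e m p s ρ = Nr e (2 * e - 1 - m) p s ρ + (2 * m + 1 - 2 * e) := by
  obtain ⟨R, R', hR, hN⟩ := Red_two e he p s ρ hρ
  rw [hN m (by omega), hN (2 * e - 1 - m) (by omega)]
  omega

private theorem Red_mul (e : ℕ) (he : 0 < e) (m k : ℕ) : ∃ C : ℕ, ∀ (p : ℤ) (s : Bool) (ρ : ℕ),
    ρ < e → Nr e (m + 2 * e * k) p s ρ = Nr e m p s ρ + C := by
  induction k with
  | zero => exact ⟨0, fun p s ρ _ => by simp⟩
  | succ k ih =>
    obtain ⟨C, hC⟩ := ih
    refine ⟨C + (2 * (m + 2 * e * k) + 2 * e + 1), ?_⟩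
    intro p s ρ hρ
    have h1 : m + 2 * e * (k + 1) = (m + 2 * e * k) + 2 * e := by ring
    rw [h1, Nr_add e he (m + 2 * e * k) p s ρ hρ, hC p s ρ hρ]
    ring

/-- Up to a constant the multiplicity may be taken `< e`: multiplicities modulo `2 e`, and
`m ↦ 2 e - 1 - m`. -/
theorem Nr_red (e : ℕ) (he : 0 < e) (m : ℕ) : ∃ m' c : ℕ, m' + 1 ≤ e ∧
    ∀ (p : ℤ) (s : Bool) (ρ : ℕ), ρ < e → Nr e m p s ρ = Nr e m' p s ρ + c := by
  obtain ⟨C, hC⟩ := Red_mul e he (m % (2 * e)) (m / (2 * e))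
  have hma : m % (2 * e) + 2 * e * (m / (2 * e)) = m := Nat.mod_add_div _ _
  have hlt : m % (2 * e) < 2 * e := Nat.mod_lt _ (by omega)
  rw [hma] at hC
  rcases lt_or_ge (m % (2 * e)) e with h | h
  · exact ⟨m % (2 * e), C, h, hC⟩
  · refine ⟨2 * e - 1 - m % (2 * e), (2 * (m % (2 * e)) + 1 - 2 * e) + C, by omega, ?_⟩
    intro p s ρ hρ
    rw [hC p s ρ hρ, Red_flip e he _ h hlt p s ρ hρ]
    ring

end ShghT
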