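import Pool.Agent.ShghT.Fold
import Pool.Agent.ShghT.Red
import Pool.Agent.ShghT.CombB

/-!
# Placing the points, general `e`, quadratic bound
-/

namespace ShghT

/-- Admissible representative modulo `e`. -/
def CombC_q (e : ℕ) (p : ℤ) (s : Bool) : ℤ := if s then CombB_pp e p else -CombB_pp e (-p)

theorem CombC_q_mod (e : ℕ) (p : ℤ) (s : Bool) : ∃ k : ℤ, CombC_q e p s = p + e * k := by
  unfold CombC_q
  cases s
  · obtain ⟨k, hk⟩ := CombB_pp_mod e (-p)
    refine ⟨-k, ?_⟩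
    simp only [Bool.false_eq_true, if_false]
    rw [hk]
    ring
  · obtain ⟨k, hk⟩ := CombB_pp_mod e p
    exact ⟨k, by simpa using hk⟩

theorem CombC_q_circ (e : ℕ) (he : 0 < e) (p : ℤ) (s : Bool) :
    0 < circ e (CombC_q e p s) s ∧ circ e (CombC_q e p s) s < 4 * e := by
  cases s
  · have h1 := Int.emod_nonneg (-p + (e / 2 : ℕ)) (b := e) (by omega)
    have h2 := Int.emod_lt_of_pos (-p + (e / 2 : ℕ)) (b := e) (by omega)
    unfold circ CombC_q CombB_pp
    simp only [Bool.false_eq_true, if_false]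
    omega
  · have h := CombB_pp_circ e he p
    unfold CombC_q
    simpa using h

theorem CombC_q_Nr (e : ℕ) (he : 0 < e) (m : ℕ) (p : ℤ) (s : Bool) (ρ : ℕ) (hρ : ρ < e) :
    Nr e m (CombC_q e p s) s ρ = Nr e m p s ρ := by
  obtain ⟨k, hk⟩ := CombC_q_mod e p s
  rw [hk]
  refine Nr_rot e he m p (e * k) s ρ ρ hρ hρ ?_
  rw [Int.add_mul_emod_self_left]
  exact Int.emod_eq_of_lt (by omega) (by omega)

/-- Far away the tents vanish. -/
theorem CombC_tv_zero (m : ℕ) (p : ℤ) (s : Bool) (j : ℤ) (h : p + m < j) : tv m p s j = 0 := by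
  unfold tv
  rw [Int.toNat_eq_zero]
  by_contra h1
  have h2 : rk p s j ≤ m := by omega
  have h3 := Finset.mem_Icc.1 (mem_Icc_of_rk_le p s m j h2)
  omega

theorem comb_bal (e : ℕ) (he : 0 < e) {r : ℕ} (m : Fin r → ℕ) :
    ∃ (p : Fin r → ℤ) (s : Fin r → Bool), (∀ i, 0 < circ e (p i) (s i) ∧
      circ e (p i) (s i) < 4 * e) ∧ ∀ ρ < e,
      4 * cnd m ≤ 4 * e * ∑ i, Nr e (m i) (p i) (s i) ρ + 3 * e ^ 2 ∧
      e * ∑ i, Nr e (m i) (p i) (s i) ρ ≤ cnd m + (e - 1) ^ 2 := by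
  classical
  choose m' c hm' hc using fun i => Nr_red e he (m i)
  obtain ⟨p, σ, h1, h2, h3⟩ := chain m' Finset.univ 0 true
  refine ⟨fun i => CombC_q e (p i) (σ i), σ, fun i => CombC_q_circ e he _ _, fun ρ hρ => ?_⟩
  have hN : ∑ i, Nr e (m i) (CombC_q e (p i) (σ i)) (σ i) ρ =
      ∑ i, Nr e (m' i) (p i) (σ i) ρ + ∑ i, c i := by
    rw [← Finset.sum_add_distrib]
    refine Finset.sum_congr rfl fun i _ => ?_
    rw [CombC_q_Nr e he _ _ _ ρ hρ, hc i _ _ ρ hρ]
  rw [hN]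
  have hcnd : cnd m = cnd m' + e * ∑ i, c i := by
    unfold cnd
    rw [Finset.mul_sum, ← Finset.sum_add_distrib]
    refine Finset.sum_congr rfl fun i _ => ?_
    rw [← Nr_sum e he (m i) 0 true, ← Nr_sum e he (m' i) 0 true]
    have : e * c i = ∑ _ρ ∈ Finset.range e, c i := by
      rw [Finset.sum_const, Finset.card_range, smul_eq_mul]
    rw [this, ← Finset.sum_add_distrib]
    refine Finset.sum_congr rfl fun ρ' hρ' => ?_
    exact hc i 0 true ρ' (Finset.mem_range.1 hρ')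
  set M : ℕ := Finset.univ.sup m' with hM
  have hMe : M + 1 ≤ e := by
    have : M ≤ e - 1 := Finset.sup_le fun i _ => by have := hm' i; omega
    omega
  set H : ℤ → ℕ := fun j => ∑ i, tv (m' i) (p i) (σ i) j with hH
  have hleft : ∀ j : ℤ, j < 0 → H j = ((M : ℤ) + 2 * j).toNat := by
    intro j hj
    have := h3 j hj
    rw [hH]
    simp only
    rw [this]
    unfold tv rk
    simp only [if_true]
    congr 1
    rw [max_eq_right (by omega)]
    ring
  obtain ⟨n, hn⟩ : ∃ n : ℕ, ∀ i, p i + m' i < n := by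
    refine ⟨(∑ i, ((p i).natAbs + m' i)) + 1, fun i => ?_⟩
    have := Finset.single_le_sum (f := fun i => (p i).natAbs + m' i) (fun _ _ => Nat.zero_le _)
      (Finset.mem_univ i)
    omega
  have hz1 : ∀ i, ∀ j : ℤ, j < -(e : ℤ) → tv (m' i) (p i) (σ i) j = 0 := by
    intro i j hj
    have h4 : H j = 0 := by
      rw [hleft j (by omega), Int.toNat_eq_zero]
      omega
    exact Finset.sum_eq_zero_iff.1 h4 i (Finset.mem_univ i)
  have hz2 : ∀ i, ∀ j : ℤ, n * e ≤ j → tv (m' i) (p i) (σ i) j = 0 := by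
    intro i j hj
    refine CombC_tv_zero _ _ _ _ ?_
    have h5 := hn i
    have h6 : (n : ℤ) ≤ n * e := by
      have : (1 : ℤ) ≤ e := by omega
      nlinarith
    omega
  have hS : ∀ ρ < e, ∑ i, Nr e (m' i) (p i) (σ i) ρ = ∑ t ∈ Finset.Ico (-1 : ℤ) n,
      H (ρ + t * e) := by
    intro ρ hρ
    rw [Finset.sum_comm]
    refine Finset.sum_congr rfl fun i _ => ?_
    exact Nr_eq_sum_tv e he (m' i) (p i) (σ i) n (hz1 i) (hz2 i) ρ hρ
  obtain ⟨h5, h6⟩ := fold e he M hMe n H h1 h2 hleft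
    (fun ρ => ∑ i, Nr e (m' i) (p i) (σ i) ρ) hS ρ hρ
  have h7 : ∑ ρ' ∈ Finset.range e, ∑ i, Nr e (m' i) (p i) (σ i) ρ' = cnd m' := by
    rw [Finset.sum_comm]
    exact Finset.sum_congr rfl fun i _ => Nr_sum e he _ _ _
  rw [h7] at h5 h6
  rw [hcnd]
  set x := ∑ i, Nr e (m' i) (p i) (σ i) ρ
  set y := ∑ i, c i
  constructor
  · calc 4 * (cnd m' + e * y) = 4 * cnd m' + 4 * e * y := by ring
      _ ≤ 4 * e * x + 3 * e ^ 2 + 4 * e * y := Nat.add_le_add_right h5 _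
      _ = 4 * e * (x + y) + 3 * e ^ 2 := by ring
  · calc e * (x + y) = e * x + e * y := by ring
      _ ≤ cnd m' + (e - 1) ^ 2 + e * y := Nat.add_le_add_right h6 _
      _ = cnd m' + e * y + (e - 1) ^ 2 := by ring

theorem comb_lo (e : ℕ) (he : 0 < e) {r : ℕ} (m : Fin r → ℕ) (T : ℕ)
    (h : 4 * (e * T) + 3 * e ^ 2 ≤ 4 * cnd m) :
    ∃ (p : Fin r → ℤ) (s : Fin r → Bool), (∀ i, 0 < circ e (p i) (s i) ∧
      circ e (p i) (s i) < 4 * e) ∧ ∀ ρ < e, T ≤ ∑ i, Nr e (m i) (p i) (s i) ρ := by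
  obtain ⟨p, s, hps, hb⟩ := comb_bal e he m
  refine ⟨p, s, hps, fun ρ hρ => ?_⟩
  have h1 := (hb ρ hρ).1
  have h2 : e * T ≤ e * ∑ i, Nr e (m i) (p i) (s i) ρ := by
    have h3 : 4 * e * ∑ i, Nr e (m i) (p i) (s i) ρ = 4 * (e * ∑ i, Nr e (m i) (p i) (s i) ρ) := by
      ring
    omega
  exact Nat.le_of_mul_le_mul_left h2 he

theorem comb_fill (e : ℕ) (he : 0 < e) {r n : ℕ} (m : Fin r → ℕ) (T : ℕ) (hn : (e - 1) ^ 2 ≤ n)
    (h : cnd m + n = e * T) :
    ∃ (p : Fin (r + n) → ℤ) (s : Fin (r + n) → Bool), (∀ i, 0 < circ e (p i) (s i) ∧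
      circ e (p i) (s i) < 4 * e) ∧
      ∀ ρ < e, T ≤ ∑ i, Nr e (Fin.append m (fun _ : Fin n => 1) i) (p i) (s i) ρ := by
  classical
  obtain ⟨p, s, hps, hb⟩ := comb_bal e he m
  set x : ℕ → ℕ := fun ρ => ∑ i, Nr e (m i) (p i) (s i) ρ with hx
  have hxT : ∀ ρ < e, x ρ ≤ T := by
    intro ρ hρ
    have h1 : e * x ρ ≤ cnd m + (e - 1) ^ 2 := (hb ρ hρ).2
    have h2 : e * x ρ ≤ e * T := by omega
    exact Nat.le_of_mul_le_mul_left h2 he
  have hxs : ∑ ρ ∈ Finset.range e, x ρ = cnd m := by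
    rw [hx]
    simp only
    rw [Finset.sum_comm]
    exact Finset.sum_congr rfl fun i _ => Nr_sum e he _ _ _
  have hd : ∑ ρ ∈ Finset.range e, (T - x ρ) ≤ (Finset.univ : Finset (Fin n)).card := by
    have h1 : ∑ ρ ∈ Finset.range e, (T - x ρ) + ∑ ρ ∈ Finset.range e, x ρ = e * T := by
      rw [← Finset.sum_add_distrib]
      rw [Finset.sum_congr rfl (g := fun _ => T) (fun ρ hρ => by
        have := hxT ρ (Finset.mem_range.1 hρ)
        omega)]
      rw [Finset.sum_const, Finset.card_range, smul_eq_mul]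
    rw [Finset.card_univ, Fintype.card_fin]
    omega
  obtain ⟨c, hc, hc'⟩ := CombB_dist e Finset.univ he _ hd
  refine ⟨Fin.append p (fun i => CombB_pp e (c i)), Fin.append s (fun _ => true), ?_, ?_⟩
  · intro i
    refine Fin.addCases (fun i => ?_) (fun i => ?_) i
    · rw [Fin.append_left, Fin.append_left]
      exact hps i
    · rw [Fin.append_right, Fin.append_right]
      exact CombB_pp_circ e he _
  · intro ρ hρ
    rw [Fin.sum_univ_add]
    simp only [Fin.append_left, Fin.append_right]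
    have h1 : (Finset.univ.filter fun i => c i = ρ).card ≤
        ∑ i : Fin n, Nr e 1 (CombB_pp e (c i)) true ρ := by
      rw [Finset.card_eq_sum_ones, Finset.sum_filter]
      refine Finset.sum_le_sum fun i _ => ?_
      by_cases hci : c i = ρ
      · rw [if_pos hci, hci]
        exact CombB_one e he ρ hρ
      · rw [if_neg hci]
        exact Nat.zero_le _
    have h2 := hc' ρ hρ
    change T ≤ x ρ + _
    omega

end ShghT
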