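import Pool.Agent.ShghT.CoreA

/-!
# The main argument
-/

namespace ShghT

variable {k : Type*} [Field k]

theorem unit_id {B : Type*} [CommRing B] (u : Fin 9 → Bˣ) (x : Bˣ) (V P H ψ : B)
    (μ κ : Fin 9 → ℕ) (D j E : ℕ) (mm : Fin 9 → ℤ) (h1 : P = (x : B) ^ D * ψ)
    (h2 : P * ∏ l, (u l : B) ^ κ l = H * ∏ l, (u l : B) ^ μ l)
    (hμκ : ∀ l, (μ l : ℤ) - κ l = mm l - j) (hD : D + 3 * j = E) :
    ψ * V ^ j = (((∏ l, u l ^ mm l) * x ^ (-(E : ℤ)) : Bˣ) : B) *
      (V * (x : B) ^ 3 * (((∏ l, u l)⁻¹ : Bˣ) : B)) ^ j * H := by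
  have e1 : ψ = ((x ^ (-(D : ℤ)) : Bˣ) : B) * P := by
    rw [h1, ← mul_assoc, ← Units.val_pow_eq_pow_val, ← Units.val_mul, zpow_neg, zpow_natCast,
      inv_mul_cancel, Units.val_one, one_mul]
  have e2 : P = H * ((∏ l, u l ^ ((μ l : ℤ) - κ l) : Bˣ) : B) := by
    have h3 : (∏ l, u l ^ ((μ l : ℤ) - κ l)) * (∏ l, u l ^ κ l) = ∏ l, u l ^ μ l := by
      rw [← Finset.prod_mul_distrib]
      refine Finset.prod_congr rfl fun l _ => ?_
      rw [← zpow_natCast, ← zpow_natCast, ← zpow_add]
      congr 1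
      ring
    have h4 : ((∏ l, u l ^ κ l : Bˣ) : B) = ∏ l, (u l : B) ^ κ l := by
      rw [Units.coe_prod]
      simp
    have h5 : ((∏ l, u l ^ μ l : Bˣ) : B) = ∏ l, (u l : B) ^ μ l := by
      rw [Units.coe_prod]
      simp
    have h6 : (P - H * ((∏ l, u l ^ ((μ l : ℤ) - κ l) : Bˣ) : B)) *
        ((∏ l, u l ^ κ l : Bˣ) : B) = 0 := by
      rw [sub_mul, mul_assoc, ← Units.val_mul, h3, h5, h4, h2, sub_self]
    exact sub_eq_zero.1 ((Units.mul_left_eq_zero _).1 h6)
  have e3 : (∏ l, u l ^ ((μ l : ℤ) - κ l)) = (∏ l, u l ^ mm l) * ((∏ l, u l)⁻¹) ^ j := by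
    rw [inv_pow, ← zpow_natCast, ← zpow_neg, ← Finset.prod_zpow, ← Finset.prod_mul_distrib]
    refine Finset.prod_congr rfl fun l _ => ?_
    rw [hμκ, sub_eq_add_neg, zpow_add]
  have e4 : x ^ (-(D : ℤ)) = x ^ (-(E : ℤ)) * (x ^ 3) ^ j := by
    rw [← pow_mul, ← zpow_natCast, ← zpow_add]
    congr 1
    subst hD
    push_cast
    ring
  rw [e1, e2, e3, e4]
  push_cast
  rw [mul_pow, mul_pow]
  ring

/-- `iota c * P` with `P` of constant term `1`. -/
theorem top_lemma {c : PowerSeries k} (hc : c ≠ 0) {P : Lam k} (hP : cf P 0 0 = 1) :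
    ∃ v : ℤ, cf (iota c * P) v 0 ≠ 0 ∧ ∀ n j, cf (iota c * P) n j ≠ 0 → v ≤ n := by
  obtain ⟨v, c1, hc1, hcv⟩ : ∃ (v : ℕ) (c1 : PowerSeries k), PowerSeries.constantCoeff c1 ≠ 0 ∧
      c = PowerSeries.X ^ v * c1 := by
    refine ⟨c.order.toNat, PowerSeries.divXPowOrder c, ?_, ?_⟩
    · rwa [Ne, PowerSeries.constantCoeff_divXPowOrder_eq_zero_iff]
    · exact (PowerSeries.X_pow_order_mul_divXPowOrder).symm
  have h1 : ∀ (v : ℕ) (f : Lam k) (n j : ℤ),
      cf (PowerSeries.X ^ v * f) n j = cf f (n - v) j := by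
    intro v
    induction v with
    | zero => intro f n j; simp
    | succ v ih =>
      intro f n j
      rw [pow_succ, mul_assoc, ih, cf_X_mul]
      congr 1
      push_cast
      ring
  have h2 : iota c * P = PowerSeries.X ^ v * (iota c1 * P) := by
    rw [hcv, map_mul, map_pow, iota_X, mul_assoc]
  refine ⟨v, ?_, ?_⟩
  · rw [h2, h1, sub_self, ← constantCoeff_coeff, map_mul]
    have h3 : PowerSeries.constantCoeff (iota c1) =
        LaurentPolynomial.C (PowerSeries.constantCoeff c1) := by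
      rw [iota, ← PowerSeries.coeff_zero_eq_constantCoeff_apply, PowerSeries.coeff_map,
        PowerSeries.coeff_zero_eq_constantCoeff_apply]
    rw [h3, ← LaurentPolynomial.smul_eq_C_mul]
    rw [AddMonoidAlgebra.coeff_smul, Finsupp.smul_apply, constantCoeff_coeff, hP]
    simpa using hc1
  · intro n j h
    rw [h2, h1] at h
    by_contra hlt
    exact h (cf_neg _ (by omega) _)

theorem th_prod_cf {N : ℕ} (hN : 0 < N) (a : Fin 9 → kˣ) (κ : Fin 9 → ℕ) :
    cf (∏ l, th N (a l) ^ κ l) 0 0 = 1 := by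
  rw [← constantCoeff_coeff, map_prod]
  simp only [map_pow, th_const hN]
  have h : ∀ a : kˣ, (1 - LaurentPolynomial.C ((a⁻¹ : kˣ) : k) * LaurentPolynomial.T 1 :
      LaurentPolynomial k) =
      Polynomial.toLaurent (1 - Polynomial.C ((a⁻¹ : kˣ) : k) * Polynomial.X) := by
    intro a
    simp
  simp only [h]
  simp only [← map_pow, ← map_prod]
  have h2 : ∀ Q : Polynomial k, (Polynomial.toLaurent Q).coeff 0 = Q.coeff 0 := by
    intro Q
    induction Q using Polynomial.induction_on' with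
    | add p q hp hq =>
      rw [map_add, AddMonoidAlgebra.coeff_add, Finsupp.add_apply, hp, hq, Polynomial.coeff_add]
    | monomial n c =>
      rw [Polynomial.toLaurent_C_mul_T, ← LaurentPolynomial.single_eq_C_mul_T,
        Polynomial.coeff_monomial]
      simp [-LaurentPolynomial.single_eq_C_mul_T, Finsupp.single_apply]
  rw [h2, Polynomial.coeff_zero_eq_eval_zero, Polynomial.eval_prod]
  simp

open MvPolynomial in
theorem core_xi {e : ℕ} (he : 0 < e) (Y d : ℕ) (ml : Fin 9 → ℤ)
    (heq : (e : ℤ) = 3 * d - ∑ l, ml l)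
    (a : Fin 9 → kˣ) (ha : Function.Injective a) (ν : kˣ) (hν : (ν : k) * ∏ l, (-(a l : k)) = 1)
    (α β δ : PowerSeries k) (hα : PowerSeries.constantCoeff α = 0)
    (hβ : PowerSeries.constantCoeff β = -1) (hδ : PowerSeries.constantCoeff δ = -1)
    (hrel : iota α * x3 k (4 * e) 0 ^ 3 + iota β * x3 k (4 * e) 1 ^ 3 +
      iota δ * x3 k (4 * e) 2 ^ 3 + x3 k (4 * e) 0 * x3 k (4 * e) 1 * x3 k (4 * e) 2 = 0)
    {r : ℕ} (m : Fin r → ℕ) (p : Fin r → ℤ) (s : Fin r → Bool)
    (hc : ∀ i, 0 < circ e (p i) (s i) ∧ circ e (p i) (s i) < ((4 * e : ℕ) : ℤ))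
    (αi t : Fin r → kˣ)
    (hval : ∀ i, PowerSeries.constantCoeff (Tc (4 * e) (circ e (p i) (s i)) (hc i).1 (hc i).2
      (αi i) (x3B k (4 * e) 1 * (∏ l, thB (4 * e) (a l)) * (3 * iotaB (4 * e) α *
        x3B k (4 * e) 0 ^ 2 + x3B k (4 * e) 1 * x3B k (4 * e) 2))) ≠ 0)
    (hdist : ∀ i i' (l l' : ℤ), l ∈ Finset.Icc (p i - (m i : ℤ)) (p i + m i) →
      l' ∈ Finset.Icc (p i' - (m i' : ℤ)) (p i' + m i') →
      (ν : k) ^ (l / e) * t i = (ν : k) ^ (l' / e) * t i' → i = i' ∧ l / e = l' / e)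
    (τ : Fin r → KK k)
    (hτ : ∀ i, τ i * (PowerSeries.constantCoeff (psi (TE (4 * e) (circ e (p i) (s i)) (hc i).1
      (hc i).2 (αi i)) (MvPolynomial.C (3 * algebraMap (PowerSeries k) (KK k) α) *
        MvPolynomial.X 0 ^ 2 + MvPolynomial.X 1)) *
      PowerSeries.constantCoeff (TE (4 * e) (circ e (p i) (s i)) (hc i).1
      (hc i).2 (αi i) (x3B k (4 * e) 1)) ^ 3) =
      algebraMap (PowerSeries k) (KK k) (PowerSeries.C (t i : k)) *
        ∏ l, PowerSeries.constantCoeff (TE (4 * e) (circ e (p i) (s i)) (hc i).1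
      (hc i).2 (αi i) (thB (4 * e) (a l))))
    (F : Polynomial (MvPolynomial (Fin 2) (KK k))) (hF : F ≠ 0)
    (hFd : ∀ l, (F.coeff l).totalDegree ≤ 3 * Y + d)
    (hFb : ∀ l i, F.coeff l ∈ pt (bp (TB (4 * e) (a i)) 0) (bp (TB (4 * e) (a i)) 1) ^
      (Y + ml i).toNat)
    (hFe : ∀ i, F ∈ (Ideal.span {Polynomial.C (X 0) - (Polynomial.C (C (bp (TE (4 * e)
      (circ e (p i) (s i)) (hc i).1 (hc i).2 (αi i)) 0)) + Polynomial.C (C (τ i)) *
        Polynomial.X), Polynomial.C (X 1) - Polynomial.C (C (bp (TE (4 * e)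
      (circ e (p i) (s i)) (hc i).1 (hc i).2 (αi i)) 1))} :
      Ideal (Polynomial (MvPolynomial (Fin 2) (KK k)))) ^ m i)
    (Jm : ℕ) (hJ : ∀ l, F.coeff l ≠ 0 → ¬ Gp (algebraMap (PowerSeries k) (KK k) α)
      (algebraMap (PowerSeries k) (KK k) β) (algebraMap (PowerSeries k) (KK k) δ) ^ (Jm + 1) ∣
        F.coeff l)
    (hz : ∀ j : ℕ, j ≤ Jm → ∑ l, ((Y : ℤ) + ml l - j).toNat ≤ 3 * ((3 * Y + d) - 3 * j))
    (Dg : ℕ → ℕ) (hDg : (∀ ρ, Dg ρ = Jm) ∨ (d = 0 ∧ Jm = Y ∧ (∀ l, ml l = 0 ∨ ml l = -1) ∧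
      Dg 0 = Y ∧ ∀ ρ, 0 < ρ → Y ≤ Dg ρ + 1))
    (hN : ∀ ρ < e, Dg ρ + 1 ≤ ∑ i, Nr e (m i) (p i) (s i) ρ) : False := by
  classical
  set N : ℕ := 4 * e with hNdef
  have hN0 : 0 < N := by omega
  set α' := algebraMap (PowerSeries k) (KK k) α with hα'
  set β' := algebraMap (PowerSeries k) (KK k) β with hβ'
  set δ' := algebraMap (PowerSeries k) (KK k) δ with hδ'
  have hinj := IsFractionRing.injective (PowerSeries k) (KK k)
  have hδ0 : δ' ≠ 0 := by
    rw [hδ', Ne, map_eq_zero_iff _ hinj]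
    rintro rfl
    rw [map_zero] at hδ
    exact one_ne_zero (neg_eq_zero.1 hδ.symm)
  obtain ⟨w, g, hg, l0, hl0w, hl0⟩ := exists_w α' β' δ' hδ0 F hF
  obtain ⟨c, hc0, g', hg'⟩ := exists_scale (S := PowerSeries k) (K := KK k) w g
  set c' := algebraMap (PowerSeries k) (KK k) c with hc'
  have hc'0 : c' ≠ 0 := by rwa [hc', Ne, map_eq_zero_iff _ hinj]
  -- facts about g
  have key : ∀ j, j ≤ w → g (w - j) ≠ 0 → j ≤ Jm ∧ 3 * j + (g (w - j)).totalDegree ≤ 3 * Y + d ∧
      ∀ i, g (w - j) ∈ pt (bp (TB N (a i)) 0) (bp (TB N (a i)) 1) ^ ((Y : ℤ) + ml i - j).toNat := by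
    intro j hj hgj
    have h1 := hg (w - j) (Nat.sub_le _ _)
    rw [Nat.sub_sub_self hj] at h1
    have h2 : F.coeff (w - j) ≠ 0 := by
      rw [h1]
      exact mul_ne_zero (pow_ne_zero _ (Gp_ne_zero _ _ _)) hgj
    refine ⟨?_, ?_, ?_⟩
    · by_contra hlt
      apply hJ _ h2
      rw [h1]
      exact Dvd.dvd.mul_right (pow_dvd_pow _ (by omega)) _
    · have h3 := hFd (w - j)
      rw [h1, totalDegree_Gp_pow_mul _ _ _ hδ0 _ hgj] at h3
      exact h3
    · intro i
      have h3 := hFb (w - j) i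
      rw [h1] at h3
      have h4 := colon α' β' δ' _ _ (bp_curve (TB_iota N (a i)) (TB_x3_one N hN0 (a i)) hrel)
        (bp_smooth' (TB_iota N (a i)) (TB_x3_one N hN0 (a i)) α (TB_smooth hN0 (a i) hα)) j _ _ h3
      have h5 : (Y + ml i).toNat - j = ((Y : ℤ) + ml i - j).toNat := by omega
      rwa [h5] at h4
  -- the functions H
  have hHex : ∀ j : ℕ, ∃ H : Bann k N,
      IsTh N e ((∏ l, (-(a l : k)) ^ ((Y : ℤ) + ml l)) * (ν : k) ^ j) (H : Lam k) ∧
      ((w < j ∨ g (w - j) = 0) → H = 0) ∧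
      (j ≤ w → g (w - j) ≠ 0 → ∃ (μ κ : Fin 9 → ℕ), (∀ l, (μ l : ℤ) - κ l = Y + ml l - j) ∧
        (∀ l, κ l = (-((Y : ℤ) + ml l - j)).toNat) ∧
        PhiB N (3 * Y + d - 3 * j) (g' (w - j)) * ∏ l, thB N (a l) ^ κ l =
          H * ∏ l, thB N (a l) ^ μ l) := by
    intro j
    by_cases hj : j ≤ w ∧ g (w - j) ≠ 0
    · obtain ⟨hjw, hgj⟩ := hj
      obtain ⟨hjJ, hdj, hmj⟩ := key j hjw hgj
      set μ : Fin 9 → ℕ := fun l => ((Y : ℤ) + ml l - j).toNat with hμ
      set κ : Fin 9 → ℕ := fun l => (-((Y : ℤ) + ml l - j)).toNat with hκ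
      have hμκ : ∀ l, (μ l : ℤ) - κ l = Y + ml l - j := by
        intro l
        simp only [hμ, hκ]
        omega
      have hg'deg : (g' (w - j)).totalDegree ≤ 3 * Y + d - 3 * j := by
        have := totalDegree_of_map c' (g (w - j)) (hg' (w - j) (Nat.sub_le _ _))
        omega
      have hsum : (∑ l, (μ l : ℤ)) - ∑ l, (κ l : ℤ) = 9 * (Y - j) + ∑ l, ml l := by
        rw [← Finset.sum_sub_distrib, Finset.sum_congr rfl (fun l _ => hμκ l),
          Finset.sum_sub_distrib, Finset.sum_add_distrib]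
        simp
        ring
      obtain ⟨H, hH1, hH2⟩ := exists_H hN0 e a ha μ κ (3 * Y + d - 3 * j) (g' (w - j)) hg'deg
        (fun l => base_order hN0 (a l) _ _ _ hg'deg c' (g (w - j))
          (hg' (w - j) (Nat.sub_le _ _)) (hmj l)) (hz j hjJ) (by
            have h6 : ((∑ l, μ l : ℕ) : ℤ) - ((∑ l, κ l : ℕ) : ℤ) = 9 * (Y - j) + ∑ l, ml l := by
              push_cast
              exact hsum
            omega)
      refine ⟨H, ?_, ?_, ?_⟩
      · have e1 : (∏ l, (-(a l : k)) ^ μ l) * ∏ l, (-((a l)⁻¹ : kˣ) : k) ^ κ l =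
            (∏ l, (-(a l : k)) ^ ((Y : ℤ) + ml l)) * (ν : k) ^ j := by
          have e2 : (ν : k) ^ j = (∏ l, (-(a l : k)) ^ (-(j : ℤ))) := by
            rw [Finset.prod_zpow, zpow_neg, zpow_natCast, ← inv_pow]
            congr 1
            exact eq_inv_of_mul_eq_one_left hν
          rw [e2, ← Finset.prod_mul_distrib, ← Finset.prod_mul_distrib]
          refine Finset.prod_congr rfl fun l _ => ?_
          have hne : (-(a l : k)) ≠ 0 := neg_ne_zero.2 (a l).ne_zero
          have e3 : (-((a l)⁻¹ : kˣ) : k) = (-(a l : k))⁻¹ := by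
            rw [Units.val_inv_eq_inv_val, neg_inv]
          rw [e3, ← zpow_add₀ hne, inv_pow, ← zpow_natCast, ← zpow_natCast, ← zpow_neg,
            ← zpow_add₀ hne]
          congr 1
          have := hμκ l
          linarith
        rw [← e1]
        exact hH1
      · rintro (h | h)
        · omega
        · exact absurd h hgj
      · intro _ _
        exact ⟨μ, κ, hμκ, fun l => rfl, hH2⟩
    · refine ⟨0, IsTh.zero _ _ _, fun _ => rfl, fun h1 h2 => absurd ⟨h1, h2⟩ hj⟩
  choose H hHth hH0 hHrel using hHex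
  -- all H vanish
  have hall : ∀ j ≤ w, (H j : Lam k) = 0 := by
    refine lin e he w (∏ l, (-(a l : k)) ^ ((Y : ℤ) + ml l)) ν ?_ ν.ne_zero
      (fun j => (H j : Lam k)) (fun j _ => hHth j) m p s (fun i => αi i) (fun i => t i)
      (fun i => (αi i).ne_zero) (fun i => (t i).ne_zero)
      (fun i => ⟨(hc i).1, (hc i).2⟩) hdist ?_ Dg ?_ hN
    · exact Finset.prod_ne_zero_iff.2 fun l _ => zpow_ne_zero _ (neg_ne_zero.2 (a l).ne_zero)
    · -- the conditions
      intro i a1 b1 hab n
      have hvi := hval i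
      have hτi := hτ i
      have hFi := hFe i
      set T := TE N (circ e (p i) (s i)) (hc i).1 (hc i).2 (αi i) with hTdef
      have hTi : ∀ b, T (iotaB N b) = PowerSeries.C (algebraMap (PowerSeries k) (KK k) b) :=
        TE_iota _ _ _
      have hTv : ∀ f : Bann k N, PowerSeries.constantCoeff (Tc N (circ e (p i) (s i)) (hc i).1
          (hc i).2 (αi i) f) ≠ 0 → PowerSeries.constantCoeff (T f) ≠ 0 := by
        intro f hf
        rw [hTdef, TE_apply, toK, ← PowerSeries.coeff_zero_eq_constantCoeff_apply,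
          PowerSeries.coeff_map, PowerSeries.coeff_zero_eq_constantCoeff_apply, Ne,
          map_eq_zero_iff _ hinj]
        exact hf
      have hv2 := hTv _ hvi
      rw [map_mul, map_mul, map_mul, map_mul] at hv2
      have hx1 := left_ne_zero_of_mul (left_ne_zero_of_mul hv2)
      have hth' := right_ne_zero_of_mul (left_ne_zero_of_mul hv2)
      have hsm := right_ne_zero_of_mul hv2
      have hth : ∀ l, PowerSeries.constantCoeff (T (thB N (a l))) ≠ 0 := by
        rw [map_prod, map_prod] at hth'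
        exact fun l => Finset.prod_ne_zero_iff.1 hth' l (Finset.mem_univ _)
      have hu1 : IsUnit (T (x3B k N 1)) :=
        PowerSeries.isUnit_iff_constantCoeff.2 (isUnit_iff_ne_zero.2 hx1)
      have hu2 : ∀ l, IsUnit (T (thB N (a l))) := fun l =>
        PowerSeries.isUnit_iff_constantCoeff.2 (isUnit_iff_ne_zero.2 (hth l))
      set V := psi T (MvPolynomial.C (3 * α') * MvPolynomial.X 0 ^ 2 + MvPolynomial.X 1) with hV
      have hV0 : PowerSeries.constantCoeff V ≠ 0 := bp_smooth hTi hx1 α hsm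
      have hM1 := stepA α' β' δ' (psi T) (psi_Gp T hTi hx1 hrel)
        (Ideal.span {(PowerSeries.X : PowerSeries (KK k))}) (bp T 0) (bp T 1) (τ i) (by
          rw [psi_C, Ideal.mem_span_singleton, PowerSeries.X_dvd_iff, map_sub,
            PowerSeries.constantCoeff_C]
          exact sub_self _) (by
          rw [psi_C, Ideal.mem_span_singleton, PowerSeries.X_dvd_iff, map_sub,
            PowerSeries.constantCoeff_C]
          exact sub_self _) (m i) F hFi w g hg
      rw [psi_C] at hM1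
      set W : (PowerSeries (KK k))ˣ := (∏ l, (hu2 l).unit ^ ((Y : ℤ) + ml l)) *
        hu1.unit ^ (-((3 * Y + d : ℕ) : ℤ)) with hW
      set Z : PowerSeries (KK k) := V * (hu1.unit : PowerSeries (KK k)) ^ 3 *
        (((∏ l, (hu2 l).unit)⁻¹ : (PowerSeries (KK k))ˣ) : PowerSeries (KK k)) with hZ
      have hterm : ∀ j ∈ Finset.range (w + 1),
          Polynomial.C (PowerSeries.C c') * (Polynomial.C (psi T (g (w - j)) * V ^ j) *
            Polynomial.X ^ j) =
          Polynomial.C ((W : PowerSeries (KK k)) * Z ^ j * T (H j)) * Polynomial.X ^ j := by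
        intro j hj
        have hjw : j ≤ w := by
          have := Finset.mem_range.1 hj
          omega
        rw [← mul_assoc, ← Polynomial.C_mul]
        congr 2
        by_cases hgj : g (w - j) = 0
        · rw [hgj, hH0 j (Or.inr hgj)]
          simp
        · obtain ⟨μ, κ, hμκ, hκ, hrel2⟩ := hHrel j hjw hgj
          obtain ⟨hjJ, hdj, hmj⟩ := key j hjw hgj
          have hg'deg : (g' (w - j)).totalDegree ≤ 3 * Y + d - 3 * j := by
            have := totalDegree_of_map c' (g (w - j)) (hg' (w - j) (Nat.sub_le _ _))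
            omega
          have h1 := psi_Phi T hTi hx1 hg'deg
          have h2 := congrArg T hrel2
          rw [map_mul, map_mul, map_prod, map_prod] at h2
          simp only [map_pow] at h2
          have h3 := unit_id (fun l => (hu2 l).unit) hu1.unit V (T (PhiB N (3 * Y + d - 3 * j)
            (g' (w - j)))) (T (H j)) (psi T (MvPolynomial.map (algebraMap (PowerSeries k) (KK k))
              (g' (w - j)))) μ κ (3 * Y + d - 3 * j) j (3 * Y + d) (fun l => Y + ml l)
            h1 h2 hμκ (by omega)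
          rw [hg' (w - j) (Nat.sub_le _ _), map_mul, psi_C] at h3
          rw [← mul_assoc]
          exact h3
      have hM2 := Ideal.mul_mem_left _ (Polynomial.C (PowerSeries.C c')) hM1
      rw [Finset.mul_sum, Finset.sum_congr rfl hterm] at hM2
      have hW0 : PowerSeries.constantCoeff (W : PowerSeries (KK k)) ≠ 0 :=
        (PowerSeries.isUnit_iff_constantCoeff.1 W.isUnit).ne_zero
      have hZval : PowerSeries.constantCoeff Z = PowerSeries.constantCoeff V *
          PowerSeries.constantCoeff (T (x3B k N 1)) ^ 3 *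
            (∏ l, PowerSeries.constantCoeff (T (thB N (a l))))⁻¹ := by
        rw [hZ, map_mul, map_mul, map_pow]
        congr 1
        have h4 : PowerSeries.constantCoeff (((∏ l, (hu2 l).unit)⁻¹ : (PowerSeries (KK k))ˣ) :
            PowerSeries (KK k)) * PowerSeries.constantCoeff (((∏ l, (hu2 l).unit) :
              (PowerSeries (KK k))ˣ) : PowerSeries (KK k)) = 1 := by
          rw [← map_mul, ← Units.val_mul, inv_mul_cancel, Units.val_one, map_one]
        rw [Units.coe_prod, map_prod] at h4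
        exact eq_inv_of_mul_eq_one_left h4
      have hprod0 : (∏ l, PowerSeries.constantCoeff (T (thB N (a l)))) ≠ 0 :=
        Finset.prod_ne_zero_iff.2 fun l _ => hth l
      have hZ0 : PowerSeries.constantCoeff Z ≠ 0 := by
        rw [hZval]
        exact mul_ne_zero (mul_ne_zero hV0 (pow_ne_zero _ hx1)) (inv_ne_zero hprod0)
      have hτZ : τ i * PowerSeries.constantCoeff Z =
          algebraMap (PowerSeries k) (KK k) (PowerSeries.C (t i : k)) := by
        rw [hZval, ← mul_assoc, hτi, mul_assoc, mul_inv_cancel₀ hprod0, mul_one]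
      have hsub := subst_coeff (m i) w (fun j => T (H j)) W Z hW0 hZ0 (τ i) hM2 a1 b1 hab
      rw [hτZ] at hsub
      have hR : ∑ j ∈ Finset.range (w + 1), PowerSeries.C (t i : k) ^ j *
          (j.choose b1 : PowerSeries k) * PowerSeries.coeff a1 (Tc N (circ e (p i) (s i)) (hc i).1
          (hc i).2 (αi i) (H j)) = 0 := by
        apply hinj
        rw [map_zero, map_sum, ← hsub]
        refine Finset.sum_congr rfl fun j _ => ?_
        rw [map_mul, map_mul, map_pow, map_natCast, hTdef, TE_apply, toK, PowerSeries.coeff_map]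
      have hRn := congrArg (PowerSeries.coeff n) hR
      rw [map_sum, map_zero] at hRn
      rw [← hRn]
      refine Finset.sum_congr rfl fun j _ => ?_
      have h5 : (PowerSeries.C (t i : k) ^ j * (j.choose b1 : PowerSeries k) : PowerSeries k) =
          PowerSeries.C ((t i : k) ^ j * (j.choose b1 : k)) := by
        rw [map_mul, map_pow, map_natCast]
      rw [h5, PowerSeries.coeff_C_mul, coeff_Tc]
      simp only [Units.val_zpow_eq_zpow_val]
    · intro j hjw ρ hρ hDρ n hcf
      have hgj : g (w - j) ≠ 0 := by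
        intro h
        rw [hH0 j (Or.inr h)] at hcf
        exact hcf (by rw [Subring.coe_zero, cf_zero])
      obtain ⟨hjJ, hdj, hmj⟩ := key j hjw hgj
      rcases hDg with hD | ⟨hd, hJY, hmll, hD0, hD1⟩
      · rw [hD] at hDρ
        omega
      · by_cases hρ0 : ρ = 0
        · subst hρ0
          omega
        · have hjY : j = Y := by
            have := hD1 ρ (Nat.pos_of_ne_zero hρ0)
            omega
          subst hjY
          subst hd
          obtain ⟨μ, κ, hμκ, hκ, hrel2⟩ := hHrel j hjw hgj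
          have hμ0 : ∀ l, μ l = 0 := by
            intro l
            have h1 := hμκ l
            have h2 := hκ l
            rcases hmll l with h3 | h3
            · rw [h3] at h1 h2
              omega
            · rw [h3] at h1 h2
              omega
          have hD' : 3 * j + 0 - 3 * j = 0 := by omega
          have hg'deg : (g' (w - j)).totalDegree ≤ 0 := by
            have := totalDegree_of_map c' (g (w - j)) (hg' (w - j) (Nat.sub_le _ _))
            omega
          obtain ⟨c0, hc0'⟩ : ∃ c0, g' (w - j) = MvPolynomial.C c0 :=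
            ⟨_, MvPolynomial.totalDegree_eq_zero_iff_eq_C.1 (Nat.le_zero.1 hg'deg)⟩
          rw [hD'] at hrel2
          simp only [hμ0, pow_zero, Finset.prod_const_one, mul_one] at hrel2
          have hH1 : (H j : Lam k) = iota c0 * ∏ l, th N (a l) ^ κ l := by
            rw [← hrel2]
            simp only [Subring.coe_mul, SubmonoidClass.coe_finsetProd, SubmonoidClass.coe_pow]
            congr 1
            change Phi N 0 (g' (w - j)) = iota c0
            rw [hc0', Phi]
            by_cases h0 : c0 = 0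
            · subst h0
              simp
            · rw [MvPolynomial.support_C, if_neg h0]
              simp
          have hc00 : c0 ≠ 0 := by
            rintro rfl
            rw [map_zero, zero_mul] at hH1
            exact hcf (by rw [hH1, cf_zero])
          obtain ⟨v, hv1, hv2⟩ := top_lemma hc00 (th_prod_cf hN0 a κ)
          rw [← hH1] at hv1 hv2
          refine ⟨v, 0, he, by simpa using hv1, ?_⟩
          have h6 := hv2 n ρ hcf
          have h7 : (0 : ℤ) < ρ * (e - ρ) := by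
            apply mul_pos
            · exact_mod_cast Nat.pos_of_ne_zero hρ0
            · have : (ρ : ℤ) < e := by exact_mod_cast hρ
              linarith
          push_cast
          nlinarith
  -- contradiction
  have hgl0 : g l0 ≠ 0 := fun h => hl0 (by rw [h]; exact dvd_zero _)
  have hj0 : w - (w - l0) = l0 := Nat.sub_sub_self hl0w
  obtain ⟨μ, κ, hμκ, hκ, hrel2⟩ := hHrel (w - l0) (Nat.sub_le _ _) (by rwa [hj0])
  have hH' : H (w - l0) = 0 := Subtype.ext (hall (w - l0) (Nat.sub_le _ _))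
  rw [hH', zero_mul, hj0] at hrel2
  have h7 : Phi N (3 * Y + d - 3 * (w - l0)) (g' l0) = 0 := by
    have h8 := congrArg (fun x : Bann k N => (x : Lam k)) hrel2
    simp only [Subring.coe_mul, SubmonoidClass.coe_finsetProd, SubmonoidClass.coe_pow,
      Subring.coe_zero] at h8
    rcases mul_eq_zero.1 h8 with h9 | h9
    · exact h9
    · rw [Finset.prod_eq_zero_iff] at h9
      obtain ⟨l, _, h9⟩ := h9
      exact absurd h9 (pow_ne_zero _ (th_ne_zero hN0 (a l)))
  obtain ⟨_, hd0, _⟩ := key (w - l0) (Nat.sub_le _ _) (by rwa [hj0])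
  rw [hj0] at hd0
  have h10 := Phi_kernel hN0 hα hβ hδ hrel (g := g' l0) (by
    have := totalDegree_of_map c' (g l0) (hg' l0 hl0w)
    omega) h7
  exact hl0 (map_dvd α β δ c' hc'0 (g l0) (hg' l0 hl0w) h10)

end ShghT
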