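import Pool.Agent.ShghT.Theta

/-!
# Division of theta functions
-/

namespace ShghT

variable {k : Type*} [Field k] {N d : ℕ} {γ : k} {f : Lam k}

/-- The Laurent polynomial `1 - T / a`. -/
private noncomputable def divL (a : kˣ) : LaurentPolynomial k :=
  (LaurentPolynomial.C 1 : LaurentPolynomial k) -
    LaurentPolynomial.C ((a⁻¹ : kˣ) : k) * LaurentPolynomial.T 1

private theorem divL_mul_coeff (a : kˣ) (p : LaurentPolynomial k) (j : ℤ) :
    (divL a * p).coeff j = p.coeff j - ((a⁻¹ : kˣ) : k) * p.coeff (j - 1) := by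
  rw [divL, sub_mul, ← LaurentPolynomial.single_eq_C_mul_T, map_one, one_mul,
    AddMonoidAlgebra.coeff_sub, Finsupp.sub_apply, AddMonoidAlgebra.coeff_single_mul_apply]
  congr 3
  ring

private theorem divL_ne_zero (a : kˣ) : divL a ≠ 0 := by
  intro h
  have h1 : (divL a * 1).coeff 0 = 0 := by rw [h, zero_mul]; rfl
  rw [divL_mul_coeff, ← map_one LaurentPolynomial.C, LaurentPolynomial.C_apply,
    LaurentPolynomial.C_apply] at h1
  simp at h1

private theorem div_isTh_of_X_mul {g : Lam k} (h : IsTh N d γ (PowerSeries.X * g)) :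
    IsTh N d γ g := by
  intro n j
  have h1 := h (n + 1) j
  rw [cf_X_mul, cf_X_mul] at h1
  have e1 : n + 1 + N * j - 1 = n + N * j := by ring
  have e2 : n + 1 - 1 = n := by ring
  rwa [e1, e2] at h1

private theorem div_low (hN : 0 < N) (hγ : γ ≠ 0) (hf : IsTh N d γ f) {j : ℤ} (hj : j < 0) :
    cf f 0 j = 0 := by
  by_contra h
  have h1 := mem_Bann.mp (hf.mem_Bann hγ) 0 j h
  have h2 : (0 : ℤ) < N := by exact_mod_cast hN
  nlinarith

private theorem div_high (hN : 0 < N) (hf : IsTh N d γ f) {j : ℤ} (hj : (d : ℤ) < j) :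
    cf f 0 j = 0 := by
  have h2 : (0 : ℤ) < N := by exact_mod_cast hN
  have h3 : (0 : ℤ) < j - d := by linarith
  have h1 := hf (-(N * (j - d))) (j - d)
  rw [cf_neg f (n := -(N * (j - d))) (by nlinarith [mul_pos h2 h3]), mul_zero] at h1
  have e1 : -((N : ℤ) * (j - d)) + N * (j - d) = 0 := by ring
  have e2 : j - (d : ℤ) + d = j := by ring
  rwa [e1, e2] at h1

private theorem div_top (hf : IsTh N d γ f) : cf f 0 d = γ * cf f 0 0 := by
  have h1 := hf 0 0
  rw [mul_zero, add_zero, zero_add] at h1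
  exact h1

private theorem div_dvd {a : kˣ} (h : PowerSeries.constantCoeff (Ta a f) = 0) :
    ∃ g : Lam k, f = PowerSeries.C (divL a) * g := by
  have h1 : ∀ n : ℕ, ∃ p : LaurentPolynomial k, PowerSeries.coeff n f = divL a * p := by
    intro n
    have h2 := constantCoeff_Ta_eq_zero h n
    rw [Ideal.mem_span_singleton] at h2
    obtain ⟨p, hp⟩ := h2
    exact ⟨p, hp⟩
  choose p hp using h1
  refine ⟨PowerSeries.mk p, ?_⟩
  ext1 n
  rw [hp, PowerSeries.coeff_C_mul, PowerSeries.coeff_mk]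

private theorem div_th (hN : 0 < N) (a : kˣ) :
    ∃ ε : Lam k, IsUnit ε ∧ th N a = PowerSeries.C (divL a) * ε := by
  obtain ⟨η, -, hη⟩ := Ta_th_self hN a
  have h0 : PowerSeries.constantCoeff (Ta a (th N a)) = 0 := by
    rw [hη, map_mul, PowerSeries.constantCoeff_X, zero_mul]
  obtain ⟨ε, hε⟩ := div_dvd h0
  refine ⟨ε, ?_, hε⟩
  have h1 : PowerSeries.constantCoeff (th N a) = divL a * PowerSeries.constantCoeff ε := by
    conv_lhs => rw [hε, map_mul, PowerSeries.constantCoeff_C]
  rw [th_const hN] at h1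
  have h2 : divL a * 1 = divL a * PowerSeries.constantCoeff ε := by
    rw [← h1, divL, mul_one, map_one]
  have h3 := mul_left_cancel₀ (divL_ne_zero a) h2
  refine isUnit_of_T one_ne_zero 0 ?_
  rw [← h3, map_one, LaurentPolynomial.T_zero, mul_one]

private theorem div_model (hN : 0 < N) (hγ : γ ≠ 0) {h : Lam k}
    (hlow : ∀ j : ℤ, j < 0 → cf h 0 j = 0) (hhigh : ∀ j : ℤ, (d : ℤ) < j → cf h 0 j = 0)
    (htop : cf h 0 d = γ * cf h 0 0) :
    ∃ h' : Lam k, IsTh N d γ h' ∧ ∀ j, cf h' 0 j = cf h 0 j := by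
  rcases Nat.eq_zero_or_pos d with rfl | hd
  · by_cases h1 : γ = 1
    · subst h1
      refine ⟨iota (PowerSeries.C (cf h 0 0)), IsTh.iota N _, ?_⟩
      intro j
      rw [cf_iota]
      split_ifs with hj
      · subst hj
        rw [cR, if_neg (lt_irrefl 0)]
        simp
      · rcases lt_or_gt_of_ne hj with hj | hj
        · exact (hlow j hj).symm
        · exact (hhigh j (by simpa using hj)).symm
    · refine ⟨0, IsTh.zero _ _ _, ?_⟩
      intro j
      rw [cf_zero]
      rcases lt_trichotomy j 0 with hj | hj | hj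
      · exact (hlow j hj).symm
      · subst hj
        rw [Nat.cast_zero] at htop
        have h2 : (1 - γ) * cf h 0 0 = 0 := by
          rw [sub_mul, one_mul, ← htop, sub_self]
        rcases mul_eq_zero.mp h2 with h3 | h3
        · exact absurd (sub_eq_zero.mp h3).symm h1
        · exact h3.symm
      · exact (hhigh j (by simpa using hj)).symm
  · obtain ⟨h', hh', hc⟩ := exists_th hN hd hγ (fun ρ => PowerSeries.C (cf h 0 ρ))
    have hc0 : ∀ ρ : ℕ, ρ < d → cf h' 0 ρ = cf h 0 ρ := by
      intro ρ hρ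
      rw [hc ρ hρ, cR, if_neg (lt_irrefl 0)]
      simp
    refine ⟨h', hh', ?_⟩
    intro j
    rcases lt_or_ge j 0 with hj | hj
    · rw [hlow j hj, div_low hN hγ hh' hj]
    · rcases lt_trichotomy j d with hj' | hj' | hj'
      · lift j to ℕ using hj
        exact hc0 j (by exact_mod_cast hj')
      · subst hj'
        rw [htop, div_top hh']
        have := hc0 0 hd
        rw [Nat.cast_zero] at this
        rw [this]
      · rw [hhigh j hj', div_high hN hh' hj']

private theorem div_level (hN : 0 < N) (hγ : γ ≠ 0) {a : kˣ} {h : Lam k}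
    (hf : IsTh N (d + 1) γ (th N a * h)) :
    (∀ j : ℤ, j < 0 → cf h 0 j = 0) ∧ (∀ j : ℤ, (d : ℤ) < j → cf h 0 j = 0) ∧
      cf h 0 d = (-(a : k) * γ) * cf h 0 0 := by
  have key : ∀ j : ℤ, cf (th N a * h) 0 j = cf h 0 j - ((a⁻¹ : kˣ) : k) * cf h 0 (j - 1) := by
    intro j
    rw [← constantCoeff_coeff, ← constantCoeff_coeff, ← constantCoeff_coeff, map_mul,
      th_const hN, ← divL_mul_coeff, divL, map_one]
  have hfin : {j : ℤ | cf h 0 j ≠ 0}.Finite := by
    have h1 := (cf_finite h 0).image Prod.snd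
    refine h1.subset ?_
    intro j hj
    exact ⟨(0, j), ⟨le_rfl, hj⟩, rfl⟩
  have ha : ((a⁻¹ : kˣ) : k) ≠ 0 := Units.ne_zero _
  have hlow : ∀ j : ℤ, j < 0 → cf h 0 j = 0 := by
    intro j hj
    by_contra hne
    have hall : ∀ m : ℕ, cf h 0 (j - m) ≠ 0 := by
      intro m
      induction m with
      | zero => simpa using hne
      | succ m ih =>
        have h1 := key (j - m)
        rw [div_low hN hγ hf (by omega)] at h1
        intro h2
        have e : j - (m : ℤ) - 1 = j - ((m + 1 : ℕ) : ℤ) := by push_cast; ring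
        rw [e, h2, mul_zero, sub_zero] at h1
        exact ih h1.symm
    refine Set.infinite_of_injective_forall_mem (f := fun m : ℕ => j - (m : ℤ)) ?_ hall hfin
    intro m₁ m₂ hm
    have : (m₁ : ℤ) = m₂ := by
      have h3 : j - (m₁ : ℤ) = j - m₂ := hm
      linarith
    exact_mod_cast this
  have hhigh : ∀ j : ℤ, (d : ℤ) < j → cf h 0 j = 0 := by
    intro j hj
    by_contra hne
    have hall : ∀ m : ℕ, cf h 0 (j + m) ≠ 0 := by
      intro m
      induction m with
      | zero => simpa using hne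
      | succ m ih =>
        have h1 := key (j + m + 1)
        rw [div_high hN hf (by push_cast; omega)] at h1
        intro h2
        have e : j + (m : ℤ) + 1 - 1 = j + m := by ring
        have e' : j + ((m + 1 : ℕ) : ℤ) = j + (m : ℤ) + 1 := by push_cast; ring
        rw [e'] at h2
        rw [e, h2, zero_sub, eq_comm, neg_eq_zero, mul_eq_zero] at h1
        rcases h1 with h1 | h1
        · exact ha h1
        · exact ih h1
    refine Set.infinite_of_injective_forall_mem (f := fun m : ℕ => j + (m : ℤ)) ?_ hall hfin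
    intro m₁ m₂ hm
    have : (m₁ : ℤ) = m₂ := by
      have h3 : j + (m₁ : ℤ) = j + m₂ := hm
      linarith
    exact_mod_cast this
  refine ⟨hlow, hhigh, ?_⟩
  have h1 := div_top hf
  rw [key, key, hlow (0 - 1) (by norm_num), hhigh _ (by push_cast; linarith), mul_zero, sub_zero,
    zero_sub] at h1
  have e : (((d + 1 : ℕ) : ℤ)) - 1 = d := by push_cast; ring
  rw [e] at h1
  have h2 : (a : k) * ((a⁻¹ : kˣ) : k) = 1 := by rw [← Units.val_mul, mul_inv_cancel, Units.val_one]
  calc cf h 0 d = ((a : k) * ((a⁻¹ : kˣ) : k)) * cf h 0 d := by rw [h2, one_mul]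
    _ = -(a : k) * (-(((a⁻¹ : kˣ) : k) * cf h 0 d)) := by ring
    _ = (-(a : k) * γ) * cf h 0 0 := by rw [h1]; ring

private theorem div_rel (hN : 0 < N) (hγ : γ ≠ 0) (a : kˣ) (M : ℕ) :
    ∀ h : Lam k, IsTh N (d + 1) γ (th N a * h) → ∀ n j : ℤ, n < M → n + N * j < M →
      cf h (n + N * j) (j + d) = (-(a : k) * γ) * cf h n j := by
  induction M with
  | zero =>
    intro h _ n j h1 h2
    rw [Nat.cast_zero] at h1 h2
    rw [cf_neg h h1, cf_neg h h2, mul_zero]
  | succ M ih =>
    intro h hf n j h1 h2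
    obtain ⟨hlow, hhigh, htop⟩ := div_level hN hγ hf
    have hγ' : -(a : k) * γ ≠ 0 := mul_ne_zero (neg_ne_zero.mpr (Units.ne_zero a)) hγ
    obtain ⟨h', hh', hc⟩ := div_model hN hγ' hlow hhigh htop
    obtain ⟨g, hg, hgc⟩ := exists_X_mul (f := h - h') (by
      intro j
      rw [cf_sub, hc, sub_self])
    have h3 : IsTh N (d + 1) γ (th N a * h') := by
      have h4 := (th_isTh hN a).mul hh'
      have e : -((a⁻¹ : kˣ) : k) * (-(a : k) * γ) = γ := by
        have h2 : ((a⁻¹ : kˣ) : k) * (a : k) = 1 := by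
          rw [← Units.val_mul, inv_mul_cancel, Units.val_one]
        calc -((a⁻¹ : kˣ) : k) * (-(a : k) * γ) = (((a⁻¹ : kˣ) : k) * (a : k)) * γ := by ring
          _ = γ := by rw [h2, one_mul]
      rw [e, add_comm] at h4
      exact h4
    have h5 : IsTh N (d + 1) γ (th N a * g) := by
      apply div_isTh_of_X_mul
      have h6 := hf.sub h3
      rw [← mul_sub, hg] at h6
      have e : th N a * (PowerSeries.X * g) = PowerSeries.X * (th N a * g) := by ring
      rwa [e] at h6
    have h7 := ih g h5 (n - 1) j (by push_cast at h1; linarith) (by push_cast at h2; linarith)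
    rw [hgc, hgc, cf_sub, cf_sub] at h7
    have e1 : n - 1 + N * j + 1 = n + N * j := by ring
    have e2 : n - 1 + 1 = n := by ring
    rw [e1, e2, hh' n j] at h7
    linear_combination h7

/-- A theta function vanishing at `a` is a multiple of `th N a`, the quotient being a theta
function. -/
theorem div_one (hN : 0 < N) (hγ : γ ≠ 0) (hf : IsTh N (d + 1) γ f) (a : kˣ)
    (h : PowerSeries.constantCoeff (Ta a f) = 0) :
    ∃ h : Lam k, IsTh N d (-(a : k) * γ) h ∧ f = th N a * h := by
  obtain ⟨g, hg⟩ := div_dvd h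
  obtain ⟨ε, hε, hth⟩ := div_th hN a
  obtain ⟨ε', hε'⟩ := hε.exists_right_inv
  have hfe : f = th N a * (ε' * g) := by
    rw [hth]
    calc f = PowerSeries.C (divL a) * (ε * ε') * g := by rw [hε', mul_one]; exact hg
      _ = PowerSeries.C (divL a) * ε * (ε' * g) := by ring
  refine ⟨ε' * g, ?_, hfe⟩
  intro n j
  rw [hfe] at hf
  refine div_rel hN hγ a (max n (n + N * j)).toNat.succ _ hf n j ?_ ?_
  · have h1 := Int.self_le_toNat (max n (n + N * j))
    have h2 := le_max_left n (n + N * j)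
    push_cast
    omega
  · have h1 := Int.self_le_toNat (max n (n + N * j))
    have h2 := le_max_right n (n + N * j)
    push_cast
    omega

theorem div_pow (hN : 0 < N) (hγ : γ ≠ 0) (μ : ℕ) (hf : IsTh N (d + μ) γ f) (a : kˣ)
    (h : (PowerSeries.X : PowerSeries (PowerSeries k)) ^ μ ∣ Ta a f) :
    ∃ h : Lam k, IsTh N d ((-(a : k)) ^ μ * γ) h ∧ f = th N a ^ μ * h := by
  induction μ generalizing f γ with
  | zero => exact ⟨f, by simpa using hf, by simp⟩
  | succ μ ih =>
    have h0 : PowerSeries.constantCoeff (Ta a f) = 0 := by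
      obtain ⟨g, hg⟩ := h
      rw [hg, pow_succ, map_mul, map_mul, PowerSeries.constantCoeff_X, mul_zero, zero_mul]
    obtain ⟨h1, hh1, hf1⟩ := div_one hN hγ (d := d + μ) hf a h0
    obtain ⟨ε, hε, hTa⟩ := Ta_th_self hN a
    have h2 : (PowerSeries.X : PowerSeries (PowerSeries k)) ^ μ ∣ Ta a h1 := by
      rw [hf1, map_mul, hTa, pow_succ', mul_assoc] at h
      have h3 := (mul_dvd_mul_iff_left PowerSeries.X_ne_zero).mp h
      exact (hε.dvd_mul_left).mp h3
    have hγ' : -(a : k) * γ ≠ 0 := mul_ne_zero (neg_ne_zero.mpr (Units.ne_zero a)) hγ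
    obtain ⟨g, hg, hfg⟩ := ih hγ' hh1 h2
    refine ⟨g, ?_, ?_⟩
    · rw [pow_succ, mul_assoc]
      exact hg
    · rw [hf1, hfg, pow_succ]
      ring

theorem div_prod (hN : 0 < N) (hγ : γ ≠ 0) {ι : Type*} (s : Finset ι) (a : ι → kˣ)
    (ha : Set.InjOn a s) (μ : ι → ℕ) (hf : IsTh N (d + ∑ i ∈ s, μ i) γ f)
    (h : ∀ i ∈ s, (PowerSeries.X : PowerSeries (PowerSeries k)) ^ μ i ∣ Ta (a i) f) :
    ∃ h : Lam k, IsTh N d ((∏ i ∈ s, (-(a i : k)) ^ μ i) * γ) h ∧
      f = (∏ i ∈ s, th N (a i) ^ μ i) * h := by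
  classical
  induction s using Finset.induction_on generalizing f γ with
  | empty => exact ⟨f, by simpa using hf, by simp⟩
  | insert i s his ih =>
    rw [Finset.sum_insert his] at hf
    have hf' : IsTh N ((d + ∑ i ∈ s, μ i) + μ i) γ f := by
      have e : d + (μ i + ∑ i ∈ s, μ i) = (d + ∑ i ∈ s, μ i) + μ i := by ring
      rwa [e] at hf
    obtain ⟨h1, hh1, hf1⟩ := div_pow hN hγ (μ i) hf' (a i) (h i (Finset.mem_insert_self i s))
    have h2 : ∀ l ∈ s, (PowerSeries.X : PowerSeries (PowerSeries k)) ^ μ l ∣ Ta (a l) h1 := by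
      intro l hl
      have h3 := h l (Finset.mem_insert_of_mem hl)
      have hne : a i ≠ a l := by
        intro he
        have := ha (Finset.mem_coe.mpr (Finset.mem_insert_self i s))
          (Finset.mem_coe.mpr (Finset.mem_insert_of_mem hl)) he
        exact his (this ▸ hl)
      rw [hf1, map_mul, map_pow] at h3
      exact (((isUnit_Ta_th hN hne).pow (μ i)).dvd_mul_left).mp h3
    have hγ' : (-(a i : k)) ^ μ i * γ ≠ 0 :=
      mul_ne_zero (pow_ne_zero _ (neg_ne_zero.mpr (Units.ne_zero (a i)))) hγ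
    have ha' : Set.InjOn a s := ha.mono (by simp)
    obtain ⟨g, hg, hfg⟩ := ih hγ' ha' hh1 h2
    refine ⟨g, ?_, ?_⟩
    · rw [Finset.prod_insert his]
      have e : ((-(a i : k)) ^ μ i * ∏ i ∈ s, (-(a i : k)) ^ μ i) * γ =
          (∏ i ∈ s, (-(a i : k)) ^ μ i) * ((-(a i : k)) ^ μ i * γ) := by ring
      rw [e]
      exact hg
    · rw [Finset.prod_insert his, hf1, hfg]
      ring

end ShghT
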