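import Pool.Agent.ShghT.Defs

/-!
# The limit of a curve when points move to the cubic
-/

namespace ShghT

open MvPolynomial

variable {K B : Type*} [Field K] [CommRing B]

/-- The substitution `x ↦ ψ x + τ ξ`, `y ↦ ψ y` on `K[x,y]`. -/
private noncomputable def th0 (ψ : MvPolynomial (Fin 2) K →+* B) :
    MvPolynomial (Fin 2) K →+* Polynomial (Polynomial B) :=
  MvPolynomial.eval₂Hom
    ((Polynomial.C.comp (Polynomial.C.comp (ψ.comp MvPolynomial.C))) :
      K →+* Polynomial (Polynomial B))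
    ![Polynomial.C (Polynomial.C (ψ (X 0))) + Polynomial.C Polynomial.X * Polynomial.X,
      Polynomial.C (Polynomial.C (ψ (X 1)))]

/-- The substitution on `K[x,y][ξ]`. -/
private noncomputable def th1 (ψ : MvPolynomial (Fin 2) K →+* B) :
    Polynomial (MvPolynomial (Fin 2) K) →+* Polynomial (Polynomial B) :=
  Polynomial.eval₂RingHom (th0 ψ) Polynomial.X

private lemma th0_C (ψ : MvPolynomial (Fin 2) K →+* B) (a : K) :
    th0 ψ (C a) = Polynomial.C (Polynomial.C (ψ (C a))) := by
  simp [th0]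

private lemma th0_X0 (ψ : MvPolynomial (Fin 2) K →+* B) :
    th0 ψ (X 0) = Polynomial.C (Polynomial.C (ψ (X 0))) +
      Polynomial.C Polynomial.X * Polynomial.X := by
  simp [th0]

private lemma th0_X1 (ψ : MvPolynomial (Fin 2) K →+* B) :
    th0 ψ (X 1) = Polynomial.C (Polynomial.C (ψ (X 1))) := by
  simp [th0]

/-- Setting `ξ = 0` in the substitution gives `ψ`. -/
private lemma coeff_zero_th0 (ψ : MvPolynomial (Fin 2) K →+* B) (g : MvPolynomial (Fin 2) K) :
    (th0 ψ g).coeff 0 = Polynomial.C (ψ g) := by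
  have h : ((Polynomial.constantCoeff : Polynomial (Polynomial B) →+* Polynomial B).comp (th0 ψ)) =
      (Polynomial.C.comp ψ) := by
    apply MvPolynomial.ringHom_ext
    · intro r
      simp [th0_C]
    · intro i
      fin_cases i
      · simp [th0_X0]
      · simp [th0_X1]
  have := congrArg (fun φ : MvPolynomial (Fin 2) K →+* Polynomial B => φ g) h
  simpa using this

/-- The quotient `Θ(G) / ξ`. -/
private noncomputable def Ht (α : K) (ψ : MvPolynomial (Fin 2) K →+* B) :
    Polynomial (Polynomial B) :=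
  Polynomial.C (Polynomial.C (ψ (C (3 * α) * X 0 ^ 2 + X 1)) * Polynomial.X) +
    Polynomial.C (Polynomial.C (ψ (C (3 * α) * X 0)) * Polynomial.X ^ 2) * Polynomial.X +
    Polynomial.C (Polynomial.C (ψ (C α)) * Polynomial.X ^ 3) * Polynomial.X ^ 2

private lemma th0_Gp (α β δ : K) (ψ : MvPolynomial (Fin 2) K →+* B) (hψ : ψ (Gp α β δ) = 0) :
    th0 ψ (Gp α β δ) = Polynomial.X * Ht α ψ := by
  have h3 : (C (3 * α) : MvPolynomial (Fin 2) K) = 3 * C α := by
    rw [C_mul]; congr 1
  have e0 : ψ (C α) * ψ (X 0) ^ 3 + ψ (C δ) * ψ (X 1) ^ 3 + ψ (X 0) * ψ (X 1) + ψ (C β) = 0 := by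
    have := hψ
    simp only [Gp, map_add, map_mul, map_pow] at this
    exact this
  have e1 : (Polynomial.C (Polynomial.C (ψ (C α) * ψ (X 0) ^ 3 + ψ (C δ) * ψ (X 1) ^ 3 +
      ψ (X 0) * ψ (X 1) + ψ (C β))) : Polynomial (Polynomial B)) = 0 := by
    rw [e0]; simp
  simp only [map_add, map_mul, map_pow] at e1
  simp only [Gp, Ht, h3, map_add, map_mul, map_pow, th0_C, th0_X0, th0_X1, map_ofNat]
  linear_combination e1

private lemma coeff_zero_pow' {S : Type*} [CommRing S] (p : Polynomial S) (n : ℕ) :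
    (p ^ n).coeff 0 = p.coeff 0 ^ n := by
  simp only [Polynomial.coeff_zero_eq_eval_zero, Polynomial.eval_pow]

private lemma coeff_zero_Ht (α : K) (ψ : MvPolynomial (Fin 2) K →+* B) :
    (Ht α ψ).coeff 0 = Polynomial.C (ψ (C (3 * α) * X 0 ^ 2 + X 1)) * Polynomial.X := by
  simp only [Ht, Polynomial.coeff_add, Polynomial.mul_coeff_zero, Polynomial.coeff_C_zero,
    Polynomial.coeff_X_zero, coeff_zero_pow', mul_zero, add_zero]
  simp

/-- `f ∈ K[x,y][ξ]` has multiplicity `≥ m` at `(A + τ ξ, B)`, `ψ` is a formal point of the cubic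
specializing to `(A, B)` modulo `J`. Then the initial form of `f` has order `≥ m` at `(J, τ)`. -/
theorem stepA (α β δ : K) (ψ : MvPolynomial (Fin 2) K →+* B) (hψ : ψ (Gp α β δ) = 0)
    (J : Ideal B) (A0 B0 τ : K) (hA : ψ (X 0) - ψ (C A0) ∈ J) (hB : ψ (X 1) - ψ (C B0) ∈ J)
    (m : ℕ) (f : Polynomial (MvPolynomial (Fin 2) K))
    (hf : f ∈ (Ideal.span {Polynomial.C (X 0) - (Polynomial.C (C A0) +
      Polynomial.C (C τ) * Polynomial.X), Polynomial.C (X 1) - Polynomial.C (C B0)} :
      Ideal (Polynomial (MvPolynomial (Fin 2) K))) ^ m)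
    (w : ℕ) (g : ℕ → MvPolynomial (Fin 2) K)
    (hg : ∀ l, l ≤ w → f.coeff l = Gp α β δ ^ (w - l) * g l) :
    ∑ j ∈ Finset.range (w + 1),
      Polynomial.C (ψ (g (w - j)) * ψ (C (3 * α) * X 0 ^ 2 + X 1) ^ j) * Polynomial.X ^ j ∈
    (Ideal.map (Polynomial.C : B →+* Polynomial B) J ⊔
      Ideal.span {(Polynomial.X : Polynomial B) - Polynomial.C (ψ (C τ))}) ^ m := by
  classical
  set I : Ideal (Polynomial B) := Ideal.map (Polynomial.C : B →+* Polynomial B) J ⊔
      Ideal.span {(Polynomial.X : Polynomial B) - Polynomial.C (ψ (C τ))} with hI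
  have hJI : ∀ b ∈ J, Polynomial.C b ∈ I := fun b hb =>
    (le_sup_left : Ideal.map (Polynomial.C : B →+* Polynomial B) J ≤ I)
      (Ideal.mem_map_of_mem _ hb)
  have hXI : (Polynomial.X : Polynomial B) - Polynomial.C (ψ (C τ)) ∈ I :=
    (le_sup_right : Ideal.span {(Polynomial.X : Polynomial B) - Polynomial.C (ψ (C τ))} ≤ I)
      (Ideal.subset_span rfl)
  -- the image of `f` lies in the `m`-th power of the extended ideal
  have hmap : Ideal.map (th1 ψ) (Ideal.span {Polynomial.C (X 0) - (Polynomial.C (C A0) +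
      Polynomial.C (C τ) * Polynomial.X), Polynomial.C (X 1) - Polynomial.C (C B0)} :
      Ideal (Polynomial (MvPolynomial (Fin 2) K))) ≤
      Ideal.map (Polynomial.C : Polynomial B →+* Polynomial (Polynomial B)) I := by
    rw [Ideal.map_span, Ideal.span_le]
    rintro z ⟨y, hy, rfl⟩
    rcases hy with rfl | rfl
    · have h1 : th1 ψ (Polynomial.C (X 0) - (Polynomial.C (C A0) +
          Polynomial.C (C τ) * Polynomial.X)) =
          Polynomial.C (Polynomial.C (ψ (X 0) - ψ (C A0))) +
            Polynomial.C (Polynomial.X - Polynomial.C (ψ (C τ))) * Polynomial.X := by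
        simp only [th1, map_sub, map_add, map_mul, Polynomial.coe_eval₂RingHom,
          Polynomial.eval₂_C, Polynomial.eval₂_X, th0_C, th0_X0]
        ring
      rw [SetLike.mem_coe, h1]
      exact Ideal.add_mem _ (Ideal.mem_map_of_mem _ (hJI _ hA))
        (Ideal.mul_mem_right _ _ (Ideal.mem_map_of_mem _ hXI))
    · have h1 : th1 ψ (Polynomial.C (X 1) - Polynomial.C (C B0)) =
          Polynomial.C (Polynomial.C (ψ (X 1) - ψ (C B0))) := by
        simp only [th1, map_sub, Polynomial.coe_eval₂RingHom,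
          Polynomial.eval₂_C, th0_C, th0_X1]
      rw [SetLike.mem_coe, h1]
      exact Ideal.mem_map_of_mem _ (hJI _ hB)
  have hmem : th1 ψ f ∈ Ideal.map (Polynomial.C : Polynomial B →+* Polynomial (Polynomial B))
      (I ^ m) := by
    have h1 : th1 ψ f ∈ (Ideal.map (th1 ψ) (Ideal.span {Polynomial.C (X 0) - (Polynomial.C (C A0) +
      Polynomial.C (C τ) * Polynomial.X), Polynomial.C (X 1) - Polynomial.C (C B0)} :
      Ideal (Polynomial (MvPolynomial (Fin 2) K)))) ^ m := by
      rw [← Ideal.map_pow]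
      exact Ideal.mem_map_of_mem _ hf
    rw [Ideal.map_pow]
    exact Ideal.pow_right_mono hmap m h1
  have hco : (th1 ψ f).coeff w ∈ I ^ m := Ideal.mem_map_C_iff.1 hmem w
  -- compute this coefficient
  have hterm : ∀ l, l ≤ w → (th0 ψ (f.coeff l) * Polynomial.X ^ l).coeff w =
      Polynomial.C (ψ (g l) * ψ (C (3 * α) * X 0 ^ 2 + X 1) ^ (w - l)) *
        Polynomial.X ^ (w - l) := by
    intro l hl
    have h1 : th0 ψ (f.coeff l) * Polynomial.X ^ l =
        (Ht α ψ ^ (w - l) * th0 ψ (g l)) * Polynomial.X ^ w := by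
      rw [hg l hl, map_mul, map_pow, th0_Gp α β δ ψ hψ, mul_pow]
      have h2 : (Polynomial.X : Polynomial (Polynomial B)) ^ w =
          Polynomial.X ^ (w - l) * Polynomial.X ^ l := by
        rw [← pow_add]; congr 1; omega
      rw [h2]; ring
    rw [h1]
    have h3 := Polynomial.coeff_mul_X_pow (Ht α ψ ^ (w - l) * th0 ψ (g l)) w 0
    rw [zero_add] at h3
    rw [h3, Polynomial.mul_coeff_zero, coeff_zero_pow', coeff_zero_Ht, coeff_zero_th0]
    simp only [mul_pow, map_mul, map_pow]
    ring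
  have hterm2 : ∀ l, w < l → (th0 ψ (f.coeff l) * Polynomial.X ^ l).coeff w = 0 := by
    intro l hl
    rw [Polynomial.coeff_mul_X_pow', if_neg (by omega)]
  have hsum : (th1 ψ f).coeff w = ∑ l ∈ Finset.range (w + 1),
      Polynomial.C (ψ (g l) * ψ (C (3 * α) * X 0 ^ 2 + X 1) ^ (w - l)) *
        Polynomial.X ^ (w - l) := by
    have h1 : th1 ψ f = ∑ l ∈ Finset.range (max (f.natDegree + 1) (w + 1)),
        th0 ψ (f.coeff l) * Polynomial.X ^ l := by
      rw [th1, Polynomial.coe_eval₂RingHom]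
      exact Polynomial.eval₂_eq_sum_range' _ (lt_of_lt_of_le (Nat.lt_succ_self _)
        (le_max_left _ _)) _
    rw [h1, Polynomial.finsetSum_coeff]
    have h2 : Finset.range (w + 1) ⊆ Finset.range (max (f.natDegree + 1) (w + 1)) :=
      Finset.range_subset_range.2 (le_max_right _ _)
    rw [← Finset.sum_subset h2]
    · exact Finset.sum_congr rfl fun l hl => hterm l (by
        have := Finset.mem_range.1 hl; omega)
    · intro l _ hl
      exact hterm2 l (by
        have : ¬ l < w + 1 := fun h => hl (Finset.mem_range.2 h)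
        omega)
  rw [hsum] at hco
  rw [← Finset.sum_range_reflect] at hco
  convert hco using 1
  refine Finset.sum_congr rfl fun j hj => ?_
  have hj' : j ≤ w := by have := Finset.mem_range.1 hj; omega
  have e1 : w + 1 - 1 - j = w - j := by omega
  have e2 : w - (w - j) = j := by omega
  rw [e1, e2]

/-- Membership at a point not depending on `ξ` is coefficientwise. -/
theorem coeff_mem_pt (A0 B0 : K) (m : ℕ) (f : Polynomial (MvPolynomial (Fin 2) K))
    (hf : f ∈ (Ideal.span {Polynomial.C (X 0) - Polynomial.C (C A0),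
      Polynomial.C (X 1) - Polynomial.C (C B0)} :
      Ideal (Polynomial (MvPolynomial (Fin 2) K))) ^ m) (l : ℕ) :
    f.coeff l ∈ pt A0 B0 ^ m := by
  have h : (Ideal.span {Polynomial.C (X 0) - Polynomial.C (C A0),
      Polynomial.C (X 1) - Polynomial.C (C B0)} :
      Ideal (Polynomial (MvPolynomial (Fin 2) K))) =
      Ideal.map (Polynomial.C : MvPolynomial (Fin 2) K →+* _) (pt A0 B0) := by
    rw [pt, Ideal.map_span]
    congr 1
    rw [Set.image_pair, map_sub, map_sub]
  rw [h, ← Ideal.map_pow] at hf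
  exact Ideal.mem_map_C_iff.1 hf l

end ShghT
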