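import Pool.Agent.ShghT.Defs

/-!
# Removing units and extracting coefficients
-/

namespace ShghT

variable {K : Type*} [Field K]

private theorem subst_mul {m n : ℕ} {P Q : Polynomial (PowerSeries K)}
    (hP : ∀ a b, a + b < m → PowerSeries.coeff a (P.coeff b) = 0)
    (hQ : ∀ a b, a + b < n → PowerSeries.coeff a (Q.coeff b) = 0) :
    ∀ a b, a + b < m + n → PowerSeries.coeff a ((P * Q).coeff b) = 0 := by
  intro a b hab
  rw [Polynomial.coeff_mul, map_sum]
  apply Finset.sum_eq_zero
  intro x hx
  rw [PowerSeries.coeff_mul]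
  apply Finset.sum_eq_zero
  intro y hy
  have h1 := Finset.HasAntidiagonal.mem_antidiagonal.mp hx
  have h2 := Finset.HasAntidiagonal.mem_antidiagonal.mp hy
  by_cases h : y.1 + x.1 < m
  · rw [hP _ _ h, zero_mul]
  · rw [hQ _ _ (by omega), mul_zero]

/-- the polynomials over `K[[z]]` of order at least `m` in `z` and `X` -/
private def substV (K : Type*) [Field K] (m : ℕ) : Ideal (Polynomial (PowerSeries K)) where
  carrier := {P | ∀ a b, a + b < m → PowerSeries.coeff a (P.coeff b) = 0}
  add_mem' := by
    intro P Q hP hQ a b hab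
    rw [Polynomial.coeff_add, map_add, hP a b hab, hQ a b hab, add_zero]
  zero_mem' := by
    intro a b _
    simp
  smul_mem' := by
    intro P Q hQ a b hab
    have h := subst_mul (m := 0) (n := m) (P := P) (Q := Q) (by intro a b h; omega) hQ
    rw [Nat.zero_add] at h
    exact h a b hab

private theorem substV_pow (m : ℕ) :
    (Ideal.span {(Polynomial.C PowerSeries.X : Polynomial (PowerSeries K)), Polynomial.X}) ^ m
      ≤ substV K m := by
  induction m with
  | zero =>
    intro P _ a b hab
    omega
  | succ m ih =>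
    refine le_of_eq_of_le (Submodule.pow_succ _) ?_
    rw [Ideal.mul_le]
    intro P hP Q hQ
    have hQ1 : Q ∈ substV K 1 := by
      refine Ideal.span_le.mpr ?_ hQ
      intro R hR
      rcases hR with rfl | hR
      · intro a b hab
        have ha : a = 0 := by omega
        have hb : b = 0 := by omega
        subst ha hb
        simp
      · rw [Set.mem_singleton_iff] at hR
        subst hR
        intro a b hab
        have ha : a = 0 := by omega
        have hb : b = 0 := by omega
        subst ha hb
        simp
    exact subst_mul (ih hP) hQ1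

theorem subst_coeff (m J : ℕ) (H : ℕ → PowerSeries K) (W Z : PowerSeries K)
    (hW : PowerSeries.constantCoeff W ≠ 0) (hZ : PowerSeries.constantCoeff Z ≠ 0) (τ : K)
    (hmem : ∑ j ∈ Finset.range (J + 1), Polynomial.C (W * Z ^ j * H j) * Polynomial.X ^ j ∈
      (Ideal.map (Polynomial.C : PowerSeries K →+* Polynomial (PowerSeries K))
        (Ideal.span {PowerSeries.X}) ⊔
      Ideal.span {(Polynomial.X : Polynomial (PowerSeries K)) -
        Polynomial.C (PowerSeries.C τ)}) ^ m) (a b : ℕ) (hab : a + b < m) :
    ∑ j ∈ Finset.range (J + 1), (τ * PowerSeries.constantCoeff Z) ^ j * (j.choose b : K) *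
      PowerSeries.coeff a (H j) = 0 := by
  obtain ⟨c, hc⟩ : ∃ c : K, c = τ * PowerSeries.constantCoeff Z := ⟨_, rfl⟩
  rw [← hc]
  have hZi : Z * Z⁻¹ = 1 := PowerSeries.mul_inv_cancel Z hZ
  have hWi : W * W⁻¹ = 1 := PowerSeries.mul_inv_cancel W hW
  -- the substitution
  let ρ : Polynomial (PowerSeries K) →ₐ[PowerSeries K] Polynomial (PowerSeries K) :=
    Polynomial.aeval (Polynomial.C Z⁻¹ * (Polynomial.X + Polynomial.C (PowerSeries.C c)))
  have hρC : ∀ x : PowerSeries K, ρ (Polynomial.C x) = Polynomial.C x := by
    intro x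
    exact Polynomial.aeval_C _ _
  have hρX : ρ Polynomial.X =
      Polynomial.C Z⁻¹ * (Polynomial.X + Polynomial.C (PowerSeries.C c)) := Polynomial.aeval_X _
  -- the difference of Z and its constant coefficient
  obtain ⟨Y, hY⟩ : ∃ Y : PowerSeries K,
      Z = PowerSeries.C (PowerSeries.constantCoeff Z) + PowerSeries.X * Y := by
    have h1 : (PowerSeries.X : PowerSeries K) ∣
        Z - PowerSeries.C (PowerSeries.constantCoeff Z) := by
      rw [PowerSeries.X_dvd_iff]
      simp
    obtain ⟨Y, hY⟩ := h1
    exact ⟨Y, by rw [← hY]; ring⟩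
  have hgen : ∀ Q ∈ (Ideal.map (Polynomial.C : PowerSeries K →+* Polynomial (PowerSeries K))
        (Ideal.span {PowerSeries.X}) ⊔
      Ideal.span {(Polynomial.X : Polynomial (PowerSeries K)) -
        Polynomial.C (PowerSeries.C τ)}), ρ Q ∈
      Ideal.span {(Polynomial.C PowerSeries.X : Polynomial (PowerSeries K)), Polynomial.X} := by
    intro Q hQ
    have hle : (Ideal.map (Polynomial.C : PowerSeries K →+* Polynomial (PowerSeries K))
        (Ideal.span {PowerSeries.X}) ⊔
      Ideal.span {(Polynomial.X : Polynomial (PowerSeries K)) -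
        Polynomial.C (PowerSeries.C τ)}) ≤
      Ideal.comap ρ (Ideal.span {(Polynomial.C PowerSeries.X : Polynomial (PowerSeries K)),
        Polynomial.X}) := by
      rw [sup_le_iff]
      constructor
      · rw [Ideal.map_span, Ideal.span_le]
        rintro _ ⟨x, hx, rfl⟩
        rw [Set.mem_singleton_iff] at hx
        subst hx
        rw [SetLike.mem_coe, Ideal.mem_comap]
        have h2 : ρ (Polynomial.C PowerSeries.X) = Polynomial.C PowerSeries.X := hρC _
        rw [h2]
        exact Ideal.subset_span (by simp)
      · rw [Ideal.span_le]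
        intro x hx
        rw [Set.mem_singleton_iff] at hx
        subst hx
        rw [SetLike.mem_coe, Ideal.mem_comap, map_sub, hρX, hρC]
        have h3 : (Polynomial.C Z⁻¹ * (Polynomial.X + Polynomial.C (PowerSeries.C c)) -
            Polynomial.C (PowerSeries.C τ) : Polynomial (PowerSeries K)) =
            Polynomial.C Z⁻¹ * Polynomial.X -
              (Polynomial.C (Z⁻¹ * PowerSeries.C τ * Y)) * Polynomial.C PowerSeries.X := by
          have h4 : (PowerSeries.C τ : PowerSeries K) =
              Z⁻¹ * (PowerSeries.C c + PowerSeries.C τ * (PowerSeries.X * Y)) := by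
            have h5 : (PowerSeries.C c + PowerSeries.C τ * (PowerSeries.X * Y) : PowerSeries K)
                = PowerSeries.C τ * Z := by
              rw [hc, map_mul]
              linear_combination (-(PowerSeries.C τ : PowerSeries K)) * hY
            rw [h5]
            calc (PowerSeries.C τ : PowerSeries K) = PowerSeries.C τ * (Z * Z⁻¹) := by
                  rw [hZi, mul_one]
              _ = _ := by ring
          have h6 := congrArg (Polynomial.C : PowerSeries K → Polynomial (PowerSeries K)) h4
          simp only [map_mul, map_add] at h6 ⊢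
          linear_combination -h6
        rw [h3]
        apply Ideal.sub_mem
        · exact Ideal.mul_mem_left _ _ (Ideal.subset_span (by simp))
        · exact Ideal.mul_mem_left _ _ (Ideal.subset_span (by simp))
    exact hle hQ
  have hpow : ∀ Q ∈ (Ideal.map (Polynomial.C : PowerSeries K →+* Polynomial (PowerSeries K))
        (Ideal.span {PowerSeries.X}) ⊔
      Ideal.span {(Polynomial.X : Polynomial (PowerSeries K)) -
        Polynomial.C (PowerSeries.C τ)}) ^ m, ρ Q ∈
      (Ideal.span {(Polynomial.C PowerSeries.X : Polynomial (PowerSeries K)),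
        Polynomial.X}) ^ m := by
    intro Q hQ
    have h1 := Ideal.mem_map_of_mem ρ hQ
    rw [Ideal.map_pow] at h1
    refine Ideal.pow_right_mono ?_ m h1
    rw [Ideal.map_le_iff_le_comap]
    exact hgen
  -- the polynomial without the unit W
  have h1 : Polynomial.C W⁻¹ *
      ∑ j ∈ Finset.range (J + 1), Polynomial.C (W * Z ^ j * H j) * Polynomial.X ^ j ∈
      (Ideal.map (Polynomial.C : PowerSeries K →+* Polynomial (PowerSeries K))
        (Ideal.span {PowerSeries.X}) ⊔
      Ideal.span {(Polynomial.X : Polynomial (PowerSeries K)) -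
        Polynomial.C (PowerSeries.C τ)}) ^ m := Ideal.mul_mem_left _ _ hmem
  have h2 := substV_pow m (hpow _ h1)
  have h3 : ρ (Polynomial.C W⁻¹ *
      ∑ j ∈ Finset.range (J + 1), Polynomial.C (W * Z ^ j * H j) * Polynomial.X ^ j) =
      ∑ j ∈ Finset.range (J + 1), Polynomial.C (H j) *
        (Polynomial.X + Polynomial.C (PowerSeries.C c)) ^ j := by
    rw [map_mul, map_sum, hρC, Finset.mul_sum]
    refine Finset.sum_congr rfl fun j _ => ?_
    rw [map_mul, map_pow, hρC, hρX, mul_pow, ← map_pow, ← mul_assoc, ← mul_assoc, ← map_mul,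
      ← map_mul]
    congr 2
    calc W⁻¹ * (W * Z ^ j * H j) * Z⁻¹ ^ j = (W * W⁻¹) * (Z * Z⁻¹) ^ j * H j := by ring
      _ = H j := by rw [hWi, hZi]; ring
  rw [h3] at h2
  have h4 := h2 a b hab
  rw [Polynomial.finsetSum_coeff, map_sum] at h4
  have h5 : ∀ j, PowerSeries.coeff a ((Polynomial.C (H j) *
        (Polynomial.X + Polynomial.C (PowerSeries.C c)) ^ j).coeff b) =
        c ^ (j - b) * (j.choose b : K) * PowerSeries.coeff a (H j) := by
    intro j
    rw [Polynomial.coeff_C_mul, Polynomial.coeff_X_add_C_pow]
    have h6 : (H j * ((PowerSeries.C c : PowerSeries K) ^ (j - b) * (j.choose b : PowerSeries K)))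
        = PowerSeries.C (c ^ (j - b) * (j.choose b : K)) * H j := by
      simp only [map_mul, map_pow, map_natCast]
      ring
    rw [h6, PowerSeries.coeff_C_mul]
  have h7 : ∑ j ∈ Finset.range (J + 1), c ^ j * (j.choose b : K) * PowerSeries.coeff a (H j)
      = c ^ b * ∑ j ∈ Finset.range (J + 1), PowerSeries.coeff a ((Polynomial.C (H j) *
        (Polynomial.X + Polynomial.C (PowerSeries.C c)) ^ j).coeff b) := by
    rw [Finset.mul_sum]
    refine Finset.sum_congr rfl fun j _ => ?_
    rw [h5]
    by_cases hjb : b ≤ j
    · have h8 : c ^ j = c ^ b * c ^ (j - b) := by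
        rw [← pow_add]
        congr 1
        omega
      rw [h8]
      ring
    · have h9 : j.choose b = 0 := Nat.choose_eq_zero_of_lt (by omega)
      rw [h9]
      simp
  rw [h7, h4, mul_zero]

end ShghT
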