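import Pool.Agent.ShghT.Psi
import Pool.Agent.ShghT.Div
import Pool.Agent.ShghT.StepA
import Pool.Agent.ShghT.Subst
import Pool.Agent.ShghT.Colon
import Pool.Agent.ShghT.Lin

/-!
# Formal points and the functions `H j`
-/

namespace ShghT

variable {k : Type*} [Field k]

/-- The field of the special points. -/
abbrev KK (k : Type*) [Field k] : Type _ := FractionRing (PowerSeries k)

/-- Extension of constants. -/
noncomputable def toK : PowerSeries (PowerSeries k) →+* PowerSeries (KK k) :=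
  PowerSeries.map (algebraMap (PowerSeries k) (KK k))

theorem toK_injective : Function.Injective (toK (k := k)) := by
  intro f g h
  ext1 n
  have := congrArg (PowerSeries.coeff n) h
  simp only [toK, PowerSeries.coeff_map] at this
  exact IsFractionRing.injective (PowerSeries k) (KK k) this

theorem toK_X : toK (PowerSeries.X : PowerSeries (PowerSeries k)) = PowerSeries.X := by
  simp [toK]

theorem toK_C (b : PowerSeries k) : toK (PowerSeries.C b) =
    PowerSeries.C (algebraMap (PowerSeries k) (KK k) b) := by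
  simp [toK]

theorem X_pow_dvd_of_toK {f : PowerSeries (PowerSeries k)} {n : ℕ}
    (h : (PowerSeries.X : PowerSeries (KK k)) ^ n ∣ toK f) :
    (PowerSeries.X : PowerSeries (PowerSeries k)) ^ n ∣ f := by
  rw [PowerSeries.X_pow_dvd_iff] at h ⊢
  intro m hm
  have := h m hm
  simp only [toK, PowerSeries.coeff_map] at this
  exact (map_eq_zero_iff _ (IsFractionRing.injective (PowerSeries k) (KK k))).1 this

/-- The formal point `u = a (1 + z)`. -/
noncomputable def TB (N : ℕ) (a : kˣ) : Bann k N →+* PowerSeries (KK k) :=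
  toK.comp ((Ta a).comp (Bann k N).subtype)

theorem TB_apply (N : ℕ) (a : kˣ) (f : Bann k N) : TB N a f = toK (Ta a f) := rfl

theorem TB_iota (N : ℕ) (a : kˣ) (b : PowerSeries k) :
    TB N a (iotaB N b) = PowerSeries.C (algebraMap (PowerSeries k) (KK k) b) := by
  rw [TB_apply, iotaB, Ta_iota, toK_C]

/-- The formal point `u = π ^ c a (1 + z)`. -/
noncomputable def TE (N : ℕ) (c : ℤ) (hc : 0 < c) (hcN : c < N) (a : kˣ) :
    Bann k N →+* PowerSeries (KK k) := toK.comp (Tc N c hc hcN a)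

theorem TE_apply {N : ℕ} {c : ℤ} (hc : 0 < c) (hcN : c < N) (a : kˣ) (f : Bann k N) :
    TE N c hc hcN a f = toK (Tc N c hc hcN a f) := rfl

theorem TE_iota {N : ℕ} {c : ℤ} (hc : 0 < c) (hcN : c < N) (a : kˣ) (b : PowerSeries k) :
    TE N c hc hcN a (iotaB N b) = PowerSeries.C (algebraMap (PowerSeries k) (KK k) b) := by
  rw [TE_apply, iotaB, Tc_iota, toK_C]

/-- The value at `u = a` modulo `π` computed from the constant coefficient. -/
theorem Ta_const_ne_zero {a : kˣ} {f : Lam k} {i : ℤ} (c : k) (hc : c ≠ 0)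
    (h : PowerSeries.constantCoeff f = LaurentPolynomial.C c * LaurentPolynomial.T i) :
    PowerSeries.constantCoeff (Ta a f) ≠ 0 := by
  intro h0
  have h1 := coeff_Ta a f 0 0
  rw [PowerSeries.coeff_zero_eq_constantCoeff_apply (Ta a f), h0] at h1
  rw [finsum_eq_single _ i] at h1
  · have h2 : cf f ((0 : ℕ) : ℤ) i = c := by
      rw [Nat.cast_zero, ← constantCoeff_coeff, h, ← LaurentPolynomial.single_eq_C_mul_T]
      simp [-LaurentPolynomial.single_eq_C_mul_T]
    rw [h2] at h1
    simp at h1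
    rcases h1 with h1 | h1
    · exact hc h1
    · exact absurd h1 (zpow_ne_zero _ a.ne_zero)
  · intro j hj
    have h2 : cf f ((0 : ℕ) : ℤ) j = 0 := by
      rw [Nat.cast_zero, ← constantCoeff_coeff, h, ← LaurentPolynomial.single_eq_C_mul_T]
      simp [-LaurentPolynomial.single_eq_C_mul_T, Finsupp.single_apply]
      intro h3
      exact absurd h3.symm hj
    rw [h2]
    simp

theorem TB_x3_one (N : ℕ) (hN : 0 < N) (a : kˣ) :
    PowerSeries.constantCoeff (TB N a (x3B k N 1)) ≠ 0 := by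
  rw [TB_apply, toK, ← PowerSeries.coeff_zero_eq_constantCoeff_apply, PowerSeries.coeff_map,
    PowerSeries.coeff_zero_eq_constantCoeff_apply, Ne,
    map_eq_zero_iff _ (IsFractionRing.injective (PowerSeries k) (KK k))]
  refine Ta_const_ne_zero (i := 1) 1 one_ne_zero ?_
  rw [map_one, one_mul]
  exact x3_const_one hN

/-- The functions `H`. -/
theorem exists_H {N : ℕ} (hN : 0 < N) (e : ℕ) (a : Fin 9 → kˣ) (ha : Function.Injective a)
    (μ κ : Fin 9 → ℕ) (D : ℕ) (g : MvPolynomial (Fin 2) (PowerSeries k)) (hg : g.totalDegree ≤ D)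
    (hμ : ∀ l, (PowerSeries.X : PowerSeries (PowerSeries k)) ^ μ l ∣ Ta (a l) (Phi N D g))
    (hdeg : ∑ l, μ l ≤ 3 * D) (he : 3 * D + ∑ l, κ l = e + ∑ l, μ l) :
    ∃ H : Bann k N, IsTh N e ((∏ l, (-(a l : k)) ^ μ l) * ∏ l, (-((a l)⁻¹ : kˣ) : k) ^ κ l) H ∧
      PhiB N D g * ∏ l, thB N (a l) ^ κ l = H * ∏ l, thB N (a l) ^ μ l := by
  obtain ⟨d', hd'⟩ := Nat.exists_eq_add_of_le hdeg
  have h1 : IsTh N (d' + ∑ l ∈ Finset.univ, μ l) 1 (Phi N D g) := by
    rw [add_comm d', ← hd']
    exact Phi_isTh hN hg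
  obtain ⟨h, hh, hf⟩ := div_prod hN one_ne_zero Finset.univ a (ha.injOn) μ h1
    (fun l _ => hμ l)
  have h2 : IsTh N (∑ l, κ l * 1) (∏ l, (-((a l)⁻¹ : kˣ) : k) ^ κ l) (∏ l, th N (a l) ^ κ l) :=
    IsTh.prod _ _ _ _ (fun l _ => (th_isTh hN (a l)).pow (κ l))
  have h3 := hh.mul h2
  have hmem : h * ∏ l, th N (a l) ^ κ l ∈ Bann k N := by
    refine h3.mem_Bann ?_
    refine mul_ne_zero (mul_ne_zero ?_ one_ne_zero) ?_
    · exact Finset.prod_ne_zero_iff.2 fun l _ => pow_ne_zero _ (neg_ne_zero.2 (a l).ne_zero)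
    · exact Finset.prod_ne_zero_iff.2 fun l _ => pow_ne_zero _ (neg_ne_zero.2 (Units.ne_zero _))
  refine ⟨⟨_, hmem⟩, ?_, ?_⟩
  · have e1 : d' + ∑ l, κ l * 1 = e := by
      simp only [mul_one]
      omega
    rw [mul_one] at h3
    rw [← e1]
    exact h3
  · apply Subtype.ext
    simp only [PhiB, thB, Subring.coe_mul, SubmonoidClass.coe_finsetProd, SubmonoidClass.coe_pow]
    rw [hf]
    ring

section points

variable {N : ℕ} (T : Bann k N →+* PowerSeries (KK k))

/-- The point of the plane below a formal point. -/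
noncomputable def bp (i : Fin 2) : KK k := PowerSeries.constantCoeff (psi T (MvPolynomial.X i))

theorem constantCoeff_psi (f : MvPolynomial (Fin 2) (KK k)) :
    PowerSeries.constantCoeff (psi T f) = MvPolynomial.eval (bp T) f := by
  have h : (PowerSeries.constantCoeff (R := KK k)).comp (psi T) = MvPolynomial.eval (bp T) := by
    apply MvPolynomial.ringHom_ext
    · intro r
      rw [RingHom.comp_apply, psi_C]
      simp
    · intro i
      rw [RingHom.comp_apply, MvPolynomial.eval_X]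
      rfl
  exact RingHom.congr_fun h f

variable {T}

theorem bp_curve (hT : ∀ b, T (iotaB N b) = PowerSeries.C (algebraMap (PowerSeries k) (KK k) b))
    (h1 : PowerSeries.constantCoeff (T (x3B k N 1)) ≠ 0) {α β δ : PowerSeries k}
    (hrel : iota α * x3 k N 0 ^ 3 + iota β * x3 k N 1 ^ 3 + iota δ * x3 k N 2 ^ 3 +
      x3 k N 0 * x3 k N 1 * x3 k N 2 = 0) :
    algebraMap (PowerSeries k) (KK k) α * bp T 0 ^ 3 +
      algebraMap (PowerSeries k) (KK k) δ * bp T 1 ^ 3 + bp T 0 * bp T 1 +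
      algebraMap (PowerSeries k) (KK k) β = 0 := by
  have h2 := psi_Gp T hT h1 hrel
  have h3 := constantCoeff_psi T (Gp (algebraMap (PowerSeries k) (KK k) α)
    (algebraMap (PowerSeries k) (KK k) β) (algebraMap (PowerSeries k) (KK k) δ))
  rw [h2, map_zero] at h3
  rw [h3]
  simp [Gp]

theorem bp_smooth (hT : ∀ b, T (iotaB N b) = PowerSeries.C (algebraMap (PowerSeries k) (KK k) b))
    (h1 : PowerSeries.constantCoeff (T (x3B k N 1)) ≠ 0) (α : PowerSeries k)
    (h2 : PowerSeries.constantCoeff (T (3 * iotaB N α * x3B k N 0 ^ 2 +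
      x3B k N 1 * x3B k N 2)) ≠ 0) :
    PowerSeries.constantCoeff (psi T (MvPolynomial.C (3 * algebraMap (PowerSeries k) (KK k) α) *
      MvPolynomial.X 0 ^ 2 + MvPolynomial.X 1)) ≠ 0 := by
  intro h3
  apply h2
  rw [← psi_Gx T hT h1 α, map_mul, h3, mul_zero]

theorem bp_smooth' (hT : ∀ b, T (iotaB N b) = PowerSeries.C (algebraMap (PowerSeries k) (KK k) b))
    (h1 : PowerSeries.constantCoeff (T (x3B k N 1)) ≠ 0) (α : PowerSeries k)
    (h2 : PowerSeries.constantCoeff (T (3 * iotaB N α * x3B k N 0 ^ 2 +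
      x3B k N 1 * x3B k N 2)) ≠ 0) :
    3 * algebraMap (PowerSeries k) (KK k) α * bp T 0 ^ 2 + bp T 1 ≠ 0 := by
  have h3 := bp_smooth hT h1 α h2
  rw [constantCoeff_psi] at h3
  simpa using h3

end points

/-- The partial derivative at the points on `|u| = 1`. -/
theorem TB_smooth {N : ℕ} (hN : 0 < N) (a : kˣ) {α : PowerSeries k}
    (hα : PowerSeries.constantCoeff α = 0) :
    PowerSeries.constantCoeff (TB N a (3 * iotaB N α * x3B k N 0 ^ 2 +
      x3B k N 1 * x3B k N 2)) ≠ 0 := by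
  rw [TB_apply, toK, ← PowerSeries.coeff_zero_eq_constantCoeff_apply, PowerSeries.coeff_map,
    PowerSeries.coeff_zero_eq_constantCoeff_apply, Ne,
    map_eq_zero_iff _ (IsFractionRing.injective (PowerSeries k) (KK k))]
  refine Ta_const_ne_zero (i := 3) 1 one_ne_zero ?_
  have e : ((3 * iotaB N α * x3B k N 0 ^ 2 + x3B k N 1 * x3B k N 2 : Bann k N) : Lam k) =
      3 * iota α * x3 k N 0 ^ 2 + x3 k N 1 * x3 k N 2 := rfl
  have h0 : PowerSeries.constantCoeff (iota α) = (0 : LaurentPolynomial k) := by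
    rw [iota, ← PowerSeries.coeff_zero_eq_constantCoeff_apply, PowerSeries.coeff_map,
      PowerSeries.coeff_zero_eq_constantCoeff_apply, hα, map_zero]
  rw [e, map_add, map_mul, map_mul, map_mul, h0, x3_const_one hN, x3_const_two hN,
    ← LaurentPolynomial.T_add]
  simp

/-- The order of vanishing at the base points. -/
theorem base_order {N : ℕ} (hN : 0 < N) (a : kˣ) (μ D : ℕ)
    (g' : MvPolynomial (Fin 2) (PowerSeries k)) (hg' : g'.totalDegree ≤ D) (c : KK k)
    (g : MvPolynomial (Fin 2) (KK k))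
    (hmap : MvPolynomial.map (algebraMap (PowerSeries k) (KK k)) g' = MvPolynomial.C c * g)
    (hmem : g ∈ pt (bp (TB N a) 0) (bp (TB N a) 1) ^ μ) :
    (PowerSeries.X : PowerSeries (PowerSeries k)) ^ μ ∣ Ta a (Phi N D g') := by
  apply X_pow_dvd_of_toK
  have h1 := psi_Phi (TB N a) (TB_iota N a) (TB_x3_one N hN a) hg'
  have h2 := psi_pt (TB N a) hmem
  have h3 : toK (Ta a (Phi N D g')) = TB N a (PhiB N D g') := rfl
  rw [h3, h1, hmap, map_mul]
  exact Dvd.dvd.mul_left (Dvd.dvd.mul_left h2 _) _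

end ShghT
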