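import Pool.Agent.ShghT.Theta

/-!
# The Tate curve as a plane cubic

`x = x3 0 / x3 1`, `y = x3 2 / x3 1` satisfy `α x³ + δ y³ + x y + β = 0`. `Phi N D g` is the
homogenized value `(x3 1) ^ D g(x, y)`.
-/

namespace ShghT

variable {k : Type*} [Field k] {N : ℕ}

section rel

/-- The coefficient of `u ^ j` as a series in `π`. -/
private noncomputable def colC (j : ℤ) (f : Lam k) : PowerSeries k :=
  PowerSeries.mk fun n => (PowerSeries.coeff n f).coeff j

private theorem colC_add (j : ℤ) (f g : Lam k) : colC j (f + g) = colC j f + colC j g := by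
  ext n
  rw [map_add, colC, colC, colC, PowerSeries.coeff_mk, PowerSeries.coeff_mk,
    PowerSeries.coeff_mk, map_add]
  rfl

private theorem colC_iota_mul (j : ℤ) (b : PowerSeries k) (f : Lam k) :
    colC j (iota b * f) = b * colC j f := by
  ext n
  rw [colC, PowerSeries.coeff_mk, PowerSeries.coeff_mul, PowerSeries.coeff_mul,
    AddMonoidAlgebra.coeff_sum, Finsupp.finsetSum_apply]
  refine Finset.sum_congr rfl fun p _ => ?_
  rw [iota, PowerSeries.coeff_map, ← LaurentPolynomial.smul_eq_C_mul, colC, PowerSeries.coeff_mk]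
  rfl

private theorem constantCoeff_colC (j : ℤ) (f : Lam k) :
    PowerSeries.constantCoeff (colC j f) = (PowerSeries.constantCoeff f).coeff j := by
  rw [← PowerSeries.coeff_zero_eq_constantCoeff_apply, colC, PowerSeries.coeff_mk,
    ← PowerSeries.coeff_zero_eq_constantCoeff_apply]

private theorem cf_of_colC {j : ℤ} {f : Lam k} (h : colC j f = 0) (n : ℤ) : cf f n j = 0 := by
  rcases lt_or_ge n 0 with hn | hn
  · exact cf_neg f hn j
  · obtain ⟨m, rfl⟩ := Int.eq_ofNat_of_zero_le hn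
    have h1 := congrArg (PowerSeries.coeff m) h
    rw [colC, PowerSeries.coeff_mk, map_zero] at h1
    rw [← h1]
    exact cf_nat f m j

/-- Supported on a residue class modulo three. -/
private def Supp3 (r : ℤ) (f : Lam k) : Prop := ∀ n j : ℤ, ¬ (3 ∣ j - r) → cf f n j = 0

private theorem Supp3.mul {r s : ℤ} {f g : Lam k} (hf : Supp3 r f) (hg : Supp3 s g) :
    Supp3 (r + s) (f * g) := by
  intro n j hj
  rw [cf_mul]
  refine finsum_eq_zero_of_forall_eq_zero fun p => ?_
  by_cases h : (3 : ℤ) ∣ p.2 - r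
  · have h2 : ¬ ((3 : ℤ) ∣ (j - p.2) - s) := by
      intro h3
      exact hj (by have := dvd_add h h3; rwa [show p.2 - r + (j - p.2 - s) = j - (r + s) by ring]
        at this)
    rw [hg _ _ h2, mul_zero]
  · rw [hf _ _ h, zero_mul]

private theorem Supp3.add {r : ℤ} {f g : Lam k} (hf : Supp3 r f) (hg : Supp3 r g) :
    Supp3 r (f + g) := by
  intro n j hj
  rw [cf_add, hf _ _ hj, hg _ _ hj, add_zero]

private theorem supp3_iota (b : PowerSeries k) : Supp3 0 (iota b) := by
  intro n j hj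
  rw [cf_iota, if_neg]
  rintro rfl
  exact hj (by simp)

private theorem Supp3.of_dvd {r s : ℤ} {f : Lam k} (hf : Supp3 r f) (h : (3 : ℤ) ∣ r - s) :
    Supp3 s f := by
  intro n j hj
  refine hf n j fun h2 => hj ?_
  have := dvd_add h2 h
  rwa [show j - r + (r - s) = j - s by ring] at this

private theorem supp3_x3 (hN : 0 < N) (i : ℕ) (hi : i < 3) : Supp3 (i : ℤ) (x3 k N i) := by
  intro n j hj
  rw [(x3_isTh (k := k) hN i).formula (by norm_num) one_ne_zero, one_zpow, one_mul]
  have h1 : (0 : ℤ) ≤ j % ((3 : ℕ) : ℤ) := Int.emod_nonneg _ (by norm_num)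
  have h2 : j % ((3 : ℕ) : ℤ) < ((3 : ℕ) : ℤ) := Int.emod_lt_of_pos _ (by norm_num)
  obtain ⟨m, hm⟩ := Int.eq_ofNat_of_zero_le h1
  rw [hm, x3_cf hN i m (by omega), if_neg]
  rintro ⟨rfl, _⟩
  apply hj
  push_cast at hm
  omega

private theorem coeff3 (a b c d : k) (j : ℤ) :
    (LaurentPolynomial.C a + LaurentPolynomial.C b * LaurentPolynomial.T 3 +
      LaurentPolynomial.C c * LaurentPolynomial.T 6 +
      LaurentPolynomial.C d * LaurentPolynomial.T 9 : LaurentPolynomial k).coeff j =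
    (if j = 0 then a else 0) + (if j = 3 then b else 0) + (if j = 6 then c else 0) +
      (if j = 9 then d else 0) := by
  have h : ∀ (e : k) (m : ℤ), (LaurentPolynomial.C e * LaurentPolynomial.T m :
      LaurentPolynomial k).coeff j = if j = m then e else 0 := by
    intro e m
    rw [← LaurentPolynomial.smul_eq_C_mul, AddMonoidAlgebra.coeff_smul, Finsupp.smul_apply,
      LaurentPolynomial.T_apply, smul_eq_mul]
    by_cases h : j = m
    · rw [if_pos h, if_pos h.symm, mul_one]
    · rw [if_neg h, if_neg (Ne.symm h), mul_zero]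
  rw [AddMonoidAlgebra.coeff_add, AddMonoidAlgebra.coeff_add, AddMonoidAlgebra.coeff_add,
    Finsupp.add_apply, Finsupp.add_apply, Finsupp.add_apply, h, h, h, LaurentPolynomial.C_apply]

end rel

/-- The cubic relation. -/
theorem curve_rel (k : Type*) [Field k] {N : ℕ} (hN : 0 < N) : ∃ α β δ : PowerSeries k,
    PowerSeries.constantCoeff α = 0 ∧ PowerSeries.constantCoeff β = -1 ∧
    PowerSeries.constantCoeff δ = -1 ∧
    iota α * x3 k N 0 ^ 3 + iota β * x3 k N 1 ^ 3 + iota δ * x3 k N 2 ^ 3 +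
      x3 k N 0 * x3 k N 1 * x3 k N 2 = 0 := by
  -- constant coefficients
  have c0 : PowerSeries.constantCoeff (x3 k N 0 ^ 3) =
      LaurentPolynomial.C 1 + LaurentPolynomial.C 3 * LaurentPolynomial.T 3 +
      LaurentPolynomial.C 3 * LaurentPolynomial.T 6 +
      LaurentPolynomial.C 1 * LaurentPolynomial.T 9 := by
    have e6 : (LaurentPolynomial.T 6 : LaurentPolynomial k) = LaurentPolynomial.T 3 ^ 2 := by
      rw [LaurentPolynomial.T_pow]; norm_num
    have e9 : (LaurentPolynomial.T 9 : LaurentPolynomial k) = LaurentPolynomial.T 3 ^ 3 := by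
      rw [LaurentPolynomial.T_pow]; norm_num
    rw [map_pow, x3_const_zero hN, e6, e9, map_one]
    have e3 : (LaurentPolynomial.C (3 : k) : LaurentPolynomial k) = 3 := map_ofNat _ 3
    rw [e3]
    ring
  have c1 : PowerSeries.constantCoeff (x3 k N 1 ^ 3) =
      LaurentPolynomial.C 0 + LaurentPolynomial.C 1 * LaurentPolynomial.T 3 +
      LaurentPolynomial.C 0 * LaurentPolynomial.T 6 +
      LaurentPolynomial.C 0 * LaurentPolynomial.T 9 := by
    rw [map_pow, x3_const_one hN, LaurentPolynomial.T_pow, map_zero, map_one]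
    norm_num
  have c2 : PowerSeries.constantCoeff (x3 k N 2 ^ 3) =
      LaurentPolynomial.C 0 + LaurentPolynomial.C 0 * LaurentPolynomial.T 3 +
      LaurentPolynomial.C 1 * LaurentPolynomial.T 6 +
      LaurentPolynomial.C 0 * LaurentPolynomial.T 9 := by
    rw [map_pow, x3_const_two hN, LaurentPolynomial.T_pow, map_zero, map_one]
    norm_num
  have c3 : PowerSeries.constantCoeff (x3 k N 0 * x3 k N 1 * x3 k N 2) =
      LaurentPolynomial.C 0 + LaurentPolynomial.C 1 * LaurentPolynomial.T 3 +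
      LaurentPolynomial.C 1 * LaurentPolynomial.T 6 +
      LaurentPolynomial.C 0 * LaurentPolynomial.T 9 := by
    have e3 : (LaurentPolynomial.T 3 : LaurentPolynomial k) =
        LaurentPolynomial.T 1 * LaurentPolynomial.T 2 := by
      rw [← LaurentPolynomial.T_add]; norm_num
    have e6 : (LaurentPolynomial.T 6 : LaurentPolynomial k) =
        LaurentPolynomial.T 3 * LaurentPolynomial.T 3 := by
      rw [← LaurentPolynomial.T_add]; norm_num
    rw [map_mul, map_mul, x3_const_zero hN, x3_const_one hN, x3_const_two hN, map_zero, map_one,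
      e6, e3]
    ring
  set M : Matrix (Fin 3) (Fin 3) (PowerSeries k) := Matrix.of fun i j =>
    colC (3 * (i : ℤ)) (x3 k N j ^ 3) with hM
  set w : Fin 3 → PowerSeries k := fun i =>
    colC (3 * (i : ℤ)) (x3 k N 0 * x3 k N 1 * x3 k N 2) with hw
  have hM0 : M.map PowerSeries.constantCoeff = !![1, 0, 0; 3, 1, 0; 3, 0, 1] := by
    have r0 : ∀ i : Fin 3, PowerSeries.constantCoeff (M i 0) =
        (!![1, 0, 0; 3, 1, 0; 3, 0, 1] : Matrix (Fin 3) (Fin 3) k) i 0 := by
      intro i
      change PowerSeries.constantCoeff (colC (3 * (i : ℤ)) (x3 k N 0 ^ 3)) = _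
      rw [constantCoeff_colC, c0, coeff3]
      fin_cases i <;> simp
    have r1 : ∀ i : Fin 3, PowerSeries.constantCoeff (M i 1) =
        (!![1, 0, 0; 3, 1, 0; 3, 0, 1] : Matrix (Fin 3) (Fin 3) k) i 1 := by
      intro i
      change PowerSeries.constantCoeff (colC (3 * (i : ℤ)) (x3 k N 1 ^ 3)) = _
      rw [constantCoeff_colC, c1, coeff3]
      fin_cases i <;> simp
    have r2 : ∀ i : Fin 3, PowerSeries.constantCoeff (M i 2) =
        (!![1, 0, 0; 3, 1, 0; 3, 0, 1] : Matrix (Fin 3) (Fin 3) k) i 2 := by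
      intro i
      change PowerSeries.constantCoeff (colC (3 * (i : ℤ)) (x3 k N 2 ^ 3)) = _
      rw [constantCoeff_colC, c2, coeff3]
      fin_cases i <;> simp
    ext i j
    rw [Matrix.map_apply]
    fin_cases j
    · exact r0 i
    · exact r1 i
    · exact r2 i
  have hw0 : ∀ i, PowerSeries.constantCoeff (w i) = ![0, 1, 1] i := by
    intro i
    rw [hw]
    change PowerSeries.constantCoeff (colC (3 * (i : ℤ)) (x3 k N 0 * x3 k N 1 * x3 k N 2)) = _
    rw [constantCoeff_colC, c3, coeff3]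
    fin_cases i <;> simp
  have hdet : IsUnit M.det := by
    rw [PowerSeries.isUnit_iff_constantCoeff, RingHom.map_det, RingHom.mapMatrix_apply, hM0,
      Matrix.det_fin_three]
    simp
  set v : Fin 3 → PowerSeries k := M⁻¹.mulVec (-w) with hv
  have hMv : M.mulVec v = -w := by
    rw [hv, Matrix.mulVec_mulVec, Matrix.mul_nonsing_inv _ hdet, Matrix.one_mulVec]
  have hrow : ∀ i, M i 0 * v 0 + M i 1 * v 1 + M i 2 * v 2 = - w i := by
    intro i
    have h1 := congrFun hMv i
    rw [Matrix.mulVec, dotProduct, Fin.sum_univ_three] at h1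
    exact h1
  have hrow0 : ∀ i, (!![1, 0, 0; 3, 1, 0; 3, 0, 1] : Matrix (Fin 3) (Fin 3) k) i 0 *
      PowerSeries.constantCoeff (v 0) + (!![1, 0, 0; 3, 1, 0; 3, 0, 1] :
      Matrix (Fin 3) (Fin 3) k) i 1 * PowerSeries.constantCoeff (v 1) +
      (!![1, 0, 0; 3, 1, 0; 3, 0, 1] : Matrix (Fin 3) (Fin 3) k) i 2 *
      PowerSeries.constantCoeff (v 2) = - (![0, 1, 1] : Fin 3 → k) i := by
    intro i
    rw [← hM0, ← hw0, Matrix.map_apply, Matrix.map_apply, Matrix.map_apply, ← map_mul, ← map_mul,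
      ← map_mul, ← map_add, ← map_add, hrow, map_neg]
  have a0 : PowerSeries.constantCoeff (v 0) = 0 := by
    have := hrow0 0
    simpa using this
  have a1 : PowerSeries.constantCoeff (v 1) = -1 := by
    have := hrow0 1
    simpa [a0] using this
  have a2 : PowerSeries.constantCoeff (v 2) = -1 := by
    have := hrow0 2
    simpa [a0] using this
  refine ⟨v 0, v 1, v 2, a0, a1, a2, ?_⟩
  -- the relation
  have hp : ∀ i : ℕ, IsTh N 9 1 (x3 k N i ^ 3) := by
    intro i
    have := (x3_isTh (k := k) hN i).pow 3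
    rwa [one_pow] at this
  have hq : IsTh N 9 1 (x3 k N 0 * x3 k N 1 * x3 k N 2) := by
    have := ((x3_isTh (k := k) hN 0).mul (x3_isTh hN 1)).mul (x3_isTh hN 2)
    rwa [mul_one, mul_one] at this
  have hth : IsTh N 9 1 (iota (v 0) * x3 k N 0 ^ 3 + iota (v 1) * x3 k N 1 ^ 3 +
      iota (v 2) * x3 k N 2 ^ 3 + x3 k N 0 * x3 k N 1 * x3 k N 2) :=
    ((((hp 0).iota_mul _).add ((hp 1).iota_mul _)).add ((hp 2).iota_mul _)).add hq
  have s3 : ∀ i : ℕ, i < 3 → Supp3 0 (iota (v 0) * x3 k N i ^ 3) ∧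
      ∀ b : PowerSeries k, Supp3 0 (iota b * x3 k N i ^ 3) := by
    intro i hi
    have h1 : ∀ b : PowerSeries k, Supp3 0 (iota b * x3 k N i ^ 3) := by
      intro b
      have h2 : x3 k N i ^ 3 = x3 k N i * x3 k N i * x3 k N i := by ring
      rw [h2]
      refine ((supp3_iota b).mul (((supp3_x3 hN i hi).mul (supp3_x3 hN i hi)).mul
        (supp3_x3 hN i hi))).of_dvd ?_
      exact ⟨i, by ring⟩
    exact ⟨h1 _, h1⟩
  have hsupp : Supp3 0 (iota (v 0) * x3 k N 0 ^ 3 + iota (v 1) * x3 k N 1 ^ 3 +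
      iota (v 2) * x3 k N 2 ^ 3 + x3 k N 0 * x3 k N 1 * x3 k N 2) := by
    refine ((((s3 0 (by norm_num)).2 _).add ((s3 1 (by norm_num)).2 _)).add
      ((s3 2 (by norm_num)).2 _)).add ?_
    refine (((supp3_x3 hN 0 (by norm_num)).mul (supp3_x3 hN 1 (by norm_num))).mul
      (supp3_x3 hN 2 (by norm_num))).of_dvd ?_
    norm_num
  have hcol : ∀ i : Fin 3, colC (3 * (i : ℤ)) (iota (v 0) * x3 k N 0 ^ 3 +
      iota (v 1) * x3 k N 1 ^ 3 + iota (v 2) * x3 k N 2 ^ 3 +
      x3 k N 0 * x3 k N 1 * x3 k N 2) = 0 := by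
    intro i
    rw [colC_add, colC_add, colC_add, colC_iota_mul, colC_iota_mul, colC_iota_mul]
    have h1 := hrow i
    have e0 : M i 0 = colC (3 * (i : ℤ)) (x3 k N 0 ^ 3) := rfl
    have e1 : M i 1 = colC (3 * (i : ℤ)) (x3 k N 1 ^ 3) := rfl
    have e2 : M i 2 = colC (3 * (i : ℤ)) (x3 k N 2 ^ 3) := rfl
    have e3 : w i = colC (3 * (i : ℤ)) (x3 k N 0 * x3 k N 1 * x3 k N 2) := rfl
    rw [e0, e1, e2, e3] at h1
    linear_combination h1
  refine hth.eq_zero (by norm_num) one_ne_zero fun ρ hρ n => ?_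
  by_cases h : (3 : ℤ) ∣ (ρ : ℤ) - 0
  · obtain ⟨c, hc⟩ := h
    have hc0 : 0 ≤ c := by omega
    obtain ⟨m, rfl⟩ := Int.eq_ofNat_of_zero_le hc0
    have hm : m < 3 := by omega
    have h1 := hcol ⟨m, hm⟩
    have h2 : (ρ : ℤ) = 3 * (m : ℤ) := by omega
    rw [h2]
    exact cf_of_colC h1 n
  · exact hsupp n ρ h

/-- The homogenized value of a polynomial on the curve. -/
noncomputable def Phi (N D : ℕ) (g : MvPolynomial (Fin 2) (PowerSeries k)) : Lam k :=
  ∑ s ∈ g.support, iota (g.coeff s) * x3 k N 0 ^ (s 0) * x3 k N 2 ^ (s 1) *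
    x3 k N 1 ^ (D - s 0 - s 1)

private theorem curve_deg_le {D : ℕ} {g : MvPolynomial (Fin 2) (PowerSeries k)}
    (hg : g.totalDegree ≤ D) {s : Fin 2 →₀ ℕ} (hs : s ∈ g.support) : s 0 + s 1 ≤ D := by
  have h1 := (MvPolynomial.le_totalDegree hs).trans hg
  rwa [Finsupp.sum_fintype _ _ (fun _ => rfl), Fin.sum_univ_two] at h1

theorem Phi_isTh (hN : 0 < N) {D : ℕ} {g : MvPolynomial (Fin 2) (PowerSeries k)}
    (hg : g.totalDegree ≤ D) : IsTh N (3 * D) 1 (Phi N D g) := by
  rw [Phi]
  refine IsTh.sum _ _ fun s hs => ?_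
  have h1 := curve_deg_le hg hs
  have h2 := (((IsTh.iota N (g.coeff s)).mul ((x3_isTh (k := k) hN 0).pow (s 0))).mul
    ((x3_isTh (k := k) hN 2).pow (s 1))).mul ((x3_isTh (k := k) hN 1).pow (D - s 0 - s 1))
  have h3 : 0 + s 0 * 3 + s 1 * 3 + (D - s 0 - s 1) * 3 = 3 * D := by omega
  rw [h3, one_pow, one_pow, one_pow, mul_one, mul_one, mul_one] at h2
  exact h2

theorem Phi_mem_Bann (N D : ℕ) (g : MvPolynomial (Fin 2) (PowerSeries k)) :
    Phi N D g ∈ Bann k N := by
  rw [Phi]
  refine Subring.sum_mem _ fun s _ => ?_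
  exact Subring.mul_mem _ (Subring.mul_mem _ (Subring.mul_mem _ (iota_mem_Bann N _)
    (Subring.pow_mem _ (x3_mem_Bann N 0) _)) (Subring.pow_mem _ (x3_mem_Bann N 2) _))
    (Subring.pow_mem _ (x3_mem_Bann N 1) _)

section kernel

open Polynomial

set_option maxHeartbeats 400000 in
/-- `1, T, T ^ 2` are linearly independent over `k[T⁻¹ + T ^ 2]`. -/
private theorem curve_base (s0 s1 s2 : k[X])
    (h : eval₂RingHom LaurentPolynomial.C
        (LaurentPolynomial.T (-1) + LaurentPolynomial.T 2 : LaurentPolynomial k) s0 +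
      eval₂RingHom LaurentPolynomial.C
        (LaurentPolynomial.T (-1) + LaurentPolynomial.T 2 : LaurentPolynomial k) s1 *
        LaurentPolynomial.T 1 +
      eval₂RingHom LaurentPolynomial.C
        (LaurentPolynomial.T (-1) + LaurentPolynomial.T 2 : LaurentPolynomial k) s2 *
        LaurentPolynomial.T 2 = 0) : s0 = 0 ∧ s1 = 0 ∧ s2 = 0 := by
  set G0 : k[X][X] := X ^ 3 + (C (-X) * X + 1) with hG0
  have hdeg : (C (-X) * X + 1 : k[X][X]).degree < 3 := by
    compute_degree!
  have hmon : G0.Monic := monic_X_pow_add hdeg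
  have hnat : G0.natDegree = 3 := by
    rw [hG0]
    compute_degree!
  set y : AdjoinRoot G0 := AdjoinRoot.root G0 with hy
  set x : AdjoinRoot G0 := AdjoinRoot.of G0 X with hx
  have hroot : y ^ 3 - x * y + 1 = 0 := by
    have h1 : AdjoinRoot.mk G0 (X ^ 3 + (C (-X) * X + 1)) = 0 := AdjoinRoot.mk_self
    rw [map_add, map_add, map_mul, map_pow, map_one, AdjoinRoot.mk_X, AdjoinRoot.mk_C,
      map_neg] at h1
    linear_combination h1
  have hu : y * (x - y ^ 2) = 1 := by linear_combination -hroot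
  set yu : (AdjoinRoot G0)ˣ := ⟨y, x - y ^ 2, hu, by rw [mul_comm]; exact hu⟩ with hyu
  set η : LaurentPolynomial k →+* AdjoinRoot G0 :=
    LaurentPolynomial.eval₂ ((AdjoinRoot.of G0).comp C) yu with hη
  have hη1 : η (LaurentPolynomial.T 1) = y := by
    rw [hη, LaurentPolynomial.eval₂_T, zpow_one]
  have hη2 : η (LaurentPolynomial.T 2) = y ^ 2 := by
    have e2 : (LaurentPolynomial.T 2 : LaurentPolynomial k) = LaurentPolynomial.T 1 ^ 2 := by
      rw [LaurentPolynomial.T_pow]; norm_num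
    rw [e2, map_pow, hη1]
  have hηm : η (LaurentPolynomial.T (-1)) = x - y ^ 2 := by
    rw [hη, LaurentPolynomial.eval₂_T, zpow_neg_one]
    rfl
  have hηx : η (LaurentPolynomial.T (-1) + LaurentPolynomial.T 2) = x := by
    rw [map_add, hηm, hη2]
    ring
  have hcomp : ∀ s : k[X], η (eval₂RingHom LaurentPolynomial.C
      (LaurentPolynomial.T (-1) + LaurentPolynomial.T 2 : LaurentPolynomial k) s) =
      AdjoinRoot.of G0 s := by
    intro s
    have h1 : η.comp (eval₂RingHom LaurentPolynomial.C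
      (LaurentPolynomial.T (-1) + LaurentPolynomial.T 2 : LaurentPolynomial k)) =
      AdjoinRoot.of G0 := by
      refine Polynomial.ringHom_ext (fun a => ?_) ?_
      · rw [RingHom.comp_apply, coe_eval₂RingHom, eval₂_C, hη, LaurentPolynomial.eval₂_C]
        rfl
      · rw [RingHom.comp_apply, coe_eval₂RingHom, eval₂_X, hηx]
    exact congrArg (fun f => f s) h1
  have h1 := congrArg η h
  rw [map_zero, map_add, map_add, map_mul, map_mul, hcomp, hcomp, hcomp, hη1, hη2] at h1
  have h2 : AdjoinRoot.mk G0 (C s0 + C s1 * X + C s2 * X ^ 2) = 0 := by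
    rw [map_add, map_add, map_mul, map_mul, map_pow, AdjoinRoot.mk_C, AdjoinRoot.mk_C,
      AdjoinRoot.mk_C, AdjoinRoot.mk_X]
    exact h1
  rw [AdjoinRoot.mk_eq_zero] at h2
  have h3 : (C s0 + C s1 * X + C s2 * X ^ 2 : k[X][X]) = 0 := by
    by_contra hne
    refine hmon.not_dvd_of_degree_lt hne ?_ h2
    rw [degree_eq_natDegree hmon.ne_zero, hnat]
    compute_degree!
  have h4 : ∀ n, (C s0 + C s1 * X + C s2 * X ^ 2 : k[X][X]).coeff n = 0 := by
    intro n
    rw [h3, coeff_zero]
  refine ⟨?_, ?_, ?_⟩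
  · have := h4 0
    simpa using this
  · have := h4 1
    simpa [coeff_X, coeff_C] using this
  · have := h4 2
    simpa [coeff_X, coeff_C] using this

/-- Reduction modulo `π`. -/
private theorem curve_mod {xx yy : Lam k}
    (hx : PowerSeries.constantCoeff xx = LaurentPolynomial.T (-1) + LaurentPolynomial.T 2)
    (hy : PowerSeries.constantCoeff yy = LaurentPolynomial.T 1) (r0 r1 r2 : (PowerSeries k)[X])
    (h : eval₂RingHom iota xx r0 + eval₂RingHom iota xx r1 * yy +
      eval₂RingHom iota xx r2 * yy ^ 2 = 0) :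
    r0.map PowerSeries.constantCoeff = 0 ∧ r1.map PowerSeries.constantCoeff = 0 ∧
      r2.map PowerSeries.constantCoeff = 0 := by
  have hc : ∀ r : (PowerSeries k)[X], PowerSeries.constantCoeff (eval₂RingHom iota xx r) =
      eval₂RingHom LaurentPolynomial.C
        (LaurentPolynomial.T (-1) + LaurentPolynomial.T 2 : LaurentPolynomial k)
        (r.map PowerSeries.constantCoeff) := by
    intro r
    have h1 : (PowerSeries.constantCoeff (R := LaurentPolynomial k)).comp
        (eval₂RingHom iota xx) = (eval₂RingHom LaurentPolynomial.C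
        (LaurentPolynomial.T (-1) + LaurentPolynomial.T 2 : LaurentPolynomial k)).comp
        (mapRingHom PowerSeries.constantCoeff) := by
      refine Polynomial.ringHom_ext (fun a => ?_) ?_
      · rw [RingHom.comp_apply, RingHom.comp_apply, coe_eval₂RingHom, coe_eval₂RingHom, eval₂_C,
          coe_mapRingHom, map_C, eval₂_C, iota, ← PowerSeries.coeff_zero_eq_constantCoeff_apply,
          PowerSeries.coeff_map, PowerSeries.coeff_zero_eq_constantCoeff_apply]
      · rw [RingHom.comp_apply, RingHom.comp_apply, coe_eval₂RingHom, coe_eval₂RingHom, eval₂_X,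
          coe_mapRingHom, map_X, eval₂_X, hx]
    exact congrArg (fun f => f r) h1
  have h1 := congrArg PowerSeries.constantCoeff h
  rw [map_zero, map_add, map_add, map_mul, map_mul, map_pow, hc, hc, hc, hy] at h1
  have e2 : (LaurentPolynomial.T 1 ^ 2 : LaurentPolynomial k) = LaurentPolynomial.T 2 := by
    rw [LaurentPolynomial.T_pow]; norm_num
  rw [e2] at h1
  exact curve_base _ _ _ h1

private theorem curve_X_dvd {xx yy : Lam k}
    (hx : PowerSeries.constantCoeff xx = LaurentPolynomial.T (-1) + LaurentPolynomial.T 2)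
    (hy : PowerSeries.constantCoeff yy = LaurentPolynomial.T 1) (n : ℕ) :
    ∀ r0 r1 r2 : (PowerSeries k)[X], eval₂RingHom iota xx r0 + eval₂RingHom iota xx r1 * yy +
      eval₂RingHom iota xx r2 * yy ^ 2 = 0 →
    C (PowerSeries.X ^ n) ∣ r0 ∧ C (PowerSeries.X ^ n) ∣ r1 ∧ C (PowerSeries.X ^ n) ∣ r2 := by
  induction n with
  | zero =>
    intro r0 r1 r2 _
    rw [pow_zero, map_one]
    exact ⟨one_dvd _, one_dvd _, one_dvd _⟩
  | succ n ih =>
    intro r0 r1 r2 h
    obtain ⟨h0, h1, h2⟩ := curve_mod hx hy r0 r1 r2 h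
    have hd : ∀ r : (PowerSeries k)[X], r.map PowerSeries.constantCoeff = 0 →
        C PowerSeries.X ∣ r := by
      intro r hr
      rw [C_dvd_iff_dvd_coeff]
      intro i
      rw [PowerSeries.X_dvd_iff]
      have := congrArg (fun p => coeff p i) hr
      rwa [coeff_map, coeff_zero] at this
    obtain ⟨s0, rfl⟩ := hd r0 h0
    obtain ⟨s1, rfl⟩ := hd r1 h1
    obtain ⟨s2, rfl⟩ := hd r2 h2
    have hC : eval₂RingHom iota xx (C PowerSeries.X) = PowerSeries.X := by
      rw [coe_eval₂RingHom, eval₂_C, iota_X]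
    have h3 : eval₂RingHom iota xx s0 + eval₂RingHom iota xx s1 * yy +
        eval₂RingHom iota xx s2 * yy ^ 2 = 0 := by
      rw [map_mul, map_mul, map_mul, hC] at h
      have h4 : (PowerSeries.X : Lam k) * (eval₂RingHom iota xx s0 +
          eval₂RingHom iota xx s1 * yy + eval₂RingHom iota xx s2 * yy ^ 2) = 0 := by
        rw [← h]; ring
      ext m : 1
      rw [← PowerSeries.coeff_succ_X_mul, h4, map_zero, map_zero]
    obtain ⟨k0, k1, k2⟩ := ih s0 s1 s2 h3
    rw [pow_succ', map_mul]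
    exact ⟨mul_dvd_mul_left _ k0, mul_dvd_mul_left _ k1, mul_dvd_mul_left _ k2⟩

private theorem curve_eq_zero_of_dvd {r : (PowerSeries k)[X]}
    (h : ∀ n : ℕ, C (PowerSeries.X ^ n) ∣ r) : r = 0 := by
  ext i m
  have h1 := h (m + 1)
  rw [C_dvd_iff_dvd_coeff] at h1
  have h2 := PowerSeries.X_pow_dvd_iff.mp (h1 i) m (Nat.lt_succ_self m)
  rw [h2, coeff_zero, map_zero]

end kernel

open Polynomial in
/-- Polynomials vanishing on the curve are divisible by the cubic. -/
theorem Phi_kernel (hN : 0 < N) {α β δ : PowerSeries k} (hα : PowerSeries.constantCoeff α = 0)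
    (hβ : PowerSeries.constantCoeff β = -1) (hδ : PowerSeries.constantCoeff δ = -1)
    (hrel : iota α * x3 k N 0 ^ 3 + iota β * x3 k N 1 ^ 3 + iota δ * x3 k N 2 ^ 3 +
      x3 k N 0 * x3 k N 1 * x3 k N 2 = 0) {D : ℕ} {g : MvPolynomial (Fin 2) (PowerSeries k)}
    (hg : g.totalDegree ≤ D) (h : Phi N D g = 0) : Gp α β δ ∣ g := by
  -- the affine coordinates
  have hu1 : IsUnit (x3 k N 1) := isUnit_of_T (c := 1) one_ne_zero 1 (by
    rw [x3_const_one hN, map_one, one_mul])
  obtain ⟨v1, hv1⟩ := hu1.exists_right_inv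
  have hv0 : PowerSeries.constantCoeff v1 = LaurentPolynomial.T (-1) := by
    have h1 := congrArg PowerSeries.constantCoeff hv1
    rw [map_mul, map_one, x3_const_one hN] at h1
    have h2 : (LaurentPolynomial.T (-1) : LaurentPolynomial k) * LaurentPolynomial.T 1 = 1 := by
      rw [← LaurentPolynomial.T_add]; norm_num
    calc PowerSeries.constantCoeff v1 = (LaurentPolynomial.T (-1) * LaurentPolynomial.T 1) *
          PowerSeries.constantCoeff v1 := by rw [h2, one_mul]
      _ = LaurentPolynomial.T (-1) := by rw [mul_assoc, h1, mul_one]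
  set xx : Lam k := x3 k N 0 * v1 with hxx
  set yy : Lam k := x3 k N 2 * v1 with hyy
  have hx : PowerSeries.constantCoeff xx = LaurentPolynomial.T (-1) + LaurentPolynomial.T 2 := by
    rw [hxx, map_mul, x3_const_zero hN, hv0, add_mul, one_mul, ← LaurentPolynomial.T_add]
    norm_num
  have hy : PowerSeries.constantCoeff yy = LaurentPolynomial.T 1 := by
    rw [hyy, map_mul, x3_const_two hN, hv0, ← LaurentPolynomial.T_add]
    norm_num
  set Ψ : MvPolynomial (Fin 2) (PowerSeries k) →+* Lam k :=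
    MvPolynomial.eval₂Hom iota ![xx, yy] with hΨ
  have hPhi : Phi N D g = x3 k N 1 ^ D * Ψ g := by
    rw [Phi, hΨ, MvPolynomial.coe_eval₂Hom, MvPolynomial.eval₂_eq', Finset.mul_sum]
    refine Finset.sum_congr rfl fun s hs => ?_
    have h1 := curve_deg_le hg hs
    obtain ⟨e, he⟩ := Nat.exists_eq_add_of_le h1
    have h2 : D - s 0 - s 1 = e := by omega
    rw [h2, he, Fin.prod_univ_two]
    change _ = x3 k N 1 ^ (s 0 + s 1 + e) * (iota (g.coeff s) * (xx ^ s 0 * yy ^ s 1))
    have h3 : x3 k N 1 ^ (s 0 + s 1 + e) * (iota (g.coeff s) * (xx ^ s 0 * yy ^ s 1)) =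
        iota (g.coeff s) * x3 k N 0 ^ s 0 * x3 k N 2 ^ s 1 * x3 k N 1 ^ e *
          ((x3 k N 1 * v1) ^ s 0 * (x3 k N 1 * v1) ^ s 1) := by
      rw [hxx, hyy]
      ring
    rw [h3, hv1, one_pow, one_pow, mul_one, mul_one]
  have hΨg : Ψ g = 0 := by
    rw [hPhi] at h
    exact (hu1.pow D).mul_right_eq_zero.mp h
  -- passage to one variable at a time
  set φ : MvPolynomial (Fin 2) (PowerSeries k) →+* (PowerSeries k)[X][X] :=
    MvPolynomial.eval₂Hom (C.comp C) ![C X, X] with hφ
  set ψ : (PowerSeries k)[X][X] →+* MvPolynomial (Fin 2) (PowerSeries k) :=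
    eval₂RingHom (eval₂RingHom MvPolynomial.C (MvPolynomial.X 0)) (MvPolynomial.X 1) with hψ
  have hψφ : ∀ p, ψ (φ p) = p := by
    intro p
    have h1 : ψ.comp φ = RingHom.id _ := by
      refine MvPolynomial.ringHom_ext (fun a => ?_) (fun i => ?_)
      · rw [RingHom.comp_apply, hφ, MvPolynomial.eval₂Hom_C, hψ, RingHom.comp_apply,
          coe_eval₂RingHom, eval₂_C, coe_eval₂RingHom, eval₂_C, RingHom.id_apply]
      · rw [RingHom.comp_apply, hφ, MvPolynomial.eval₂Hom_X', RingHom.id_apply, hψ]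
        fin_cases i
        · change eval₂ _ _ (C X) = _
          rw [eval₂_C, coe_eval₂RingHom, eval₂_X]
          rfl
        · change eval₂ _ _ X = _
          rw [eval₂_X]
          rfl
    exact congrArg (fun f => f p) h1
  set E : (PowerSeries k)[X] →+* Lam k := eval₂RingHom iota xx with hE
  set Ψ' : (PowerSeries k)[X][X] →+* Lam k := eval₂RingHom E yy with hΨ'
  have hcomp : ∀ p, Ψ' (φ p) = Ψ p := by
    intro p
    have h1 : Ψ'.comp φ = Ψ := by
      refine MvPolynomial.ringHom_ext (fun a => ?_) (fun i => ?_)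
      · rw [RingHom.comp_apply, hφ, MvPolynomial.eval₂Hom_C, hΨ', RingHom.comp_apply,
          coe_eval₂RingHom, eval₂_C, hE, coe_eval₂RingHom, eval₂_C, hΨ, MvPolynomial.eval₂Hom_C]
      · rw [RingHom.comp_apply, hφ, MvPolynomial.eval₂Hom_X', hΨ, MvPolynomial.eval₂Hom_X', hΨ']
        fin_cases i
        · change eval₂ _ _ (C X) = xx
          rw [eval₂_C, hE, coe_eval₂RingHom, eval₂_X]
        · change eval₂ _ _ X = yy
          rw [eval₂_X]
    exact congrArg (fun f => f p) h1
  -- the monic cubic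
  have hδu : IsUnit δ := by
    rw [PowerSeries.isUnit_iff_constantCoeff, hδ]
    exact isUnit_one.neg
  obtain ⟨d, hd⟩ := hδu.exists_right_inv
  set G1 : (PowerSeries k)[X][X] := X ^ 3 + (C (C d * X) * X + C (C (d * α) * X ^ 3 + C (d * β)))
    with hG1
  have hdeg : (C (C d * X) * X + C (C (d * α) * X ^ 3 + C (d * β)) :
      (PowerSeries k)[X][X]).degree < 3 := by
    compute_degree!
  have hmon : G1.Monic := monic_X_pow_add hdeg
  have hnat : G1.natDegree = 3 := by
    rw [hG1]
    compute_degree!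
  have hGp : φ (Gp α β δ) = C (C δ) * G1 := by
    have e1 : φ (Gp α β δ) = C (C α) * C X ^ 3 + C (C δ) * X ^ 3 + C X * X + C (C β) := by
      rw [Gp, map_add, map_add, map_add, map_mul, map_mul, map_mul, map_pow, map_pow, hφ,
        MvPolynomial.eval₂Hom_C, MvPolynomial.eval₂Hom_C, MvPolynomial.eval₂Hom_C,
        MvPolynomial.eval₂Hom_X', MvPolynomial.eval₂Hom_X']
      rfl
    have e2 : (C (C δ) * C (C d) : (PowerSeries k)[X][X]) = 1 := by
      rw [← map_mul, ← map_mul, hd, map_one, map_one]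
    have e3 : G1 = X ^ 3 + (C (C d) * C X * X + (C (C d) * C (C α) * C X ^ 3 +
        C (C d) * C (C β))) := by
      rw [hG1]
      simp only [map_mul, map_add, map_pow]
    rw [e1, e3]
    calc (C (C α) * C X ^ 3 + C (C δ) * X ^ 3 + C X * X + C (C β) : (PowerSeries k)[X][X]) =
          C (C δ) * X ^ 3 + 1 * (C X * X + C (C α) * C X ^ 3 + C (C β)) := by ring
      _ = C (C δ) * X ^ 3 + (C (C δ) * C (C d)) * (C X * X + C (C α) * C X ^ 3 + C (C β)) := by
          rw [e2]
      _ = _ := by ring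
  have hΨGp : Ψ (Gp α β δ) = 0 := by
    have e1 : Ψ (Gp α β δ) = iota α * xx ^ 3 + iota δ * yy ^ 3 + xx * yy + iota β := by
      rw [Gp, map_add, map_add, map_add, map_mul, map_mul, map_mul, map_pow, map_pow, hΨ,
        MvPolynomial.eval₂Hom_C, MvPolynomial.eval₂Hom_C, MvPolynomial.eval₂Hom_C,
        MvPolynomial.eval₂Hom_X', MvPolynomial.eval₂Hom_X']
      rfl
    have e2 : iota α * xx ^ 3 + iota δ * yy ^ 3 + xx * yy + iota β =
        v1 ^ 3 * (iota α * x3 k N 0 ^ 3 + iota β * x3 k N 1 ^ 3 + iota δ * x3 k N 2 ^ 3 +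
          x3 k N 0 * x3 k N 1 * x3 k N 2) - (iota β * ((x3 k N 1 * v1) ^ 3 - 1) +
          x3 k N 0 * x3 k N 2 * v1 ^ 2 * (x3 k N 1 * v1 - 1)) := by
      rw [hxx, hyy]
      ring
    rw [e1, e2, hrel, hv1]
    ring
  have hΨG1 : Ψ' G1 = 0 := by
    have h1 : Ψ' (C (C δ)) * Ψ' G1 = 0 := by
      rw [← map_mul, ← hGp, hcomp, hΨGp]
    have h2 : IsUnit (Ψ' (C (C δ))) := by
      have h3 : IsUnit (C (C δ) : (PowerSeries k)[X][X]) := (hδu.map C).map C
      exact h3.map Ψ'
    exact h2.mul_right_eq_zero.mp h1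
  -- division
  set r := φ g %ₘ G1 with hr
  have hdiv : φ g = r + G1 * (φ g /ₘ G1) := (modByMonic_add_div (φ g) G1).symm
  have hrdeg : r.natDegree < 3 := by
    rw [← hnat]
    refine natDegree_modByMonic_lt _ hmon ?_
    intro h1
    rw [h1, natDegree_one] at hnat
    omega
  have hrsum : r = C (r.coeff 0) + C (r.coeff 1) * X + C (r.coeff 2) * X ^ 2 := by
    conv_lhs => rw [as_sum_range' r 3 hrdeg]
    rw [Finset.sum_range_succ, Finset.sum_range_succ, Finset.sum_range_succ,
      Finset.sum_range_zero, zero_add, ← C_mul_X_pow_eq_monomial, ← C_mul_X_pow_eq_monomial,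
      ← C_mul_X_pow_eq_monomial, pow_zero, pow_one, mul_one]
  have hr0 : Ψ' r = 0 := by
    have h1 := hcomp g
    rw [hdiv, map_add, map_mul, hΨG1, zero_mul, add_zero, hΨg] at h1
    exact h1
  have hr1 : E (r.coeff 0) + E (r.coeff 1) * yy + E (r.coeff 2) * yy ^ 2 = 0 := by
    have hC : ∀ p, Ψ' (C p) = E p := by
      intro p
      rw [hΨ', coe_eval₂RingHom, eval₂_C]
    have hX : Ψ' X = yy := by
      rw [hΨ', coe_eval₂RingHom, eval₂_X]
    rw [hrsum, map_add, map_add, map_mul, map_mul, map_pow, hC, hC, hC, hX] at hr0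
    exact hr0
  have z0 : r.coeff 0 = 0 := curve_eq_zero_of_dvd fun n => (curve_X_dvd hx hy n _ _ _ hr1).1
  have z1 : r.coeff 1 = 0 := curve_eq_zero_of_dvd fun n => (curve_X_dvd hx hy n _ _ _ hr1).2.1
  have z2 : r.coeff 2 = 0 := curve_eq_zero_of_dvd fun n => (curve_X_dvd hx hy n _ _ _ hr1).2.2
  have hrz : r = 0 := by
    rw [hrsum, z0, z1, z2]
    simp
  rw [hrz, zero_add] at hdiv
  refine ⟨ψ (C (C d) * (φ g /ₘ G1)), ?_⟩
  have h1 : φ g = φ (Gp α β δ) * (C (C d) * (φ g /ₘ G1)) := by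
    have e2 : (C (C δ) * C (C d) : (PowerSeries k)[X][X]) = 1 := by
      rw [← map_mul, ← map_mul, hd, map_one, map_one]
    rw [hGp]
    calc φ g = G1 * (φ g /ₘ G1) := hdiv
      _ = (C (C δ) * C (C d)) * (G1 * (φ g /ₘ G1)) := by rw [e2, one_mul]
      _ = _ := by ring
  calc g = ψ (φ g) := (hψφ g).symm
    _ = ψ (φ (Gp α β δ) * (C (C d) * (φ g /ₘ G1))) := by rw [← h1]
    _ = _ := by rw [map_mul, hψφ]

end ShghT
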