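import Pool.Agent.ShghT.Defs

/-!
# Dimension of linear systems
-/

namespace ShghT

open MvPolynomial

/-- Polynomials of degree `≤ δ` with multiplicities `≥ μ i` at the points `P i`. -/
def LS {K : Type*} [Field K] {s : ℕ} (δ : ℕ) (μ : Fin s → ℕ) (P : Fin s → Fin 2 → K) :
    Submodule K (MvPolynomial (Fin 2) K) where
  carrier := {f | f.totalDegree ≤ δ ∧ ∀ i, f ∈ pt (P i 0) (P i 1) ^ μ i}
  add_mem' := fun {a b} ha hb =>
    ⟨(totalDegree_add a b).trans (max_le ha.1 hb.1), fun i => Ideal.add_mem _ (ha.2 i) (hb.2 i)⟩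
  zero_mem' := ⟨by simp, fun i => Ideal.zero_mem _⟩
  smul_mem' := fun c f hf =>
    ⟨(totalDegree_smul_le c f).trans hf.1, fun i => by
      rw [smul_eq_C_mul]
      exact Ideal.mul_mem_left _ _ (hf.2 i)⟩

variable {K : Type*} [Field K] {s : ℕ}

theorem mem_LS {δ : ℕ} {μ : Fin s → ℕ} {P : Fin s → Fin 2 → K} {f : MvPolynomial (Fin 2) K} :
    f ∈ LS δ μ P ↔ f.totalDegree ≤ δ ∧ ∀ i, f ∈ pt (P i 0) (P i 1) ^ μ i := Iff.rfl

section semiaux

/-- The translation `X 0 ↦ X 0 + a`, `X 1 ↦ X 1 + b`. -/
private noncomputable def semiShift (a b : K) :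
    MvPolynomial (Fin 2) K →ₐ[K] MvPolynomial (Fin 2) K := aeval ![X 0 + C a, X 1 + C b]

private theorem semiShift_X0 (a b : K) : semiShift a b (X 0) = X 0 + C a := by
  simp [semiShift]

private theorem semiShift_X1 (a b : K) : semiShift a b (X 1) = X 1 + C b := by
  simp [semiShift]

private theorem semiShift_C (a b c : K) : semiShift a b (C c) = C c := by
  simp [semiShift]

private theorem semiShift_neg (a b : K) (f : MvPolynomial (Fin 2) K) :
    semiShift (-a) (-b) (semiShift a b f) = f := by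
  have h : (semiShift (-a) (-b)).comp (semiShift a b) = AlgHom.id K _ := by
    apply MvPolynomial.algHom_ext
    intro i
    fin_cases i
    · change semiShift (-a) (-b) (semiShift a b (X 0)) = X 0
      rw [semiShift_X0, map_add, semiShift_X0, semiShift_C, C_neg]
      ring
    · change semiShift (-a) (-b) (semiShift a b (X 1)) = X 1
      rw [semiShift_X1, map_add, semiShift_X1, semiShift_C, C_neg]
      ring
  exact DFunLike.congr_fun h f

private theorem semi_mem_iff (a b : K) (m : ℕ) (f : MvPolynomial (Fin 2) K) :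
    f ∈ (pt a b) ^ m ↔
      ∀ x : Fin 2 →₀ ℕ, x.degree < m → (semiShift a b f).coeff x = 0 := by
  rw [pt, ← mem_pow_idealOfVars_iff']
  constructor
  · intro h
    have h1 := Ideal.mem_map_of_mem (semiShift a b) h
    rw [Ideal.map_pow] at h1
    refine Ideal.pow_right_mono ?_ m h1
    rw [Ideal.map_span, Ideal.span_le]
    rintro _ ⟨g, hg, rfl⟩
    rcases hg with rfl | rfl
    · rw [map_sub, semiShift_X0, semiShift_C, add_sub_cancel_right]
      exact Ideal.subset_span ⟨0, rfl⟩
    · rw [map_sub, semiShift_X1, semiShift_C, add_sub_cancel_right]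
      exact Ideal.subset_span ⟨1, rfl⟩
  · intro h
    have h1 := Ideal.mem_map_of_mem (semiShift (-a) (-b)) h
    rw [Ideal.map_pow, semiShift_neg] at h1
    refine Ideal.pow_right_mono ?_ m h1
    rw [Ideal.map_span, Ideal.span_le]
    rintro _ ⟨g, ⟨i, rfl⟩, rfl⟩
    fin_cases i
    · change semiShift (-a) (-b) (X 0) ∈ _
      rw [semiShift_X0, C_neg, ← sub_eq_add_neg]
      exact Ideal.subset_span (Or.inl rfl)
    · change semiShift (-a) (-b) (X 1) ∈ _
      rw [semiShift_X1, C_neg, ← sub_eq_add_neg]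
      exact Ideal.subset_span (Or.inr rfl)

/-- The exponents of degree `≤ δ`. -/
private noncomputable def semiS (δ : ℕ) : Finset (Fin 2 →₀ ℕ) :=
  (Finsupp.finite_of_degree_le (σ := Fin 2) δ).toFinset

/-- The exponents of degree `< m`. -/
private noncomputable def semiT (m : ℕ) : Finset (Fin 2 →₀ ℕ) :=
  (Finsupp.finite_of_degree_lt (σ := Fin 2) m).toFinset

private theorem mem_semiS {δ : ℕ} {e : Fin 2 →₀ ℕ} : e ∈ semiS δ ↔ e.degree ≤ δ := by
  simp [semiS]

private theorem mem_semiT {m : ℕ} {e : Fin 2 →₀ ℕ} : e ∈ semiT m ↔ e.degree < m := by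
  simp [semiT]

private theorem degree_fin_two (e : Fin 2 →₀ ℕ) : e.degree = e 0 + e 1 := by
  rw [Finsupp.degree_eq_sum, Fin.sum_univ_two]

private theorem card_semiT (m : ℕ) : (semiT m).card = (m + 1).choose 2 := by
  have h1 : (semiT m).card =
      ((Finset.range m).sigma fun n => Finset.HasAntidiagonal.antidiagonal n).card := by
    refine Finset.card_bij (fun x _ => ⟨x.degree, (x 0, x 1)⟩) ?_ ?_ ?_
    · intro x hx
      rw [Finset.mem_sigma, Finset.mem_range, Finset.HasAntidiagonal.mem_antidiagonal]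
      exact ⟨mem_semiT.1 hx, (degree_fin_two x).symm⟩
    · intro x _ y _ hxy
      have h2 : (x 0, x 1) = (y 0, y 1) := by
        have := congrArg (fun z : (_ : ℕ) × (ℕ × ℕ) => z.2) hxy
        simpa using this
      ext i
      fin_cases i
      · exact congrArg Prod.fst h2
      · exact congrArg Prod.snd h2
    · rintro ⟨n, a, b⟩ h
      rw [Finset.mem_sigma, Finset.mem_range, Finset.HasAntidiagonal.mem_antidiagonal] at h
      simp only at h
      have h3 : (Finsupp.equivFunOnFinite.symm ![a, b] : Fin 2 →₀ ℕ).degree = n := by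
        rw [degree_fin_two]
        simpa using h.2
      refine ⟨Finsupp.equivFunOnFinite.symm ![a, b], mem_semiT.2 ?_, ?_⟩
      · rw [h3]; exact h.1
      · rw [h3]
        simp
  rw [h1, Finset.card_sigma]
  simp only [Finset.Nat.card_antidiagonal]
  clear h1
  induction m with
  | zero => rfl
  | succ m ih =>
    rw [Finset.sum_range_succ, ih, Nat.choose_succ_succ' (m + 1) 1, Nat.choose_one_right]
    ring

private theorem card_semiS (δ : ℕ) : (semiS δ).card = (δ + 2).choose 2 := by
  have h : semiS δ = semiT (δ + 1) := by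
    ext e
    rw [mem_semiS, mem_semiT, Nat.lt_succ_iff]
  rw [h, card_semiT]

private theorem semi_totalDegree_le {f : MvPolynomial (Fin 2) K} {δ : ℕ} :
    f.totalDegree ≤ δ ↔ ∀ e ∈ f.support, e.degree ≤ δ := by
  rw [totalDegree, Finset.sup_le_iff]
  rfl

/-- The polynomial with prescribed coefficients. -/
private noncomputable def semiPoly (δ : ℕ) : (semiS δ → K) →ₗ[K] MvPolynomial (Fin 2) K where
  toFun c := ∑ e : semiS δ, monomial (e : Fin 2 →₀ ℕ) (c e)
  map_add' := fun c d => by
    rw [← Finset.sum_add_distrib]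
    exact Finset.sum_congr rfl fun e _ => by rw [Pi.add_apply, map_add]
  map_smul' := fun r c => by
    rw [RingHom.id_apply, Finset.smul_sum]
    exact Finset.sum_congr rfl fun e _ => by rw [Pi.smul_apply, smul_monomial]

private theorem semiPoly_coeff {δ : ℕ} (c : semiS δ → K) (e : semiS δ) :
    (semiPoly δ c).coeff e = c e := by
  classical
  change (∑ e : semiS δ, monomial (e : Fin 2 →₀ ℕ) (c e)).coeff e = c e
  rw [coeff_sum, Finset.sum_eq_single e]
  · rw [coeff_monomial, if_pos rfl]
  · intro e' _ he'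
    rw [coeff_monomial, if_neg fun h => he' (Subtype.ext h)]
  · intro h
    exact absurd (Finset.mem_univ _) h

private theorem semiPoly_injective (δ : ℕ) : Function.Injective (semiPoly (K := K) δ) := by
  intro c d h
  ext e
  rw [← semiPoly_coeff c e, h, semiPoly_coeff]

private theorem semiPoly_degree {δ : ℕ} (c : semiS δ → K) : (semiPoly δ c).totalDegree ≤ δ := by
  classical
  rw [semi_totalDegree_le]
  intro e he
  by_contra hcon
  change e ∈ (∑ e : semiS δ, monomial (e : Fin 2 →₀ ℕ) (c e)).support at he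
  rw [mem_support_iff, coeff_sum] at he
  apply he
  refine Finset.sum_eq_zero fun e' _ => ?_
  rw [coeff_monomial, if_neg]
  rintro rfl
  exact hcon (mem_semiS.1 e'.2)

private theorem semiPoly_surj {f : MvPolynomial (Fin 2) K} {δ : ℕ}
    (h : f.totalDegree ≤ δ) : semiPoly δ (fun e => f.coeff e) = f := by
  change ∑ e : semiS δ, monomial (e : Fin 2 →₀ ℕ) (f.coeff e) = f
  rw [Finset.sum_coe_sort (semiS δ) (fun e => monomial e (f.coeff e))]
  conv_rhs => rw [f.as_sum]
  symm
  refine Finset.sum_subset (fun e he => mem_semiS.2 (semi_totalDegree_le.1 h e he)) fun e _ he => ?_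
  rw [notMem_support_iff.1 he, monomial_zero]

/-- The rows of the linear system. -/
private abbrev semiRow {s : ℕ} (μ : Fin s → ℕ) : Type := Σ i : Fin s, (semiT (μ i))

/-- The linear map whose kernel is the linear system. -/
private noncomputable def semiMap (δ : ℕ) (μ : Fin s → ℕ) (P : Fin s → Fin 2 → K) :
    (semiS δ → K) →ₗ[K] (semiRow μ → K) :=
  LinearMap.pi fun r => (lcoeff K (r.2 : Fin 2 →₀ ℕ)).comp
    ((semiShift (P r.1 0) (P r.1 1)).toLinearMap.comp (semiPoly δ))

private theorem semi_ker (δ : ℕ) (μ : Fin s → ℕ) (P : Fin s → Fin 2 → K) (c : semiS δ → K) :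
    c ∈ LinearMap.ker (semiMap δ μ P) ↔ semiPoly δ c ∈ LS δ μ P := by
  rw [LinearMap.mem_ker, mem_LS]
  constructor
  · intro h
    refine ⟨semiPoly_degree c, fun i => (semi_mem_iff _ _ _ _).2 fun x hx => ?_⟩
    exact congrFun h ⟨i, ⟨x, mem_semiT.2 hx⟩⟩
  · rintro ⟨-, h⟩
    ext ⟨i, x, hx⟩
    exact (semi_mem_iff _ _ _ _).1 (h i) x (mem_semiT.1 hx)

private theorem semi_map_ker (δ : ℕ) (μ : Fin s → ℕ) (P : Fin s → Fin 2 → K) :
    (LinearMap.ker (semiMap δ μ P)).map (semiPoly δ) = LS δ μ P := by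
  ext f
  rw [Submodule.mem_map]
  constructor
  · rintro ⟨c, hc, rfl⟩
    exact (semi_ker δ μ P c).1 hc
  · intro hf
    refine ⟨fun e => f.coeff e, ?_, semiPoly_surj hf.1⟩
    rw [semi_ker, semiPoly_surj hf.1]
    exact hf

end semiaux

instance finite_LS (δ : ℕ) (μ : Fin s → ℕ) (P : Fin s → Fin 2 → K) :
    Module.Finite K (LS δ μ P) := by
  rw [← semi_map_ker δ μ P]
  infer_instance

/-- The expected dimension is a lower bound. -/
theorem le_finrank_LS (δ : ℕ) (μ : Fin s → ℕ) (P : Fin s → Fin 2 → K) :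
    (δ + 2).choose 2 ≤ Module.finrank K (LS δ μ P) + ∑ i, (μ i + 1).choose 2 := by
  classical
  have h1 := LinearMap.finrank_range_add_finrank_ker (semiMap δ μ P)
  rw [Module.finrank_fintype_fun_eq_card, Fintype.card_coe, card_semiS] at h1
  have h2 : Module.finrank K (LinearMap.range (semiMap δ μ P)) ≤ ∑ i, (μ i + 1).choose 2 := by
    refine (Submodule.finrank_le _).trans ?_
    rw [Module.finrank_fintype_fun_eq_card, Fintype.card_sigma]
    refine (Finset.sum_congr rfl fun i _ => ?_).le
    rw [Fintype.card_coe, card_semiT]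
  have h3 : Module.finrank K (LS δ μ P) = Module.finrank K (LinearMap.ker (semiMap δ μ P)) := by
    rw [← semi_map_ker δ μ P]
    exact (Submodule.equivMapOfInjective _ (semiPoly_injective δ) _).finrank_eq.symm
  omega

end ShghT
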