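import Pool.Agent.ShghT.CoreA
import Pool.Agent.ShghT.Semi

/-!
# Restriction to the cubic
-/

namespace ShghT

variable {k : Type*} [Field k]

/-- Coefficients of the product with a constant. -/
private theorem EStep_cf_iota_mul (b : PowerSeries k) (f : Lam k) (n : ℕ) (j : ℤ) :
    cf (iota b * f) n j =
      PowerSeries.coeff n (b * PowerSeries.mk fun m => cf f m j) := by
  rw [cf_nat, PowerSeries.coeff_mul, PowerSeries.coeff_mul]
  have h : ∀ p : ℕ × ℕ, PowerSeries.coeff p.1 (iota b) * PowerSeries.coeff p.2 f =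
      PowerSeries.coeff p.1 b • PowerSeries.coeff p.2 f := by
    intro p
    rw [iota, PowerSeries.coeff_map, ← LaurentPolynomial.smul_eq_C_mul]
  simp only [h]
  have h2 : ∀ (s : Finset (ℕ × ℕ)) (F : ℕ × ℕ → LaurentPolynomial k),
      (∑ p ∈ s, F p).coeff j = ∑ p ∈ s, (F p).coeff j := by
    classical
    intro s F
    induction s using Finset.induction_on with
    | empty => simp
    | insert a s ha ih =>
      rw [Finset.sum_insert ha, Finset.sum_insert ha, AddMonoidAlgebra.coeff_add,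
        Finsupp.add_apply, ih]
  rw [h2]
  refine Finset.sum_congr rfl fun p _ => ?_
  rw [AddMonoidAlgebra.coeff_smul, Finsupp.smul_apply, PowerSeries.coeff_mk, cf_nat, smul_eq_mul]

private theorem EStep_Phi_subset (N D : ℕ) (g : MvPolynomial (Fin 2) (PowerSeries k))
    (S : Finset (Fin 2 →₀ ℕ)) (hS : g.support ⊆ S) :
    Phi N D g = ∑ s ∈ S, iota (g.coeff s) * x3 k N 0 ^ (s 0) * x3 k N 2 ^ (s 1) *
      x3 k N 1 ^ (D - s 0 - s 1) := by
  rw [Phi]
  refine Finset.sum_subset hS fun s _ hs => ?_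
  rw [MvPolynomial.notMem_support_iff.1 hs, map_zero, zero_mul, zero_mul, zero_mul]

private theorem EStep_Phi_sum (N D e : ℕ) (c : Fin e → PowerSeries k)
    (g : Fin e → MvPolynomial (Fin 2) (PowerSeries k)) :
    Phi N D (∑ i, MvPolynomial.C (c i) * g i) = ∑ i, iota (c i) * Phi N D (g i) := by
  classical
  let S : Finset (Fin 2 →₀ ℕ) := Finset.univ.biUnion fun i => (g i).support
  have h1 : (∑ i, MvPolynomial.C (c i) * g i).support ⊆ S := by
    intro s hs
    rw [MvPolynomial.mem_support_iff, MvPolynomial.coeff_sum] at hs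
    by_contra hcon
    refine hs (Finset.sum_eq_zero fun i _ => ?_)
    have h2 : s ∉ (g i).support := fun h =>
      hcon (Finset.mem_biUnion.2 ⟨i, Finset.mem_univ _, h⟩)
    rw [MvPolynomial.coeff_C_mul, MvPolynomial.notMem_support_iff.1 h2, mul_zero]
  rw [EStep_Phi_subset N D _ S h1]
  have h3 : ∀ i, Phi N D (g i) = _ := fun i => EStep_Phi_subset N D (g i) S
    (fun s hs => Finset.mem_biUnion.2 ⟨i, Finset.mem_univ _, hs⟩)
  simp only [h3, Finset.mul_sum]
  rw [Finset.sum_comm]
  refine Finset.sum_congr rfl fun s _ => ?_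
  rw [MvPolynomial.coeff_sum, map_sum, Finset.sum_mul, Finset.sum_mul, Finset.sum_mul]
  refine Finset.sum_congr rfl fun i _ => ?_
  rw [MvPolynomial.coeff_C_mul, map_mul]
  ring

private theorem EStep_dep {R : Type*} [CommRing R] [IsDomain R] (e : ℕ)
    (v : Fin (e + 1) → ℕ → R) :
    ∃ c : Fin (e + 1) → R, c ≠ 0 ∧ ∀ ρ < e, ∑ i, c i * v i ρ = 0 := by
  classical
  let M : Matrix (Fin (e + 1)) (Fin (e + 1)) R := fun r i => if (r : ℕ) < e then v i r else 0
  have hdet : M.det = 0 := Matrix.det_eq_zero_of_row_eq_zero (Fin.last e) fun i => by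
    simp [M]
  obtain ⟨c, hc, hMc⟩ := Matrix.exists_mulVec_eq_zero_iff.2 hdet
  refine ⟨c, hc, fun ρ hρ => ?_⟩
  have h := congrFun hMc ⟨ρ, by omega⟩
  simp only [Matrix.mulVec, dotProduct, M, hρ, if_true, Pi.zero_apply] at h
  rw [← h]
  exact Finset.sum_congr rfl fun i _ => mul_comm _ _

theorem estep {N : ℕ} (hN : 0 < N) {α β δ : PowerSeries k}
    (hα : PowerSeries.constantCoeff α = 0) (hβ : PowerSeries.constantCoeff β = -1)
    (hδ : PowerSeries.constantCoeff δ = -1)
    (hrel : iota α * x3 k N 0 ^ 3 + iota β * x3 k N 1 ^ 3 +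
      iota δ * x3 k N 2 ^ 3 + x3 k N 0 * x3 k N 1 * x3 k N 2 = 0)
    (a : Fin 9 → kˣ) (ha : Function.Injective a) (n : ℕ) (μ : Fin 9 → ℕ) (e : ℕ) (he : 0 < e)
    (hd : 3 * n = e + ∑ l, μ l) (f : Fin (e + 1) → MvPolynomial (Fin 2) (KK k))
    (hf : ∀ i, f i ∈ LS n μ (fun l => bp (TB N (a l)))) :
    ∃ c : Fin (e + 1) → KK k, c ≠ 0 ∧
      Gp (algebraMap (PowerSeries k) (KK k) α) (algebraMap (PowerSeries k) (KK k) β)
        (algebraMap (PowerSeries k) (KK k) δ) ∣ ∑ i, MvPolynomial.C (c i) * f i := by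
  classical
  have hinj := IsFractionRing.injective (PowerSeries k) (KK k)
  obtain ⟨c, hc0, g', hg'⟩ := exists_scale (S := PowerSeries k) (K := KK k) e
    (fun j => if h : j < e + 1 then f ⟨j, h⟩ else 0)
  set c' := algebraMap (PowerSeries k) (KK k) c with hc'
  have hc'0 : c' ≠ 0 := by rwa [hc', Ne, map_eq_zero_iff _ hinj]
  have hmap : ∀ i : Fin (e + 1), MvPolynomial.map (algebraMap (PowerSeries k) (KK k)) (g' i) =
      MvPolynomial.C c' * f i := by
    intro i
    have h := hg' i (Nat.lt_succ_iff.1 i.2)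
    rw [dif_pos i.2] at h
    exact h
  have hdeg : ∀ i : Fin (e + 1), (g' i).totalDegree ≤ n := fun i =>
    (totalDegree_of_map c' (f i) (hmap i)).trans (hf i).1
  have hH : ∀ i : Fin (e + 1), ∃ H : Bann k N,
      IsTh N e ((∏ l, (-(a l : k)) ^ μ l) * ∏ l : Fin 9, (-((a l)⁻¹ : kˣ) : k) ^ 0) (H : Lam k) ∧
      PhiB N n (g' i) * ∏ l : Fin 9, thB N (a l) ^ 0 = H * ∏ l, thB N (a l) ^ μ l := by
    intro i
    exact exists_H hN e a ha μ (fun _ => 0) n (g' i) (hdeg i)
      (fun l => base_order hN (a l) (μ l) n (g' i) (hdeg i) c' (f i) (hmap i) ((hf i).2 l))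
      (by omega) (by simpa using hd)
  choose H hHth hHrel using hH
  have hγ : ((∏ l, (-(a l : k)) ^ μ l) * ∏ l : Fin 9, (-((a l)⁻¹ : kˣ) : k) ^ 0) ≠ 0 := by
    refine mul_ne_zero ?_ (by simp)
    exact Finset.prod_ne_zero_iff.2 fun l _ => pow_ne_zero _ (neg_ne_zero.2 (a l).ne_zero)
  obtain ⟨c₁, hc₁, hdep⟩ := EStep_dep e
    (fun i ρ => PowerSeries.mk fun m => cf (H i : Lam k) m ρ)
  have hS : ∑ i, iota (c₁ i) * (H i : Lam k) = 0 := by
    refine IsTh.eq_zero he hγ (IsTh.sum _ _ fun i _ => (hHth i).iota_mul (c₁ i)) ?_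
    intro ρ hρ m
    rcases lt_or_ge m 0 with hm | hm
    · exact cf_neg _ hm _
    · obtain ⟨m, rfl⟩ := Int.eq_ofNat_of_zero_le hm
      rw [cf_sum]
      simp only [EStep_cf_iota_mul]
      rw [← map_sum, hdep ρ hρ, map_zero]
  have hPhi : Phi N n (∑ i, MvPolynomial.C (c₁ i) * g' i) = 0 := by
    have h1 : ∀ i : Fin (e + 1),
        Phi N n (g' i) = (H i : Lam k) * ∏ l, th N (a l) ^ μ l := by
      intro i
      have h8 := congrArg (fun x : Bann k N => (x : Lam k)) (hHrel i)
      simp only [Subring.coe_mul, SubmonoidClass.coe_finsetProd, SubmonoidClass.coe_pow,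
        pow_zero, Finset.prod_const_one, mul_one] at h8
      exact h8
    rw [EStep_Phi_sum]
    simp only [h1]
    simp only [← mul_assoc]
    rw [← Finset.sum_mul, hS, zero_mul]
  have hGdeg : (∑ i, MvPolynomial.C (c₁ i) * g' i).totalDegree ≤ n := by
    refine (MvPolynomial.totalDegree_finsetSum _ _).trans (Finset.sup_le fun i _ => ?_)
    refine (MvPolynomial.totalDegree_mul _ _).trans ?_
    rw [MvPolynomial.totalDegree_C, zero_add]
    exact hdeg i
  have hdvd := Phi_kernel hN hα hβ hδ hrel hGdeg hPhi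
  refine ⟨fun i => algebraMap (PowerSeries k) (KK k) (c₁ i), ?_, ?_⟩
  · intro h
    refine hc₁ (funext fun i => ?_)
    have := congrFun h i
    simpa using (map_eq_zero_iff _ hinj).1 this
  · refine map_dvd α β δ c' hc'0 _ ?_ hdvd
    rw [map_sum, Finset.mul_sum]
    refine Finset.sum_congr rfl fun i _ => ?_
    rw [map_mul, hmap, MvPolynomial.map_C]
    ring

theorem finrank_estep {N : ℕ} (hN : 0 < N) {α β δ : PowerSeries k}
    (hα : PowerSeries.constantCoeff α = 0) (hβ : PowerSeries.constantCoeff β = -1)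
    (hδ : PowerSeries.constantCoeff δ = -1)
    (hrel : iota α * x3 k N 0 ^ 3 + iota β * x3 k N 1 ^ 3 +
      iota δ * x3 k N 2 ^ 3 + x3 k N 0 * x3 k N 1 * x3 k N 2 = 0)
    (a : Fin 9 → kˣ) (ha : Function.Injective a) (n : ℕ) (μ : Fin 9 → ℕ) (e : ℕ) (he : 0 < e)
    (hd : 3 * n = e + ∑ l, μ l) (hn : 3 ≤ n) :
    Module.finrank (KK k) (LS n μ (fun l => bp (TB N (a l)))) ≤
      e + Module.finrank (KK k) (LS (n - 3) (fun l => μ l - 1) (fun l => bp (TB N (a l)))) := by
  classical
  have hinj := IsFractionRing.injective (PowerSeries k) (KK k)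
  set α' := algebraMap (PowerSeries k) (KK k) α with hα'
  set β' := algebraMap (PowerSeries k) (KK k) β with hβ'
  set δ' := algebraMap (PowerSeries k) (KK k) δ with hδ'
  have hδ0 : δ' ≠ 0 := by
    rw [hδ', Ne, map_eq_zero_iff _ hinj]
    rintro rfl
    rw [map_zero] at hδ
    exact one_ne_zero (neg_eq_zero.1 hδ.symm)
  set V := LS n μ (fun l => bp (TB N (a l))) with hV
  set V' := LS (n - 3) (fun l => μ l - 1) (fun l => bp (TB N (a l))) with hV'
  let W : Submodule (KK k) (MvPolynomial (Fin 2) (KK k)) :=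
    V'.map (LinearMap.mulLeft (KK k) (Gp α' β' δ'))
  have hmem : ∀ f ∈ V, Gp α' β' δ' ∣ f → f ∈ W := by
    rintro f hf ⟨g, rfl⟩
    refine Submodule.mem_map.2 ⟨g, ?_, rfl⟩
    by_cases hg : g = 0
    · rw [hg]
      exact V'.zero_mem
    · refine ⟨?_, fun l => ?_⟩
      · have h1 := hf.1
        have h2 := totalDegree_Gp_pow_mul α' β' δ' hδ0 1 hg
        rw [pow_one] at h2
        omega
      · refine colon α' β' δ' _ _ (bp_curve (TB_iota N (a l)) (TB_x3_one N hN (a l)) hrel)
          (bp_smooth' (TB_iota N (a l)) (TB_x3_one N hN (a l)) α (TB_smooth hN (a l) hα)) 1 _ _ ?_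
        rw [pow_one]
        exact hf.2 l
  let φ : V →ₗ[KK k] (MvPolynomial (Fin 2) (KK k) ⧸ W) := W.mkQ.comp V.subtype
  have h1 := LinearMap.finrank_range_add_finrank_ker φ
  have hWfin : Module.Finite (KK k) W := Module.Finite.map _ _
  have h2 : Module.finrank (KK k) (LinearMap.ker φ) ≤ Module.finrank (KK k) V' := by
    refine le_trans ?_ (Submodule.finrank_map_le (LinearMap.mulLeft (KK k) (Gp α' β' δ')) V')
    have hmap : (LinearMap.ker φ).map V.subtype ≤ W := by
      rintro _ ⟨x, hx, rfl⟩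
      exact (Submodule.Quotient.mk_eq_zero W).1 hx
    calc Module.finrank (KK k) (LinearMap.ker φ)
        = Module.finrank (KK k) ((LinearMap.ker φ).map V.subtype) :=
          (Submodule.equivMapOfInjective _ V.injective_subtype _).finrank_eq
      _ ≤ Module.finrank (KK k) W := Submodule.finrank_mono hmap
  have h3 : Module.finrank (KK k) (LinearMap.range φ) ≤ e := by
    by_contra hcon
    have hle : e + 1 ≤ Module.finrank (KK k) (LinearMap.range φ) := by omega
    obtain ⟨F, hF⟩ := exists_linearIndependent_of_le_finrank hle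
    have hex : ∀ i, ∃ x : V, φ x = F i := fun i => (F i).2
    choose x hx using hex
    obtain ⟨c, hc, hdvd⟩ := estep hN hα hβ hδ hrel a ha n μ e he hd
      (fun i => (x i : MvPolynomial (Fin 2) (KK k))) (fun i => (x i).2)
    have hsum : (∑ i, MvPolynomial.C (c i) * (x i : MvPolynomial (Fin 2) (KK k))) =
        ((∑ i, c i • x i : V) : MvPolynomial (Fin 2) (KK k)) := by
      rw [AddSubmonoidClass.coe_finsetSum]
      exact Finset.sum_congr rfl fun i _ => by
        rw [Submodule.coe_smul, MvPolynomial.smul_eq_C_mul]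
    rw [hsum] at hdvd
    have hW := hmem _ (∑ i, c i • x i : V).2 hdvd
    have hφ : φ (∑ i, c i • x i) = 0 := (Submodule.Quotient.mk_eq_zero W).2 hW
    have hzero : ∑ i, c i • F i = 0 := by
      apply Subtype.ext
      rw [AddSubmonoidClass.coe_finsetSum, ZeroMemClass.coe_zero, ← hφ, map_sum]
      exact Finset.sum_congr rfl fun i _ => by rw [Submodule.coe_smul, ← hx, map_smul]
    exact hc (funext fun i => Fintype.linearIndependent_iff.1 hF c hzero i)
  omega

end ShghT
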