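import Pool.Agent.ShghT.Chain

/-!
# Folding a decreasing function modulo `e`
-/

namespace ShghT

private theorem fold_Ico (n : ℕ) (f : ℤ → ℕ) :
    ∑ t ∈ Finset.Ico (-1 : ℤ) n, f t = f (-1) + ∑ t ∈ Finset.range n, f t := by
  induction n with
  | zero =>
    have h : Finset.Ico (-1 : ℤ) ((0 : ℕ) : ℤ) = {-1} := by
      ext t
      rw [Finset.mem_Ico, Finset.mem_singleton]
      push_cast
      omega
    rw [h, Finset.sum_singleton, Finset.range_zero, Finset.sum_empty, add_zero]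
  | succ n ih =>
    have h : Finset.Ico (-1 : ℤ) ((n + 1 : ℕ) : ℤ) = insert (n : ℤ) (Finset.Ico (-1 : ℤ) n) := by
      ext t
      rw [Finset.mem_insert, Finset.mem_Ico, Finset.mem_Ico]
      push_cast
      omega
    have h2 : (n : ℤ) ∉ Finset.Ico (-1 : ℤ) n := by
      rw [Finset.mem_Ico]
      omega
    rw [h, Finset.sum_insert h2, ih, Finset.sum_range_succ]
    ring

private theorem fold_anti (H : ℤ → ℕ) (hanti : ∀ j, 0 ≤ j → H (j + 1) ≤ H j) (a : ℤ)
    (ha : 0 ≤ a) (k : ℕ) : H (a + k) ≤ H a := by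
  induction k with
  | zero => simp
  | succ k ih =>
    refine le_trans ?_ ih
    have h := hanti (a + k) (by omega)
    have h2 : (a + ((k + 1 : ℕ) : ℤ)) = a + k + 1 := by
      push_cast
      ring
    rw [h2]
    exact h

private theorem fold_anti' (H : ℤ → ℕ) (hanti : ∀ j, 0 ≤ j → H (j + 1) ≤ H j) (a b : ℤ)
    (ha : 0 ≤ a) (hab : a ≤ b) : H b ≤ H a := by
  have h := fold_anti H hanti a ha (b - a).toNat
  rwa [show a + ((b - a).toNat : ℤ) = b by omega] at h

private theorem fold_left (M : ℕ) : ∀ e : ℕ,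
    4 * ∑ k ∈ Finset.range e, (M - 2 * (k + 1)) ≤ (M - 1) ^ 2 := by
  induction M using Nat.strong_induction_on with
  | _ M ih =>
    intro e
    rcases Nat.lt_or_ge M 3 with h3 | h3
    · have h : ∑ k ∈ Finset.range e, (M - 2 * (k + 1)) = 0 := by
        refine Finset.sum_eq_zero fun k _ => ?_
        omega
      rw [h]
      exact Nat.zero_le _
    · rcases e with _ | e
      · simp
      · obtain ⟨N, rfl⟩ : ∃ N, M = N + 2 := ⟨M - 2, by omega⟩
        have h1 := ih N (by omega) e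
        have h2 : ∑ k ∈ Finset.range (e + 1), (N + 2 - 2 * (k + 1)) =
            ∑ k ∈ Finset.range e, (N - 2 * (k + 1)) + N := by
          rw [Finset.sum_range_succ']
          congr 1
          exact Finset.sum_congr rfl fun k _ => by omega
        rw [h2]
        obtain ⟨L, rfl⟩ : ∃ L, N = L + 1 := ⟨N - 1, by omega⟩
        rw [show L + 1 - 1 = L by omega] at h1
        rw [show L + 1 + 2 - 1 = L + 2 by omega]
        nlinarith

theorem fold (e : ℕ) (he : 0 < e) (M : ℕ) (hM : M + 1 ≤ e) (n : ℕ) (H : ℤ → ℕ)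
    (hanti : ∀ j, 0 ≤ j → H (j + 1) ≤ H j) (h0 : H 0 = M)
    (hleft : ∀ j : ℤ, j < 0 → H j = ((M : ℤ) + 2 * j).toNat) (S : ℕ → ℕ)
    (hS : ∀ ρ < e, S ρ = ∑ t ∈ Finset.Ico (-1 : ℤ) n, H (ρ + t * e)) (ρ : ℕ) (hρ : ρ < e) :
    4 * ∑ ρ' ∈ Finset.range e, S ρ' ≤ 4 * e * S ρ + 3 * e ^ 2 ∧
    e * S ρ ≤ ∑ ρ' ∈ Finset.range e, S ρ' + (e - 1) ^ 2 := by
  obtain ⟨A, hA⟩ : ∃ A : ℕ → ℕ, ∀ ρ', A ρ' = ∑ t ∈ Finset.range n, H (ρ' + t * e) := ⟨_, fun _ => rfl⟩
  obtain ⟨L, hL⟩ : ∃ L : ℕ → ℕ, ∀ ρ', L ρ' = H ((ρ' : ℤ) - e) := ⟨_, fun _ => rfl⟩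
  have hSA : ∀ ρ' < e, S ρ' = A ρ' + L ρ' := by
    intro ρ' h
    rw [hS ρ' h, fold_Ico n (fun t => H (ρ' + t * e)), hA, hL, add_comm]
    congr 2
    ring
  have hmono : ∀ a b, a ≤ b → A b ≤ A a := by
    intro a b hab
    rw [hA, hA]
    refine Finset.sum_le_sum fun t _ => ?_
    refine fold_anti' H hanti _ _ (by positivity) ?_
    have : (a : ℤ) ≤ b := by exact_mod_cast hab
    linarith
  have hbd : ∀ a b, b ≤ a + e → A a ≤ A b + M := by
    intro a b hab
    rw [hA, hA]
    rcases n with _ | n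
    · simp
    · rw [Finset.sum_range_succ' (fun t => H (a + t * e))]
      have h1 : ∑ t ∈ Finset.range n, H (a + ((t + 1 : ℕ) : ℤ) * e) ≤
          ∑ t ∈ Finset.range (n + 1), H (b + t * e) := by
        rw [Finset.sum_range_succ]
        refine le_trans (Finset.sum_le_sum fun t _ => ?_) (Nat.le_add_right _ _)
        refine fold_anti' H hanti _ _ (by positivity) ?_
        have : (b : ℤ) ≤ a + e := by exact_mod_cast hab
        push_cast
        linarith
      have h2 : H (a + ((0 : ℕ) : ℤ) * e) ≤ M := by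
        rw [← h0]
        exact fold_anti' H hanti _ _ le_rfl (by positivity)
      exact Nat.add_le_add h1 h2
  have hLval : ∀ ρ' < e, L ρ' = M - 2 * (e - ρ') := by
    intro ρ' h
    rw [hL, hleft _ (by omega)]
    omega
  have hLsum : 4 * ∑ ρ' ∈ Finset.range e, L ρ' ≤ (M - 1) ^ 2 := by
    rw [← Finset.sum_range_reflect]
    refine le_trans (le_of_eq ?_) (fold_left M e)
    congr 1
    refine Finset.sum_congr rfl fun k hk => ?_
    rw [Finset.mem_range] at hk
    rw [hLval _ (by omega)]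
    congr 2
    omega
  have hsumA1 : ∑ ρ' ∈ Finset.range e, A ρ' ≤ e * A ρ + ρ * M := by
    have h1 : ∑ ρ' ∈ Finset.range e, A ρ' ≤
        ∑ ρ' ∈ Finset.range e, (A ρ + if ρ' < ρ then M else 0) := by
      refine Finset.sum_le_sum fun ρ' h => ?_
      rw [Finset.mem_range] at h
      split_ifs with h2
      · exact hbd _ _ (by omega)
      · exact hmono _ _ (by omega)
    refine h1.trans ?_
    rw [Finset.sum_add_distrib, Finset.sum_const, Finset.card_range, smul_eq_mul,
      ← Finset.sum_filter, Finset.sum_const, smul_eq_mul]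
    have h2 : (Finset.range e).filter (fun ρ' => ρ' < ρ) = Finset.range ρ := by
      ext x
      rw [Finset.mem_filter, Finset.mem_range, Finset.mem_range]
      omega
    rw [h2, Finset.card_range]
  have hsumA2 : e * A ρ ≤ ∑ ρ' ∈ Finset.range e, A ρ' + (e - 1 - ρ) * M := by
    have h1 : ∑ ρ' ∈ Finset.range e, A ρ ≤
        ∑ ρ' ∈ Finset.range e, (A ρ' + if ρ < ρ' then M else 0) := by
      refine Finset.sum_le_sum fun ρ' h => ?_
      rw [Finset.mem_range] at h
      split_ifs with h2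
      · exact hbd _ _ (by omega)
      · exact hmono _ _ (by omega)
    rw [Finset.sum_const, Finset.card_range, smul_eq_mul] at h1
    refine h1.trans ?_
    rw [Finset.sum_add_distrib, ← Finset.sum_filter, Finset.sum_const, smul_eq_mul]
    have h2 : (Finset.range e).filter (fun ρ' => ρ < ρ') = Finset.Ioo ρ e := by
      ext x
      rw [Finset.mem_filter, Finset.mem_range, Finset.mem_Ioo]
      omega
    rw [h2, Nat.card_Ioo, Nat.sub_right_comm]
  have hsum : ∑ ρ' ∈ Finset.range e, S ρ' =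
      ∑ ρ' ∈ Finset.range e, A ρ' + ∑ ρ' ∈ Finset.range e, L ρ' := by
    rw [← Finset.sum_add_distrib]
    exact Finset.sum_congr rfl fun ρ' h => hSA ρ' (Finset.mem_range.1 h)
  have hSρ := hSA ρ hρ
  have hLρ := hLval ρ hρ
  rw [hsum, hSρ]
  obtain ⟨k, hk⟩ : ∃ k, e = ρ + k + 1 := ⟨e - ρ - 1, by omega⟩
  obtain ⟨d, hd⟩ : ∃ d, e = M + 1 + d := ⟨e - (M + 1), by omega⟩
  set SA := ∑ ρ' ∈ Finset.range e, A ρ' with hSAdef
  set SL := ∑ ρ' ∈ Finset.range e, L ρ' with hSLdef
  rw [show e - ρ = k + 1 by omega] at hLρ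
  rw [show e - 1 - ρ = k by omega] at hsumA2
  have hMM : (M - 1) ^ 2 + 2 * M ≤ M ^ 2 + 1 := by
    rcases M with _ | M
    · norm_num
    · rw [show M + 1 - 1 = M by omega]
      nlinarith
  constructor
  · rcases Nat.le_total M (2 * (k + 1)) with h | h
    · rw [Nat.sub_eq_zero_of_le h] at hLρ
      rw [hLρ]
      nlinarith
    · obtain ⟨c, hc⟩ : ∃ c, M = 2 * (k + 1) + c := ⟨M - 2 * (k + 1), by omega⟩
      rw [show M - 2 * (k + 1) = c by omega] at hLρ
      rw [hLρ]
      subst hc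
      nlinarith
  · rw [show e - 1 = M + d by omega]
    rcases Nat.le_total M (2 * (k + 1)) with h | h
    · rw [Nat.sub_eq_zero_of_le h] at hLρ
      rw [hLρ]
      nlinarith
    · obtain ⟨c, hc⟩ : ∃ c, M = 2 * (k + 1) + c := ⟨M - 2 * (k + 1), by omega⟩
      rw [show M - 2 * (k + 1) = c by omega] at hLρ
      rw [hLρ]
      subst hc
      nlinarith

/-- The conditions of one point in the residue class `ρ`. -/
theorem Nr_eq_sum_tv (e : ℕ) (he : 0 < e) (m : ℕ) (p : ℤ) (s : Bool) (n : ℕ)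
    (h1 : ∀ j : ℤ, j < -(e : ℤ) → tv m p s j = 0) (h2 : ∀ j : ℤ, n * e ≤ j → tv m p s j = 0)
    (ρ : ℕ) (hρ : ρ < e) :
    Nr e m p s ρ = ∑ t ∈ Finset.Ico (-1 : ℤ) n, tv m p s (ρ + t * e) := by
  have he' : (0 : ℤ) < e := by exact_mod_cast he
  have hinj : Function.Injective (fun t : ℤ => (ρ : ℤ) + t * e) := by
    intro a b hab
    have h : a * (e : ℤ) = b * e := by
      simpa using hab
    exact mul_right_cancel₀ he'.ne' h
  have hN : Nr e m p s ρ = ∑ j ∈ (Finset.Icc (p - (m : ℤ)) (p + m)).filter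
      (fun j : ℤ => j % e = ρ), tv m p s j := rfl
  rw [hN, ← Finset.sum_image (f := fun j => tv m p s j) (fun a _ b _ h => hinj h)]
  have hmod : ∀ t : ℤ, ((ρ : ℤ) + t * e) % e = ρ := by
    intro t
    rw [Int.add_mul_emod_self_right]
    exact Int.emod_eq_of_lt (by positivity) (by exact_mod_cast hρ)
  have hout : ∀ j : ℤ, j ∉ Finset.Icc (p - (m : ℤ)) (p + m) → tv m p s j = 0 := by
    intro j hj
    rw [Finset.mem_Icc] at hj
    unfold tv
    rw [Int.toNat_eq_zero]
    unfold rk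
    split_ifs with hs
    · have h3 := le_max_left (2 * (j - p)) (1 - 2 * (j - p))
      have h4 := le_max_right (2 * (j - p)) (1 - 2 * (j - p))
      omega
    · have h3 := le_max_left (2 * (p - j)) (1 - 2 * (p - j))
      have h4 := le_max_right (2 * (p - j)) (1 - 2 * (p - j))
      omega
  rw [← Finset.sum_filter_ne_zero, ← Finset.sum_filter_ne_zero (s := Finset.image _ _)]
  refine Finset.sum_congr ?_ fun _ _ => rfl
  ext j
  rw [Finset.mem_filter, Finset.mem_filter, Finset.mem_filter, Finset.mem_image]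
  constructor
  · rintro ⟨⟨hj1, hj2⟩, hj3⟩
    refine ⟨⟨j / e, ?_, ?_⟩, hj3⟩
    · rw [Finset.mem_Ico]
      constructor
      · by_contra hcon
        apply hj3
        apply h1
        have h3 : j / e + 1 ≤ -1 := by omega
        have h4 := Int.lt_ediv_add_one_mul_self j he'
        have h5 : (j / e + 1) * e ≤ -1 * e := mul_le_mul_of_nonneg_right h3 he'.le
        linarith
      · by_contra hcon
        apply hj3
        apply h2
        have h4 := Int.ediv_mul_le j he'.ne'
        have h5 : (n : ℤ) * e ≤ j / e * e := mul_le_mul_of_nonneg_right (not_lt.1 hcon) he'.le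
        linarith
    · rw [← hj2, mul_comm]
      exact Int.emod_add_mul_ediv j e
  · rintro ⟨⟨t, ht, rfl⟩, hj3⟩
    refine ⟨⟨?_, hmod t⟩, hj3⟩
    by_contra hcon
    exact hj3 (hout _ hcon)

end ShghT
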