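import Pool.Agent.ShghT.CoreA

/-!
# The special base points are distinct
-/

namespace ShghT

variable {k : Type*} [Field k]

private theorem Inj_val {a : kˣ} {f : Lam k} {i : ℤ}
    (h : PowerSeries.constantCoeff f = LaurentPolynomial.T i) :
    PowerSeries.coeff 0 (PowerSeries.coeff 0 (Ta a f)) = (a : k) ^ i := by
  have h1 := coeff_Ta a f 0 0
  rw [h1, finsum_eq_single _ i]
  · have h2 : cf f ((0 : ℕ) : ℤ) i = 1 := by
      rw [Nat.cast_zero, ← constantCoeff_coeff, h]
      simp [-LaurentPolynomial.single_eq_C_mul_T, LaurentPolynomial.T]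
    rw [h2]
    simp
  · intro j hj
    have h2 : cf f ((0 : ℕ) : ℤ) j = 0 := by
      rw [Nat.cast_zero, ← constantCoeff_coeff, h]
      simp [-LaurentPolynomial.single_eq_C_mul_T, LaurentPolynomial.T, Finsupp.single_apply]
      intro h3
      exact absurd h3.symm hj
    rw [h2]
    simp

private theorem Inj_const (N : ℕ) (a : kˣ) (f : Bann k N) :
    PowerSeries.constantCoeff (TB N a f) =
      algebraMap (PowerSeries k) (KK k) (PowerSeries.coeff 0 (Ta a f)) := by
  rw [TB_apply, toK, ← PowerSeries.coeff_zero_eq_constantCoeff_apply, PowerSeries.coeff_map]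

theorem bp_inj {N : ℕ} (hN : 0 < N) {a b : kˣ} (h : bp (TB N a) = bp (TB N b)) : a = b := by
  have h1 : ∀ c : kˣ, bp (TB N c) 1 * algebraMap (PowerSeries k) (KK k)
      (PowerSeries.coeff 0 (Ta c (x3 k N 1))) =
      algebraMap (PowerSeries k) (KK k) (PowerSeries.coeff 0 (Ta c (x3 k N 2))) := by
    intro c
    have e1 : bp (TB N c) 1 = PowerSeries.constantCoeff (TB N c (x3B k N 2)) *
        PowerSeries.constantCoeff ((TB N c (x3B k N 1))⁻¹) := by
      rw [← map_mul]
      simp [bp, psi]
    have e2 := TB_x3_one N hN c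
    have e3 : PowerSeries.constantCoeff ((TB N c (x3B k N 1))⁻¹) *
        PowerSeries.constantCoeff (TB N c (x3B k N 1)) = 1 := by
      rw [← map_mul, PowerSeries.inv_mul_cancel _ e2, map_one]
    have e4 := Inj_const N c (x3B k N 1)
    have e5 := Inj_const N c (x3B k N 2)
    have e6 : ((x3B k N 1 : Bann k N) : Lam k) = x3 k N 1 := rfl
    have e7 : ((x3B k N 2 : Bann k N) : Lam k) = x3 k N 2 := rfl
    rw [e6] at e4
    rw [e7] at e5
    rw [e1, ← e4, ← e5, mul_assoc, e3, mul_one]
  have h2 : algebraMap (PowerSeries k) (KK k)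
      (PowerSeries.coeff 0 (Ta a (x3 k N 2)) * PowerSeries.coeff 0 (Ta b (x3 k N 1))) =
      algebraMap (PowerSeries k) (KK k)
      (PowerSeries.coeff 0 (Ta b (x3 k N 2)) * PowerSeries.coeff 0 (Ta a (x3 k N 1))) := by
    rw [map_mul, map_mul, ← h1 a, ← h1 b, h]
    ring
  have h3 := IsFractionRing.injective (PowerSeries k) (KK k) h2
  have h4 := congrArg (PowerSeries.constantCoeff (R := k)) h3
  have v1 : ∀ c : kˣ, PowerSeries.constantCoeff (PowerSeries.coeff 0 (Ta c (x3 k N 1))) =
      (c : k) := by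
    intro c
    rw [← PowerSeries.coeff_zero_eq_constantCoeff_apply, Inj_val (x3_const_one hN)]
    simp
  have v2 : ∀ c : kˣ, PowerSeries.constantCoeff (PowerSeries.coeff 0 (Ta c (x3 k N 2))) =
      (c : k) ^ 2 := by
    intro c
    rw [← PowerSeries.coeff_zero_eq_constantCoeff_apply, Inj_val (x3_const_two hN)]
    norm_cast
  rw [map_mul, map_mul, v1, v1, v2, v2] at h4
  have ha : (a : k) ≠ 0 := a.ne_zero
  have hb : (b : k) ≠ 0 := b.ne_zero
  apply Units.ext
  have h5 : ((a : k) * b) * a = ((a : k) * b) * b := by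
    linear_combination h4
  exact mul_left_cancel₀ (mul_ne_zero ha hb) h5

end ShghT
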