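import Pool.Agent.ShghT.Defs

/-!
# Choice of the parameters
-/

namespace ShghT

variable {k : Type*} [Field k]

private theorem Params_infinite_units [Infinite k] : Infinite kˣ := by
  have h1 : Infinite {x : k // x ≠ 0} := by
    have h2 : ({x : k | x ≠ 0} : Set k) = ({0} : Set k)ᶜ := by
      ext x
      simp
    have h3 : ({x : k | x ≠ 0} : Set k).Infinite := by
      rw [h2]
      exact (Set.finite_singleton (0 : k)).infinite_compl
    exact h3.to_subtype
  exact Infinite.of_injective (fun x : {x : k // x ≠ 0} => Units.mk0 x.1 x.2) (by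
    intro x y hxy
    apply Subtype.ext
    have h2 := congrArg (fun u : kˣ => (u : k)) hxy
    simpa using h2)

private theorem Params_finite_roots (B : ℕ) :
    {x : kˣ | ∃ i : ℕ, 0 < i ∧ i ≤ 2 * B ∧ x ^ i = 1}.Finite := by
  have h1 : {x : kˣ | ∃ i : ℕ, 0 < i ∧ i ≤ 2 * B ∧ x ^ i = 1} ⊆
      ⋃ i ∈ Set.Icc 1 (2 * B), (rootsOfUnity i k : Set kˣ) := by
    rintro x ⟨i, hi, hiB, hx⟩
    rw [Set.mem_iUnion₂]
    exact ⟨i, ⟨hi, hiB⟩, (mem_rootsOfUnity i x).mpr hx⟩
  refine Set.Finite.subset (Set.Finite.biUnion (Set.finite_Icc 1 (2 * B)) ?_) h1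
  intro i hi
  have : NeZero i := ⟨by have := hi.1; omega⟩
  exact Set.finite_coe_iff.mp (inferInstanceAs (Finite (rootsOfUnity i k)))

private theorem Params_t [Infinite k] (B : ℕ) (ν : kˣ)
    (hν : ∀ i : ℕ, 0 < i → i ≤ 2 * B → ν ^ i ≠ 1) (r : ℕ) :
    ∃ t : Fin r → kˣ, ∀ i i' (s s' : ℤ), |s| ≤ B → |s'| ≤ B →
      ν ^ s * t i = ν ^ s' * t i' → i = i' ∧ s = s' := by
  have hz : ∀ s s' : ℤ, |s| ≤ B → |s'| ≤ B → ν ^ s = ν ^ s' → s = s' := by
    have aux : ∀ s s' : ℤ, |s| ≤ B → |s'| ≤ B → ν ^ s = ν ^ s' → s < s' → False := by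
      intro s s' hs hs' h hlt
      rw [abs_le] at hs hs'
      have h1 : ν ^ (s' - s) = 1 := by rw [zpow_sub, h, mul_inv_cancel]
      obtain ⟨m, hm⟩ := Int.eq_ofNat_of_zero_le (sub_nonneg.mpr hlt.le)
      rw [hm, zpow_natCast] at h1
      exact hν m (by omega) (by omega) h1
    intro s s' hs hs' h
    rcases lt_trichotomy s s' with hlt | heq | hgt
    · exact (aux s s' hs hs' h hlt).elim
    · exact heq
    · exact (aux s' s hs' hs h.symm hgt).elim
  have : Infinite kˣ := Params_infinite_units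
  induction r with
  | zero => exact ⟨fun i => i.elim0, fun i => i.elim0⟩
  | succ r ih =>
    obtain ⟨t, ht⟩ := ih
    have hfin : (Set.image2 (fun (s : ℤ) (i : Fin r) => ν ^ s * t i)
        (Set.Icc (-(2 * B : ℤ)) (2 * B)) Set.univ).Finite :=
      Set.Finite.image2 _ (Set.finite_Icc _ _) Set.finite_univ
    obtain ⟨y, hy⟩ := hfin.exists_notMem
    have hy' : ∀ (i : Fin r) (s s' : ℤ), |s| ≤ B → |s'| ≤ B → ν ^ s * t i ≠ ν ^ s' * y := by
      intro i s s' hs hs' h
      apply hy
      rw [abs_le] at hs hs'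
      refine ⟨s - s', ⟨by omega, by omega⟩, i, Set.mem_univ _, ?_⟩
      change ν ^ (s - s') * t i = y
      rw [zpow_sub, mul_assoc, mul_comm (ν ^ s')⁻¹, ← mul_assoc, h, mul_comm (ν ^ s') y, mul_assoc,
        mul_inv_cancel, mul_one]
    refine ⟨Fin.snoc (α := fun _ => kˣ) t y, ?_⟩
    intro i i' s s' hs hs' h
    induction i using Fin.lastCases with
    | last =>
      induction i' using Fin.lastCases with
      | last =>
        rw [Fin.snoc_last] at h
        exact ⟨rfl, hz s s' hs hs' (mul_right_cancel h)⟩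
      | cast j =>
        rw [Fin.snoc_last, Fin.snoc_castSucc] at h
        exact (hy' j s' s hs' hs h.symm).elim
    | cast i =>
      induction i' using Fin.lastCases with
      | last =>
        rw [Fin.snoc_last, Fin.snoc_castSucc] at h
        exact (hy' i s s' hs hs' h).elim
      | cast j =>
        rw [Fin.snoc_castSucc, Fin.snoc_castSucc] at h
        obtain ⟨h1, h2⟩ := ht i j s s' hs hs' h
        exact ⟨by rw [h1], h2⟩

theorem exists_params [Infinite k] (B r : ℕ) : ∃ (a : Fin 9 → kˣ) (ν : kˣ) (t : Fin r → kˣ),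
    Function.Injective a ∧ (ν : k) * ∏ l, (-(a l : k)) = 1 ∧
    ∀ i i' (s s' : ℤ), |s| ≤ B → |s'| ≤ B → ν ^ s * t i = ν ^ s' * t i' → i = i' ∧ s = s' := by
  have : Infinite kˣ := Params_infinite_units
  let b : Fin 8 → kˣ := fun i => Infinite.natEmbedding kˣ i
  have hb : Function.Injective b := fun i j h =>
    Fin.ext ((Infinite.natEmbedding kˣ).injective h)
  let P : kˣ := ∏ l, (-(b l))
  have hfin : ({x : kˣ | ∃ i : ℕ, 0 < i ∧ i ≤ 2 * B ∧ x ^ i = 1} ∪
      Set.range (fun l : Fin 8 => -(b l * P)⁻¹)).Finite :=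
    (Params_finite_roots B).union (Set.finite_range _)
  obtain ⟨ν, hν⟩ := hfin.exists_notMem
  rw [Set.mem_union, not_or] at hν
  obtain ⟨hν1, hν2⟩ := hν
  obtain ⟨t, ht⟩ := Params_t B ν (fun i hi hiB h => hν1 ⟨i, hi, hiB, h⟩) r
  refine ⟨Fin.snoc (α := fun _ => kˣ) b (-(ν * P)⁻¹), ν, t, ?_, ?_, ht⟩
  · intro i j h
    have hne : ∀ l : Fin 8, b l ≠ -(ν * P)⁻¹ := by
      intro l hl
      apply hν2
      refine ⟨l, ?_⟩
      change -(b l * P)⁻¹ = ν
      rw [hl]
      have h3 : (-(ν * P)⁻¹ * P)⁻¹ = -ν := by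
        apply inv_eq_of_mul_eq_one_right
        rw [neg_mul, neg_mul_neg, mul_assoc, mul_comm P ν, inv_mul_cancel]
      rw [h3, neg_neg]
    induction i using Fin.lastCases with
    | last =>
      induction j using Fin.lastCases with
      | last => rfl
      | cast j =>
        rw [Fin.snoc_last, Fin.snoc_castSucc] at h
        exact (hne j h.symm).elim
    | cast i =>
      induction j using Fin.lastCases with
      | last =>
        rw [Fin.snoc_last, Fin.snoc_castSucc] at h
        exact (hne i h).elim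
      | cast j =>
        rw [Fin.snoc_castSucc, Fin.snoc_castSucc] at h
        rw [hb h]
  · have h1 : (ν : k) * ∏ l : Fin 9, (-((Fin.snoc (α := fun _ => kˣ) b (-(ν * P)⁻¹) : Fin 9 → kˣ) l : k)) =
        ((ν * ∏ l : Fin 9, (-((Fin.snoc (α := fun _ => kˣ) b (-(ν * P)⁻¹) : Fin 9 → kˣ) l)) : kˣ) : k) := by
      rw [Units.val_mul, Units.coe_prod]
      rfl
    rw [h1]
    have h2 : ν * ∏ l : Fin 9, (-((Fin.snoc (α := fun _ => kˣ) b (-(ν * P)⁻¹) : Fin 9 → kˣ) l)) = 1 := by
      rw [Fin.prod_univ_castSucc]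
      simp only [Fin.snoc_castSucc, Fin.snoc_last, neg_neg]
      change ν * (P * (ν * P)⁻¹) = 1
      rw [← mul_assoc, mul_inv_cancel]
    rw [h2, Units.val_one]

/-- Coordinates algebraically independent over a subfield make the field infinite. -/
theorem infinite_of_algebraicIndependent {F : Type*} [Field F] [Algebra F k] {ι : Type*}
    [Nonempty ι] (x : ι → k) (h : AlgebraicIndependent F x) : Infinite k :=
  Infinite.of_injective (MvPolynomial.aeval x : MvPolynomial ι F →ₐ[F] k) h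

end ShghT
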