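import Pool.Agent.ShghT.Core
import Pool.Agent.ShghT.Clear
import Pool.Agent.ShghT.SemiB
import Pool.Agent.ShghT.Params
import Pool.Agent.ShghT.CombA

/-!
# No curves through the special points, and the upper bound of the dimension
-/

namespace ShghT

open MvPolynomial

variable {k : Type*} [Field k]

/-- The field of the special points moving with the parameter. -/
abbrev KX (k : Type*) [Field k] : Type _ := FractionRing (Polynomial (KK k))

theorem mem_LS_append {K : Type*} [Field K] {s t : ℕ} {δ : ℕ} {μ : Fin s → ℕ} {μ' : Fin t → ℕ}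
    {P : Fin s → Fin 2 → K} {P' : Fin t → Fin 2 → K} {f : MvPolynomial (Fin 2) K} :
    f ∈ LS δ (Fin.append μ μ') (Fin.append P P') ↔ f.totalDegree ≤ δ ∧
      (∀ i, f ∈ pt (P i 0) (P i 1) ^ μ i) ∧ ∀ i, f ∈ pt (P' i 0) (P' i 1) ^ μ' i := by
  rw [mem_LS]
  refine and_congr_right fun _ => ⟨fun h => ⟨fun i => ?_, fun i => ?_⟩, fun h i => ?_⟩
  · have := h (Fin.castAdd t i)
    simpa using this
  · have := h (Fin.natAdd s i)
    simpa using this
  · refine Fin.addCases (fun i => ?_) (fun i => ?_) i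
    · simpa using h.1 i
    · simpa using h.2 i

/-- The function which must not vanish at the additional points. -/
noncomputable def goodB (N : ℕ) (a : Fin 9 → kˣ) (α : PowerSeries k) : Bann k N :=
  x3B k N 1 * (∏ l, thB N (a l)) * (3 * iotaB N α * x3B k N 0 ^ 2 + x3B k N 1 * x3B k N 2)

theorem goodB_ne_zero {N : ℕ} (hN : 0 < N) (a : Fin 9 → kˣ) {α : PowerSeries k}
    (hα : PowerSeries.constantCoeff α = 0) : goodB N a α ≠ 0 := by
  have h1 : (x3B k N 1) ≠ 0 := by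
    intro h
    exact x3_ne_zero (k := k) hN 1 (by norm_num) (congrArg Subtype.val h)
  have h2 : ∀ l, thB N (a l) ≠ 0 := by
    intro l h
    exact th_ne_zero hN (a l) (congrArg Subtype.val h)
  have h3 : (3 * iotaB N α * x3B k N 0 ^ 2 + x3B k N 1 * x3B k N 2) ≠ 0 := by
    intro h
    have := TB_smooth hN (a 0) hα
    rw [h, map_zero, map_zero] at this
    exact this rfl
  exact mul_ne_zero (mul_ne_zero h1 (Finset.prod_ne_zero_iff.2 fun l _ => h2 l)) h3

theorem TE_ne_zero {N : ℕ} {c : ℤ} (hc : 0 < c) (hcN : c < N) (a : kˣ) {f : Bann k N}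
    (hf : PowerSeries.constantCoeff (Tc N c hc hcN a f) ≠ 0) :
    PowerSeries.constantCoeff (TE N c hc hcN a f) ≠ 0 := by
  rw [TE_apply, toK, ← PowerSeries.coeff_zero_eq_constantCoeff_apply,
    PowerSeries.coeff_map, PowerSeries.coeff_zero_eq_constantCoeff_apply, Ne,
    map_eq_zero_iff _ (IsFractionRing.injective (PowerSeries k) (KK k))]
  exact hf

/-- No curve through the special points, if the coefficients with exponents in `Z` vanish. -/
theorem special_empty [Infinite k] {e : ℕ} (he : 0 < e) (Y d : ℕ) (ml : Fin 9 → ℤ)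
    (heq : (e : ℤ) = 3 * d - ∑ l, ml l)
    (a : Fin 9 → kˣ) (ha : Function.Injective a) (ν : kˣ) (hν : (ν : k) * ∏ l, (-(a l : k)) = 1)
    (α β δ : PowerSeries k) (hα : PowerSeries.constantCoeff α = 0)
    (hβ : PowerSeries.constantCoeff β = -1) (hδ : PowerSeries.constantCoeff δ = -1)
    (hrel : iota α * x3 k (4 * e) 0 ^ 3 + iota β * x3 k (4 * e) 1 ^ 3 +
      iota δ * x3 k (4 * e) 2 ^ 3 + x3 k (4 * e) 0 * x3 k (4 * e) 1 * x3 k (4 * e) 2 = 0)
    {r : ℕ} (m : Fin r → ℕ) (p : Fin r → ℤ) (s : Fin r → Bool)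
    (hc : ∀ i, 0 < circ e (p i) (s i) ∧ circ e (p i) (s i) < 4 * (e : ℤ))
    (t : Fin r → kˣ)
    (hdist : ∀ i i' (l l' : ℤ), l ∈ Finset.Icc (p i - (m i : ℤ)) (p i + m i) →
      l' ∈ Finset.Icc (p i' - (m i' : ℤ)) (p i' + m i') →
      (ν : k) ^ (l / e) * t i = (ν : k) ^ (l' / e) * t i' → i = i' ∧ l / e = l' / e)
    (Z : Finset (Fin 2 →₀ ℕ)) (Jm : ℕ)
    (hJ : ∀ f ∈ LS (3 * Y + d) (fun l => ((Y : ℤ) + ml l).toNat)
      (fun l => bp (TB (4 * e) (a l))), f ≠ 0 → (∀ x ∈ Z, f.coeff x = 0) →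
      ¬ Gp (algebraMap (PowerSeries k) (KK k) α)
      (algebraMap (PowerSeries k) (KK k) β) (algebraMap (PowerSeries k) (KK k) δ) ^ (Jm + 1) ∣ f)
    (hz : ∀ j : ℕ, j ≤ Jm → ∑ l, ((Y : ℤ) + ml l - j).toNat ≤ 3 * ((3 * Y + d) - 3 * j))
    (Dg : ℕ → ℕ) (hDg : (∀ ρ, Dg ρ = Jm) ∨ (d = 0 ∧ Jm = Y ∧ (∀ l, ml l = 0 ∨ ml l = -1) ∧
      Dg 0 = Y ∧ ∀ ρ, 0 < ρ → Y ≤ Dg ρ + 1))
    (hN : ∀ ρ < e, Dg ρ + 1 ≤ ∑ i, Nr e (m i) (p i) (s i) ρ) :
    ∃ (Q : Fin 9 → Fin 2 → KX k) (R : Fin r → Fin 2 → KX k),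
      ∀ f ∈ LS (3 * Y + d) (Fin.append (fun l => ((Y : ℤ) + ml l).toNat) m) (Fin.append Q R),
        (∀ x ∈ Z, f.coeff x = 0) → f = 0 := by
  classical
  have hN0 : 0 < 4 * e := by omega
  have hc' : ∀ i, 0 < circ e (p i) (s i) ∧ circ e (p i) (s i) < ((4 * e : ℕ) : ℤ) := by
    intro i
    refine ⟨(hc i).1, ?_⟩
    have := (hc i).2
    push_cast
    exact this
  have hgood := goodB_ne_zero hN0 a hα
  choose αi hαi using fun i => exists_alpha (hc' i).1 (hc' i).2 (goodB (4 * e) a α) hgood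
  set T : ∀ i, Bann k (4 * e) →+* PowerSeries (KK k) := fun i =>
    TE (4 * e) (circ e (p i) (s i)) (hc' i).1 (hc' i).2 (αi i) with hT
  have hval : ∀ i, PowerSeries.constantCoeff (T i (goodB (4 * e) a α)) ≠ 0 := fun i =>
    TE_ne_zero _ _ _ (hαi i)
  have hden : ∀ i, PowerSeries.constantCoeff (psi (T i) (MvPolynomial.C
      (3 * algebraMap (PowerSeries k) (KK k) α) * MvPolynomial.X 0 ^ 2 + MvPolynomial.X 1)) *
      PowerSeries.constantCoeff (T i (x3B k (4 * e) 1)) ^ 3 ≠ 0 := by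
    intro i
    have hv2 := hval i
    rw [goodB, map_mul, map_mul, map_mul, map_mul] at hv2
    have hx1 := left_ne_zero_of_mul (left_ne_zero_of_mul hv2)
    have hsm := right_ne_zero_of_mul hv2
    have hTi : ∀ b, T i (iotaB (4 * e) b) =
        PowerSeries.C (algebraMap (PowerSeries k) (KK k) b) := TE_iota _ _ _
    exact mul_ne_zero (bp_smooth hTi hx1 α hsm) (pow_ne_zero _ hx1)
  set τ : Fin r → KK k := fun i => algebraMap (PowerSeries k) (KK k) (PowerSeries.C (t i : k)) *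
    (∏ l, PowerSeries.constantCoeff (T i (thB (4 * e) (a l)))) /
    (PowerSeries.constantCoeff (psi (T i) (MvPolynomial.C
      (3 * algebraMap (PowerSeries k) (KK k) α) * MvPolynomial.X 0 ^ 2 + MvPolynomial.X 1)) *
      PowerSeries.constantCoeff (T i (x3B k (4 * e) 1)) ^ 3) with hτ
  set PQ : Fin 9 → Fin 2 → Polynomial (KK k) := fun l i =>
    Polynomial.C (bp (TB (4 * e) (a l)) i) with hPQ
  set PR : Fin r → Fin 2 → Polynomial (KK k) := fun i =>
    ![Polynomial.C (bp (T i) 0) + Polynomial.C (τ i) * Polynomial.X, Polynomial.C (bp (T i) 1)]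
    with hPR
  refine ⟨fun l i => algebraMap (Polynomial (KK k)) (KX k) (PQ l i),
    fun i j => algebraMap (Polynomial (KK k)) (KX k) (PR i j), ?_⟩
  intro f hf hfZ
  rw [mem_LS_append] at hf
  obtain ⟨hfd, hfQ, hfR⟩ := hf
  by_contra hf0
  obtain ⟨F, hF0, hFd, hFZ, hFμ⟩ := clear_xi (Fin.append PQ PR) (3 * Y + d)
    (Fin.append (fun l => ((Y : ℤ) + ml l).toNat) m) Z f hf0 hfd hfZ (by
      intro i
      refine Fin.addCases (fun i => ?_) (fun i => ?_) i
      · simpa using hfQ i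
      · simpa using hfR i)
  have hFb : ∀ l i, F.coeff l ∈ pt (bp (TB (4 * e) (a i)) 0) (bp (TB (4 * e) (a i)) 1) ^
      ((Y : ℤ) + ml i).toNat := by
    intro l i
    refine coeff_mem_pt _ _ _ F ?_ l
    have h := hFμ (Fin.castAdd r i)
    rw [Fin.append_left, Fin.append_left, hPQ] at h
    simpa only [Polynomial.map_C] using h
  have hFe : ∀ i, F ∈ (Ideal.span {Polynomial.C (X 0) - (Polynomial.C (C (bp (T i) 0)) +
      Polynomial.C (C (τ i)) * Polynomial.X),
      Polynomial.C (X 1) - Polynomial.C (C (bp (T i) 1))} :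
      Ideal (Polynomial (MvPolynomial (Fin 2) (KK k)))) ^ m i := by
    intro i
    have h := hFμ (Fin.natAdd 9 i)
    rw [Fin.append_right, Fin.append_right, hPR] at h
    simpa only [Polynomial.map_C, Polynomial.map_add, Polynomial.map_mul, Polynomial.map_X,
      Matrix.cons_val_zero, Matrix.cons_val_one] using h
  refine core_xi he Y d ml heq a ha ν hν α β δ hα hβ hδ hrel m p s hc' αi t hαi hdist τ ?_ F hF0
    hFd hFb hFe Jm ?_ hz Dg hDg hN
  · intro i
    rw [hτ]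
    exact div_mul_cancel₀ _ (hden i)
  · intro l hl
    exact hJ (F.coeff l) ⟨hFd l, fun i => hFb l i⟩ hl (hFZ l)

/-- The parameters. -/
theorem setup [Infinite k] (e : ℕ) {r : ℕ} (m : Fin r → ℕ) (p : Fin r → ℤ) :
    ∃ (a : Fin 9 → kˣ) (ν : kˣ) (t : Fin r → kˣ),
    Function.Injective a ∧ (ν : k) * ∏ l, (-(a l : k)) = 1 ∧
    ∀ i i' (l l' : ℤ), l ∈ Finset.Icc (p i - (m i : ℤ)) (p i + m i) →
      l' ∈ Finset.Icc (p i' - (m i' : ℤ)) (p i' + m i') →
      (ν : k) ^ (l / e) * t i = (ν : k) ^ (l' / e) * t i' → i = i' ∧ l / e = l' / e := by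
  obtain ⟨a, ν, t, ha, hν, h⟩ := exists_params (k := k) (∑ i, ((p i).natAbs + m i)) r
  refine ⟨a, ν, t, ha, hν, ?_⟩
  have hb : ∀ i (l : ℤ), l ∈ Finset.Icc (p i - (m i : ℤ)) (p i + m i) →
      |l / (e : ℤ)| ≤ ((∑ i, ((p i).natAbs + m i) : ℕ) : ℤ) := by
    intro i l hl
    rw [Finset.mem_Icc] at hl
    have h1 : (p i).natAbs + m i ≤ ∑ i, ((p i).natAbs + m i) :=
      Finset.single_le_sum (f := fun i => (p i).natAbs + m i) (fun _ _ => Nat.zero_le _)
        (Finset.mem_univ i)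
    have h2 : |l| ≤ (((p i).natAbs + m i : ℕ) : ℤ) := by
      rw [abs_le]
      push_cast
      have h5 := neg_abs_le (p i)
      have h6 := le_abs_self (p i)
      constructor
      · linarith [hl.1]
      · linarith [hl.2]
    have h3 : |l / (e : ℤ)| ≤ |l| := by
      have := Int.natAbs_ediv_le_natAbs l e
      rw [Int.abs_eq_natAbs, Int.abs_eq_natAbs]
      exact_mod_cast this
    have h4 : (((p i).natAbs + m i : ℕ) : ℤ) ≤ ((∑ i, ((p i).natAbs + m i) : ℕ) : ℤ) := by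
      exact_mod_cast h1
    linarith
  intro i i' l l' hl hl' heq
  refine h i i' _ _ (hb i l hl) (hb i' l' hl') ?_
  apply Units.ext
  push_cast
  exact heq

/-- Upper bound of the dimension at generic points. -/
theorem finrank_le_of_special {F K K' : Type*} [Field F] [Field K] [Field K'] [Algebra F K]
    [Algebra F K'] {r : ℕ} (P : Fin (9 + r) → Fin 2 → K)
    (hP : AlgebraicIndependent F (fun ij : Fin (9 + r) × Fin 2 => P ij.1 ij.2))
    (δ : ℕ) (M : Fin 9 → ℕ) (m : Fin r → ℕ) (n : ℕ) (Z : Finset (Fin 2 →₀ ℕ))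
    (Q : Fin 9 → Fin 2 → K') (R : Fin (r + n) → Fin 2 → K')
    (h : ∀ f ∈ LS δ (Fin.append M (Fin.append m fun _ : Fin n => 1)) (Fin.append Q R),
      (∀ x ∈ Z, f.coeff x = 0) → f = 0) :
    Module.finrank K (LS δ (Fin.append M m) P) ≤ n + Z.card := by
  refine (finrank_LS_le P hP (Fin.append Q fun i => R (Fin.castAdd n i)) δ _).trans ?_
  refine finrank_LS_le_of_cut δ _ _ n (fun i => R (Fin.natAdd r i)) Z ?_
  intro f hf hZ
  refine h f ?_ hZ
  rw [mem_LS_append] at hf ⊢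
  obtain ⟨h1, h2, h3⟩ := hf
  refine ⟨h1, fun i => ?_, fun i => ?_⟩
  · have := h2 (Fin.castAdd r i)
    simpa using this
  · refine Fin.addCases (fun i => ?_) (fun i => ?_) i
    · have := h2 (Fin.natAdd 9 i)
      simpa using this
    · simpa using h3 i

end ShghT
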