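import Pool.Agent.ShghT.MainV
import Pool.Agent.ShghT.CombA

/-!
# Multiplicities `y`, `y + 1` and `e ≤ 3`: the dimension is the expected one
-/

namespace ShghT

open MvPolynomial

theorem upper_T {F K : Type*} [Field F] [Field K] [Algebra F K] [Infinite K] {r : ℕ}
    (P : Fin (9 + r) → Fin 2 → K)
    (hP : AlgebraicIndependent F (fun ij : Fin (9 + r) × Fin 2 => P ij.1 ij.2))
    (Y d : ℕ) (hd : d ≤ 2) (ml : Fin 9 → ℤ)
    (m : Fin r → ℕ) (e : ℕ) (he : 0 < e) (heq : (e : ℤ) = 3 * d - ∑ l, ml l)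
    (n : ℕ) (p : Fin (r + n) → ℤ) (s : Fin (r + n) → Bool)
    (hc : ∀ i, 0 < circ e (p i) (s i) ∧ circ e (p i) (s i) < 4 * (e : ℤ))
    (Dg : ℕ → ℕ) (hDg : (∀ ρ, Dg ρ = Y) ∨ (d = 0 ∧ (∀ l, ml l = 0 ∨ ml l = -1) ∧
      Dg 0 = Y ∧ ∀ ρ, 0 < ρ → Y ≤ Dg ρ + 1))
    (hN : ∀ ρ < e, Dg ρ + 1 ≤ ∑ i, Nr e (Fin.append m (fun _ : Fin n => 1) i) (p i) (s i) ρ)
    (hz : ∀ j : ℕ, j ≤ Y → ∑ l, ((Y : ℤ) + ml l - j).toNat ≤ 3 * ((3 * Y + d) - 3 * j)) :
    Module.finrank K (LS (3 * Y + d) (Fin.append (fun l => ((Y : ℤ) + ml l).toNat) m) P) ≤ n := by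
  classical
  obtain ⟨a, ν, t, ha, hν, hdist⟩ := setup (k := K) e (Fin.append m (fun _ : Fin n => 1)) p
  obtain ⟨α, β, δ', hα, hβ, hδ', hrel⟩ := curve_rel K (N := 4 * e) (by omega)
  have hδ0 : algebraMap (PowerSeries K) (KK K) δ' ≠ 0 := by
    rw [Ne, map_eq_zero_iff _ (IsFractionRing.injective (PowerSeries K) (KK K))]
    rintro rfl
    rw [map_zero] at hδ'
    exact one_ne_zero (neg_eq_zero.1 hδ'.symm)
  obtain ⟨Q, R, h⟩ := special_empty he Y d ml heq a ha ν hν α β δ' hα hβ hδ' hrel
    (Fin.append m (fun _ : Fin n => 1)) p s hc t hdist ∅ Y (by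
      rintro f ⟨hfd, -⟩ hf0 - ⟨g, hg⟩
      have hg0 : g ≠ 0 := by
        rintro rfl
        exact hf0 (by rw [hg, mul_zero])
      have h1 := totalDegree_Gp_pow_mul (algebraMap (PowerSeries K) (KK K) α)
        (algebraMap (PowerSeries K) (KK K) β) _ hδ0 (Y + 1) hg0
      rw [← hg] at h1
      omega) hz Dg (hDg.imp id fun h => ⟨h.1, rfl, h.2.1, h.2.2.1, h.2.2.2⟩) hN
  have := finrank_le_of_special P hP (3 * Y + d) (fun l => ((Y : ℤ) + ml l).toNat) m n ∅ Q R h
  simpa using this

theorem two_choose (n : ℕ) : 2 * (n + 1).choose 2 = n * (n + 1) := by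
  induction n with
  | zero => rfl
  | succ n ih =>
    rw [Nat.choose_succ_succ' (n + 1) 1, Nat.choose_one_right, mul_add, ih]
    ring

/-- **Theorem T.** -/
theorem main_T {F K : Type*} [Field F] [Field K] [Algebra F K] {r : ℕ}
    (P : Fin (9 + r) → Fin 2 → K)
    (hP : AlgebraicIndependent F (fun ij : Fin (9 + r) × Fin 2 => P ij.1 ij.2))
    (δ y : ℕ) (M : Fin 9 → ℕ) (m : Fin r → ℕ) (hM : ∀ l, M l = y ∨ M l = y + 1)
    (e : ℕ) (he : 0 < e) (he3 : e ≤ 3) (hδ : 3 * δ = e + ∑ l, M l) (χ : ℤ)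
    (hχ : χ = ((δ + 2).choose 2 : ℤ) - ∑ l, ((M l + 1).choose 2 : ℤ) -
      ∑ i, ((m i + 1).choose 2 : ℤ))
    (hex : e = 3 → χ ≠ 0 ∨ (∃ i, m i % 3 = 1) ∨
      (Finset.univ.filter fun i => m i % 6 = 2 ∨ m i % 6 = 3).card ≠ 1) :
    (Module.finrank K (LS δ (Fin.append M m) P) : ℤ) = max 0 χ := by
  classical
  have : Infinite K := infinite_of_algebraicIndependent _ hP
  -- the number of multiplicities y + 1
  obtain ⟨ε, hε, hε'⟩ : ∃ ε : Fin 9 → ℕ, (∀ l, ε l = 0 ∨ ε l = 1) ∧ ∀ l, M l = y + ε l := by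
    refine ⟨fun l => M l - y, fun l => ?_, fun l => ?_⟩
    · rcases hM l with h | h <;> simp only [h] <;> omega
    · rcases hM l with h | h <;> simp only [h] <;> omega
  obtain ⟨c, hc⟩ : ∃ c : ℕ, c = ∑ l, ε l := ⟨_, rfl⟩
  have hsumM : ∑ l, M l = 9 * y + c := by
    rw [Finset.sum_congr rfl (fun l _ => hε' l), Finset.sum_add_distrib, hc]
    simp
  have hc9 : c ≤ 9 := by
    rw [hc]
    calc ∑ l, ε l ≤ ∑ _l : Fin 9, 1 := Finset.sum_le_sum fun l _ => by
          rcases hε l with h | h <;> omega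
      _ = 9 := by simp
  obtain ⟨g, hg⟩ : ∃ g, 3 * g = e + c := ⟨(e + c) / 3, by omega⟩
  have hδg : δ = 3 * y + g := by omega
  -- the Euler characteristic
  have hS : 2 * ∑ l, ((M l + 1).choose 2 : ℤ) = 9 * (y * (y + 1)) + 2 * c * (y + 1) := by
    have h1 : ∀ l, 2 * ((M l + 1).choose 2 : ℤ) = y * (y + 1) + 2 * (ε l : ℤ) * (y + 1) := by
      intro l
      have h2 := two_choose (M l)
      have h3 : 2 * ((M l + 1).choose 2 : ℤ) = (M l : ℤ) * (M l + 1) := by exact_mod_cast h2
      rw [h3, hε' l]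
      rcases hε l with h | h <;> rw [h] <;> push_cast <;> ring
    have h4 : ∑ l, 2 * (ε l : ℤ) * ((y : ℤ) + 1) = 2 * c * (y + 1) := by
      rw [← Finset.sum_mul, ← Finset.mul_sum, hc]
      push_cast
      rfl
    rw [Finset.mul_sum, Finset.sum_congr rfl (fun l _ => h1 l), Finset.sum_add_distrib, h4]
    simp
  have hδ2 : 2 * ((δ + 2).choose 2 : ℤ) = (δ + 1) * (δ + 2) := by
    have h2 := two_choose (δ + 1)
    have h3 : 2 * ((δ + 1 + 1).choose 2 : ℤ) = ((δ + 1 : ℕ) : ℤ) * ((δ + 1 : ℕ) + 1) := by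
      exact_mod_cast h2
    push_cast at h3
    linarith
  have hcnd : (cnd m : ℤ) = ∑ i, ((m i + 1).choose 2 : ℤ) := by
    rw [cnd]
    push_cast
    rfl
  have hχ2 : 2 * χ = 2 * e * (y + 1) + (g - 1) * (g - 2) - 2 * cnd m := by
    have hg' : (3 * g : ℤ) = e + c := by exact_mod_cast hg
    have hδg' : (δ : ℤ) = 3 * y + g := by exact_mod_cast hδg
    have h4 : 2 * χ = 2 * ((δ + 2).choose 2 : ℤ) - 2 * ∑ l, ((M l + 1).choose 2 : ℤ) -
        2 * cnd m := by
      rw [hχ, hcnd]
      ring
    rw [h4, hS, hδ2, hδg']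
    have h5 : (c : ℤ) = 3 * g - e := by linarith
    rw [h5]
    ring
  -- lower bound
  have hlow := le_finrank_LS δ (Fin.append M m) P
  rw [Fin.sum_univ_add] at hlow
  simp only [Fin.append_left, Fin.append_right] at hlow
  have hlow' : χ ≤ Module.finrank K (LS δ (Fin.append M m) P) := by
    have : ((δ + 2).choose 2 : ℤ) ≤ Module.finrank K (LS δ (Fin.append M m) P) +
        (∑ l, ((M l + 1).choose 2 : ℤ) + ∑ i, ((m i + 1).choose 2 : ℤ)) := by
      exact_mod_cast hlow
    linarith
  -- upper bound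
  obtain ⟨n, hn⟩ : ∃ n : ℕ, (n : ℤ) = max 0 χ := ⟨(max 0 χ).toNat, Int.toNat_of_nonneg (le_max_left _ _)⟩
  have hnχ : χ ≤ n := by rw [hn]; exact le_max_right _ _
  have hn0 : (n : ℤ) = 0 ∨ (n : ℤ) = χ ∧ 0 < χ := by
    rcases le_or_gt χ 0 with h | h
    · left
      rw [hn, max_eq_left h]
    · right
      exact ⟨by rw [hn, max_eq_right h.le], h⟩
  have hcn := cnd_append (n := n) m
  have hcard : ∀ n : ℕ, (Finset.univ.filter fun i : Fin (r + n) =>
      Fin.append m (fun _ : Fin n => 1) i % 6 = 2 ∨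
      Fin.append m (fun _ : Fin n => 1) i % 6 = 3).card =
      (Finset.univ.filter fun i => m i % 6 = 2 ∨ m i % 6 = 3).card := by
    intro n
    rw [Finset.card_filter, Finset.card_filter, Fin.sum_univ_add]
    simp
  have hup : Module.finrank K (LS δ (Fin.append M m) P) ≤ n := by
    -- the arrangement with all levels
    have caseA : ∀ (Y d : ℕ) (ml : Fin 9 → ℤ), 0 < d → d ≤ 2 → (∀ l, 0 ≤ ml l ∧ ml l ≤ 1) →
        (e : ℤ) = 3 * d - ∑ l, ml l → (∀ l, (M l : ℤ) = Y + ml l) → δ = 3 * Y + d →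
        χ = e * (Y + 1) - cnd m → Module.finrank K (LS δ (Fin.append M m) P) ≤ n := by
      intro Y d ml hd0 hd2 hml heq hMl hδY hχY
      have hT : e * (Y + 1) ≤ cnd (Fin.append m (fun _ : Fin n => 1)) := by
        rw [hcn]
        have : ((e * (Y + 1) : ℕ) : ℤ) ≤ ((cnd m + n : ℕ) : ℤ) := by
          push_cast
          linarith
        exact_mod_cast this
      obtain ⟨p, s, hps, hN⟩ := comb_small e he he3 _ (Y + 1) hT (by
        intro he3'
        rcases hn0 with h0 | ⟨h1, h2⟩
        · rcases hex he3' with h3 | h3 | h3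
          · left
            rw [hcn]
            intro h4
            apply h3
            have h5 : ((cnd m + n : ℕ) : ℤ) = ((3 * (Y + 1) : ℕ) : ℤ) := by rw [h4]
            push_cast at h5
            rw [hχY, he3']
            push_cast
            linarith
          · right
            left
            obtain ⟨i, hi⟩ := h3
            exact ⟨Fin.castAdd n i, by rwa [Fin.append_left]⟩
          · right
            right
            rwa [hcard]
        · right
          left
          have hn1 : 0 < n := by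
            have : (0 : ℤ) < n := by linarith
            exact_mod_cast this
          exact ⟨Fin.natAdd r ⟨0, hn1⟩, by rw [Fin.append_right]⟩)
      have hMf : (fun l => ((Y : ℤ) + ml l).toNat) = M := by
        funext l
        rw [← hMl l]
        simp
      have h := upper_T P hP Y d hd2 ml
        m e he heq n p s hps (fun _ => Y) (Or.inl fun _ => rfl) hN (by
          intro j hj
          have h1 : ∀ l, (((Y : ℤ) + ml l - j).toNat : ℤ) = Y - j + ml l := by
            intro l
            have := (hml l).1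
            omega
          have h2 : ((∑ l, ((Y : ℤ) + ml l - j).toNat : ℕ) : ℤ) = 9 * (Y - j) + ∑ l, ml l := by
            push_cast
            rw [Finset.sum_congr rfl (fun l _ => h1 l), Finset.sum_add_distrib]
            simp
            ring
          omega)
      rwa [hMf, ← hδY] at h
    have hε1 : ∀ l, 0 ≤ (ε l : ℤ) ∧ (ε l : ℤ) ≤ 1 := by
      intro l
      rcases hε l with h | h <;> rw [h] <;> norm_num
    have hcZ : (c : ℤ) = ∑ l, (ε l : ℤ) := by
      rw [hc]
      push_cast
      rfl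
    have hg' : (3 * g : ℤ) = e + c := by exact_mod_cast hg
    have hgcases : g = 1 ∨ g = 2 ∨ g = 3 ∨ g = 4 := by omega
    rcases hgcases with h | h | h | h
    · refine caseA y 1 (fun l => ε l) (by norm_num) (by norm_num) hε1 ?_ ?_ ?_ ?_
      · rw [← hcZ]
        subst h
        push_cast at hg' ⊢
        linarith
      · intro l
        exact_mod_cast hε' l
      · omega
      · subst h
        push_cast at hχ2
        linarith
    · refine caseA y 2 (fun l => ε l) (by norm_num) (by norm_num) hε1 ?_ ?_ ?_ ?_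
      · rw [← hcZ]
        subst h
        push_cast at hg' ⊢
        linarith
      · intro l
        exact_mod_cast hε' l
      · omega
      · subst h
        push_cast at hχ2
        linarith
    · -- the arrangement with one more condition
      subst h
      have hT : e * (y + 1) + 1 ≤ cnd (Fin.append m (fun _ : Fin n => 1)) := by
        rw [hcn]
        have : ((e * (y + 1) + 1 : ℕ) : ℤ) ≤ ((cnd m + n : ℕ) : ℤ) := by
          push_cast at hχ2 ⊢
          linarith
        exact_mod_cast this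
      obtain ⟨p, s, hps, hN, hN0⟩ := comb_small' e he he3 _ (y + 1) hT
      have hMf : (fun l => (((y + 1 : ℕ) : ℤ) + ((ε l : ℤ) - 1)).toNat) = M := by
        funext l
        have := hε' l
        have := (hε1 l).1
        omega
      have hsum1 : ∑ l, ((ε l : ℤ) - 1) = c - 9 := by
        rw [Finset.sum_sub_distrib, ← hcZ]
        simp
      have h := upper_T P hP (y + 1) 0 (by norm_num) (fun l => (ε l : ℤ) - 1)
        m e he (by rw [hsum1]; push_cast at hg' ⊢; linarith) n p s hps
        (fun ρ => if ρ = 0 then y + 1 else y)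
        (Or.inr ⟨rfl, fun l => by rcases hε l with h | h <;> simp [h], if_pos rfl, fun ρ hρ => by
          rw [if_neg hρ.ne']⟩) (by
          intro ρ hρ
          by_cases h0 : ρ = 0
          · subst h0
            rw [if_pos rfl]
            exact hN0
          · rw [if_neg h0]
            exact hN ρ hρ) (by
          intro j hj
          have h1 : ∀ l, (((y + 1 : ℕ) : ℤ) + ((ε l : ℤ) - 1) - j).toNat ≤ y + 1 - j := by
            intro l
            have := (hε1 l).2
            omega
          calc ∑ l, (((y + 1 : ℕ) : ℤ) + ((ε l : ℤ) - 1) - j).toNat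
              ≤ ∑ _l : Fin 9, (y + 1 - j) := Finset.sum_le_sum fun l _ => h1 l
            _ = 9 * (y + 1 - j) := by simp
            _ ≤ _ := by omega)
      rw [hMf] at h
      have h2 : 3 * (y + 1) + 0 = δ := by omega
      rwa [h2] at h
    · -- c = 9
      have hc9' : c = 9 ∧ e = 3 := by omega
      have hε9 : ∀ l, ε l = 1 := by
        intro l
        by_contra hl
        have h0 : ε l = 0 := (hε l).resolve_right hl
        have h1 : ∑ l, ε l < ∑ _l : Fin 9, 1 := Finset.sum_lt_sum (fun l _ => by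
          rcases hε l with h | h <;> omega) ⟨l, Finset.mem_univ l, by omega⟩
        simp only [Finset.sum_const, Finset.card_univ, Fintype.card_fin, smul_eq_mul] at h1
        omega
      refine caseA (y + 1) 1 (fun _ => 0) (by norm_num) (by norm_num) (fun _ => by norm_num)
        ?_ ?_ ?_ ?_
      · rw [hc9'.2]
        simp
      · intro l
        rw [hε' l, hε9 l]
        push_cast
        ring
      · omega
      · subst h
        rw [hc9'.2] at hχ2 ⊢
        push_cast at hχ2 ⊢
        linarith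
  refine le_antisymm ?_ (max_le (by positivity) hlow')
  rw [← hn]
  exact_mod_cast hup

end ShghT
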