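import Pool.Agent.ShghT.Defs

/-!
# A set of exponents detecting a finite dimensional space of polynomials
-/

namespace ShghT

private theorem Pivot_aux {K σ : Type*} [Field K] (n : ℕ) :
    ∀ (W : Submodule K (MvPolynomial σ K)) [Module.Finite K W], Module.finrank K W = n →
      ∃ Z : Finset (σ →₀ ℕ), Z.card ≤ n ∧
        ∀ f ∈ W, (∀ e ∈ Z, f.coeff e = 0) → f = 0 := by
  classical
  induction n using Nat.strong_induction_on with
  | _ n ih =>
    intro W _ hn
    by_cases hW : ∀ f ∈ W, f = 0
    · exact ⟨∅, by simp, fun f hf _ => hW f hf⟩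
    · push Not at hW
      obtain ⟨f, hf, hf0⟩ := hW
      obtain ⟨e, he⟩ := MvPolynomial.ne_zero_iff.1 hf0
      set W' : Submodule K (MvPolynomial σ K) :=
        W ⊓ LinearMap.ker (MvPolynomial.lcoeff K e) with hW'
      have hlt : W' < W := by
        refine lt_of_le_of_ne inf_le_left fun h => ?_
        have : f ∈ W' := by rw [h]; exact hf
        exact he this.2
      have hfin : Module.Finite K W' :=
        Submodule.finiteDimensional_of_le (inf_le_left : W' ≤ W)
      have h1 : Module.finrank K W' < n := by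
        rw [← hn]
        exact Submodule.finrank_lt_finrank_of_lt hlt
      obtain ⟨Z, hZ1, hZ2⟩ := ih _ h1 W' rfl
      refine ⟨insert e Z, ?_, ?_⟩
      · exact (Finset.card_insert_le e Z).trans (by omega)
      · intro g hg hgz
        refine hZ2 g ⟨hg, ?_⟩ fun e' he' => hgz e' (Finset.mem_insert_of_mem he')
        exact hgz e (Finset.mem_insert_self e Z)

theorem pivot {K σ : Type*} [Field K] (W : Submodule K (MvPolynomial σ K))
    [Module.Finite K W] : ∃ Z : Finset (σ →₀ ℕ), Z.card ≤ Module.finrank K W ∧
      ∀ f ∈ W, (∀ e ∈ Z, f.coeff e = 0) → f = 0 := Pivot_aux _ W rfl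

end ShghT
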