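import Pool.Agent.ShghT.Semi

/-!
# Two fat points impose independent conditions
-/

namespace ShghT

open MvPolynomial

section twoaux

variable {K : Type*} [Field K]

/-- The translation `X 0 ↦ X 0 + a`, `X 1 ↦ X 1 + b`. -/
private noncomputable def twoShift (a b : K) :
    MvPolynomial (Fin 2) K →ₐ[K] MvPolynomial (Fin 2) K := aeval ![X 0 + C a, X 1 + C b]

private theorem twoShift_X0 (a b : K) : twoShift a b (X 0) = X 0 + C a := by
  simp [twoShift]

private theorem twoShift_X1 (a b : K) : twoShift a b (X 1) = X 1 + C b := by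
  simp [twoShift]

private theorem twoShift_C (a b c : K) : twoShift a b (C c) = C c := by
  simp [twoShift]

private theorem two_coeff (a b : K) (m : ℕ) (f : MvPolynomial (Fin 2) K)
    (h : f ∈ (pt a b) ^ m) (x : Fin 2 →₀ ℕ) (hx : x.degree < m) :
    (twoShift a b f).coeff x = 0 := by
  revert x
  rw [← mem_pow_idealOfVars_iff']
  have h1 := Ideal.mem_map_of_mem (twoShift a b) h
  rw [Ideal.map_pow] at h1
  refine Ideal.pow_right_mono ?_ m h1
  rw [pt, Ideal.map_span, Ideal.span_le]
  rintro _ ⟨g, hg, rfl⟩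
  rcases hg with rfl | rfl
  · rw [map_sub, twoShift_X0, twoShift_C, add_sub_cancel_right]
    exact Ideal.subset_span ⟨0, rfl⟩
  · rw [map_sub, twoShift_X1, twoShift_C, add_sub_cancel_right]
    exact Ideal.subset_span ⟨1, rfl⟩

/-- The exponents of degree `< m`. -/
private noncomputable def twoT (m : ℕ) : Finset (Fin 2 →₀ ℕ) :=
  (Finsupp.finite_of_degree_lt (σ := Fin 2) m).toFinset

private theorem mem_twoT {m : ℕ} {e : Fin 2 →₀ ℕ} : e ∈ twoT m ↔ e.degree < m := by
  simp [twoT]

private theorem two_degree (e : Fin 2 →₀ ℕ) : e.degree = e 0 + e 1 := by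
  rw [Finsupp.degree_eq_sum, Fin.sum_univ_two]

private theorem card_twoT (m : ℕ) : (twoT m).card = (m + 1).choose 2 := by
  have h1 : (twoT m).card =
      ((Finset.range m).sigma fun n => Finset.HasAntidiagonal.antidiagonal n).card := by
    refine Finset.card_bij (fun x _ => ⟨x.degree, (x 0, x 1)⟩) ?_ ?_ ?_
    · intro x hx
      rw [Finset.mem_sigma, Finset.mem_range, Finset.HasAntidiagonal.mem_antidiagonal]
      exact ⟨mem_twoT.1 hx, (two_degree x).symm⟩
    · intro x _ y _ hxy
      have h2 : (x 0, x 1) = (y 0, y 1) := by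
        have := congrArg (fun z : (_ : ℕ) × (ℕ × ℕ) => z.2) hxy
        simpa using this
      ext i
      fin_cases i
      · exact congrArg Prod.fst h2
      · exact congrArg Prod.snd h2
    · rintro ⟨n, a, b⟩ h
      rw [Finset.mem_sigma, Finset.mem_range, Finset.HasAntidiagonal.mem_antidiagonal] at h
      simp only at h
      have h3 : (Finsupp.equivFunOnFinite.symm ![a, b] : Fin 2 →₀ ℕ).degree = n := by
        rw [two_degree]
        simpa using h.2
      refine ⟨Finsupp.equivFunOnFinite.symm ![a, b], mem_twoT.2 ?_, ?_⟩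
      · rw [h3]; exact h.1
      · rw [h3]
        simp
  rw [h1, Finset.card_sigma]
  simp only [Finset.Nat.card_antidiagonal]
  clear h1
  induction m with
  | zero => rfl
  | succ m ih =>
    rw [Finset.sum_range_succ, ih, Nat.choose_succ_succ' (m + 1) 1, Nat.choose_one_right]
    ring

/-- Polynomials of degree `< m` in `X 0 - a`, `X 1 - b`. -/
private noncomputable def twoG (a b : K) (m : ℕ) :
    (twoT m → K) →ₗ[K] MvPolynomial (Fin 2) K where
  toFun c := ∑ x : twoT m, C (c x) *
    ((X 0 - C a) ^ ((x : Fin 2 →₀ ℕ) 0) * (X 1 - C b) ^ ((x : Fin 2 →₀ ℕ) 1))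
  map_add' := fun c d => by
    rw [← Finset.sum_add_distrib]
    exact Finset.sum_congr rfl fun e _ => by rw [Pi.add_apply, map_add, add_mul]
  map_smul' := fun r c => by
    rw [RingHom.id_apply, Finset.smul_sum]
    exact Finset.sum_congr rfl fun e _ => by
      rw [Pi.smul_apply, smul_eq_mul, C_mul, smul_eq_C_mul, mul_assoc]

private theorem twoG_apply (a b : K) (m : ℕ) (c : twoT m → K) :
    twoG a b m c = ∑ x : twoT m, C (c x) *
    ((X 0 - C a) ^ ((x : Fin 2 →₀ ℕ) 0) * (X 1 - C b) ^ ((x : Fin 2 →₀ ℕ) 1)) := rfl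

private theorem twoG_shift (a b : K) (m : ℕ) (c : twoT m → K) :
    twoShift a b (twoG a b m c) = ∑ x : twoT m, monomial (x : Fin 2 →₀ ℕ) (c x) := by
  rw [twoG_apply, map_sum]
  refine Finset.sum_congr rfl fun x _ => ?_
  rw [map_mul, map_mul, map_pow, map_pow, map_sub, map_sub, twoShift_X0, twoShift_X1,
    twoShift_C, twoShift_C, twoShift_C, add_sub_cancel_right, add_sub_cancel_right,
    monomial_eq, Finsupp.prod_fintype _ _ (fun i => pow_zero _), Fin.prod_univ_two]

private theorem twoG_zero (a b : K) (m : ℕ) (c : twoT m → K)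
    (h : twoG a b m c ∈ pt a b ^ m) : c = 0 := by
  classical
  ext x
  have h1 := two_coeff a b m _ h x (mem_twoT.1 x.2)
  rw [twoG_shift, coeff_sum, Finset.sum_eq_single x] at h1
  · rwa [coeff_monomial, if_pos rfl] at h1
  · intro e' _ he'
    rw [coeff_monomial, if_neg fun h => he' (Subtype.ext h)]
  · intro h
    exact absurd (Finset.mem_univ _) h

private theorem two_deg_lin (i : Fin 2) (a : K) :
    (X i - C a : MvPolynomial (Fin 2) K).totalDegree ≤ 1 := by
  refine (totalDegree_sub _ _).trans ?_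
  rw [totalDegree_C, totalDegree_X]
  exact (max_eq_left (Nat.zero_le 1)).le

private theorem twoG_degree (a b : K) (m : ℕ) (c : twoT m → K) :
    (twoG a b m c).totalDegree ≤ m - 1 := by
  rw [twoG_apply]
  refine totalDegree_finsetSum_le fun x _ => ?_
  refine (totalDegree_mul _ _).trans ?_
  rw [totalDegree_C, zero_add]
  refine (totalDegree_mul _ _).trans ?_
  have h0 := (totalDegree_pow (X 0 - C a : MvPolynomial (Fin 2) K) ((x : Fin 2 →₀ ℕ) 0)).trans
    (Nat.mul_le_mul_left _ (two_deg_lin 0 a))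
  have h1 := (totalDegree_pow (X 1 - C b : MvPolynomial (Fin 2) K) ((x : Fin 2 →₀ ℕ) 1)).trans
    (Nat.mul_le_mul_left _ (two_deg_lin 1 b))
  have h2 := mem_twoT.1 x.2
  rw [two_degree] at h2
  omega

private theorem twoG_empty (a b : K) (c : twoT 0 → K) : twoG a b 0 c = 0 := by
  rw [twoG_apply]
  refine Finset.sum_eq_zero fun x _ => ?_
  exact absurd (mem_twoT.1 x.2) (Nat.not_lt_zero _)

private theorem two_degree_mul (a b : K) (m m' n : ℕ) (hn : m + m' ≤ n + 1) (c : twoT m → K)
    (l : MvPolynomial (Fin 2) K) (hl : l.totalDegree ≤ 1) :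
    (twoG a b m c * l ^ m').totalDegree ≤ n := by
  rcases Nat.eq_zero_or_pos m with rfl | hm
  · rw [twoG_empty, zero_mul, totalDegree_zero]
    exact Nat.zero_le _
  · refine (totalDegree_mul _ _).trans ?_
    have h0 := (totalDegree_pow l m').trans (Nat.mul_le_mul_left _ hl)
    have h1 := twoG_degree a b m c
    omega

private theorem two_cancel {R : Type*} [CommRing R] (I : Ideal R) (l A : R) (hl : l ∈ I)
    (k m : ℕ) (h : A * (1 - l) ^ m ∈ I ^ k) : A ∈ I ^ k := by
  have h1 : IsCoprime ((1 - l) ^ m) (l ^ k) := by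
    apply IsCoprime.pow
    exact ⟨1, 1, by ring⟩
  obtain ⟨u, v, huv⟩ := h1
  have h2 : A = u * (A * (1 - l) ^ m) + v * A * l ^ k := by
    calc A = A * (u * (1 - l) ^ m + v * l ^ k) := by rw [huv, mul_one]
      _ = _ := by ring
  rw [h2]
  exact Ideal.add_mem _ (Ideal.mul_mem_left _ _ h)
    (Ideal.mul_mem_left _ _ (Ideal.pow_mem_pow hl k))

end twoaux

theorem two_points {K : Type*} [Field K] {s : ℕ} (P : Fin s → Fin 2 → K) (n : ℕ) (μ : Fin s → ℕ)
    (i j : Fin s) (hij : i ≠ j) (hP : P i ≠ P j) (hμ : ∀ l, l ≠ i → l ≠ j → μ l = 0)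
    (hn : μ i + μ j ≤ n + 1) :
    Module.finrank K (LS n μ P) + ∑ l, (μ l + 1).choose 2 ≤ (n + 2).choose 2 := by
  classical
  have hsum : ∑ l, (μ l + 1).choose 2 = (μ i + 1).choose 2 + (μ j + 1).choose 2 := by
    rw [Finset.sum_eq_add i j hij]
    · rintro l _ ⟨hli, hlj⟩
      rw [hμ l hli hlj]
      rfl
    · intro h
      exact absurd (Finset.mem_univ _) h
    · intro h
      exact absurd (Finset.mem_univ _) h
  rw [hsum]
  obtain ⟨a, ha⟩ : ∃ a, P i a ≠ P j a := by
    by_contra hcon
    push Not at hcon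
    exact hP (funext hcon)
  have ha' : P j a - P i a ≠ 0 := sub_ne_zero.2 ha.symm
  set l : MvPolynomial (Fin 2) K := C ((P j a - P i a)⁻¹) * (X a - C (P i a)) with hl
  have hpt : ∀ q : Fin s, ∀ a : Fin 2, (X a - C (P q a) : MvPolynomial (Fin 2) K) ∈
      pt (P q 0) (P q 1) := by
    intro q a
    fin_cases a
    · exact Ideal.subset_span (Or.inl rfl)
    · exact Ideal.subset_span (Or.inr rfl)
  have hli : l ∈ pt (P i 0) (P i 1) := Ideal.mul_mem_left _ _ (hpt i a)
  have hl1 : 1 - l = -C ((P j a - P i a)⁻¹) * (X a - C (P j a)) := by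
    have h1 : (C ((P j a - P i a)⁻¹) * (C (P j a) - C (P i a)) : MvPolynomial (Fin 2) K) = 1 := by
      rw [← C_sub, ← C_mul, inv_mul_cancel₀ ha', C_1]
    calc 1 - l = C ((P j a - P i a)⁻¹) * (C (P j a) - C (P i a)) - l := by rw [h1]
      _ = _ := by rw [hl]; ring
  have hlj : 1 - l ∈ pt (P j 0) (P j 1) := by
    rw [hl1]
    exact Ideal.mul_mem_left _ _ (hpt j a)
  have hdl : l.totalDegree ≤ 1 := by
    refine (totalDegree_mul _ _).trans ?_
    rw [totalDegree_C, zero_add]
    exact two_deg_lin a _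
  have hdl1 : (1 - l).totalDegree ≤ 1 := by
    refine (totalDegree_sub _ _).trans ?_
    rw [totalDegree_one]
    exact max_le (Nat.zero_le _) hdl
  -- the linear map
  let Φ : (LS n μ P × ((twoT (μ i) → K) × (twoT (μ j) → K))) →ₗ[K] MvPolynomial (Fin 2) K :=
    (LS n μ P).subtype.coprod
      (((LinearMap.mulRight K ((1 - l) ^ μ j)).comp (twoG (P i 0) (P i 1) (μ i))).coprod
        ((LinearMap.mulRight K (l ^ μ i)).comp (twoG (P j 0) (P j 1) (μ j))))
  have hΦ : ∀ z, Φ z = (z.1 : MvPolynomial (Fin 2) K) +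
      (twoG (P i 0) (P i 1) (μ i) z.2.1 * (1 - l) ^ μ j +
        twoG (P j 0) (P j 1) (μ j) z.2.2 * l ^ μ i) := fun z => rfl
  have hdeg : ∀ z, (Φ z).totalDegree ≤ n := by
    intro z
    rw [hΦ]
    refine (totalDegree_add _ _).trans (max_le z.1.2.1 ((totalDegree_add _ _).trans (max_le ?_ ?_)))
    · exact two_degree_mul _ _ _ _ n hn _ _ hdl1
    · exact two_degree_mul _ _ _ _ n (by omega) _ _ hdl
  have hinj : ∀ z, Φ z = 0 → z = 0 := by
    rintro ⟨f, c, d⟩ hz
    rw [hΦ] at hz
    simp only at hz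
    have hc : c = 0 := by
      apply twoG_zero (P i 0) (P i 1) (μ i)
      apply two_cancel _ l _ hli _ (μ j)
      have h1 : twoG (P i 0) (P i 1) (μ i) c * (1 - l) ^ μ j =
          -(f : MvPolynomial (Fin 2) K) - twoG (P j 0) (P j 1) (μ j) d * l ^ μ i := by
        linear_combination hz
      rw [h1]
      exact Ideal.sub_mem _ (Ideal.neg_mem_iff _ |>.2 (f.2.2 i))
        (Ideal.mul_mem_left _ _ (Ideal.pow_mem_pow hli _))
    have hd : d = 0 := by
      apply twoG_zero (P j 0) (P j 1) (μ j)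
      apply two_cancel _ (1 - l) _ hlj _ (μ i)
      rw [sub_sub_cancel]
      have h1 : twoG (P j 0) (P j 1) (μ j) d * l ^ μ i =
          -(f : MvPolynomial (Fin 2) K) - twoG (P i 0) (P i 1) (μ i) c * (1 - l) ^ μ j := by
        linear_combination hz
      rw [h1]
      exact Ideal.sub_mem _ (Ideal.neg_mem_iff _ |>.2 (f.2.2 j))
        (Ideal.mul_mem_left _ _ (Ideal.pow_mem_pow hlj _))
    subst hc
    subst hd
    rw [map_zero, map_zero, zero_mul, zero_mul, add_zero, add_zero] at hz
    have hf : f = 0 := Subtype.ext hz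
    rw [hf]
    rfl
  -- coefficients
  let Ψ : (LS n μ P × ((twoT (μ i) → K) × (twoT (μ j) → K))) →ₗ[K] (twoT (n + 1) → K) :=
    (LinearMap.pi fun e : twoT (n + 1) => lcoeff K (e : Fin 2 →₀ ℕ)).comp Φ
  have hΨ : Function.Injective Ψ := by
    rw [← LinearMap.ker_eq_bot, LinearMap.ker_eq_bot']
    intro z hz
    apply hinj
    ext e
    rw [coeff_zero]
    by_cases he : e ∈ twoT (n + 1)
    · exact congrFun hz ⟨e, he⟩
    · rw [mem_twoT, Nat.lt_succ_iff] at he
      apply coeff_eq_zero_of_totalDegree_lt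
      refine lt_of_le_of_lt (hdeg z) ?_
      rw [not_le] at he
      exact he
  have h1 := LinearMap.finrank_le_finrank_of_injective hΨ
  rw [Module.finrank_prod, Module.finrank_prod, Module.finrank_fintype_fun_eq_card,
    Module.finrank_fintype_fun_eq_card, Module.finrank_fintype_fun_eq_card, Fintype.card_coe,
    Fintype.card_coe, Fintype.card_coe, card_twoT, card_twoT, card_twoT] at h1
  exact h1

end ShghT
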