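import Pool.Agent.ShghT.EStep
import Pool.Agent.ShghT.Two
import Pool.Agent.ShghT.Inj
import Pool.Agent.ShghT.Pivot

/-!
# Eight fat points on the cubic impose independent conditions
-/

namespace ShghT

variable {k : Type*} [Field k]

private theorem nine_sum (f : Fin 9 → ℕ) :
    ∑ l, f l = f 0 + f 1 + f 2 + f 3 + f 4 + f 5 + f 6 + f 7 + f 8 := by
  rw [Fin.sum_univ_castSucc, Fin.sum_univ_eight]
  rfl

private theorem nine_choose (n : ℕ) (hn : 3 ≤ n) :
    (n + 2).choose 2 = (n - 3 + 2).choose 2 + 3 * n := by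
  obtain ⟨m, rfl⟩ := Nat.exists_eq_add_of_le hn
  rw [show 3 + m + 2 = m + 1 + 1 + 1 + 1 + 1 by ring, show 3 + m - 3 + 2 = m + 1 + 1 by omega]
  simp only [Nat.choose_succ_succ' _ 1, Nat.choose_one_right]
  ring

private theorem nine_choose' (m : ℕ) : (m + 1).choose 2 = (m - 1 + 1).choose 2 + m := by
  rcases Nat.eq_zero_or_pos m with rfl | h
  · rfl
  · obtain ⟨m', rfl⟩ := Nat.exists_eq_add_of_le' h
    rw [Nat.add_sub_cancel, Nat.choose_succ_succ' (m' + 1) 1, Nat.choose_one_right]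
    ring

private theorem nine_pick {μ : Fin 9 → ℕ} {i0 j0 k0 : Fin 9} (hij : i0 ≠ j0) (hik : i0 ≠ k0)
    (hjk : j0 ≠ k0) (hi : μ i0 ≠ 0) (hj : μ j0 ≠ 0) (hk : μ k0 ≠ 0) (i j : Fin 9) :
    ∃ p, p ≠ i ∧ p ≠ j ∧ μ p ≠ 0 := by
  by_cases h1 : i0 ≠ i ∧ i0 ≠ j
  · exact ⟨i0, h1.1, h1.2, hi⟩
  by_cases h2 : j0 ≠ i ∧ j0 ≠ j
  · exact ⟨j0, h2.1, h2.2, hj⟩
  refine ⟨k0, ?_, ?_, hk⟩
  · rintro rfl
    rw [not_and_or, not_not, not_not] at h1 h2
    rcases h1 with h1 | h1
    · exact hik h1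
    · rcases h2 with h2 | h2
      · exact hjk h2
      · exact hij (h1.trans h2.symm)
  · rintro rfl
    rw [not_and_or, not_not, not_not] at h1 h2
    rcases h1 with h1 | h1
    · rcases h2 with h2 | h2
      · exact hij (h1.trans h2.symm)
      · exact hjk h2
    · exact hik h1

private theorem nine_std {μ : Fin 9 → ℕ} {n : ℕ}
    (hstd : ∀ i j l, i ≠ j → i ≠ l → j ≠ l → μ i + μ j + μ l ≤ n)
    {i0 j0 k0 : Fin 9} (hij : i0 ≠ j0) (hik : i0 ≠ k0)
    (hjk : j0 ≠ k0) (hi : μ i0 ≠ 0) (hj : μ j0 ≠ 0) (hk : μ k0 ≠ 0) (i j l : Fin 9)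
    (h1 : i ≠ j) (h2 : i ≠ l) (h3 : j ≠ l) :
    (μ i - 1) + (μ j - 1) + (μ l - 1) ≤ n - 3 := by
  have hn := hstd i0 j0 k0 hij hik hjk
  have two : ∀ i j : Fin 9, i ≠ j → μ i + μ j + 1 ≤ n := by
    intro i j hij'
    obtain ⟨p, hp1, hp2, hp3⟩ := nine_pick hij hik hjk hi hj hk i j
    have := hstd i j p hij' hp1.symm hp2.symm
    omega
  have one : ∀ i : Fin 9, μ i + 2 ≤ n := by
    intro i
    obtain ⟨p, hp1, _, hp3⟩ := nine_pick hij hik hjk hi hj hk i i
    have := two i p hp1.symm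
    omega
  have a1 := hstd i j l h1 h2 h3
  have b1 := two i j h1
  have b2 := two i l h2
  have b3 := two j l h3
  have c1 := one i
  have c2 := one j
  have c3 := one l
  omega

private theorem nine_lt {μ : Fin 9 → ℕ} {n : ℕ}
    (hstd : ∀ i j l, i ≠ j → i ≠ l → j ≠ l → μ i + μ j + μ l ≤ n)
    {i0 j0 k0 : Fin 9} (hij : i0 ≠ j0) (hik : i0 ≠ k0)
    (hjk : j0 ≠ k0) (hi : μ i0 ≠ 0) (hj : μ j0 ≠ 0) (hk : μ k0 ≠ 0) (l0 : Fin 9)
    (h0 : μ l0 = 0) : ∑ l, μ l < 3 * n := by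
  set σ := Equiv.swap (0 : Fin 9) l0 with hσ
  have e : ∑ l, μ l = ∑ l, μ (σ l) := (Equiv.sum_comp σ μ).symm
  have e0 : σ 0 = l0 := Equiv.swap_apply_left _ _
  rw [e, nine_sum, e0, h0]
  have hne : ∀ a b : Fin 9, a ≠ b → σ a ≠ σ b := fun a b h => σ.injective.ne h
  obtain ⟨p, hp1, hp2, hp3⟩ := nine_pick hij hik hjk hi hj hk (σ 1) (σ 2)
  have a1 := hstd (σ 1) (σ 2) p (hne _ _ (by decide)) hp1.symm hp2.symm
  have a2 := hstd (σ 3) (σ 4) (σ 5) (hne _ _ (by decide)) (hne _ _ (by decide))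
    (hne _ _ (by decide))
  have a3 := hstd (σ 6) (σ 7) (σ 8) (hne _ _ (by decide)) (hne _ _ (by decide))
    (hne _ _ (by decide))
  omega

theorem nine {N : ℕ} (hN : 0 < N) {α β δ : PowerSeries k}
    (hα : PowerSeries.constantCoeff α = 0) (hβ : PowerSeries.constantCoeff β = -1)
    (hδ : PowerSeries.constantCoeff δ = -1)
    (hrel : iota α * x3 k N 0 ^ 3 + iota β * x3 k N 1 ^ 3 +
      iota δ * x3 k N 2 ^ 3 + x3 k N 0 * x3 k N 1 * x3 k N 2 = 0)
    (a : Fin 9 → kˣ) (ha : Function.Injective a) (n : ℕ) (μ : Fin 9 → ℕ)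
    (hstd : ∀ i j l, i ≠ j → i ≠ l → j ≠ l → μ i + μ j + μ l ≤ n) (l0 : Fin 9) (h0 : μ l0 = 0) :
    Module.finrank (KK k) (LS n μ (fun l => bp (TB N (a l)))) + ∑ l, (μ l + 1).choose 2 ≤
      (n + 2).choose 2 := by
  classical
  induction n using Nat.strong_induction_on generalizing μ with
  | _ n ih =>
    by_cases hc : 2 < (Finset.univ.filter fun l => μ l ≠ 0).card
    · obtain ⟨i0, hi, j0, hj, k0, hk, hij, hik, hjk⟩ := Finset.two_lt_card.mp hc
      rw [Finset.mem_filter] at hi hj hk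
      have hi := hi.2
      have hj := hj.2
      have hk := hk.2
      have hn3 : 3 ≤ n := by
        have := hstd i0 j0 k0 hij hik hjk
        omega
      have hlt := nine_lt hstd hij hik hjk hi hj hk l0 h0
      obtain ⟨e, he⟩ := Nat.exists_eq_add_of_lt hlt
      have h1 := finrank_estep hN hα hβ hδ hrel a ha n μ (e + 1) (Nat.succ_pos e)
        (by omega) hn3
      have h2 := ih (n - 3) (by omega) (fun l => μ l - 1)
        (fun i j l => nine_std hstd hij hik hjk hi hj hk i j l) (by simp [h0])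
      have h3 : ∑ l, (μ l + 1).choose 2 = ∑ l, (μ l - 1 + 1).choose 2 + ∑ l, μ l := by
        rw [← Finset.sum_add_distrib]
        exact Finset.sum_congr rfl fun l _ => nine_choose' (μ l)
      have h4 := nine_choose n hn3
      rw [h3, h4]
      omega
    · rw [not_lt] at hc
      obtain ⟨T, hT1, hT2⟩ := Finset.exists_superset_card_eq hc (by simp)
      obtain ⟨i, j, hij, rfl⟩ := Finset.card_eq_two.mp hT2
      have hz : ∀ l, l ≠ i → l ≠ j → μ l = 0 := by
        intro l h1 h2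
        by_contra h3
        have := hT1 (Finset.mem_filter.mpr ⟨Finset.mem_univ l, h3⟩)
        rw [Finset.mem_insert, Finset.mem_singleton] at this
        rcases this with h | h
        · exact h1 h
        · exact h2 h
      have hP : bp (TB N (a i)) ≠ bp (TB N (a j)) := by
        intro h
        exact hij (ha (bp_inj hN h))
      obtain ⟨l, hl1, hl2⟩ : ∃ l : Fin 9, l ≠ i ∧ l ≠ j := by
        have : ({i, j} : Finset (Fin 9)).card < (Finset.univ : Finset (Fin 9)).card := by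
          rw [hT2]
          simp
        obtain ⟨l, _, hl⟩ := Finset.exists_mem_notMem_of_card_lt_card this
        rw [Finset.mem_insert, Finset.mem_singleton, not_or] at hl
        exact ⟨l, hl⟩
      have hs := hstd i j l hij hl1.symm hl2.symm
      exact two_points (fun l => bp (TB N (a l))) n μ i j hij hP hz (by omega)

theorem exists_Z {N : ℕ} (hN : 0 < N) {α β δ : PowerSeries k}
    (hα : PowerSeries.constantCoeff α = 0) (hβ : PowerSeries.constantCoeff β = -1)
    (hδ : PowerSeries.constantCoeff δ = -1)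
    (hrel : iota α * x3 k N 0 ^ 3 + iota β * x3 k N 1 ^ 3 +
      iota δ * x3 k N 2 ^ 3 + x3 k N 0 * x3 k N 1 * x3 k N 2 = 0)
    (a : Fin 9 → kˣ) (ha : Function.Injective a) (n : ℕ) (M : Fin 9 → ℕ)
    (hstd : ∀ i j l, i ≠ j → i ≠ l → j ≠ l → M i + M j + M l ≤ n) (y : ℕ) (hy : ∀ l, y ≤ M l)
    (l0 : Fin 9) (h0 : M l0 = y) :
    ∃ Z : Finset (Fin 2 →₀ ℕ), Z.card + ∑ l, (M l - y + 1).choose 2 ≤ (n - 3 * y + 2).choose 2 ∧
      ∀ f ∈ LS n M (fun l => bp (TB N (a l))), f ≠ 0 → (∀ e ∈ Z, f.coeff e = 0) →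
        ¬ Gp (algebraMap (PowerSeries k) (KK k) α) (algebraMap (PowerSeries k) (KK k) β)
          (algebraMap (PowerSeries k) (KK k) δ) ^ y ∣ f := by
  classical
  set α' := algebraMap (PowerSeries k) (KK k) α with hα'
  set β' := algebraMap (PowerSeries k) (KK k) β with hβ'
  set δ' := algebraMap (PowerSeries k) (KK k) δ with hδ'
  have hinj := IsFractionRing.injective (PowerSeries k) (KK k)
  have hδ0 : δ' ≠ 0 := by
    rw [hδ', Ne, map_eq_zero_iff _ hinj]
    rintro rfl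
    rw [map_zero] at hδ
    exact one_ne_zero (neg_eq_zero.1 hδ.symm)
  set P : Fin 9 → Fin 2 → KK k := fun l => bp (TB N (a l)) with hP
  -- multiplication by the power of the cubic
  set L : MvPolynomial (Fin 2) (KK k) →ₗ[KK k] MvPolynomial (Fin 2) (KK k) :=
    LinearMap.mulLeft (KK k) (Gp α' β' δ' ^ y) with hL
  have hLinj : Function.Injective L := by
    intro f g h
    exact mul_left_cancel₀ (pow_ne_zero y (Gp_ne_zero α' β' δ')) h
  set W' : Submodule (KK k) (MvPolynomial (Fin 2) (KK k)) := (LS n M P).comap L with hW'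
  have hW'le : W' ≤ LS (n - 3 * y) (fun l => M l - y) P := by
    intro g hg
    have hg' : Gp α' β' δ' ^ y * g ∈ LS n M P := hg
    rw [mem_LS] at hg' ⊢
    refine ⟨?_, ?_⟩
    · by_cases hg0 : g = 0
      · rw [hg0]
        simp
      · have := totalDegree_Gp_pow_mul α' β' δ' hδ0 y hg0
        omega
    · intro l
      exact colon α' β' δ' _ _ (bp_curve (TB_iota N (a l)) (TB_x3_one N hN (a l)) hrel)
        (bp_smooth' (TB_iota N (a l)) (TB_x3_one N hN (a l)) α (TB_smooth hN (a l) hα)) y _ _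
        (hg'.2 l)
  have hWle : W'.map L ≤ LS n M P := by
    rw [Submodule.map_le_iff_le_comap]
  have hfinW : Module.Finite (KK k) (W'.map L) :=
    Submodule.finiteDimensional_of_le hWle
  obtain ⟨Z, hZ1, hZ2⟩ := pivot (W'.map L)
  have hrk : Module.finrank (KK k) (W'.map L) ≤
      Module.finrank (KK k) (LS (n - 3 * y) (fun l => M l - y) P) := by
    rw [← (Submodule.equivMapOfInjective L hLinj W').finrank_eq]
    exact Submodule.finrank_mono hW'le
  have hnine := nine hN hα hβ hδ hrel a ha (n - 3 * y) (fun l => M l - y) (by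
    intro i j l h1 h2 h3
    have := hstd i j l h1 h2 h3
    have := hy i
    have := hy j
    have := hy l
    omega) l0 (by simp [h0])
  refine ⟨Z, ?_, ?_⟩
  · rw [← hP] at hnine
    omega
  · rintro f hf hf0 hfZ ⟨g, hg⟩
    apply hf0
    refine hZ2 f ⟨g, ?_, hg.symm⟩ hfZ
    show L g ∈ LS n M P
    have : L g = f := hg.symm
    rw [this]
    exact hf

end ShghT
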