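import Pool.Agent.ShghT.CoreA
import Pool.Agent.ShghT.Semi

/-!
# Curves not containing the cubic
-/

namespace ShghT

variable {k : Type*} [Field k]

/-- Every number up to the sum is the sum of a smaller family. -/
private theorem ord_smaller {s : ℕ} (μ : Fin s → ℕ) (m : ℕ) (hm : m ≤ ∑ l, μ l) :
    ∃ ν : Fin s → ℕ, (∀ l, ν l ≤ μ l) ∧ ∑ l, ν l = m := by
  induction m with
  | zero => exact ⟨fun _ => 0, fun _ => Nat.zero_le _, by simp⟩
  | succ m ih =>
    obtain ⟨ν, h1, h2⟩ := ih (by omega)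
    obtain ⟨i, _, hi⟩ := Finset.exists_lt_of_sum_lt (s := Finset.univ) (f := ν) (g := μ) (by omega)
    refine ⟨Function.update ν i (ν i + 1), ?_, ?_⟩
    · intro l
      by_cases hl : l = i
      · subst hl
        rw [Function.update_self]
        omega
      · rw [Function.update_of_ne hl]
        exact h1 l
    · rw [Finset.sum_update_of_mem (Finset.mem_univ i)]
      have h3 := Finset.add_sum_erase Finset.univ ν (Finset.mem_univ i)
      rw [Finset.sdiff_singleton_eq_erase]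
      omega

/-- The product of the theta functions has the right order at each point. -/
private theorem ord_prod {N : ℕ} (hN : 0 < N) (a : Fin 9 → kˣ) (ha : Function.Injective a)
    (ν : Fin 9 → ℕ) (l : Fin 9) : ∃ ε : PowerSeries (PowerSeries k), IsUnit ε ∧
      Ta (a l) (∏ i, th N (a i) ^ ν i) = PowerSeries.X ^ ν l * ε := by
  obtain ⟨η, hη, h1⟩ := Ta_th_self hN (a l)
  refine ⟨η ^ ν l * ∏ i ∈ Finset.univ.erase l, Ta (a l) (th N (a i)) ^ ν i, ?_, ?_⟩
  · refine (hη.pow _).mul ?_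
    refine Finset.prod_induction _ (fun x => IsUnit x) (fun x y hx hy => hx.mul hy) isUnit_one ?_
    intro i hi
    exact (isUnit_Ta_th hN (fun h => (Finset.ne_of_mem_erase hi) (ha h))).pow _
  · rw [map_prod, ← Finset.mul_prod_erase Finset.univ _ (Finset.mem_univ l)]
    simp only [map_pow]
    rw [h1, mul_pow]
    ring

theorem ord_bound {N : ℕ} (hN : 0 < N) {α β δ : PowerSeries k}
    (hα : PowerSeries.constantCoeff α = 0) (hβ : PowerSeries.constantCoeff β = -1)
    (hδ : PowerSeries.constantCoeff δ = -1)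
    (hrel : iota α * x3 k N 0 ^ 3 + iota β * x3 k N 1 ^ 3 +
      iota δ * x3 k N 2 ^ 3 + x3 k N 0 * x3 k N 1 * x3 k N 2 = 0)
    (a : Fin 9 → kˣ) (ha : Function.Injective a) (n : ℕ) (μ : Fin 9 → ℕ)
    (g : MvPolynomial (Fin 2) (KK k)) (hg : g ∈ LS n μ (fun l => bp (TB N (a l))))
    (hG : ¬ Gp (algebraMap (PowerSeries k) (KK k) α) (algebraMap (PowerSeries k) (KK k) β)
        (algebraMap (PowerSeries k) (KK k) δ) ∣ g) : ∑ l, μ l ≤ 3 * n := by
  obtain ⟨hgd, hgp⟩ := mem_LS.1 hg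
  obtain ⟨c, hc, g', hg'⟩ := exists_scale (S := PowerSeries k) (K := KK k) 0 (fun _ => g)
  have hmap := hg' 0 le_rfl
  have hc' : algebraMap (PowerSeries k) (KK k) c ≠ 0 := by
    rw [Ne, map_eq_zero_iff _ (IsFractionRing.injective (PowerSeries k) (KK k))]
    exact hc
  have hdeg : (g' 0).totalDegree ≤ n := (totalDegree_of_map _ _ hmap).trans hgd
  by_contra hlt
  rw [not_le] at hlt
  have hPhi : Phi N n (g' 0) ≠ 0 := by
    intro h0
    exact hG (map_dvd α β δ _ hc' g hmap (Phi_kernel hN hα hβ hδ hrel hdeg h0))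
  obtain ⟨ν, hle, hsum⟩ := ord_smaller μ (3 * n) hlt.le
  obtain ⟨l, _, hl⟩ := Finset.exists_lt_of_sum_lt (s := Finset.univ) (f := ν) (g := μ) (by omega)
  have hord : ∀ l, (PowerSeries.X : PowerSeries (PowerSeries k)) ^ μ l ∣
      Ta (a l) (Phi N n (g' 0)) := fun l =>
    base_order hN (a l) (μ l) n (g' 0) hdeg _ g hmap (hgp l)
  have h1 : IsTh N (0 + ∑ l, ν l) 1 (Phi N n (g' 0)) := by
    rw [zero_add, hsum]
    exact Phi_isTh hN hdeg
  obtain ⟨h, hh, hf⟩ := div_prod hN one_ne_zero Finset.univ a ha.injOn ν h1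
    (fun l _ => (pow_dvd_pow _ (hle l)).trans (hord l))
  obtain ⟨b, hb⟩ := hh.deg_zero hN
  obtain ⟨ε, hε, hprod⟩ := ord_prod hN a ha ν l
  have h2 := hord l
  rw [hf, hb, map_mul, hprod, Ta_iota, mul_assoc] at h2
  have h3 : (PowerSeries.X : PowerSeries (PowerSeries k)) ^ ν l * PowerSeries.X ∣
      PowerSeries.X ^ ν l * (ε * PowerSeries.C b) := by
    rw [← pow_succ]
    exact (pow_dvd_pow _ hl).trans h2
  have h4 := (mul_dvd_mul_iff_left (pow_ne_zero _ PowerSeries.X_ne_zero)).1 h3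
  have h5 : (PowerSeries.X : PowerSeries (PowerSeries k)) ∣ PowerSeries.C b :=
    (hε.dvd_mul_left).1 h4
  rw [PowerSeries.X_dvd_iff] at h5
  have h6 : b = 0 := by simpa using h5
  apply hPhi
  rw [hf, hb, h6, map_zero, mul_zero]

theorem exists_ord {N : ℕ} (hN : 0 < N) {α β δ : PowerSeries k}
    (hα : PowerSeries.constantCoeff α = 0) (hβ : PowerSeries.constantCoeff β = -1)
    (hδ : PowerSeries.constantCoeff δ = -1)
    (hrel : iota α * x3 k N 0 ^ 3 + iota β * x3 k N 1 ^ 3 +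
      iota δ * x3 k N 2 ^ 3 + x3 k N 0 * x3 k N 1 * x3 k N 2 = 0)
    (a : Fin 9 → kˣ) (ha : Function.Injective a) (n : ℕ) (μ : Fin 9 → ℕ)
    (f : MvPolynomial (Fin 2) (KK k)) (hf : f ∈ LS n μ (fun l => bp (TB N (a l)))) (hf0 : f ≠ 0)
    (j : ℕ) (hj : Gp (algebraMap (PowerSeries k) (KK k) α) (algebraMap (PowerSeries k) (KK k) β)
        (algebraMap (PowerSeries k) (KK k) δ) ^ j ∣ f) :
    ∃ o, j ≤ o ∧ 3 * o ≤ n ∧ ∑ l, (μ l - o) ≤ 3 * (n - 3 * o) := by
  classical
  obtain ⟨hfd, hfp⟩ := mem_LS.1 hf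
  have hδ' : algebraMap (PowerSeries k) (KK k) δ ≠ 0 := by
    rw [Ne, map_eq_zero_iff _ (IsFractionRing.injective (PowerSeries k) (KK k))]
    intro h0
    rw [h0, map_zero] at hδ
    exact neg_ne_zero.2 one_ne_zero hδ.symm
  obtain ⟨G, hGdef⟩ : ∃ G, G = Gp (algebraMap (PowerSeries k) (KK k) α)
      (algebraMap (PowerSeries k) (KK k) β) (algebraMap (PowerSeries k) (KK k) δ) := ⟨_, rfl⟩
  rw [← hGdef] at hj
  have hbound : ∀ i, G ^ i ∣ f → 3 * i ≤ n := by
    rintro i ⟨g, hg⟩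
    have hg0 : g ≠ 0 := by
      rintro rfl
      rw [mul_zero] at hg
      exact hf0 hg
    have h1 := totalDegree_Gp_pow_mul (algebraMap (PowerSeries k) (KK k) α)
      (algebraMap (PowerSeries k) (KK k) β) _ hδ' i hg0
    rw [← hGdef, ← hg] at h1
    omega
  have hjn := hbound j hj
  obtain ⟨o, ho⟩ : ∃ o, o = Nat.findGreatest (fun i => G ^ i ∣ f) n := ⟨_, rfl⟩
  have ho1 : G ^ o ∣ f := by
    rw [ho]
    exact Nat.findGreatest_spec (P := fun i => G ^ i ∣ f) (m := 0) (Nat.zero_le _) (by simp)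
  have ho2 : j ≤ o := by
    rw [ho]
    exact Nat.le_findGreatest (by omega) hj
  have ho3 : ¬ G ^ (o + 1) ∣ f := by
    intro h1
    have h2 := hbound _ h1
    have h3 : o + 1 ≤ o := by
      conv_rhs => rw [ho]
      exact Nat.le_findGreatest (by omega) h1
    omega
  have ho4 := hbound o ho1
  obtain ⟨g, hg⟩ := ho1
  have hg0 : g ≠ 0 := by
    rintro rfl
    rw [mul_zero] at hg
    exact hf0 hg
  refine ⟨o, ho2, ho4, ?_⟩
  refine ord_bound hN hα hβ hδ hrel a ha (n - 3 * o) (fun l => μ l - o) g ?_ ?_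
  · rw [mem_LS]
    constructor
    · have h1 := totalDegree_Gp_pow_mul (algebraMap (PowerSeries k) (KK k) α)
        (algebraMap (PowerSeries k) (KK k) β) _ hδ' o hg0
      rw [← hGdef, ← hg] at h1
      omega
    · intro l
      have h2 := hfp l
      rw [hg, hGdef] at h2
      exact colon _ _ _ _ _ (bp_curve (TB_iota N (a l)) (TB_x3_one N hN (a l)) hrel)
        (bp_smooth' (TB_iota N (a l)) (TB_x3_one N hN (a l)) α (TB_smooth hN (a l) hα)) o (μ l) g h2
  · rw [← hGdef]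
    rintro ⟨g2, hg2⟩
    apply ho3
    rw [hg, hg2]
    exact ⟨g2, by ring⟩

end ShghT
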