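import Pool.Agent.ShghT.Main
import Pool.Agent.ShghT.CombC
import Pool.Agent.ShghT.Ord
import Pool.Agent.ShghT.Nine
import Pool.Agent.ShghT.Arith

/-!
# Standard classes: the dimension is the expected one if `|χ| ≥ 2 e²`
-/

namespace ShghT

open MvPolynomial

theorem cnd_append {r n : ℕ} (m : Fin r → ℕ) :
    cnd (Fin.append m (fun _ : Fin n => 1)) = cnd m + n := by
  rw [cnd, Fin.sum_univ_add, cnd]
  simp

theorem upper_gen {F K : Type*} [Field F] [Field K] [Algebra F K] [Infinite K] {r : ℕ}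
    (P : Fin (9 + r) → Fin 2 → K)
    (hP : AlgebraicIndependent F (fun ij : Fin (9 + r) × Fin 2 => P ij.1 ij.2))
    (δ : ℕ) (M : Fin 9 → ℕ) (m : Fin r → ℕ) (e : ℕ) (he : 0 < e) (hδ : 3 * δ = e + ∑ l, M l)
    (n T z : ℕ) (p : Fin (r + n) → ℤ) (s : Fin (r + n) → Bool)
    (hc : ∀ i, 0 < circ e (p i) (s i) ∧ circ e (p i) (s i) < 4 * (e : ℤ))
    (hN : ∀ ρ < e, T ≤ ∑ i, Nr e (Fin.append m (fun _ : Fin n => 1) i) (p i) (s i) ρ)
    (hz : ∀ j : ℕ, j + 1 ≤ T → ∑ l, ((M l : ℤ) - j).toNat ≤ 3 * (δ - 3 * j))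
    (hZ : ∀ (a : Fin 9 → Kˣ), Function.Injective a → ∀ α β δ' : PowerSeries K,
      PowerSeries.constantCoeff α = 0 → PowerSeries.constantCoeff β = -1 →
      PowerSeries.constantCoeff δ' = -1 →
      iota α * x3 K (4 * e) 0 ^ 3 + iota β * x3 K (4 * e) 1 ^ 3 +
        iota δ' * x3 K (4 * e) 2 ^ 3 + x3 K (4 * e) 0 * x3 K (4 * e) 1 * x3 K (4 * e) 2 = 0 →
      ∃ Z : Finset (Fin 2 →₀ ℕ), Z.card ≤ z ∧
        ∀ f ∈ LS δ M (fun l => bp (TB (4 * e) (a l))), f ≠ 0 → (∀ x ∈ Z, f.coeff x = 0) →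
        ¬ Gp (algebraMap (PowerSeries K) (KK K) α) (algebraMap (PowerSeries K) (KK K) β)
          (algebraMap (PowerSeries K) (KK K) δ') ^ T ∣ f) :
    Module.finrank K (LS δ (Fin.append M m) P) ≤ n + z := by
  classical
  obtain ⟨a, ν, t, ha, hν, hdist⟩ := setup (k := K) e (Fin.append m (fun _ : Fin n => 1)) p
  obtain ⟨α, β, δ', hα, hβ, hδ', hrel⟩ := curve_rel K (N := 4 * e) (by omega)
  obtain ⟨Z, hZc, hZ⟩ := hZ a ha α β δ' hα hβ hδ' hrel
  suffices h : ∃ (Q : Fin 9 → Fin 2 → KX K) (R : Fin (r + n) → Fin 2 → KX K),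
      ∀ f ∈ LS δ (Fin.append M (Fin.append m fun _ : Fin n => 1)) (Fin.append Q R),
        (∀ x ∈ Z, f.coeff x = 0) → f = 0 by
    obtain ⟨Q, R, h⟩ := h
    have := finrank_le_of_special P hP δ M m n Z Q R h
    omega
  rcases T with _ | Jm
  · refine ⟨fun l i => algebraMap (Polynomial (KK K)) (KX K)
      (Polynomial.C (bp (TB (4 * e) (a l)) i)),
      fun i j => algebraMap (Polynomial (KK K)) (KX K) 0, ?_⟩
    intro f hf hfZ
    rw [mem_LS_append] at hf
    obtain ⟨hfd, hfQ, hfR⟩ := hf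
    by_contra hf0
    obtain ⟨F, hF0, hFd, hFZ, hFμ⟩ := clear_xi (Fin.append
      (fun l i => Polynomial.C (bp (TB (4 * e) (a l)) i))
      (fun _ _ => 0)) δ (Fin.append M (Fin.append m fun _ : Fin n => 1)) Z f hf0 hfd hfZ (by
        intro i
        refine Fin.addCases (fun i => ?_) (fun i => ?_) i
        · simpa using hfQ i
        · simpa only [Fin.append_right] using hfR i)
    apply hF0
    ext1 l
    rw [Polynomial.coeff_zero]
    by_contra hl
    refine hZ (F.coeff l) ⟨hFd l, fun i => ?_⟩ hl (hFZ l) ?_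
    · refine coeff_mem_pt _ _ _ F ?_ l
      have h := hFμ (Fin.castAdd (r + n) i)
      rw [Fin.append_left, Fin.append_left] at h
      simpa only [Polynomial.map_C] using h
    · rw [pow_zero]
      exact one_dvd _
  · have hM : (fun l => (((0 : ℕ) : ℤ) + (M l : ℤ)).toNat) = M := by
      funext l
      simp
    have hd : 3 * 0 + δ = δ := by omega
    have h := special_empty he 0 δ (fun l => (M l : ℤ)) (by
      have : (3 * δ : ℤ) = e + ∑ l, (M l : ℤ) := by exact_mod_cast hδ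
      linarith) a ha ν hν α β δ' hα hβ hδ' hrel (Fin.append m (fun _ : Fin n => 1)) p s hc t
      hdist Z Jm (by
        rw [hM, hd]
        exact hZ) (by
        intro j hj
        have := hz j (by omega)
        simpa using this) (fun _ => Jm) (Or.inl fun _ => rfl) hN
    rw [hM, hd] at h
    exact h

/-- **Theorem V.** -/
theorem main_V {F K : Type*} [Field F] [Field K] [Algebra F K] {r : ℕ}
    (P : Fin (9 + r) → Fin 2 → K)
    (hP : AlgebraicIndependent F (fun ij : Fin (9 + r) × Fin 2 => P ij.1 ij.2))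
    (δ : ℕ) (M : Fin 9 → ℕ) (m : Fin r → ℕ)
    (hstd : ∀ i j l, i ≠ j → i ≠ l → j ≠ l → M i + M j + M l ≤ δ)
    (e : ℕ) (he : 0 < e) (hδ : 3 * δ = e + ∑ l, M l) (χ : ℤ)
    (hχ : χ = ((δ + 2).choose 2 : ℤ) - ∑ l, ((M l + 1).choose 2 : ℤ) -
      ∑ i, ((m i + 1).choose 2 : ℤ)) (hbig : 2 * (e : ℤ) ^ 2 ≤ |χ|) :
    (Module.finrank K (LS δ (Fin.append M m) P) : ℤ) = max 0 χ := by
  classical
  haveI : Infinite K := infinite_of_algebraicIndependent _ hP
  -- the smallest multiplicity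
  obtain ⟨l0, hl0⟩ := Finite.exists_min M
  set y := M l0 with hy
  obtain ⟨h3y, c, hc1, hc2, hc3, hc4⟩ := arith δ M hstd y hl0 l0 rfl e hδ
  -- lower bound
  have hlow := le_finrank_LS δ (Fin.append M m) P
  rw [Fin.sum_univ_add] at hlow
  simp only [Fin.append_left, Fin.append_right] at hlow
  have hcnd : (cnd m : ℤ) = ∑ i, ((m i + 1).choose 2 : ℤ) := by
    rw [cnd]
    push_cast
    rfl
  have hS : ((∑ l, (M l + 1).choose 2 : ℕ) : ℤ) = ∑ l, ((M l + 1).choose 2 : ℤ) := by
    push_cast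
    rfl
  have hc2' : ((δ + 2).choose 2 : ℤ) = e * y + c + ∑ l, ((M l + 1).choose 2 : ℤ) := by
    rw [← hS]
    exact_mod_cast hc2
  have hχ' : χ = e * y + c - cnd m := by
    rw [hχ, hc2', hcnd]
    ring
  have hlow' : χ ≤ Module.finrank K (LS δ (Fin.append M m) P) := by
    have : ((δ + 2).choose 2 : ℤ) ≤ Module.finrank K (LS δ (Fin.append M m) P) +
        (∑ l, ((M l + 1).choose 2 : ℤ) + ∑ i, ((m i + 1).choose 2 : ℤ)) := by
      exact_mod_cast hlow
    linarith
  have hup : ((Module.finrank K (LS δ (Fin.append M m) P) : ℕ) : ℤ) ≤ max 0 χ := by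
    rcases le_abs.1 hbig with hpos | hneg
    · -- positive
      have hc3' : 2 * (c : ℤ) ≤ e ^ 2 + e + 2 := by exact_mod_cast hc3
      have he1 : (1 : ℤ) ≤ e := by exact_mod_cast he
      obtain ⟨n, hn⟩ : ∃ n : ℕ, (n : ℤ) = e * y - cnd m := by
        refine ⟨(e * y - cnd m : ℤ).toNat, Int.toNat_of_nonneg ?_⟩
        nlinarith
      have hn1 : cnd m + n = e * y := by
        have : (cnd m + n : ℤ) = e * y := by linarith
        exact_mod_cast this
      have hn2 : (e - 1) ^ 2 ≤ n := by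
        have h1 : ((e - 1 : ℕ) : ℤ) = e - 1 := by
          push_cast [he]
          rfl
        have h2 : (((e - 1) ^ 2 : ℕ) : ℤ) ≤ n := by
          push_cast
          rw [h1]
          nlinarith
        exact_mod_cast h2
      obtain ⟨p, s, hps, hN⟩ := comb_fill e he m y hn2 hn1
      have h := upper_gen P hP δ M m e he hδ n y c p s hps hN (by
        intro j hj
        have h1 : ∀ l, ((M l : ℤ) - j).toNat + j = M l := by
          intro l
          have := hl0 l
          omega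
        have h2 : ∑ l, ((M l : ℤ) - j).toNat + 9 * j = ∑ l, M l := by
          rw [← Finset.sum_congr rfl (fun l _ => h1 l), Finset.sum_add_distrib]
          simp
        omega) (by
        intro a ha α β δ' hα hβ hδ' hrel
        obtain ⟨Z, hZ1, hZ2⟩ := exists_Z (N := 4 * e) (by omega) hα hβ hδ' hrel a ha δ M hstd y
          hl0 l0 rfl
        exact ⟨Z, by omega, hZ2⟩)
      have h' : ((Module.finrank K (LS δ (Fin.append M m) P) : ℕ) : ℤ) ≤ n + c := by
        exact_mod_cast h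
      refine le_max_of_le_right ?_
      linarith
    · -- negative
      obtain ⟨J, hJ1, hJ2, hJ3⟩ := arith_J δ M y hl0 l0 rfl e hδ
      have hc4' : (e : ℤ) + 2 ≤ 2 * c := by exact_mod_cast hc4
      have hJ1' : (J : ℤ) ≤ y + e := by exact_mod_cast hJ1
      have he1 : (1 : ℤ) ≤ e := by exact_mod_cast he
      have hS4 : 4 * (e * (J + 1)) + 3 * e ^ 2 ≤
          4 * cnd (Fin.append m (fun _ : Fin 0 => 1)) := by
        rw [cnd_append]
        have : 4 * ((e : ℤ) * (J + 1)) + 3 * e ^ 2 ≤ 4 * (cnd m + 0) := by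
          nlinarith
        exact_mod_cast this
      obtain ⟨p, s, hps, hN⟩ := comb_lo e he _ _ hS4
      have h := upper_gen P hP δ M m e he hδ 0 (J + 1) 0 p s hps hN (fun j hj => hJ2 j (by omega))
        (by
        intro a ha α β δ' hα hβ hδ' hrel
        refine ⟨∅, le_rfl, fun f hf hf0 _ hdvd => ?_⟩
        obtain ⟨o, ho1, ho2, ho3⟩ := exists_ord (N := 4 * e) (by omega) hα hβ hδ' hrel a ha δ M f
          hf hf0 (J + 1) hdvd
        exact hJ3 o (by omega) ho2 ho3)
      have h' : ((Module.finrank K (LS δ (Fin.append M m) P) : ℕ) : ℤ) ≤ 0 := by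
        exact_mod_cast h
      exact le_max_of_le_left h'
  refine le_antisymm hup (max_le (by positivity) hlow')

end ShghT
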