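import Pool.Agent.ShghT.Curve

/-!
# Evaluation of polynomials at formal points of the curve

`T : Bann k N → K[[z]]` is a `k[[π]]`-algebra homomorphism with `T (x3 1)` a unit.
-/

namespace ShghT

variable {k : Type*} [Field k] {N : ℕ} {K : Type*} [Field K] [Algebra (PowerSeries k) K]

/-- The elements `x3 i` of the annulus ring. -/
noncomputable def x3B (k : Type*) [Field k] (N i : ℕ) : Bann k N := ⟨x3 k N i, x3_mem_Bann N i⟩

/-- The elements `th a` of the annulus ring. -/
noncomputable def thB (N : ℕ) (a : kˣ) : Bann k N := ⟨th N a, th_mem_Bann N a⟩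

/-- Constants. -/
noncomputable def iotaB (N : ℕ) (b : PowerSeries k) : Bann k N := ⟨iota b, iota_mem_Bann N b⟩

/-- The homogenized value as an element of the annulus ring. -/
noncomputable def PhiB (N D : ℕ) (g : MvPolynomial (Fin 2) (PowerSeries k)) : Bann k N :=
  ⟨Phi N D g, Phi_mem_Bann N D g⟩

/-- The homomorphism `K[x, y] → K[[z]]`. -/
noncomputable def psi (T : Bann k N →+* PowerSeries K) :
    MvPolynomial (Fin 2) K →+* PowerSeries K :=
  MvPolynomial.eval₂Hom PowerSeries.C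
    ![T (x3B k N 0) * (T (x3B k N 1))⁻¹, T (x3B k N 2) * (T (x3B k N 1))⁻¹]

theorem psi_C (T : Bann k N →+* PowerSeries K) (c : K) :
    psi T (MvPolynomial.C c) = PowerSeries.C c := by simp [psi]

private theorem Psi_mul_inv (T : Bann k N →+* PowerSeries K)
    (h1 : PowerSeries.constantCoeff (T (x3B k N 1)) ≠ 0) :
    T (x3B k N 1) * (T (x3B k N 1))⁻¹ = 1 := PowerSeries.mul_inv_cancel _ h1

theorem psi_Phi (T : Bann k N →+* PowerSeries K)
    (hT : ∀ b, T (iotaB N b) = PowerSeries.C (algebraMap (PowerSeries k) K b))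
    (h1 : PowerSeries.constantCoeff (T (x3B k N 1)) ≠ 0) {D : ℕ}
    {g : MvPolynomial (Fin 2) (PowerSeries k)} (hg : g.totalDegree ≤ D) :
    T (PhiB N D g) = T (x3B k N 1) ^ D *
      psi T (MvPolynomial.map (algebraMap (PowerSeries k) K) g) := by
  have hB : PhiB N D g = ∑ s ∈ g.support, iotaB N (g.coeff s) * x3B k N 0 ^ (s 0) *
      x3B k N 2 ^ (s 1) * x3B k N 1 ^ (D - s 0 - s 1) := by
    apply Subtype.ext
    rw [AddSubmonoidClass.coe_finsetSum]
    rfl
  have hu := Psi_mul_inv T h1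
  rw [hB, map_sum]
  have hpsi : psi T (MvPolynomial.map (algebraMap (PowerSeries k) K) g) =
      ∑ s ∈ g.support, PowerSeries.C (algebraMap (PowerSeries k) K (g.coeff s)) *
        ((T (x3B k N 0) * (T (x3B k N 1))⁻¹) ^ (s 0) *
        (T (x3B k N 2) * (T (x3B k N 1))⁻¹) ^ (s 1)) := by
    rw [psi, MvPolynomial.coe_eval₂Hom, MvPolynomial.eval₂_map, MvPolynomial.eval₂_eq']
    apply Finset.sum_congr rfl
    intro s _
    rw [Fin.prod_univ_two]
    rfl
  rw [hpsi, Finset.mul_sum]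
  apply Finset.sum_congr rfl
  intro s hs
  have hle : s 0 + s 1 ≤ D := by
    refine le_trans ?_ hg
    have := MvPolynomial.le_totalDegree hs
    rw [Finsupp.sum_fintype _ _ (fun _ => rfl), Fin.sum_univ_two] at this
    exact this
  rw [map_mul, map_mul, map_mul, map_pow, map_pow, map_pow, hT]
  generalize T (x3B k N 1) = U at *
  have hD : D = (D - s 0 - s 1) + s 0 + s 1 := by omega
  have hpow : U ^ D = U ^ (D - s 0 - s 1) * U ^ (s 0) * U ^ (s 1) := by
    rw [← pow_add, ← pow_add, ← hD]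
  rw [hpow, mul_pow, mul_pow]
  have e0 : U ^ (s 0) * U⁻¹ ^ (s 0) = 1 := by rw [← mul_pow, hu, one_pow]
  have e1 : U ^ (s 1) * U⁻¹ ^ (s 1) = 1 := by rw [← mul_pow, hu, one_pow]
  calc _ = PowerSeries.C (algebraMap (PowerSeries k) K (g.coeff s)) *
        T (x3B k N 0) ^ (s 0) * T (x3B k N 2) ^ (s 1) * U ^ (D - s 0 - s 1) *
        1 * 1 := by ring
    _ = PowerSeries.C (algebraMap (PowerSeries k) K (g.coeff s)) *
        T (x3B k N 0) ^ (s 0) * T (x3B k N 2) ^ (s 1) * U ^ (D - s 0 - s 1) *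
        (U ^ (s 0) * U⁻¹ ^ (s 0)) * (U ^ (s 1) * U⁻¹ ^ (s 1)) := by rw [e0, e1]
    _ = _ := by ring

theorem psi_Gp (T : Bann k N →+* PowerSeries K)
    (hT : ∀ b, T (iotaB N b) = PowerSeries.C (algebraMap (PowerSeries k) K b))
    (h1 : PowerSeries.constantCoeff (T (x3B k N 1)) ≠ 0) {α β δ : PowerSeries k}
    (hrel : iota α * x3 k N 0 ^ 3 + iota β * x3 k N 1 ^ 3 + iota δ * x3 k N 2 ^ 3 +
      x3 k N 0 * x3 k N 1 * x3 k N 2 = 0) :
    psi T (Gp (algebraMap (PowerSeries k) K α) (algebraMap (PowerSeries k) K β)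
      (algebraMap (PowerSeries k) K δ)) = 0 := by
  have hB : iotaB N α * x3B k N 0 ^ 3 + iotaB N β * x3B k N 1 ^ 3 + iotaB N δ * x3B k N 2 ^ 3 +
      x3B k N 0 * x3B k N 1 * x3B k N 2 = 0 := by
    apply Subtype.ext
    exact hrel
  have hu := Psi_mul_inv T h1
  have h2 := congrArg T hB
  rw [map_zero, map_add, map_add, map_add, map_mul, map_mul, map_mul, map_mul, map_mul,
    map_pow, map_pow, map_pow, hT, hT, hT] at h2
  have hX0 : psi T (MvPolynomial.X 0) = T (x3B k N 0) * (T (x3B k N 1))⁻¹ := by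
    simp [psi]
  have hX1 : psi T (MvPolynomial.X 1) = T (x3B k N 2) * (T (x3B k N 1))⁻¹ := by
    simp [psi]
  rw [Gp, map_add, map_add, map_add, map_mul, map_mul, map_mul, map_pow, map_pow, psi_C, psi_C,
    psi_C, hX0, hX1]
  generalize T (x3B k N 1) = U at *
  linear_combination U⁻¹ ^ 3 * h2 - T (x3B k N 0) * T (x3B k N 2) * U⁻¹ ^ 2 * hu -
    PowerSeries.C (algebraMap (PowerSeries k) K β) * (1 + U * U⁻¹ + U ^ 2 * U⁻¹ ^ 2) * hu

/-- The partial derivative of the cubic. -/
theorem psi_Gx (T : Bann k N →+* PowerSeries K)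
    (hT : ∀ b, T (iotaB N b) = PowerSeries.C (algebraMap (PowerSeries k) K b))
    (h1 : PowerSeries.constantCoeff (T (x3B k N 1)) ≠ 0) (α : PowerSeries k) :
    T (x3B k N 1) ^ 2 * psi T (MvPolynomial.C (3 * algebraMap (PowerSeries k) K α) *
      MvPolynomial.X 0 ^ 2 + MvPolynomial.X 1) =
    T (3 * iotaB N α * x3B k N 0 ^ 2 + x3B k N 1 * x3B k N 2) := by
  have hu := Psi_mul_inv T h1
  have hX0 : psi T (MvPolynomial.X 0) = T (x3B k N 0) * (T (x3B k N 1))⁻¹ := by
    simp [psi]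
  have hX1 : psi T (MvPolynomial.X 1) = T (x3B k N 2) * (T (x3B k N 1))⁻¹ := by
    simp [psi]
  rw [map_add, map_mul, map_pow, psi_C, hX0, hX1, map_add, map_mul, map_mul, map_mul, map_pow,
    hT, map_mul, map_ofNat, map_ofNat]
  generalize T (x3B k N 1) = U at *
  linear_combination (3 * PowerSeries.C (algebraMap (PowerSeries k) K α) * T (x3B k N 0) ^ 2 *
    (1 + U * U⁻¹) + U * T (x3B k N 2)) * hu

/-- The multiplicity of a curve at a point gives the order of vanishing. -/
theorem psi_pt (T : Bann k N →+* PowerSeries K) {m : ℕ} {g : MvPolynomial (Fin 2) K}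
    (hg : g ∈ pt (PowerSeries.constantCoeff (psi T (MvPolynomial.X 0)))
      (PowerSeries.constantCoeff (psi T (MvPolynomial.X 1))) ^ m) :
    (PowerSeries.X : PowerSeries K) ^ m ∣ psi T g := by
  have hX : ∀ f : PowerSeries K,
      f - PowerSeries.C (PowerSeries.constantCoeff f) ∈
        Ideal.span {(PowerSeries.X : PowerSeries K)} := by
    intro f
    rw [Ideal.mem_span_singleton, PowerSeries.X_dvd_iff]
    simp
  have hle : Ideal.map (psi T) (pt (PowerSeries.constantCoeff (psi T (MvPolynomial.X 0)))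
      (PowerSeries.constantCoeff (psi T (MvPolynomial.X 1)))) ≤
      Ideal.span {(PowerSeries.X : PowerSeries K)} := by
    rw [pt, Ideal.map_span, Ideal.span_le]
    rintro x ⟨y, hy, rfl⟩
    rcases hy with rfl | hy
    · rw [map_sub, psi_C]
      exact hX _
    · rw [Set.mem_singleton_iff.mp hy, map_sub, psi_C]
      exact hX _
  have h2 : psi T g ∈ Ideal.map (psi T) (pt (PowerSeries.constantCoeff
      (psi T (MvPolynomial.X 0))) (PowerSeries.constantCoeff (psi T (MvPolynomial.X 1))) ^ m) :=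
    Ideal.mem_map_of_mem _ hg
  rw [Ideal.map_pow] at h2
  have h3 := Ideal.pow_right_mono hle m h2
  rw [Ideal.span_singleton_pow, Ideal.mem_span_singleton] at h3
  exact h3

end ShghT
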