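import Pool.Agent.ShghT.Cf

/-!
# The annulus ring and the restriction to the circle `|u| = |π| ^ c`

`Bann k N` consists of the series converging for `|q| ≤ |u| ≤ 1`, `q = π ^ N`: the coefficient of
`π ^ n u ^ j` vanishes for `n + N j < 0`. Substituting `u = π ^ c u'` gives `shear`.
-/

namespace ShghT

variable {k : Type*} [Field k]

/-- The annulus ring. -/
def Bann (k : Type*) [Field k] (N : ℕ) : Subring (Lam k) where
  carrier := {f | ∀ n j : ℤ, cf f n j ≠ 0 → 0 ≤ n + N * j}
  mul_mem' := by
    intro f g hf hg n j h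
    by_contra hlt
    apply h
    rw [cf_mul]
    apply finsum_eq_zero_of_forall_eq_zero
    intro p
    by_contra hp
    have h1 := hf p.1 p.2 (left_ne_zero_of_mul hp)
    have h2 := hg (n - p.1) (j - p.2) (right_ne_zero_of_mul hp)
    apply hlt
    have : n + N * j = (p.1 + N * p.2) + ((n - p.1) + N * (j - p.2)) := by ring
    rw [this]
    exact add_nonneg h1 h2
  one_mem' := by
    intro n j h
    rw [cf_one] at h
    by_cases hc : n = 0 ∧ j = 0
    · rw [hc.1, hc.2]; simp
    · rw [if_neg hc] at h; exact absurd rfl h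
  add_mem' := by
    intro f g hf hg n j h
    rw [cf_add] at h
    by_cases h1 : cf f n j = 0
    · rw [h1, zero_add] at h
      exact hg n j h
    · exact hf n j h1
  zero_mem' := by
    intro n j h
    rw [cf_zero] at h
    exact absurd rfl h
  neg_mem' := by
    intro f hf n j h
    rw [cf_neg'] at h
    exact hf n j (neg_ne_zero.mp h)

theorem mem_Bann {N : ℕ} {f : Lam k} :
    f ∈ Bann k N ↔ ∀ n j : ℤ, cf f n j ≠ 0 → 0 ≤ n + N * j := Iff.rfl

theorem iota_mem_Bann (N : ℕ) (b : PowerSeries k) : iota b ∈ Bann k N := by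
  rw [mem_Bann]
  intro n j h
  rw [cf_iota] at h
  by_cases hj : j = 0
  · rw [if_pos hj] at h
    by_cases hn : n < 0
    · exact absurd (by simp [cR, hn]) h
    · rw [hj]; simp; exact not_lt.mp hn
  · rw [if_neg hj] at h
    exact absurd rfl h

theorem IsTh.mem_Bann {N d : ℕ} {γ : k} {f : Lam k} (hγ : γ ≠ 0) (h : IsTh N d γ f) :
    f ∈ Bann k N := by
  rw [ShghT.mem_Bann]
  intro n j hn
  by_contra hlt
  have h1 := h n j
  rw [cf_neg f (not_le.mp hlt)] at h1
  rcases mul_eq_zero.mp h1.symm with h2 | h2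
  · exact hγ h2
  · exact hn h2

private theorem shear_zero {N : ℕ} {c : ℤ} (hc : 0 < c) (hcN : c < N) (f : Bann k N) (n : ℤ)
    (hn : n < 0) (j : ℤ) : cf (f : Lam k) (n - c * j) j = 0 := by
  by_contra h
  have h1 := mem_Bann.mp f.2 _ _ h
  by_cases h2 : n - c * j < 0
  · exact h (cf_neg _ h2 j)
  · have hj : j < 0 := by
      by_contra hj
      have : 0 ≤ c * j := mul_nonneg hc.le (not_lt.mp hj)
      omega
    have h3 : n - c * j + N * j = n + (N - c) * j := by ring
    rw [h3] at h1
    have h4 : ((N : ℤ) - c) * j < 0 := mul_neg_of_pos_of_neg (by omega) hj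
    omega

private theorem shear_finite {N : ℕ} {c : ℤ} (hc : 0 < c) (hcN : c < N) (f : Bann k N) (n : ℤ) :
    {j | cf (f : Lam k) (n - c * j) j ≠ 0}.Finite := by
  apply (Set.finite_Icc (-|n|) |n|).subset
  intro j hj
  have h1 := mem_Bann.mp f.2 _ _ hj
  have h2 : 0 ≤ n - c * j := by
    by_contra h2
    exact hj (cf_neg _ (not_le.mp h2) j)
  have h3 : n - c * j + N * j = n + (N - c) * j := by ring
  rw [h3] at h1
  have h5 := le_abs_self n
  have h6 := abs_nonneg n
  constructor
  · by_contra h4
    have h4 := not_le.mp h4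
    have hj0 : j < 0 := by omega
    have : ((N : ℤ) - c) * j ≤ 1 * j := mul_le_mul_of_nonpos_right (by omega) hj0.le
    omega
  · by_contra h4
    have h4 := not_le.mp h4
    have hj0 : 0 < j := by omega
    have : 1 * j ≤ c * j := mul_le_mul_of_nonneg_right (by omega) hj0.le
    omega

private noncomputable def shearFun (N : ℕ) (c : ℤ) (hc : 0 < c) (hcN : c < N) (f : Bann k N) :
    Lam k :=
  Classical.choose (exists_cf (fun n j => cf (f : Lam k) (n - c * j) j)
    (fun n hn j => shear_zero hc hcN f n hn j) (fun n => shear_finite hc hcN f n))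

private theorem cf_shearFun {N : ℕ} {c : ℤ} (hc : 0 < c) (hcN : c < N) (f : Bann k N) (n j : ℤ) :
    cf (shearFun N c hc hcN f) n j = cf (f : Lam k) (n - c * j) j :=
  Classical.choose_spec (exists_cf (fun n j => cf (f : Lam k) (n - c * j) j)
    (fun n hn j => shear_zero hc hcN f n hn j) (fun n => shear_finite hc hcN f n)) n j

private def shearEquiv (c : ℤ) : ℤ × ℤ ≃ ℤ × ℤ where
  toFun p := (p.1 - c * p.2, p.2)
  invFun p := (p.1 + c * p.2, p.2)
  left_inv p := by simp
  right_inv p := by simp

/-- The substitution `u = π ^ c u'`, `0 < c < N`. -/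
noncomputable def shear (N : ℕ) (c : ℤ) (hc : 0 < c) (hcN : c < N) : Bann k N →+* Lam k where
  toFun := shearFun N c hc hcN
  map_one' := by
    apply cf_ext
    intro n j
    rw [cf_shearFun, OneMemClass.coe_one, cf_one, cf_one]
    by_cases h : n = 0 ∧ j = 0
    · rw [if_pos h, if_pos]
      rw [h.1, h.2]; simp
    · rw [if_neg h, if_neg]
      rintro ⟨h1, h2⟩
      apply h
      rw [h2] at h1
      exact ⟨by simpa using h1, h2⟩
  map_mul' := by
    intro f g
    apply cf_ext
    intro n j
    rw [cf_shearFun, MulMemClass.coe_mul, cf_mul, cf_mul]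
    rw [← finsum_comp_equiv (shearEquiv c)]
    apply finsum_congr
    intro p
    simp only [shearEquiv, Equiv.coe_fn_mk]
    rw [cf_shearFun, cf_shearFun]
    have : n - c * j - (p.1 - c * p.2) = n - p.1 - c * (j - p.2) := by ring
    rw [this]
  map_zero' := by
    apply cf_ext
    intro n j
    rw [cf_shearFun, ZeroMemClass.coe_zero, cf_zero, cf_zero]
  map_add' := by
    intro f g
    apply cf_ext
    intro n j
    rw [cf_shearFun, AddMemClass.coe_add, cf_add, cf_add, cf_shearFun, cf_shearFun]

theorem cf_shear {N : ℕ} {c : ℤ} (hc : 0 < c) (hcN : c < N) (f : Bann k N) (n j : ℤ) :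
    cf (shear N c hc hcN f) n j = cf (f : Lam k) (n - c * j) j :=
  cf_shearFun hc hcN f n j

theorem shear_injective {N : ℕ} {c : ℤ} (hc : 0 < c) (hcN : c < N) :
    Function.Injective (shear (k := k) N c hc hcN) := by
  intro f g h
  apply Subtype.ext
  apply cf_ext
  intro n j
  have h1 := cf_shear hc hcN f (n + c * j) j
  have h2 := cf_shear hc hcN g (n + c * j) j
  rw [h] at h1
  rw [h1] at h2
  simpa using h2

theorem shear_iota {N : ℕ} {c : ℤ} (hc : 0 < c) (hcN : c < N) (b : PowerSeries k) :
    shear N c hc hcN ⟨iota b, iota_mem_Bann N b⟩ = iota b := by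
  apply cf_ext
  intro n j
  rw [cf_shear]
  show cf (iota b) (n - c * j) j = cf (iota b) n j
  rw [cf_iota, cf_iota]
  by_cases hj : j = 0
  · rw [if_pos hj, if_pos hj, hj]; simp
  · rw [if_neg hj, if_neg hj]

end ShghT
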