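import Pool.Agent.ShghT.Shear

/-!
# Taylor expansions

`Ta a f` is the expansion of `f` at `u = a (1 + z)`, an element of `k[[π]][[z]]` (outer variable `z`,
inner variable `π`). `Tc` is the expansion at `u = π ^ c a (1 + z)`.
-/

namespace ShghT

variable {k : Type*} [Field k]

/-- The powers of `a (1 + z)`. -/
private noncomputable def TayPow (a : kˣ) : Multiplicative ℤ →* PowerSeries k where
  toFun j := PowerSeries.C ((a ^ (Multiplicative.toAdd j) : kˣ) : k) *
    PowerSeries.binomialSeries k (Multiplicative.toAdd j)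
  map_one' := by simp
  map_mul' i j := by
    rw [toAdd_mul, PowerSeries.binomialSeries_add, zpow_add, Units.val_mul, map_mul]
    ring

/-- The expansion of a Laurent polynomial at `u = a (1 + z)`. -/
private noncomputable def TayE (a : kˣ) : LaurentPolynomial k →+* PowerSeries k :=
  (AddMonoidAlgebra.lift k (PowerSeries k) ℤ (TayPow a)).toRingHom

private theorem coeff_TayE (a : kˣ) (P : LaurentPolynomial k) (m : ℕ) :
    PowerSeries.coeff m (TayE a P) =
      ∑ᶠ j : ℤ, P.coeff j * ((a ^ j : kˣ) : k) * ((Ring.choose j m : ℤ) : k) := by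
  have h1 : TayE a P = P.coeff.sum fun j b => b • TayPow a (Multiplicative.ofAdd j) := by
    change AddMonoidAlgebra.lift k (PowerSeries k) ℤ (TayPow a) P = _
    rw [AddMonoidAlgebra.lift_apply]
  rw [h1, Finsupp.sum, map_sum]
  rw [finsum_eq_sum_of_support_subset (s := P.coeff.support)]
  · refine Finset.sum_congr rfl fun j _ => ?_
    have h2 : TayPow a (Multiplicative.ofAdd j) = PowerSeries.C ((a ^ j : kˣ) : k) *
      PowerSeries.binomialSeries k j := rfl
    rw [h2, PowerSeries.coeff_smul, PowerSeries.coeff_C_mul, PowerSeries.binomialSeries_coeff]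
    simp [mul_assoc]
  · intro j hj
    rw [Function.mem_support] at hj
    rw [Finset.mem_coe, Finsupp.mem_support_iff]
    intro h0
    apply hj
    rw [h0, zero_mul, zero_mul]

/-- Interchange of the two variables. -/
private noncomputable def TaySwap : PowerSeries (PowerSeries k) →+* PowerSeries (PowerSeries k) where
  toFun f := PowerSeries.mk fun m => PowerSeries.mk fun n =>
    PowerSeries.coeff m (PowerSeries.coeff n f)
  map_zero' := by
    ext m n
    simp
  map_one' := by
    ext m n
    simp only [PowerSeries.coeff_mk, PowerSeries.coeff_one]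
    split_ifs with h1 h2 h3 <;> simp_all
  map_add' f g := by
    ext m n
    simp
  map_mul' f g := by
    ext m n
    simp only [PowerSeries.coeff_mk, PowerSeries.coeff_mul, map_sum]
    rw [Finset.sum_comm]

private theorem coeff_TaySwap (f : PowerSeries (PowerSeries k)) (m n : ℕ) :
    PowerSeries.coeff n (PowerSeries.coeff m (TaySwap f)) =
      PowerSeries.coeff m (PowerSeries.coeff n f) := by
  change PowerSeries.coeff n (PowerSeries.coeff m (PowerSeries.mk fun m => PowerSeries.mk fun n =>
    PowerSeries.coeff m (PowerSeries.coeff n f))) = _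
  rw [PowerSeries.coeff_mk, PowerSeries.coeff_mk]

/-- The expansion at `u = a (1 + z)`. -/
noncomputable def Ta (a : kˣ) : Lam k →+* PowerSeries (PowerSeries k) :=
  TaySwap.comp (PowerSeries.map (TayE a))

private theorem coeff_Ta_TayE (a : kˣ) (f : Lam k) (m n : ℕ) :
    PowerSeries.coeff n (PowerSeries.coeff m (Ta a f)) =
      PowerSeries.coeff m (TayE a (PowerSeries.coeff n f)) := by
  rw [Ta, RingHom.comp_apply, coeff_TaySwap, PowerSeries.coeff_map]

theorem coeff_Ta (a : kˣ) (f : Lam k) (m n : ℕ) :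
    PowerSeries.coeff n (PowerSeries.coeff m (Ta a f)) =
      ∑ᶠ j : ℤ, cf f n j * ((a ^ j : kˣ) : k) * ((Ring.choose j m : ℤ) : k) := by
  rw [coeff_Ta_TayE, coeff_TayE]
  simp only [cf_nat]

private theorem TayE_C (a : kˣ) (c : k) : TayE a (LaurentPolynomial.C c) = PowerSeries.C c := by
  change AddMonoidAlgebra.lift k (PowerSeries k) ℤ (TayPow a) (AddMonoidAlgebra.single 0 c) = _
  rw [AddMonoidAlgebra.lift_apply, AddMonoidAlgebra.coeff_single, Finsupp.sum_single_index]
  · rw [ofAdd_zero, map_one]
    ext n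
    rw [PowerSeries.coeff_smul, PowerSeries.coeff_C, PowerSeries.coeff_one]
    split_ifs <;> simp
  · rw [zero_smul]

theorem Ta_iota (a : kˣ) (b : PowerSeries k) : Ta a (iota b) = PowerSeries.C b := by
  ext m n
  rw [coeff_Ta_TayE, iota, PowerSeries.coeff_map, TayE_C, PowerSeries.coeff_C, PowerSeries.coeff_C]
  split_ifs <;> simp

private theorem TayE_T (a : kˣ) (j : ℤ) : TayE a (LaurentPolynomial.T j) =
    PowerSeries.C ((a ^ j : kˣ) : k) * PowerSeries.binomialSeries k j := by
  change AddMonoidAlgebra.lift k (PowerSeries k) ℤ (TayPow a) (AddMonoidAlgebra.single j 1) = _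
  rw [AddMonoidAlgebra.lift_apply, AddMonoidAlgebra.coeff_single, Finsupp.sum_single_index]
  · rw [one_smul]
    rfl
  · rw [zero_smul]

/-- The value at `a`. -/
private theorem constantCoeff_TayE_toLaurent (a : kˣ) (p : Polynomial k) :
    PowerSeries.constantCoeff (TayE a (Polynomial.toLaurent p)) = p.eval (a : k) := by
  induction p using Polynomial.induction_on' with
  | add p q hp hq => rw [map_add, map_add, map_add, hp, hq, Polynomial.eval_add]
  | monomial n c =>
    rw [← Polynomial.C_mul_X_pow_eq_monomial, Polynomial.toLaurent_C_mul_X_pow, map_mul, map_mul,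
      TayE_C, TayE_T, map_mul, PowerSeries.constantCoeff_C, PowerSeries.constantCoeff_C,
      PowerSeries.binomialSeries_constantCoeff]
    simp

private theorem constantCoeff_TayE_T_ne (a : kˣ) (j : ℤ) :
    PowerSeries.constantCoeff (TayE a (LaurentPolynomial.T j)) ≠ 0 := by
  rw [TayE_T, map_mul, PowerSeries.constantCoeff_C, PowerSeries.binomialSeries_constantCoeff,
    mul_one]
  exact Units.ne_zero _

private theorem constantCoeff_TayE_eq_zero {a : kˣ} {P : LaurentPolynomial k}
    (h : PowerSeries.constantCoeff (TayE a P) = 0) : P ∈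
      Ideal.span {(LaurentPolynomial.C 1 : LaurentPolynomial k) -
        LaurentPolynomial.C ((a⁻¹ : kˣ) : k) * LaurentPolynomial.T 1} := by
  obtain ⟨n, p, hp⟩ := LaurentPolynomial.exists_T_pow P
  have h1 : p.eval (a : k) = 0 := by
    rw [← constantCoeff_TayE_toLaurent, hp, map_mul, map_mul, h, zero_mul]
  obtain ⟨g, hg⟩ := Polynomial.dvd_iff_isRoot.mpr h1
  have h2 : P = Polynomial.toLaurent p * LaurentPolynomial.T (-n) := by
    rw [hp, LaurentPolynomial.mul_T_assoc]
    simp
  have h3 : Polynomial.toLaurent p = ((LaurentPolynomial.C 1 : LaurentPolynomial k) -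
        LaurentPolynomial.C ((a⁻¹ : kˣ) : k) * LaurentPolynomial.T 1) *
        (-LaurentPolynomial.C (a : k) * Polynomial.toLaurent g) := by
    have h4 : (LaurentPolynomial.C (a : k) : LaurentPolynomial k) *
        LaurentPolynomial.C ((a⁻¹ : kˣ) : k) = 1 := by
      rw [← map_mul, ← Units.val_mul, mul_inv_cancel, Units.val_one, map_one]
    rw [hg, map_mul, map_sub, Polynomial.toLaurent_X, Polynomial.toLaurent_C, map_one]
    linear_combination (-(LaurentPolynomial.T 1) * Polynomial.toLaurent g) * h4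
  rw [h2, h3]
  exact Ideal.mul_mem_right _ _ (Ideal.mul_mem_right _ _ (Ideal.subset_span (Set.mem_singleton _)))

/-- Reduction modulo `π` of the value at `a`. -/
theorem constantCoeff_Ta_eq_zero {a : kˣ} {f : Lam k}
    (h : PowerSeries.constantCoeff (Ta a f) = 0) :
    ∀ n : ℕ, (PowerSeries.coeff n f) ∈
      Ideal.span {(LaurentPolynomial.C 1 : LaurentPolynomial k) -
        LaurentPolynomial.C ((a⁻¹ : kˣ) : k) * LaurentPolynomial.T 1} := by
  intro n
  apply constantCoeff_TayE_eq_zero
  rw [← PowerSeries.coeff_zero_eq_constantCoeff_apply, ← coeff_Ta_TayE,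
    PowerSeries.coeff_zero_eq_constantCoeff_apply, h, map_zero]

/-- The expansion at `u = π ^ c a (1 + z)`. -/
noncomputable def Tc (N : ℕ) (c : ℤ) (hc : 0 < c) (hcN : c < N) (a : kˣ) :
    Bann k N →+* PowerSeries (PowerSeries k) := (Ta a).comp (shear N c hc hcN)

theorem coeff_Tc {N : ℕ} {c : ℤ} (hc : 0 < c) (hcN : c < N) (a : kˣ) (f : Bann k N) (m n : ℕ) :
    PowerSeries.coeff n (PowerSeries.coeff m (Tc N c hc hcN a f)) =
      ∑ᶠ j : ℤ, cf (f : Lam k) (n - c * j) j * ((a ^ j : kˣ) : k) *
        ((Ring.choose j m : ℤ) : k) := by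
  rw [Tc, RingHom.comp_apply, coeff_Ta]
  simp only [cf_shear]

theorem Tc_iota {N : ℕ} {c : ℤ} (hc : 0 < c) (hcN : c < N) (a : kˣ) (b : PowerSeries k) :
    Tc N c hc hcN a ⟨iota b, iota_mem_Bann N b⟩ = PowerSeries.C b := by
  rw [Tc, RingHom.comp_apply, shear_iota, Ta_iota]

/-- A nonzero Laurent polynomial has a nonzero value. -/
private theorem exists_TayE_ne [Infinite k] {P : LaurentPolynomial k} (hP : P ≠ 0) :
    ∃ a : kˣ, PowerSeries.constantCoeff (TayE a P) ≠ 0 := by
  obtain ⟨n, p, hp⟩ := LaurentPolynomial.exists_T_pow P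
  have hp0 : p ≠ 0 := by
    intro h0
    apply hP
    have h1 : P = Polynomial.toLaurent p * LaurentPolynomial.T (-n) := by
      rw [hp, LaurentPolynomial.mul_T_assoc]
      simp
    rw [h1, h0, map_zero, zero_mul]
  have hq : p * Polynomial.X ≠ 0 := mul_ne_zero hp0 Polynomial.X_ne_zero
  obtain ⟨b, hb⟩ : ∃ b : k, (p * Polynomial.X).eval b ≠ 0 := by
    by_contra hcon
    push Not at hcon
    exact hq (Polynomial.zero_of_eval_zero _ hcon)
  rw [Polynomial.eval_mul, Polynomial.eval_X] at hb
  have hb0 : b ≠ 0 := right_ne_zero_of_mul hb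
  refine ⟨Units.mk0 b hb0, fun h0 => ?_⟩
  apply left_ne_zero_of_mul hb
  have h1 := constantCoeff_TayE_toLaurent (Units.mk0 b hb0) p
  rw [hp, map_mul, map_mul, h0, zero_mul, Units.val_mk0] at h1
  exact h1.symm

/-- A nonzero element of the annulus ring has a nonzero value somewhere on the circle. -/
theorem exists_alpha [Infinite k] {N : ℕ} {c : ℤ} (hc : 0 < c) (hcN : c < N) (H : Bann k N)
    (hH : H ≠ 0) : ∃ a : kˣ, PowerSeries.constantCoeff (Tc N c hc hcN a H) ≠ 0 := by
  have h1 : shear N c hc hcN H ≠ 0 := by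
    intro h0
    apply hH
    apply shear_injective hc hcN
    rw [h0, map_zero]
  obtain ⟨n, hn⟩ : ∃ n : ℕ, PowerSeries.coeff n (shear N c hc hcN H) ≠ 0 := by
    by_contra hcon
    push Not at hcon
    exact h1 (PowerSeries.ext fun n => by rw [hcon n, map_zero])
  obtain ⟨a, ha⟩ := exists_TayE_ne hn
  refine ⟨a, fun h0 => ha ?_⟩
  rw [← PowerSeries.coeff_zero_eq_constantCoeff_apply, ← coeff_Ta_TayE,
    PowerSeries.coeff_zero_eq_constantCoeff_apply]
  rw [Tc, RingHom.comp_apply] at h0
  rw [h0, map_zero]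

end ShghT
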