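import Pool.Agent.ShghT.Tay

/-!
# Theta functions
-/

namespace ShghT

variable {k : Type*} [Field k] {N d : ℕ} {γ : k} {f : Lam k}

theorem IsTh.zero (N d : ℕ) (γ : k) : IsTh N d γ (0 : Lam k) := by
  intro n j
  rw [cf_zero, cf_zero, mul_zero]

theorem IsTh.add {g : Lam k} (hf : IsTh N d γ f) (hg : IsTh N d γ g) : IsTh N d γ (f + g) := by
  intro n j
  rw [cf_add, cf_add, hf n j, hg n j, mul_add]

theorem IsTh.sub {g : Lam k} (hf : IsTh N d γ f) (hg : IsTh N d γ g) : IsTh N d γ (f - g) := by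
  intro n j
  rw [cf_sub, cf_sub, hf n j, hg n j, mul_sub]

theorem IsTh.sum {ι : Type*} (s : Finset ι) (F : ι → Lam k) (h : ∀ i ∈ s, IsTh N d γ (F i)) :
    IsTh N d γ (∑ i ∈ s, F i) := by
  classical
  induction s using Finset.induction_on with
  | empty => rw [Finset.sum_empty]; exact IsTh.zero N d γ
  | insert i s hi ih =>
    rw [Finset.sum_insert hi]
    exact (h i (Finset.mem_insert_self i s)).add
      (ih fun j hj => h j (Finset.mem_insert_of_mem hj))

theorem IsTh.iota (N : ℕ) (b : PowerSeries k) : IsTh N 0 1 (iota b) := by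
  intro n j
  rw [cf_iota, cf_iota, Nat.cast_zero, add_zero, one_mul]
  by_cases hj : j = 0
  · rw [if_pos hj, if_pos hj, hj, mul_zero, add_zero]
  · rw [if_neg hj, if_neg hj]

theorem IsTh.one (N : ℕ) : IsTh N 0 1 (1 : Lam k) := by
  have h := IsTh.iota (k := k) N 1
  rwa [map_one] at h

/-- The shift of `ℤ × ℤ` used in the product formula. -/
private def thShift (N d : ℕ) : ℤ × ℤ ≃ ℤ × ℤ where
  toFun p := (p.1 + N * p.2, p.2 + d)
  invFun p := (p.1 - N * (p.2 - d), p.2 - d)
  left_inv p := by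
    ext
    · show p.1 + N * p.2 - N * (p.2 + d - d) = p.1
      ring
    · show p.2 + d - d = p.2
      ring
  right_inv p := by
    ext
    · show p.1 - N * (p.2 - d) + N * (p.2 - d) = p.1
      ring
    · show p.2 - d + d = p.2
      ring

theorem IsTh.mul {e : ℕ} {δ : k} {g : Lam k} (hf : IsTh N d γ f) (hg : IsTh N e δ g) :
    IsTh N (d + e) (γ * δ) (f * g) := by
  intro n j
  rw [cf_mul, cf_mul, mul_finsum, ← finsum_comp_equiv (thShift N d)]
  refine finsum_congr fun p => ?_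
  have h1 : cf f (p.1 + N * p.2) (p.2 + d) = γ * cf f p.1 p.2 := hf p.1 p.2
  have h2 : cf g (n + N * j - (p.1 + N * p.2)) (j + ((d + e : ℕ) : ℤ) - (p.2 + d)) =
      δ * cf g (n - p.1) (j - p.2) := by
    rw [← hg (n - p.1) (j - p.2)]
    congr 1
    · ring
    · push_cast; ring
  show cf f (p.1 + N * p.2) (p.2 + d) *
    cf g (n + N * j - (p.1 + N * p.2)) (j + ((d + e : ℕ) : ℤ) - (p.2 + d)) = _
  rw [h1, h2]
  ring

theorem IsTh.iota_mul (b : PowerSeries k) (hf : IsTh N d γ f) :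
    IsTh N d γ (ShghT.iota b * f) := by
  have h := (IsTh.iota N b).mul hf
  rwa [zero_add, one_mul] at h

theorem IsTh.pow (hf : IsTh N d γ f) (n : ℕ) : IsTh N (n * d) (γ ^ n) (f ^ n) := by
  induction n with
  | zero =>
    rw [zero_mul, pow_zero, pow_zero]
    exact IsTh.one N
  | succ n ih =>
    rw [pow_succ, pow_succ, Nat.succ_mul]
    exact ih.mul hf

theorem IsTh.prod {ι : Type*} (s : Finset ι) (F : ι → Lam k) (D : ι → ℕ) (G : ι → k)
    (h : ∀ i ∈ s, IsTh N (D i) (G i) (F i)) :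
    IsTh N (∑ i ∈ s, D i) (∏ i ∈ s, G i) (∏ i ∈ s, F i) := by
  classical
  induction s using Finset.induction_on with
  | empty =>
    rw [Finset.sum_empty, Finset.prod_empty, Finset.prod_empty]
    exact IsTh.one N
  | insert i s hi ih =>
    rw [Finset.sum_insert hi, Finset.prod_insert hi, Finset.prod_insert hi]
    exact (h i (Finset.mem_insert_self i s)).mul
      (ih fun j hj => h j (Finset.mem_insert_of_mem hj))

private theorem Qf_add (hd : 0 < d) (j : ℤ) : Qf d (j + d) = Qf d j + j := by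
  have hd' : (d : ℤ) ≠ 0 := by exact_mod_cast hd.ne'
  have h1 : (j + d) / (d : ℤ) = j / d + 1 := by
    rw [Int.add_ediv_of_dvd_right (dvd_refl _), Int.ediv_self hd']
  have h2 : (j + d) % (d : ℤ) = j % d := Int.add_emod_right j d
  have h3 : (j / (d : ℤ) + 1) * (j / d + 1 - 1) / 2 = j / d * (j / d - 1) / 2 + j / d := by
    rw [← Int.add_mul_ediv_right _ _ (two_ne_zero)]
    congr 1
    ring
  have h4 : (d : ℤ) * (j / d) + j % d = j := Int.mul_ediv_add_emod j d
  rw [Qf, Qf, h1, h2, h3]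
  linear_combination h4

private theorem Qf_lt (j : ℤ) (h0 : 0 ≤ j) (hj : j < d) : Qf d j = 0 := by
  rw [Qf, Int.ediv_eq_zero_of_lt h0 hj]
  norm_num

private theorem Qf_ge (hd : 0 < d) (j : ℤ) : |j / (d : ℤ)| - 1 ≤ Qf d j ∧ 0 ≤ Qf d j ∧
    (Qf d j = 0 → 0 ≤ j ∧ j ≤ d) := by
  have hd' : (0 : ℤ) < d := by exact_mod_cast hd
  set s := j / (d : ℤ) with hs
  set r := j % (d : ℤ) with hr
  have hr0 : 0 ≤ r := Int.emod_nonneg j hd'.ne'
  have hr1 : r < d := Int.emod_lt_of_pos j hd'
  have hj : (d : ℤ) * s + r = j := Int.mul_ediv_add_emod j d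
  have h2 : s * (s - 1) = 2 * (s * (s - 1) / 2) := by
    have : (2 : ℤ) ∣ s * (s - 1) := (Int.even_mul_pred_self s).two_dvd
    omega
  set w := s * (s - 1) / 2 with hw
  have hQ : Qf d j = r * s + d * w := rfl
  rcases lt_trichotomy s 0 with h | h | h
  · have hw1 : -s ≤ w := by nlinarith
    have h5 : (d : ℤ) * (-s) ≤ d * w := mul_le_mul_of_nonneg_left hw1 hd'.le
    have h6 : -s ≤ Qf d j := by
      rw [hQ]
      nlinarith
    refine ⟨?_, by omega, fun h0 => by omega⟩
    rw [abs_of_neg h]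
    omega
  · have hw1 : w = 0 := by rw [h] at h2; omega
    have hq : Qf d j = 0 := by rw [hQ, h, hw1]; ring
    rw [h] at hj
    refine ⟨?_, hq.ge, fun _ => by constructor <;> omega⟩
    rw [hq, h]; norm_num
  · have hw1 : s - 1 ≤ w := by
      have h7 : 0 ≤ (s - 1) * (s - 2) := by
        rcases (show s = 1 ∨ 2 ≤ s by omega) with h8 | h8
        · rw [h8]; norm_num
        · exact mul_nonneg (by omega) (by omega)
      nlinarith
    have hw0 : 0 ≤ w := by omega
    have h5 : w ≤ d * w := by nlinarith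
    have h6 : 0 ≤ r * s := by positivity
    refine ⟨?_, ?_, fun h0 => ?_⟩
    · rw [abs_of_pos h, hQ]; omega
    · rw [hQ]; omega
    · rw [hQ] at h0
      have hw2 : w = 0 := by omega
      have hs1 : s = 1 := by
        rw [hw2] at h2
        rcases mul_eq_zero.mp (h2.trans (mul_zero _)) with h7 | h7 <;> omega
      rw [hs1] at hj h0
      constructor <;> omega

/-- The coefficients in terms of the first `d` ones. -/
theorem IsTh.formula (hd : 0 < d) (hγ : γ ≠ 0) (h : IsTh N d γ f) (n j : ℤ) :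
    cf f n j = γ ^ (j / d) * cf f (n - N * Qf d j) (j % d) := by
  have hd' : (0 : ℤ) < d := by exact_mod_cast hd
  have key : ∀ s r : ℤ, 0 ≤ r → r < d → ∀ n : ℤ,
      cf f n (r + d * s) = γ ^ s * cf f (n - N * Qf d (r + d * s)) r := by
    intro s r hr0 hr1
    induction s using Int.induction_on with
    | zero =>
      intro n
      rw [mul_zero, add_zero, Qf_lt r hr0 hr1, mul_zero, sub_zero, zpow_zero, one_mul]
    | succ s ih =>
      intro n
      have e1 : r + (d : ℤ) * (s + 1) = r + d * s + d := by ring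
      have e2 := h (n - N * (r + d * s)) (r + d * s)
      rw [sub_add_cancel] at e2
      rw [e1, e2, ih, Qf_add hd, zpow_add_one₀ hγ]
      have e3 : n - N * (r + d * s) - N * Qf d (r + d * s) =
          n - N * (Qf d (r + d * s) + (r + d * s)) := by ring
      rw [e3]
      ring
    | pred s ih =>
      intro n
      have e1 : r + (d : ℤ) * (-s - 1) + d = r + d * (-s) := by ring
      have e2 := h n (r + d * (-s - 1))
      rw [e1, ih] at e2
      have e4 := Qf_add hd (r + (d : ℤ) * (-s - 1))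
      rw [e1] at e4
      have e3 : n + N * (r + d * (-s - 1)) - N * Qf d (r + d * (-s)) =
          n - N * Qf d (r + d * (-s - 1)) := by
        rw [e4]; ring
      rw [e3] at e2
      have e5 : γ ^ (-(s : ℤ)) = γ * γ ^ (-(s : ℤ) - 1) := by
        rw [← zpow_one_add₀ hγ]
        congr 1
        ring
      rw [e5, mul_assoc] at e2
      exact (mul_left_cancel₀ hγ e2).symm
  have h4 : j % d + (d : ℤ) * (j / d) = j := Int.emod_add_mul_ediv j d
  have h5 := key (j / d) (j % d) (Int.emod_nonneg j hd'.ne') (Int.emod_lt_of_pos j hd') n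
  rwa [h4] at h5

theorem IsTh.eq_zero (hd : 0 < d) (hγ : γ ≠ 0) (h : IsTh N d γ f)
    (h0 : ∀ ρ : ℕ, ρ < d → ∀ n, cf f n ρ = 0) : f = 0 := by
  have hd' : (0 : ℤ) < d := by exact_mod_cast hd
  refine cf_ext fun n j => ?_
  have h1 : ((j % d).toNat : ℤ) = j % d := Int.toNat_of_nonneg (Int.emod_nonneg j hd'.ne')
  have h2 := Int.emod_lt_of_pos j hd'
  rw [h.formula hd hγ, ← h1, h0 _ (by omega), mul_zero, cf_zero]

private theorem deg_zero_aux (hN : 0 < N) (h : IsTh N 0 γ f) (n j : ℤ) (hj : j ≠ 0) :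
    cf f n j = 0 := by
  have hN' : (0 : ℤ) < N := by exact_mod_cast hN
  have h' : ∀ n : ℤ, cf f (n + N * j) j = γ * cf f n j := by
    intro n
    have := h n j
    rwa [Nat.cast_zero, add_zero] at this
  rcases lt_or_gt_of_ne hj with hj | hj
  · by_cases hγ : γ = 0
    · have := h' (n - N * j)
      rw [sub_add_cancel, hγ, zero_mul] at this
      exact this
    · have key : ∀ t : ℕ, cf f (n + t * (N * j)) j = γ ^ t * cf f n j := by
        intro t
        induction t with
        | zero => rw [Nat.cast_zero, zero_mul, add_zero, pow_zero, one_mul]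
        | succ t ih =>
          have e1 : n + ((t + 1 : ℕ) : ℤ) * (N * j) = n + t * (N * j) + N * j := by
            push_cast; ring
          rw [e1, h', ih, pow_succ]
          ring
      have h1 := key (n.toNat + 1)
      have h2 : n + ((n.toNat + 1 : ℕ) : ℤ) * (N * j) < 0 := by
        have h3 : (N : ℤ) * j ≤ -1 := by nlinarith
        have h4 : n ≤ n.toNat := Int.self_le_toNat n
        have h5 : ((n.toNat + 1 : ℕ) : ℤ) = (n.toNat : ℤ) + 1 := by push_cast; ring
        rw [h5]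
        nlinarith
      rw [cf_neg f h2] at h1
      rcases mul_eq_zero.mp h1.symm with h3 | h3
      · exact absurd (eq_zero_of_pow_eq_zero h3) hγ
      · exact h3
  · have key : ∀ t : ℕ, ∀ n : ℤ, n < t → cf f n j = 0 := by
      intro t
      induction t with
      | zero =>
        intro n hn
        exact cf_neg f (by simpa using hn) j
      | succ t ih =>
        intro n hn
        have h1 := h' (n - N * j)
        rw [sub_add_cancel] at h1
        rw [h1, ih _ (by push_cast at hn; nlinarith), mul_zero]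
    exact key (n.toNat + 1) n (by
      have := Int.self_le_toNat n
      push_cast
      omega)

theorem IsTh.deg_zero (hN : 0 < N) (h : IsTh N 0 γ f) : ∃ b, f = ShghT.iota b := by
  refine ⟨PowerSeries.mk fun n => cf f n 0, cf_ext fun n j => ?_⟩
  rw [cf_iota]
  by_cases hj : j = 0
  · rw [if_pos hj, hj, cR]
    by_cases hn : n < 0
    · rw [if_pos hn, cf_neg f hn]
    · rw [if_neg hn, PowerSeries.coeff_mk, Int.toNat_of_nonneg (not_lt.mp hn)]
  · rw [if_neg hj, deg_zero_aux hN h n j hj]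

theorem IsTh.deg_zero' (hN : 0 < N) (h : IsTh N 0 γ f) (hγ : γ ≠ 1) : f = 0 := by
  refine cf_ext fun n j => ?_
  rw [cf_zero]
  by_cases hj : j = 0
  · have h1 := h n 0
    rw [mul_zero, add_zero, Nat.cast_zero, add_zero] at h1
    rw [hj]
    have h2 : (γ - 1) * cf f n 0 = 0 := by
      rw [sub_mul, one_mul, ← h1, sub_self]
    exact (mul_eq_zero.mp h2).resolve_left (sub_ne_zero.mpr hγ)
  · exact deg_zero_aux hN h n j hj

/-- Theta functions with given first coefficients. -/
theorem exists_th (hN : 0 < N) (hd : 0 < d) (hγ : γ ≠ 0) (b : ℕ → PowerSeries k) :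
    ∃ f : Lam k, IsTh N d γ f ∧ ∀ ρ : ℕ, ρ < d → ∀ n, cf f n ρ = cR (b ρ) n := by
  have hd' : (0 : ℤ) < d := by exact_mod_cast hd
  have hN' : (0 : ℤ) < N := by exact_mod_cast hN
  obtain ⟨f, hf⟩ := exists_cf (k := k)
    (fun n j => γ ^ (j / (d : ℤ)) * cR (b (j % d).toNat) (n - N * Qf d j))
    (by
      intro n hn j
      have h1 := (Qf_ge hd j).2.1
      have h2 : n - N * Qf d j < 0 := by nlinarith
      show γ ^ (j / (d : ℤ)) * cR (b (j % d).toNat) (n - N * Qf d j) = 0
      rw [cR, if_pos h2, mul_zero])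
    (by
      intro n
      refine (Set.finite_Icc (-(d * (n + 2)) : ℤ) (d * (n + 2))).subset fun j hj => ?_
      have h0 : 0 ≤ n - N * Qf d j := by
        by_contra hcon
        apply hj
        show γ ^ (j / (d : ℤ)) * cR (b (j % d).toNat) (n - N * Qf d j) = 0
        rw [cR, if_pos (not_le.mp hcon), mul_zero]
      obtain ⟨h1, h2, -⟩ := Qf_ge hd j
      have h3 : Qf d j ≤ n := by nlinarith
      have h4 : |j / (d : ℤ)| ≤ n + 1 := by omega
      have h5 := abs_le.mp h4
      have h6 : (d : ℤ) * (j / d) + j % d = j := Int.mul_ediv_add_emod j d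
      have h7 := Int.emod_nonneg j hd'.ne'
      have h8 := Int.emod_lt_of_pos j hd'
      constructor <;> nlinarith)
  refine ⟨f, fun n j => ?_, fun ρ hρ n => ?_⟩
  · rw [hf, hf, Qf_add hd, Int.add_emod_right]
    have h1 : (j + d) / (d : ℤ) = j / d + 1 := by
      rw [Int.add_ediv_of_dvd_right (dvd_refl _), Int.ediv_self hd'.ne']
    have h2 : n + N * j - N * (Qf d j + j) = n - N * Qf d j := by ring
    rw [h1, h2, zpow_add_one₀ hγ]
    ring
  · have h1 : (ρ : ℤ) < d := by exact_mod_cast hρ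
    have h0 : (0 : ℤ) ≤ ρ := Int.natCast_nonneg ρ
    rw [hf, Qf_lt ρ h0 h1, Int.ediv_eq_zero_of_lt h0 h1, Int.emod_eq_of_lt h0 h1, mul_zero,
      sub_zero, zpow_zero, one_mul, Int.toNat_natCast]

open Classical in
/-- The theta function of degree one vanishing at `a`. -/
noncomputable def th (N : ℕ) (a : kˣ) : Lam k :=
  if hN : 0 < N then (exists_th (γ := -((a⁻¹ : kˣ) : k)) hN one_pos
    (neg_ne_zero.mpr (Units.ne_zero _)) (fun _ => 1)).choose else 0

open Classical in
/-- The `i`-th theta function of degree three. -/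
noncomputable def x3 (k : Type*) [Field k] (N i : ℕ) : Lam k :=
  if hN : 0 < N then (exists_th (k := k) (γ := 1) (d := 3) hN (by norm_num) one_ne_zero
    (fun ρ => if ρ = i then 1 else 0)).choose else 0

theorem th_isTh (hN : 0 < N) (a : kˣ) : IsTh N 1 (-((a⁻¹ : kˣ) : k)) (th N a) := by
  rw [th, dif_pos hN]
  exact (exists_th (γ := -((a⁻¹ : kˣ) : k)) hN one_pos
    (neg_ne_zero.mpr (Units.ne_zero _)) (fun _ => 1)).choose_spec.1

private theorem cR_one (n : ℤ) : cR (1 : PowerSeries k) n = if n = 0 then 1 else 0 := by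
  rw [cR]
  by_cases hn : n < 0
  · rw [if_pos hn, if_neg (by omega)]
  · rw [if_neg hn, PowerSeries.coeff_one]
    by_cases h0 : n = 0
    · rw [if_pos h0, if_pos (by omega)]
    · rw [if_neg h0, if_neg (by omega)]

private theorem cR_zero (n : ℤ) : cR (0 : PowerSeries k) n = 0 := by
  rw [cR]
  split_ifs
  · rfl
  · exact map_zero _

theorem th_cf (hN : 0 < N) (a : kˣ) (n : ℤ) : cf (th N a) n 0 = if n = 0 then 1 else 0 := by
  rw [th, dif_pos hN]
  have h := (exists_th (γ := -((a⁻¹ : kˣ) : k)) hN one_pos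
    (neg_ne_zero.mpr (Units.ne_zero _)) (fun _ => 1)).choose_spec.2 0 one_pos n
  rw [cR_one] at h
  exact h

theorem x3_isTh (hN : 0 < N) (i : ℕ) : IsTh N 3 1 (x3 k N i) := by
  rw [x3, dif_pos hN]
  exact (exists_th (k := k) (γ := 1) (d := 3) hN (by norm_num) one_ne_zero
    (fun ρ => if ρ = i then 1 else 0)).choose_spec.1

theorem x3_cf (hN : 0 < N) (i ρ : ℕ) (hρ : ρ < 3) (n : ℤ) :
    cf (x3 k N i) n ρ = if ρ = i ∧ n = 0 then 1 else 0 := by
  rw [x3, dif_pos hN]
  have h := (exists_th (k := k) (γ := 1) (d := 3) hN (by norm_num) one_ne_zero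
    (fun ρ => if ρ = i then 1 else 0)).choose_spec.2 ρ hρ n
  rw [h]
  by_cases h1 : ρ = i
  · rw [if_pos h1, cR_one]
    by_cases h2 : n = 0
    · rw [if_pos h2, if_pos ⟨h1, h2⟩]
    · rw [if_neg h2, if_neg fun h3 => h2 h3.2]
  · rw [if_neg h1, cR_zero, if_neg fun h3 => h1 h3.1]

theorem th_ne_zero (hN : 0 < N) (a : kˣ) : th N a ≠ 0 := by
  intro h
  have h1 := th_cf hN a 0
  rw [h, cf_zero, if_pos rfl] at h1
  exact zero_ne_one h1

theorem x3_ne_zero (hN : 0 < N) (i : ℕ) (hi : i < 3) : x3 k N i ≠ 0 := by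
  intro h
  have h1 := x3_cf (k := k) hN i i hi 0
  rw [h, cf_zero, if_pos ⟨rfl, rfl⟩] at h1
  exact zero_ne_one h1

private theorem th_formula (hN : 0 < N) (a : kˣ) (n j : ℤ) :
    cf (th N a) n j = (-((a⁻¹ : kˣ) : k)) ^ j * (if n = N * (j * (j - 1) / 2) then 1 else 0) := by
  rw [(th_isTh hN a).formula one_pos (neg_ne_zero.mpr (Units.ne_zero _)) n j]
  have h1 : Qf 1 j = j * (j - 1) / 2 := by
    rw [Qf, Nat.cast_one, Int.ediv_one, Int.emod_one]
    ring
  have h2 : j % ((1 : ℕ) : ℤ) = 0 := by rw [Nat.cast_one, Int.emod_one]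
  have h3 : j / ((1 : ℕ) : ℤ) = j := by rw [Nat.cast_one, Int.ediv_one]
  rw [h1, h2, h3, th_cf hN]
  congr 1
  by_cases h4 : n = N * (j * (j - 1) / 2)
  · rw [if_pos h4, if_pos (by omega)]
  · rw [if_neg h4, if_neg (by omega)]

private theorem tri_zero {j : ℤ} (h : j * (j - 1) / 2 = 0) : j = 0 ∨ j = 1 := by
  have h2 : (2 : ℤ) ∣ j * (j - 1) := (Int.even_mul_pred_self j).two_dvd
  have h3 : j * (j - 1) = 0 := by omega
  rcases mul_eq_zero.mp h3 with h4 | h4
  · exact Or.inl h4
  · exact Or.inr (by omega)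

private theorem th_level (hN : 0 < N) (a : kˣ) (j : ℤ) :
    cf (th N a) 0 j = if j = 0 then 1 else if j = 1 then -((a⁻¹ : kˣ) : k) else 0 := by
  have hN' : (N : ℤ) ≠ 0 := by exact_mod_cast hN.ne'
  rw [th_formula hN]
  by_cases h0 : j = 0
  · rw [if_pos h0, h0]
    norm_num
  · by_cases h1 : j = 1
    · rw [if_neg h0, if_pos h1, h1]
      norm_num
    · rw [if_neg h0, if_neg h1, if_neg, mul_zero]
      intro h2
      rcases mul_eq_zero.mp h2.symm with h3 | h3
      · exact hN' h3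
      · rcases tri_zero h3 with h4 | h4
        · exact h0 h4
        · exact h1 h4

private theorem T_coeff (i j : ℤ) :
    (LaurentPolynomial.T i : LaurentPolynomial k).coeff j = if j = i then 1 else 0 := by
  rw [LaurentPolynomial.T_apply]
  by_cases h : j = i
  · rw [if_pos h, if_pos h.symm]
  · rw [if_neg h, if_neg (Ne.symm h)]

/-- Reduction modulo `π`. -/
theorem th_const (hN : 0 < N) (a : kˣ) : PowerSeries.constantCoeff (th N a) =
    1 - LaurentPolynomial.C ((a⁻¹ : kˣ) : k) * LaurentPolynomial.T 1 := by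
  ext j
  rw [constantCoeff_coeff, th_level hN, ← LaurentPolynomial.T_zero,
    ← LaurentPolynomial.single_eq_C_mul_T, AddMonoidAlgebra.coeff_sub, Finsupp.sub_apply,
    AddMonoidAlgebra.coeff_single, Finsupp.single_apply, T_coeff]
  by_cases h0 : j = 0
  · rw [if_pos h0, if_pos h0, if_neg (by omega), sub_zero]
  · rw [if_neg h0, if_neg h0, zero_sub]
    by_cases h1 : j = 1
    · rw [if_pos h1, if_pos h1.symm]
    · rw [if_neg h1, if_neg (Ne.symm h1), neg_zero]

private theorem x3_level (hN : 0 < N) (i : ℕ) (j : ℤ) :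
    cf (x3 k N i) 0 j = if j % 3 = i ∧ Qf 3 j = 0 then 1 else 0 := by
  have hN' : (N : ℤ) ≠ 0 := by exact_mod_cast hN.ne'
  have h0 : 0 ≤ j % 3 := Int.emod_nonneg j (by norm_num)
  have h1 : j % 3 < 3 := Int.emod_lt_of_pos j (by norm_num)
  have h2 : (((j % 3).toNat : ℕ) : ℤ) = j % 3 := Int.toNat_of_nonneg h0
  have h3 := (x3_isTh (k := k) hN i).formula (by norm_num) one_ne_zero 0 j
  rw [Nat.cast_ofNat, one_zpow, one_mul, ← h2, x3_cf hN i _ (by omega)] at h3
  rw [h3]
  by_cases h4 : j % 3 = i ∧ Qf 3 j = 0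
  · rw [if_pos h4, if_pos ⟨by omega, by rw [h4.2]; ring⟩]
  · rw [if_neg h4, if_neg]
    rintro ⟨h5, h6⟩
    refine h4 ⟨by omega, ?_⟩
    have h7 : (N : ℤ) * Qf 3 j = 0 := by omega
    exact (mul_eq_zero.mp h7).resolve_left hN'

private theorem Qf3_zero {j : ℤ} (h : Qf 3 j = 0) : 0 ≤ j ∧ j ≤ 3 :=
  (Qf_ge (d := 3) (by norm_num) j).2.2 h

private theorem Qf3_vals : Qf 3 0 = 0 ∧ Qf 3 1 = 0 ∧ Qf 3 2 = 0 ∧ Qf 3 3 = 0 := by
  refine ⟨?_, ?_, ?_, ?_⟩ <;> (rw [Qf]; norm_num)

theorem x3_const_zero (hN : 0 < N) : PowerSeries.constantCoeff (x3 k N 0) =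
    1 + LaurentPolynomial.T 3 := by
  ext j
  rw [constantCoeff_coeff, x3_level hN 0, ← LaurentPolynomial.T_zero,
    AddMonoidAlgebra.coeff_add, Finsupp.add_apply, T_coeff, T_coeff]
  obtain ⟨q0, q1, q2, q3⟩ := Qf3_vals
  by_cases h0 : j = 0
  · rw [if_pos h0, if_neg (show ¬ j = 3 by omega),
      if_pos ⟨by rw [h0]; norm_num, by rw [h0, q0]⟩, add_zero]
  · rw [if_neg h0, zero_add]
    by_cases h1 : j = 3
    · rw [if_pos h1, if_pos ⟨by rw [h1]; norm_num, by rw [h1, q3]⟩]
    · rw [if_neg h1, if_neg]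
      rintro ⟨h2, h3⟩
      have h4 := Qf3_zero h3
      rw [Nat.cast_zero] at h2
      omega

theorem x3_const_one (hN : 0 < N) : PowerSeries.constantCoeff (x3 k N 1) =
    LaurentPolynomial.T 1 := by
  ext j
  rw [constantCoeff_coeff, x3_level hN 1, T_coeff]
  obtain ⟨q0, q1, q2, q3⟩ := Qf3_vals
  by_cases h1 : j = 1
  · rw [if_pos h1, if_pos ⟨by rw [h1]; norm_num, by rw [h1, q1]⟩]
  · rw [if_neg h1, if_neg]
    rintro ⟨h2, h3⟩
    have h4 := Qf3_zero h3
    rw [Nat.cast_one] at h2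
    omega

theorem x3_const_two (hN : 0 < N) : PowerSeries.constantCoeff (x3 k N 2) =
    LaurentPolynomial.T 2 := by
  ext j
  rw [constantCoeff_coeff, x3_level hN 2, T_coeff]
  obtain ⟨q0, q1, q2, q3⟩ := Qf3_vals
  by_cases h1 : j = 2
  · rw [if_pos h1, if_pos ⟨by rw [h1]; norm_num, by rw [h1, q2]⟩]
  · rw [if_neg h1, if_neg]
    rintro ⟨h2, h3⟩
    have h4 := Qf3_zero h3
    rw [Nat.cast_ofNat] at h2
    omega

/-- A finite sum over `ℤ` which is odd under `j ↦ 1 - j` vanishes. -/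
private theorem finsum_odd (F : ℤ → k) (hF : ∀ j, F (1 - j) = - F j) : ∑ᶠ j, F j = 0 := by
  by_cases hfin : (Function.support F).Finite
  · rw [finsum_eq_sum_of_support_subset F (s := hfin.toFinset) (by simp)]
    refine Finset.sum_involution (fun j _ => 1 - j) (fun j _ => ?_) (fun j _ _ => ?_)
      (fun j hj => ?_) (fun j _ => ?_)
    · rw [hF, add_neg_cancel]
    · omega
    · rw [Set.Finite.mem_toFinset, Function.mem_support] at hj ⊢
      rw [hF]
      exact neg_ne_zero.mpr hj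
    · ring
  · exact finsum_of_infinite_support hfin

private theorem Ta_th_level (hN : 0 < N) (a b : kˣ) (m : ℕ) :
    PowerSeries.coeff 0 (PowerSeries.coeff m (Ta b (th N a))) =
      ((Ring.choose (0 : ℤ) m : ℤ) : k) -
        ((a⁻¹ : kˣ) : k) * (b : k) * ((Ring.choose (1 : ℤ) m : ℤ) : k) := by
  rw [coeff_Ta]
  rw [finsum_eq_sum_of_support_subset _ (s := ({0, 1} : Finset ℤ))]
  · rw [Finset.sum_pair (by norm_num), Nat.cast_zero, th_level hN, th_level hN, if_pos rfl,
      if_neg (by norm_num), if_pos rfl, zpow_zero, zpow_one, Units.val_one]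
    ring
  · intro j hj
    rw [Function.mem_support, Nat.cast_zero, th_level hN] at hj
    by_contra h1
    rw [Finset.coe_insert, Finset.coe_singleton, Set.mem_insert_iff, Set.mem_singleton_iff,
      not_or] at h1
    apply hj
    rw [if_neg h1.1, if_neg h1.2, zero_mul, zero_mul]

/-- `th N a` vanishes to order exactly one at `a`. -/
theorem Ta_th_self (hN : 0 < N) (a : kˣ) :
    ∃ ε : PowerSeries (PowerSeries k), IsUnit ε ∧ Ta a (th N a) = PowerSeries.X * ε := by
  have h0 : PowerSeries.constantCoeff (Ta a (th N a)) = 0 := by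
    rw [← PowerSeries.coeff_zero_eq_constantCoeff_apply]
    ext n
    rw [coeff_Ta, map_zero]
    apply finsum_odd
    intro j
    have hQ : (1 - j) * (1 - j - 1) / 2 = j * (j - 1) / 2 := by
      congr 1
      ring
    rw [th_formula hN, th_formula hN, hQ, Ring.choose_zero_right, Ring.choose_zero_right]
    have e1 : ∀ i : ℤ, (-((a⁻¹ : kˣ) : k)) ^ i * ((a ^ i : kˣ) : k) = (-1) ^ i := by
      intro i
      rw [Units.val_zpow_eq_zpow_val, Units.val_inv_eq_inv_val, ← mul_zpow, neg_mul,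
        inv_mul_cancel₀ (Units.ne_zero a)]
    have e2 : (-1 : k) ^ (1 - j) = - (-1) ^ j := by
      rw [zpow_sub₀ (by norm_num), zpow_one, div_eq_mul_inv, ← zpow_neg, ← inv_zpow',
        inv_neg, inv_one, neg_one_mul]
    have e3 : ∀ i : ℤ, ∀ c : k, (-((a⁻¹ : kˣ) : k)) ^ i * c * ((a ^ i : kˣ) : k) *
        ((1 : ℤ) : k) = (-1) ^ i * c := by
      intro i c
      rw [← e1 i, Int.cast_one]
      ring
    rw [e3, e3, e2]
    ring
  obtain ⟨ε, hε⟩ := PowerSeries.X_dvd_iff.mpr h0
  refine ⟨ε, ?_, hε⟩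
  rw [PowerSeries.isUnit_iff_constantCoeff, PowerSeries.isUnit_iff_constantCoeff,
    isUnit_iff_ne_zero]
  have h1 := Ta_th_level hN a a 1
  rw [hε, show (1 : ℕ) = 0 + 1 from rfl, PowerSeries.coeff_succ_X_mul,
    PowerSeries.coeff_zero_eq_constantCoeff_apply,
    PowerSeries.coeff_zero_eq_constantCoeff_apply, zero_add, Ring.choose_one_right,
    Ring.choose_one_right, Int.cast_zero, Int.cast_one, mul_one, Units.val_inv_eq_inv_val,
    inv_mul_cancel₀ (Units.ne_zero a), zero_sub] at h1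
  rw [h1]
  exact neg_ne_zero.mpr one_ne_zero

theorem isUnit_Ta_th (hN : 0 < N) {a b : kˣ} (hab : a ≠ b) : IsUnit (Ta b (th N a)) := by
  rw [PowerSeries.isUnit_iff_constantCoeff, PowerSeries.isUnit_iff_constantCoeff,
    isUnit_iff_ne_zero]
  have h1 := Ta_th_level hN a b 0
  rw [PowerSeries.coeff_zero_eq_constantCoeff_apply,
    PowerSeries.coeff_zero_eq_constantCoeff_apply, Ring.choose_zero_right,
    Ring.choose_zero_right, Int.cast_one, mul_one, Units.val_inv_eq_inv_val] at h1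
  rw [h1]
  intro h2
  apply hab
  ext
  have h3 : ((a : k))⁻¹ * (b : k) = 1 := (sub_eq_zero.mp h2).symm
  exact (inv_mul_eq_one₀ (Units.ne_zero a)).mp h3

theorem th_mem_Bann (N : ℕ) (a : kˣ) : th N a ∈ Bann k N := by
  by_cases hN : 0 < N
  · exact (th_isTh hN a).mem_Bann (neg_ne_zero.mpr (Units.ne_zero _))
  · rw [th, dif_neg hN]
    exact (Bann k N).zero_mem

theorem x3_mem_Bann (N i : ℕ) : x3 k N i ∈ Bann k N := by
  by_cases hN : 0 < N
  · exact (x3_isTh hN i).mem_Bann one_ne_zero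
  · rw [x3, dif_neg hN]
    exact (Bann k N).zero_mem

end ShghT
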